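import Pool.Agent.Lib.c113aaP.Fam

/-!
# The second extremal family, continued
-/

set_option autoImplicit false

namespace Pool.MP_c113aa_an.B1

open Finset Pool.MP_c113aa_an.BV Polynomial

/-- All critical points of `(y - Z k₀) (y - c')^N` have distance at least `‖Z k₀ - c'‖/(N+1)` from
`Z k₀`. -/
theorem fam_crit_all {N : ℕ} (hN : 1 ≤ N) {Z : Fin (N + 1) → ℂ} {w : Fin N → ℂ} (h : CritOf Z w)
    (k₀ : Fin (N + 1)) (c' : ℂ) (hZ : ∀ k, k ≠ k₀ → Z k = c') (j : Fin N) :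
    ‖Z k₀ - c'‖ ≤ ((N : ℝ) + 1) * ‖Z k₀ - w j‖ := by
  have hn : ((N : ℂ) + 1) ≠ 0 := by
    have : ((N : ℂ) + 1) = ((N + 1 : ℕ) : ℂ) := by push_cast; rfl
    rw [this]
    exact_mod_cast Nat.succ_ne_zero N
  have hnorm : ‖(N : ℂ) + 1‖ = (N : ℝ) + 1 := by
    have h7 : (N : ℂ) + 1 = ((N + 1 : ℕ) : ℂ) := by push_cast; ring
    rw [h7, Complex.norm_natCast]
    push_cast
    ring
  have hprod : (fun x : ℂ => ∏ k, (x - Z k)) = fun x : ℂ => (x - Z k₀) * (x - c') ^ N := by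
    funext x
    rw [← Finset.mul_prod_erase _ _ (Finset.mem_univ k₀)]
    congr 1
    have h1 : ∀ k ∈ Finset.univ.erase k₀, (x - Z k) = (x - c') := by
      intro k hk
      rw [hZ k (Finset.ne_of_mem_erase hk)]
    rw [Finset.prod_congr rfl h1, Finset.prod_const, Finset.card_erase_of_mem (Finset.mem_univ _),
      Finset.card_univ, Fintype.card_fin, Nat.add_sub_cancel]
  obtain ⟨y, hy⟩ : ∃ y : ℂ, y = w j := ⟨_, rfl⟩
  have hd1 := h y
  rw [hprod] at hd1
  have hd2 : HasDerivAt (fun x : ℂ => (x - Z k₀) * (x - c') ^ N)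
      (1 * (y - c') ^ N + (y - Z k₀) * ((N : ℂ) * (y - c') ^ (N - 1) * 1)) y := by
    refine ((hasDerivAt_id y).sub_const (Z k₀)).mul ?_
    exact ((hasDerivAt_id y).sub_const c').pow N
  have h3 := hd1.unique hd2
  have h4 : ∏ i, (y - w i) = 0 := by
    refine Finset.prod_eq_zero (Finset.mem_univ j) ?_
    rw [hy, sub_self]
  rw [h4, mul_zero] at h3
  obtain ⟨M, rfl⟩ : ∃ M, N = M + 1 := ⟨N - 1, by omega⟩
  have h5 : (y - c') ^ M * ((y - c') + ((M + 1 : ℕ) : ℂ) * (y - Z k₀)) = 0 := by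
    rw [Nat.add_sub_cancel, pow_succ] at h3
    linear_combination -h3
  rw [← hy]
  rcases mul_eq_zero.1 h5 with h6 | h6
  · have h7 : y = c' := by
      by_contra h8
      exact (pow_ne_zero M (sub_ne_zero.2 h8)) h6
    rw [h7]
    have h8 : 0 ≤ ‖Z k₀ - c'‖ := norm_nonneg _
    have h9 : (0 : ℝ) ≤ ((M + 1 : ℕ) : ℝ) := Nat.cast_nonneg _
    nlinarith
  · have h7 : (((M + 1 : ℕ) : ℂ) + 1) * (Z k₀ - y) = Z k₀ - c' := by
      linear_combination -h6
    have h8 := congrArg norm h7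
    rw [norm_mul, hnorm] at h8
    exact h8.ge

/-- Recognising the second family from the roots. -/
theorem fam_of_roots {N : ℕ} {Z : Fin (N + 1) → ℂ} {b c : ℂ}
    (h : Multiset.map Z Finset.univ.val = b ::ₘ Multiset.replicate N c) :
    ∃ k₀, Z k₀ = b ∧ ∀ k, k ≠ k₀ → Z k = c := by
  have h1 : b ∈ Multiset.map Z Finset.univ.val := by
    rw [h]
    exact Multiset.mem_cons_self _ _
  obtain ⟨k₀, -, hk₀⟩ := Multiset.mem_map.1 h1
  refine ⟨k₀, hk₀, fun k hk => ?_⟩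
  have h2 : (Finset.univ : Finset (Fin (N + 1))).val = k₀ ::ₘ (Finset.univ.erase k₀).val := by
    rw [Finset.erase_val, Multiset.cons_erase (Finset.mem_univ k₀)]
  rw [h2, Multiset.map_cons, hk₀, Multiset.cons_inj_right] at h
  have h3 : Z k ∈ Multiset.map Z (Finset.univ.erase k₀).val :=
    Multiset.mem_map_of_mem Z (Finset.mem_erase.2 ⟨hk, Finset.mem_univ k⟩)
  rw [h] at h3
  exact Multiset.eq_of_mem_replicate h3

end Pool.MP_c113aa_an.B1
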