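import Pool.Agent.Lib.c113aaP.CfO
import Pool.Agent.Lib.c113aaP.Fam2

/-!
# Borcea's p-variance inequality for all `p ≥ 1` in all large degrees, with the equality cases
-/

set_option autoImplicit false

namespace Pool.MP_c113aa_an.B1

open Finset Pool.MP_c113aa_an.BV Polynomial

private theorem mo_le {m : ℕ} {r s p : ℝ} (hs : 0 ≤ s) (hp : 1 ≤ p)
    (h : ((m : ℝ) + 1) * r ^ p ≤ ((m : ℝ) + 1) * s ^ p) : r ≤ s := by
  have hm : (0 : ℝ) < (m : ℝ) + 1 := by positivity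
  have h1 := le_of_mul_le_mul_left h hm
  by_contra hcon
  exact absurd h1 (not_le.2 (Real.rpow_lt_rpow hs (not_le.1 hcon) (by linarith)))

/-- The first family, for all `p ≥ 1`. -/
theorem special_eq_ge {N : ℕ} (hN : 1 ≤ N) {Z : Fin (N + 1) → ℂ} {c b : ℂ}
    (h : (∏ k, (X - C (Z k)) : ℂ[X]) = (X - C c) ^ (N + 1) - C b) {p : ℝ} (hp : 1 ≤ p) :
    ∃ r : ℝ, 0 ≤ r ∧ (∀ k, ‖Z k - c‖ = r) ∧
      ∀ c' : ℂ, ((N : ℝ) + 1) * r ^ p ≤ ∑ k, ‖Z k - c'‖ ^ p := by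
  rcases hp.eq_or_lt with h1 | h1
  · subst h1
    simp only [Real.rpow_one]
    exact special_eq_one hN h
  · exact special_eq hN h h1

/-- The main dichotomy for one polynomial and one exponent. -/
theorem main_data {N₀ : ℕ}
    (hN₀ : ∀ N : ℕ, N₀ ≤ N → ∀ (Z : Fin (N + 1) → ℂ) (w : Fin N → ℂ), CritOf Z w →
      ∀ (k₀ : Fin (N + 1)) (D : ℝ) (c : ℂ), 0 < D → (∀ j, D ≤ ‖Z k₀ - w j‖) →
      ∑ k, ‖Z k - c‖ ≤ ((N : ℝ) + 1) * D →
      (∃ c' : ℂ, ∀ j, w j = c') ∨ (∃ c' : ℂ, ∀ k, k ≠ k₀ → Z k = c'))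
    {N : ℕ} (hNN : N₀ ≤ N) (hN2 : 2 ≤ N) {Z : Fin (N + 1) → ℂ} {w : Fin N → ℂ}
    (hcrit : CritOf Z w) {σ : ℝ} {c₁ : ℂ} (hs1 : ∑ k, ‖Z k - c₁‖ ≤ ((N : ℝ) + 1) * σ)
    (k₀ : Fin (N + 1)) (D : ℝ) (hD : 0 < D) (hσD : σ ≤ D) (hj : ∀ j, D ≤ ‖Z k₀ - w j‖) :
    (∃ c' b : ℂ, (∀ j, w j = c') ∧
      (∏ k, (X - C (Z k)) : ℂ[X]) = (X - C c') ^ (N + 1) - C b) ∨
    ((∀ k, k ≠ k₀ → Z k = c₁) ∧ ((N : ℝ) + 1) * D = ‖Z k₀ - c₁‖ ∧ D ≤ σ) := by
  have hN : (0 : ℝ) < (N : ℝ) + 1 := by positivity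
  have h2 : ∑ k, ‖Z k - c₁‖ ≤ ((N : ℝ) + 1) * D :=
    hs1.trans (mul_le_mul_of_nonneg_left hσD hN.le)
  rcases hN₀ N hNN Z w hcrit k₀ D c₁ hD hj h2 with ⟨c', hc'⟩ | ⟨c', hc'⟩
  · left
    obtain ⟨b, hb⟩ := hcrit.special c' hc'
    exact ⟨c', b, hc', hb⟩
  · right
    obtain ⟨j, hjj⟩ := fam_crit (by omega) hcrit k₀ c' hc'
    have h3 : ((N : ℝ) + 1) * D ≤ ‖Z k₀ - c'‖ := by
      rw [← hjj]
      exact mul_le_mul_of_nonneg_left (hj j) hN.le
    have h4 := fam_sum_ge (by omega) k₀ c' hc' c₁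
    have hN1 : (1 : ℝ) ≤ (N : ℝ) - 1 := by
      have : (2 : ℝ) ≤ N := by exact_mod_cast hN2
      linarith
    have h5 : ‖c' - c₁‖ ≤ 0 := by
      have h6 := norm_nonneg (c' - c₁)
      nlinarith
    have h6 : c' = c₁ := sub_eq_zero.1 (norm_le_zero_iff.1 h5)
    subst h6
    refine ⟨hc', ?_, ?_⟩
    · refine le_antisymm h3 ?_
      have h7 : 0 ≤ ((N : ℝ) - 1) * ‖c' - c'‖ := by
        rw [sub_self, norm_zero, mul_zero]
      linarith
    · have h7 : 0 ≤ ((N : ℝ) - 1) * ‖c' - c'‖ := by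
        rw [sub_self, norm_zero, mul_zero]
      have h8 : ((N : ℝ) + 1) * D ≤ ((N : ℝ) + 1) * σ := by linarith
      exact le_of_mul_le_mul_left h8 hN

/-- The theorem. -/
theorem main_one :
    ∃ n₀ : ℕ, ∀ n : ℕ, n₀ ≤ n → ∀ F : ℂ[X], F.natDegree = n →
      (∀ p : ℝ, 1 ≤ p →
        sSup {d : ℝ | ∃ z ∈ F.roots,
          d = sInf {r : ℝ | ∃ w ∈ (derivative F).roots, r = ‖z - w‖}} ≤
        ⨅ c : ℂ, ((1 / (n : ℝ)) * (F.roots.map (fun z => ‖z - c‖ ^ p)).sum) ^ (1 / p)) ∧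
      (∀ p : ℝ, 1 < p →
        (sSup {d : ℝ | ∃ z ∈ F.roots,
          d = sInf {r : ℝ | ∃ w ∈ (derivative F).roots, r = ‖z - w‖}} =
        (⨅ c : ℂ, ((1 / (n : ℝ)) * (F.roots.map (fun z => ‖z - c‖ ^ p)).sum) ^ (1 / p)) ↔
        ∃ a b c : ℂ, F = C a * (X - C c) ^ n - C b)) ∧
      (sSup {d : ℝ | ∃ z ∈ F.roots,
          d = sInf {r : ℝ | ∃ w ∈ (derivative F).roots, r = ‖z - w‖}} =
        (⨅ c : ℂ, ((1 / (n : ℝ)) *
          (F.roots.map (fun z => ‖z - c‖ ^ (1 : ℝ))).sum) ^ (1 / (1 : ℝ))) ↔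
        (∃ a b c : ℂ, F = C a * (X - C c) ^ n - C b) ∨
          ∃ a b c : ℂ, F = C a * (X - C b) * (X - C c) ^ (n - 1)) := by
  obtain ⟨N₀, hN₀⟩ := crit_main_one
  refine ⟨max 3 (N₀ + 1), fun n hn F hF => ?_⟩
  have hn2 : 3 ≤ n := le_trans (le_max_left _ _) hn
  have hn3 : N₀ + 1 ≤ n := le_trans (le_max_right _ _) hn
  obtain ⟨N, rfl⟩ : ∃ N, n = N + 1 := ⟨n - 1, by omega⟩
  have hN2 : 2 ≤ N := by omega
  have hN1 : 1 ≤ N := by omega
  have hNN : N₀ ≤ N := by omega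
  have hNR : (2 : ℝ) ≤ N := by exact_mod_cast hN2
  obtain ⟨a, Z, w, ha, hFZ, hroots, hroots', hcrit⟩ := exists_fin_roots F hF
  have hσ : ∀ p : ℝ, (⨅ c : ℂ, ((1 / ((N + 1 : ℕ) : ℝ)) *
        (F.roots.map (fun z => ‖z - c‖ ^ p)).sum) ^ (1 / p))
      = ⨅ c : ℂ, ((1 / ((N + 1 : ℕ) : ℝ)) * ∑ k, ‖Z k - c‖ ^ p) ^ (1 / p) := by
    intro p
    refine iInf_congr fun c => ?_
    rw [hroots, Multiset.map_map]
    rfl
  simp only [hσ]
  obtain ⟨⟨k₀, hk₀⟩, hk⟩ := hausdorff_eq F hN1 Z w hroots hroots'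
  set H : ℝ := sSup {d : ℝ | ∃ z ∈ F.roots,
          d = sInf {r : ℝ | ∃ w ∈ (derivative F).roots, r = ‖z - w‖}} with hHdef
  have j₀ : Fin N := ⟨0, hN1⟩
  -- from the p-th power sum to the sum
  have hpm : ∀ (p : ℝ), 1 ≤ p → ∀ (σ : ℝ) (c₁ : ℂ), 0 ≤ σ →
      ∑ k, ‖Z k - c₁‖ ^ p = ((N : ℝ) + 1) * σ ^ p → ∑ k, ‖Z k - c₁‖ ≤ ((N : ℝ) + 1) * σ := by
    intro p hp σ c₁ hσ0 h1
    have h2 := power_mean (fun k => ‖Z k - c₁‖) (fun k => norm_nonneg _) (p := 1) (q := p)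
      one_pos hp hσ0 h1.le
    simpa only [Real.rpow_one] using h2
  have hA : ∀ p : ℝ, 1 ≤ p →
      H ≤ ⨅ c : ℂ, ((1 / ((N + 1 : ℕ) : ℝ)) * ∑ k, ‖Z k - c‖ ^ p) ^ (1 / p) := by
    intro p hp
    obtain ⟨hs0, ⟨c₁, hc₁⟩, hsle⟩ := sigma_attained_ge Z hp
    set σ : ℝ := ⨅ c : ℂ, ((1 / ((N + 1 : ℕ) : ℝ)) * ∑ k, ‖Z k - c‖ ^ p) ^ (1 / p) with hσdef
    by_contra hcon
    rw [not_le] at hcon
    rcases main_data hN₀ hNN hN2 hcrit (hpm p hp σ c₁ hs0 hc₁) k₀ H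
      (lt_of_le_of_lt hs0 hcon) hcon.le hk₀ with ⟨c', b, hw, hb⟩ | ⟨-, -, h3⟩
    · obtain ⟨r, hr0, hr, hrle⟩ := special_eq_ge hN1 hb hp
      have h1 : H ≤ r := by
        have := hk₀ j₀
        rw [hw j₀, hr k₀] at this
        exact this
      have h2 : r ≤ σ := by
        apply mo_le (m := N) hs0 hp
        rw [← hc₁]
        exact hrle c₁
      linarith
    · linarith
  -- zero variance
  have hzero : ∀ p : ℝ, 1 ≤ p → ∀ c₁ : ℂ, ∑ k, ‖Z k - c₁‖ ^ p = 0 →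
      ∃ a b c : ℂ, F = C a * (X - C c) ^ (N + 1) - C b := by
    intro p hp c₁ h1
    have h2 : ∀ k, Z k = c₁ := by
      intro k
      have h3 := (Finset.sum_eq_zero_iff_of_nonneg
        (fun k _ => Real.rpow_nonneg (norm_nonneg (Z k - c₁)) p)).1 h1 k (Finset.mem_univ k)
      have h4 := (Real.rpow_eq_zero (norm_nonneg _) (by linarith)).1 h3
      exact sub_eq_zero.1 (norm_eq_zero.1 h4)
    refine ⟨a, 0, c₁, ?_⟩
    rw [hFZ]
    simp [h2]
  -- the first family gives equality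
  have hfirst : (∃ a b c : ℂ, F = C a * (X - C c) ^ (N + 1) - C b) → ∀ p : ℝ, 1 ≤ p →
      H = ⨅ c : ℂ, ((1 / ((N + 1 : ℕ) : ℝ)) * ∑ k, ‖Z k - c‖ ^ p) ^ (1 / p) := by
    rintro ⟨a', b', c, hF'⟩ p hp
    obtain ⟨hs0, ⟨c₁, hc₁⟩, hsle⟩ := sigma_attained_ge Z hp
    set σ : ℝ := ⨅ c : ℂ, ((1 / ((N + 1 : ℕ) : ℝ)) * ∑ k, ‖Z k - c‖ ^ p) ^ (1 / p) with hσdef
    have hlead : F.leadingCoeff = a := by
      rw [hFZ, leadingCoeff_mul, leadingCoeff_C,
        (monic_prod_of_monic _ _ fun k _ => monic_X_sub_C (Z k)).leadingCoeff, mul_one]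
    have hcoef : F.coeff (N + 1) = a' := by
      rw [hF']
      have h1 : ((X - C c) ^ (N + 1) : ℂ[X]).coeff (N + 1) = 1 := by
        have h2 := (monic_X_sub_C c).pow (N + 1)
        have h3 : ((X - C c) ^ (N + 1) : ℂ[X]).natDegree = N + 1 := by
          rw [natDegree_pow, natDegree_X_sub_C, mul_one]
        rw [Monic, leadingCoeff, h3] at h2
        exact h2
      rw [coeff_sub, coeff_C_mul, h1, coeff_C]
      simp
    have haa : a' = a := by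
      rw [← hcoef, ← hlead, leadingCoeff, hF]
    rw [haa] at hF'
    have hb : (∏ k, (X - C (Z k)) : ℂ[X]) = (X - C c) ^ (N + 1) - C (b' / a) := by
      have h1 : C a * (∏ k, (X - C (Z k)) : ℂ[X])
          = C a * ((X - C c) ^ (N + 1) - C (b' / a)) := by
        rw [← hFZ, hF', mul_sub, ← C_mul, mul_div_cancel₀ _ ha]
      exact mul_left_cancel₀ (C_ne_zero.2 ha) h1
    have hw : ∀ j, w j = c := by
      intro j
      have h1 : w j ∈ (derivative F).roots := by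
        rw [hroots']
        exact Multiset.mem_map_of_mem w (Finset.mem_univ_val j)
      have h2 := (mem_roots'.1 h1).2
      rw [hF', IsRoot.def] at h2
      rw [derivative_sub, derivative_C, sub_zero, derivative_C_mul, derivative_X_sub_C_pow,
        eval_mul, eval_C, eval_mul, eval_pow, eval_sub, eval_X, eval_C, eval_C] at h2
      have h3 := (mul_eq_zero.1 h2).resolve_left ha
      have h4 : (w j - c) ^ (N + 1 - 1) = 0 := by
        refine (mul_eq_zero.1 h3).resolve_left ?_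
        simp
        exact_mod_cast Nat.succ_ne_zero N
      exact sub_eq_zero.1 (pow_eq_zero_iff (by omega) |>.1 h4)
    obtain ⟨r, hr0, hr, hrle⟩ := special_eq_ge hN1 hb hp
    have hHr : H = r := by
      apply le_antisymm
      · have := hk₀ j₀
        rw [hw j₀, hr k₀] at this
        exact this
      · obtain ⟨j, hj⟩ := hk k₀
        rw [hw j, hr k₀] at hj
        exact hj
    have hσr : σ = r := by
      apply le_antisymm
      · apply mo_le (m := N) hr0 hp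
        refine (hsle c).trans (le_of_eq ?_)
        rw [Finset.sum_congr rfl fun k _ => by rw [hr k]]
        simp
      · apply mo_le (m := N) hs0 hp
        rw [← hc₁]
        exact hrle c₁
    rw [hHr, hσr]
  refine ⟨hA, ?_, ?_⟩
  · -- the equality cases for p > 1
    intro p hp
    refine ⟨fun hHσ => ?_, fun h => hfirst h p hp.le⟩
    obtain ⟨hs0, ⟨c₁, hc₁⟩, hsle⟩ := sigma_attained_ge Z hp.le
    set σ : ℝ := ⨅ c : ℂ, ((1 / ((N + 1 : ℕ) : ℝ)) * ∑ k, ‖Z k - c‖ ^ p) ^ (1 / p) with hσdef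
    rcases hs0.lt_or_eq with hpos | hz0
    · rcases main_data hN₀ hNN hN2 hcrit (hpm p hp.le σ c₁ hs0 hc₁) k₀ H
        (by rw [hHσ]; exact hpos) hHσ.ge hk₀ with ⟨c', b, hw, hb⟩ | ⟨h2, h3, -⟩
      · refine ⟨a, a * b, c', ?_⟩
        rw [hFZ, hb, mul_sub, C_mul]
      · exfalso
        have h4 : ∑ k, ‖Z k - c₁‖ ^ p = ‖Z k₀ - c₁‖ ^ p := by
          rw [← Finset.add_sum_erase _ _ (Finset.mem_univ k₀)]
          have h5 : ∑ k ∈ Finset.univ.erase k₀, ‖Z k - c₁‖ ^ p = 0 := by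
            refine Finset.sum_eq_zero fun k hk => ?_
            rw [h2 k (Finset.ne_of_mem_erase hk), sub_self, norm_zero,
              Real.zero_rpow (by linarith)]
          rw [h5, add_zero]
        rw [hc₁, ← h3, hHσ, Real.mul_rpow (by positivity) hs0] at h4
        have h5 : 0 < σ ^ p := Real.rpow_pos_of_pos hpos p
        have h6 : ((N : ℝ) + 1) = ((N : ℝ) + 1) ^ p := mul_right_cancel₀ h5.ne' h4
        have h7 : ((N : ℝ) + 1) ^ (1 : ℝ) < ((N : ℝ) + 1) ^ p :=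
          Real.rpow_lt_rpow_of_exponent_lt (by linarith) hp
        rw [Real.rpow_one] at h7
        linarith
    · refine hzero p hp.le c₁ ?_
      rw [hc₁, ← hz0, Real.zero_rpow (by linarith), mul_zero]
  · -- the equality cases for p = 1
    constructor
    · intro hHσ
      obtain ⟨hs0, ⟨c₁, hc₁⟩, hsle⟩ := sigma_attained_ge Z (le_refl (1 : ℝ))
      set σ : ℝ := ⨅ c : ℂ, ((1 / ((N + 1 : ℕ) : ℝ)) * ∑ k, ‖Z k - c‖ ^ (1 : ℝ)) ^ (1 / (1 : ℝ))
        with hσdef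
      rcases hs0.lt_or_eq with hpos | hz0
      · rcases main_data hN₀ hNN hN2 hcrit (hpm 1 le_rfl σ c₁ hs0 hc₁) k₀ H
          (by rw [hHσ]; exact hpos) hHσ.ge hk₀ with ⟨c', b, hw, hb⟩ | ⟨h2, h3, -⟩
        · left
          refine ⟨a, a * b, c', ?_⟩
          rw [hFZ, hb, mul_sub, C_mul]
        · right
          refine ⟨a, Z k₀, c₁, ?_⟩
          rw [hFZ, Nat.add_sub_cancel, mul_assoc]
          congr 1
          rw [← Finset.mul_prod_erase _ _ (Finset.mem_univ k₀)]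
          congr 1
          have h4 : ∀ k ∈ Finset.univ.erase k₀, (X - C (Z k) : ℂ[X]) = X - C c₁ := by
            intro k hk
            rw [h2 k (Finset.ne_of_mem_erase hk)]
          rw [Finset.prod_congr rfl h4, Finset.prod_const,
            Finset.card_erase_of_mem (Finset.mem_univ _), Finset.card_univ, Fintype.card_fin,
            Nat.add_sub_cancel]
      · left
        refine hzero 1 le_rfl c₁ ?_
        rw [hc₁, ← hz0, Real.zero_rpow one_ne_zero, mul_zero]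
    · rintro (h | ⟨a', b, c, hF'⟩)
      · exact hfirst h 1 le_rfl
      · rw [Nat.add_sub_cancel] at hF'
        have ha' : a' ≠ 0 := by
          rintro rfl
          rw [C_0, zero_mul, zero_mul] at hF'
          rw [hF', natDegree_zero] at hF
          omega
        have hr : F.roots = b ::ₘ Multiset.replicate N c := by
          rw [hF', mul_assoc, roots_C_mul _ ha', roots_mul, roots_X_sub_C, roots_pow,
            roots_X_sub_C, Multiset.nsmul_singleton, Multiset.singleton_add]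
          exact mul_ne_zero (X_sub_C_ne_zero b) (pow_ne_zero _ (X_sub_C_ne_zero c))
        rw [hroots] at hr
        obtain ⟨k₁, hk₁, hZ⟩ := fam_of_roots hr
        obtain ⟨hs0, ⟨c₁, hc₁⟩, hsle⟩ := sigma_attained_ge Z (le_refl (1 : ℝ))
        refine le_antisymm (hA 1 le_rfl) ?_
        set σ : ℝ := ⨅ c : ℂ, ((1 / ((N + 1 : ℕ) : ℝ)) * ∑ k, ‖Z k - c‖ ^ (1 : ℝ)) ^ (1 / (1 : ℝ))
          with hσdef
        have h1 := hsle c
        have h2 : ∑ k, ‖Z k - c‖ ^ (1 : ℝ) = ‖Z k₁ - c‖ := by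
          simp only [Real.rpow_one]
          rw [← Finset.add_sum_erase _ _ (Finset.mem_univ k₁)]
          have h5 : ∑ k ∈ Finset.univ.erase k₁, ‖Z k - c‖ = 0 := by
            refine Finset.sum_eq_zero fun k hk => ?_
            rw [hZ k (Finset.ne_of_mem_erase hk), sub_self, norm_zero]
          rw [h5, add_zero]
        rw [h2, Real.rpow_one] at h1
        obtain ⟨j, hj⟩ := hk k₁
        have h3 := fam_crit_all hN1 hcrit k₁ c hZ j
        have hNp : (0 : ℝ) < (N : ℝ) + 1 := by positivity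
        have h4 : ((N : ℝ) + 1) * σ ≤ ((N : ℝ) + 1) * ‖Z k₁ - w j‖ := h1.trans h3
        exact (le_of_mul_le_mul_left h4 hNp).trans hj

end Pool.MP_c113aa_an.B1
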