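import Pool.Agent.Lib.c113aaP.Defs

set_option autoImplicit false

namespace Pool.MP_c113aa_an.B1

open Finset

variable {N : ℕ} {b : Fin N → ℂ} {C : ℝ}

/-- `‖1 - C b_j‖ = ‖(b j)⁻¹ - C‖ ‖b j‖`. -/
theorem Dat.norm_one_sub (h : Dat N b C) (j : Fin N) :
    ‖1 - (C : ℂ) * b j‖ = ‖(b j)⁻¹ - (C : ℂ)‖ * ‖b j‖ := by
  rw [← norm_mul, sub_mul, inv_mul_cancel₀ (h.ne j)]

private theorem an0_one_sub_le (h : Dat N b C) (j : Fin N) :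
    ‖1 - (C : ℂ) * b j‖ ≤ ‖(b j)⁻¹ - (C : ℂ)‖ := by
  rw [h.norm_one_sub j]
  exact mul_le_of_le_one_right (norm_nonneg _) (h.le_one j)

private theorem an0_re_le (C : ℝ) (z : ℂ) : 1 - C * z.re ≤ ‖1 - (C : ℂ) * z‖ := by
  have h1 := Complex.re_le_norm (1 - (C : ℂ) * z)
  have h2 : (1 - (C : ℂ) * z).re = 1 - C * z.re := by simp
  rw [h2] at h1
  exact h1

/-- `X_j = ‖(b j)⁻¹ - C‖ ≥ X_j ‖b j‖ = ‖1 - C b_j‖ ≥ 1 - C Re b_j`. -/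
theorem Dat.e_nonneg (h : Dat N b C) (j : Fin N) :
    0 ≤ ‖(b j)⁻¹ - (C : ℂ)‖ - 1 + C * (b j).re := by
  have h1 := an0_one_sub_le h j
  have h2 := an0_re_le C (b j)
  linarith

/-- Sum: `∑ X_j - N + C R ≤ C R` by `h.sum_le`. -/
theorem Dat.sum_e_le (h : Dat N b C) :
    ∑ j, (‖(b j)⁻¹ - (C : ℂ)‖ - 1 + C * (b j).re) ≤ C * (∑ j, b j).re := by
  have h1 := h.sum_le
  have h2 : ∑ j, (‖(b j)⁻¹ - (C : ℂ)‖ - 1 + C * (b j).re) =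
      (∑ j, ‖(b j)⁻¹ - (C : ℂ)‖) - N + C * (∑ j, b j).re := by
    rw [Finset.sum_add_distrib, Finset.sum_sub_distrib, ← Finset.mul_sum, Complex.re_sum]
    simp
  rw [h2]
  linarith

/-- from `sum_e_le`, `e_nonneg`. -/
theorem Dat.re_nonneg (h : Dat N b C) : 0 ≤ (∑ j, b j).re := by
  have h1 := h.sum_e_le
  have h2 : 0 ≤ ∑ j, (‖(b j)⁻¹ - (C : ℂ)‖ - 1 + C * (b j).re) :=
    Finset.sum_nonneg fun j _ => h.e_nonneg j
  have h3 : 0 ≤ C * (∑ j, b j).re := h2.trans h1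
  exact nonneg_of_mul_nonneg_right h3 h.C_pos

/-- `‖b j‖ ≤ 1` and `C ‖b j‖ ≤ 1 + ‖1 - C b_j‖ ≤ 1 + X_j`; sum both. -/
theorem Dat.sum_norm_le (h : Dat N b C) : (C + 1) * ∑ j, ‖b j‖ ≤ 3 * N := by
  have h1 : ∀ j, (C + 1) * ‖b j‖ ≤ 2 + ‖(b j)⁻¹ - (C : ℂ)‖ := by
    intro j
    have e1 := an0_one_sub_le h j
    have e2 := h.le_one j
    have e3 : C * ‖b j‖ = ‖(C : ℂ) * b j‖ := by
      rw [norm_mul, Complex.norm_real, Real.norm_of_nonneg h.C_pos.le]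
    have e4 : ‖(C : ℂ) * b j‖ ≤ 1 + ‖1 - (C : ℂ) * b j‖ := by
      have := norm_sub_le (1 : ℂ) (1 - (C : ℂ) * b j)
      rw [sub_sub_cancel, norm_one] at this
      exact this
    linarith
  rw [Finset.mul_sum]
  calc ∑ j, (C + 1) * ‖b j‖ ≤ ∑ j, (2 + ‖(b j)⁻¹ - (C : ℂ)‖) := Finset.sum_le_sum fun j _ => h1 j
    _ = 2 * N + ∑ j, ‖(b j)⁻¹ - (C : ℂ)‖ := by
        rw [Finset.sum_add_distrib]
        simp [mul_comm]
    _ ≤ 3 * N := by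
        have := h.sum_le
        linarith

/-- `(Im a)^2 ≤ 2 ‖1 - a‖ (‖1 - a‖ - 1 + Re a)` for every complex `a` (because
`‖1-a‖^2 - (1 - Re a)^2 = (Im a)^2` and `‖1-a‖ + (1 - Re a) ≤ 2 ‖1-a‖`, `‖1 - a‖ - (1 - Re a) ≥ 0`).
With `a = C b_j`: `‖1-a‖ ≤ 1 + C` and `‖1-a‖ - 1 + Re a ≤ X_j - 1 + C Re b_j`, hence
`C^2 (Im b_j)^2 ≤ 2 (1 + C) (X_j - 1 + C Re b_j)`; sum, use `sum_e_le`, divide by `C`. -/
theorem Dat.sum_im_sq_le (h : Dat N b C) :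
    C * ∑ j, (b j).im ^ 2 ≤ 2 * (1 + C) * (∑ j, b j).re := by
  have hC := h.C_pos
  have h1 : ∀ j, C ^ 2 * (b j).im ^ 2 ≤
      2 * (1 + C) * (‖(b j)⁻¹ - (C : ℂ)‖ - 1 + C * (b j).re) := by
    intro j
    set n := ‖1 - (C : ℂ) * b j‖ with hn
    have e1 : n ≤ ‖(b j)⁻¹ - (C : ℂ)‖ := an0_one_sub_le h j
    have e2 : 1 - C * (b j).re ≤ n := an0_re_le C (b j)
    have e3 : n ≤ 1 + C := by
      have h3 := norm_sub_le (1 : ℂ) ((C : ℂ) * b j)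
      rw [norm_one, norm_mul, Complex.norm_real, Real.norm_of_nonneg hC.le] at h3
      have h4 : C * ‖b j‖ ≤ C := mul_le_of_le_one_right hC.le (h.le_one j)
      linarith
    have e4 : n ^ 2 = (1 - C * (b j).re) ^ 2 + (C * (b j).im) ^ 2 := by
      rw [hn, ← Complex.normSq_eq_norm_sq, Complex.normSq_apply]
      simp
      ring
    have e5 : 0 ≤ n := norm_nonneg _
    have e6 : C ^ 2 * (b j).im ^ 2 = (n - (1 - C * (b j).re)) * (n + (1 - C * (b j).re)) := by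
      nlinarith
    rw [e6]
    have e7 : (n - (1 - C * (b j).re)) * (n + (1 - C * (b j).re)) ≤
        (n - (1 - C * (b j).re)) * (2 * (1 + C)) :=
      mul_le_mul_of_nonneg_left (by linarith) (by linarith)
    nlinarith
  have h2 : C * (C * ∑ j, (b j).im ^ 2) ≤ C * (2 * (1 + C) * (∑ j, b j).re) := by
    calc C * (C * ∑ j, (b j).im ^ 2) = ∑ j, C ^ 2 * (b j).im ^ 2 := by
          rw [← Finset.mul_sum]
          ring
      _ ≤ ∑ j, 2 * (1 + C) * (‖(b j)⁻¹ - (C : ℂ)‖ - 1 + C * (b j).re) :=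
          Finset.sum_le_sum fun j _ => h1 j
      _ = 2 * (1 + C) * ∑ j, (‖(b j)⁻¹ - (C : ℂ)‖ - 1 + C * (b j).re) := by
          rw [← Finset.mul_sum]
      _ ≤ 2 * (1 + C) * (C * (∑ j, b j).re) :=
          mul_le_mul_of_nonneg_left h.sum_e_le (by linarith)
      _ = C * (2 * (1 + C) * (∑ j, b j).re) := by ring
  exact le_of_mul_le_mul_left h2 hC

/-- For `‖b j‖ < 1/2`: `X_j ≤ 2 X_j (1 - ‖b j‖) = 2 (X_j - ‖1 - C b_j‖) ≤ 2 (X_j - 1 + C Re b_j)`; all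
terms `X_j - 1 + C Re b_j` are nonnegative, so the partial sum is at most the full sum; `sum_e_le`. -/
theorem Dat.sum_small_le (h : Dat N b C) :
    ∑ j ∈ univ.filter (fun j => ‖b j‖ < 1 / 2), ‖(b j)⁻¹ - (C : ℂ)‖
      ≤ 2 * C * (∑ j, b j).re := by
  have h1 : ∀ j ∈ univ.filter (fun j => ‖b j‖ < 1 / 2), ‖(b j)⁻¹ - (C : ℂ)‖ ≤
      2 * (‖(b j)⁻¹ - (C : ℂ)‖ - 1 + C * (b j).re) := by
    intro j hj
    have e0 : ‖b j‖ < 1 / 2 := (Finset.mem_filter.1 hj).2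
    have e1 := h.norm_one_sub j
    have e2 := an0_re_le C (b j)
    have e3 : 0 ≤ ‖(b j)⁻¹ - (C : ℂ)‖ := norm_nonneg _
    have e4 : ‖(b j)⁻¹ - (C : ℂ)‖ * ‖b j‖ ≤ ‖(b j)⁻¹ - (C : ℂ)‖ * (1 / 2) :=
      mul_le_mul_of_nonneg_left e0.le e3
    linarith
  calc ∑ j ∈ univ.filter (fun j => ‖b j‖ < 1 / 2), ‖(b j)⁻¹ - (C : ℂ)‖
      ≤ ∑ j ∈ univ.filter (fun j => ‖b j‖ < 1 / 2),
          2 * (‖(b j)⁻¹ - (C : ℂ)‖ - 1 + C * (b j).re) := Finset.sum_le_sum h1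
    _ ≤ ∑ j, 2 * (‖(b j)⁻¹ - (C : ℂ)‖ - 1 + C * (b j).re) :=
        Finset.sum_le_sum_of_subset_of_nonneg (Finset.filter_subset _ _)
          fun j _ _ => mul_nonneg two_pos.le (h.e_nonneg j)
    _ = 2 * ∑ j, (‖(b j)⁻¹ - (C : ℂ)‖ - 1 + C * (b j).re) := by rw [← Finset.mul_sum]
    _ ≤ 2 * (C * (∑ j, b j).re) := mul_le_mul_of_nonneg_left h.sum_e_le two_pos.le
    _ = 2 * C * (∑ j, b j).re := by ring

/-- On `[0, C]` the product has norm at most one.  With `s = x / C`,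
`‖1 - x b_j‖ = ‖(1-s) + s (1 - C b_j)‖ ≤ 1 - s + s X_j`, and AM-GM: `∏ y_j ≤ exp (∑ (y_j - 1))`,
`∑ (y_j - 1) ≤ s (∑ X_j - N) ≤ 0`. -/
theorem Dat.norm_gg_le_one (h : Dat N b C) {x : ℝ} (hx0 : 0 ≤ x) (hxC : x ≤ C) :
    ‖gg b x‖ ≤ 1 := by
  have hC := h.C_pos
  set s : ℝ := x / C with hs
  have hs0 : 0 ≤ s := div_nonneg hx0 hC.le
  have hs1 : s ≤ 1 := (div_le_one hC).2 hxC
  have hsC : s * C = x := div_mul_cancel₀ x hC.ne'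
  have h1 : ∀ j, ‖1 - (x : ℂ) * b j‖ ≤ Real.exp (s * (‖(b j)⁻¹ - (C : ℂ)‖ - 1)) := by
    intro j
    have e1 : 1 - (x : ℂ) * b j = ((1 - s : ℝ) : ℂ) + (s : ℂ) * (1 - (C : ℂ) * b j) := by
      rw [← hsC]
      push_cast
      ring
    have e2 : ‖1 - (x : ℂ) * b j‖ ≤ (1 - s) + s * ‖1 - (C : ℂ) * b j‖ := by
      rw [e1]
      refine (norm_add_le _ _).trans (le_of_eq ?_)
      rw [norm_mul, Complex.norm_real, Complex.norm_real, Real.norm_of_nonneg hs0,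
        Real.norm_of_nonneg (by linarith : 0 ≤ 1 - s)]
    have e3 : s * ‖1 - (C : ℂ) * b j‖ ≤ s * ‖(b j)⁻¹ - (C : ℂ)‖ :=
      mul_le_mul_of_nonneg_left (an0_one_sub_le h j) hs0
    have e4 := Real.add_one_le_exp (s * (‖(b j)⁻¹ - (C : ℂ)‖ - 1))
    linarith
  rw [gg, norm_prod]
  calc ∏ j, ‖1 - (x : ℂ) * b j‖ ≤ ∏ j, Real.exp (s * (‖(b j)⁻¹ - (C : ℂ)‖ - 1)) :=
        Finset.prod_le_prod (fun j _ => norm_nonneg _) fun j _ => h1 j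
    _ = Real.exp (s * ((∑ j, ‖(b j)⁻¹ - (C : ℂ)‖) - N)) := by
        rw [← Real.exp_sum, ← Finset.mul_sum, Finset.sum_sub_distrib]
        simp
    _ ≤ 1 := by
        rw [Real.exp_le_one_iff]
        exact mul_nonpos_of_nonneg_of_nonpos hs0 (by linarith [h.sum_le])

end Pool.MP_c113aa_an.B1
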