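import Pool.Agent.Lib.c113aaP.An0

set_option autoImplicit false

namespace Pool.MP_c113aa_an.B1

open Finset

theorem An1_cs {N : ℕ} (b : Fin N → ℂ) (T : Finset (Fin N)) {x m : ℝ} (hx : 0 ≤ x)
    (hT : (T.card : ℝ) ≤ m) (h : ∑ j ∈ T, (b j).re ≤ - x) :
    x ^ 2 ≤ m * ∑ j ∈ univ.filter (fun j => (b j).re ≤ 0), (b j).re ^ 2 := by
  have h1 : ∑ j ∈ T.filter (fun j => (b j).re ≤ 0), (b j).re ≤ - x := by
    have e := sum_filter_add_sum_filter_not T (fun j => (b j).re ≤ 0) (fun j => (b j).re)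
    have h2 : 0 ≤ ∑ j ∈ T.filter (fun j => ¬ (b j).re ≤ 0), (b j).re :=
      sum_nonneg fun j hj => by
        have := (mem_filter.1 hj).2
        linarith
    linarith
  have h2 : (∑ j ∈ T.filter (fun j => (b j).re ≤ 0), (b j).re) ^ 2
      ≤ ((T.filter (fun j => (b j).re ≤ 0)).card : ℝ) *
        ∑ j ∈ T.filter (fun j => (b j).re ≤ 0), (b j).re ^ 2 := sq_sum_le_card_mul_sum_sq
  have h3 : ((T.filter (fun j => (b j).re ≤ 0)).card : ℝ) ≤ m := by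
    refine le_trans ?_ hT
    exact_mod_cast card_filter_le _ _
  have h4 : ∑ j ∈ T.filter (fun j => (b j).re ≤ 0), (b j).re ^ 2
      ≤ ∑ j ∈ univ.filter (fun j => (b j).re ≤ 0), (b j).re ^ 2 := by
    refine sum_le_sum_of_subset_of_nonneg ?_ fun j _ _ => sq_nonneg _
    intro j hj
    rw [mem_filter] at hj ⊢
    exact ⟨mem_univ _, hj.2⟩
  have h5 : x ^ 2 ≤ (∑ j ∈ T.filter (fun j => (b j).re ≤ 0), (b j).re) ^ 2 := by
    nlinarith
  have h6 : 0 ≤ ∑ j ∈ T.filter (fun j => (b j).re ≤ 0), (b j).re ^ 2 :=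
    sum_nonneg fun j _ => sq_nonneg _
  have h7 : (0 : ℝ) ≤ ((T.filter (fun j => (b j).re ≤ 0)).card : ℝ) := Nat.cast_nonneg _
  calc x ^ 2 ≤ _ := h5
    _ ≤ _ := h2
    _ ≤ m * ∑ j ∈ univ.filter (fun j => (b j).re ≤ 0), (b j).re ^ 2 :=
      mul_le_mul h3 h4 h6 (h7.trans h3)

/-- the case of large `C` -/
theorem An1_large {N : ℕ} {b : Fin N → ℂ} {C : ℝ} (h : Dat N b C) (hC : 4 ≤ C)
    (hR : 8 * (C * (∑ j, b j).re) ≤ N) :
    1 / 62500 * (N / (C + 1)) ≤ ∑ j ∈ univ.filter (fun j => (b j).re ≤ 0), (b j).re ^ 2 := by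
  have hC0 : 0 < C := h.C_pos
  set S := ∑ j ∈ univ.filter (fun j => (b j).re ≤ 0), (b j).re ^ 2 with hS
  have hS0 : 0 ≤ S := sum_nonneg fun j _ => sq_nonneg _
  set V := univ.filter (fun j : Fin N => ‖b j‖ < 1 / 2) with hV
  set U := univ.filter (fun j : Fin N => ¬ ‖b j‖ < 1 / 2) with hU
  set R := (∑ j, b j).re with hRdef
  have hRs : R = ∑ j, (b j).re := Complex.re_sum _ _
  have hsplit : ∑ j ∈ V, (b j).re + ∑ j ∈ U, (b j).re = R := by
    rw [hRs]; exact sum_filter_add_sum_filter_not _ _ _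
  have hcard : (V.card : ℝ) + U.card = N := by
    have := sum_filter_add_sum_filter_not (univ : Finset (Fin N)) (fun j => ‖b j‖ < 1 / 2)
      (fun _ => (1 : ℝ))
    rw [sum_const, sum_const, sum_const, nsmul_eq_mul, nsmul_eq_mul, nsmul_eq_mul, mul_one,
      mul_one, mul_one, card_univ, Fintype.card_fin] at this
    exact this
  have hVb : (V.card : ℝ) - C * R ≤ C * ∑ j ∈ V, (b j).re := by
    have h1 : ∀ j ∈ V, 1 - ‖(b j)⁻¹ - (C : ℂ)‖ / 2 ≤ C * (b j).re := by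
      intro j hj
      have hj2 : ‖b j‖ < 1 / 2 := (mem_filter.1 hj).2
      have h2 := h.norm_one_sub j
      have h3 : (1 - (C : ℂ) * b j).re ≤ ‖1 - (C : ℂ) * b j‖ := Complex.re_le_norm _
      have h4 : (1 - (C : ℂ) * b j).re = 1 - C * (b j).re := by simp
      have h5 : ‖(b j)⁻¹ - (C : ℂ)‖ * ‖b j‖ ≤ ‖(b j)⁻¹ - (C : ℂ)‖ / 2 := by
        have := norm_nonneg ((b j)⁻¹ - (C : ℂ))
        nlinarith
      linarith
    have h2 := sum_le_sum h1
    rw [sum_sub_distrib, ← sum_div, ← mul_sum] at h2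
    have h3 := h.sum_small_le
    have h4 : ∑ j ∈ V, (1 : ℝ) = V.card := by simp
    rw [h4] at h2
    have h5 : ∑ j ∈ V, ‖(b j)⁻¹ - (C : ℂ)‖ ≤ 2 * C * R := h3
    linarith
  have hUc : (U.card : ℝ) * (C - 2) ≤ N := by
    have h1 : ∀ j ∈ U, C - 2 ≤ ‖(b j)⁻¹ - (C : ℂ)‖ := by
      intro j hj
      have hj2 : 1 / 2 ≤ ‖b j‖ := not_lt.1 (mem_filter.1 hj).2
      have h2 : ‖(b j)⁻¹‖ ≤ 2 := by
        rw [norm_inv, inv_le_comm₀ (by linarith) (by norm_num)]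
        linarith
      have h3 : ‖(C : ℂ)‖ ≤ ‖(b j)⁻¹ - (C : ℂ)‖ + ‖(b j)⁻¹‖ := by
        have := norm_sub_le ((b j)⁻¹) ((b j)⁻¹ - (C : ℂ))
        have e : (b j)⁻¹ - ((b j)⁻¹ - (C : ℂ)) = (C : ℂ) := by ring
        rw [e] at this
        linarith
      have h4 : ‖(C : ℂ)‖ = C := by rw [Complex.norm_real, Real.norm_of_nonneg hC0.le]
      linarith
    have h2 := sum_le_sum h1
    rw [sum_const, nsmul_eq_mul] at h2
    have h3 : ∑ j ∈ U, ‖(b j)⁻¹ - (C : ℂ)‖ ≤ ∑ j, ‖(b j)⁻¹ - (C : ℂ)‖ :=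
      sum_le_sum_of_subset_of_nonneg (filter_subset _ _) fun j _ _ => norm_nonneg _
    exact h2.trans (h3.trans h.sum_le)
  have hU0 : (0 : ℝ) ≤ U.card := Nat.cast_nonneg _
  have hU1 : (U.card : ℝ) * C ≤ 2 * N := by nlinarith
  have hU2 : 2 * (U.card : ℝ) ≤ N := by nlinarith
  have hUs : C * ∑ j ∈ U, (b j).re ≤ - (N / 4) := by
    have h1 : C * ∑ j ∈ V, (b j).re + C * ∑ j ∈ U, (b j).re = C * R := by
      rw [← mul_add, hsplit]
    linarith
  have hUs' : ∑ j ∈ U, (b j).re ≤ - (N / (4 * C)) := by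
    have h1 : - (N / (4 * C)) = (- (N / 4)) / C := by field_simp
    rw [h1, le_div_iff₀ hC0]
    linarith
  rcases Nat.eq_zero_or_pos N with hN | hN
  · subst hN
    simpa using hS0
  · have hN0 : (0 : ℝ) < N := by exact_mod_cast hN
    have h1 := An1_cs b U (x := N / (4 * C)) (m := 2 * N / C) (by positivity)
      (by rw [le_div_iff₀ hC0]; exact hU1) hUs'
    rw [← hS] at h1
    have h2 : N / (32 * C) ≤ S := by
      rw [div_pow, div_le_iff₀ (by positivity)] at h1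
      have h3 : 2 * (N : ℝ) / C * S * (4 * C) ^ 2 = N * (32 * C * S) := by
        field_simp
        ring
      rw [h3, sq] at h1
      have h4 := le_of_mul_le_mul_left h1 hN0
      rw [div_le_iff₀ (by positivity)]
      linarith
    refine le_trans ?_ h2
    rw [one_div, ← div_eq_inv_mul, div_div, div_le_div_iff₀ (by positivity) (by positivity)]
    nlinarith

/-- the case of small `C` -/
theorem An1_small {N : ℕ} {b : Fin N → ℂ} {C κ : ℝ} (hκ : 0 < κ) (h : Dat N b C) (hC : C ≤ 4)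
    (hκC : κ ≤ C) (hR : 1300 * (1 + 1 / κ) * (∑ j, b j).re ≤ N) :
    1 / 62500 * (N / (C + 1)) ≤ ∑ j ∈ univ.filter (fun j => (b j).re ≤ 0), (b j).re ^ 2 := by
  have hC0 : 0 < C := h.C_pos
  set S := ∑ j ∈ univ.filter (fun j => (b j).re ≤ 0), (b j).re ^ 2 with hS
  have hS0 : 0 ≤ S := sum_nonneg fun j _ => sq_nonneg _
  set R := (∑ j, b j).re with hRdef
  have hR0 : 0 ≤ R := h.re_nonneg
  have hRs : R = ∑ j, (b j).re := Complex.re_sum _ _
  have hκ1 : 0 < 1 / κ := by positivity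
  have hRN : 1300 * R ≤ N := by nlinarith
  -- lower bound for the norms
  have hnorm : (3 / 256 : ℝ) * N ≤ ∑ j, ‖b j‖ ^ 2 := by
    have h1 : ∀ j, 1 / 64 * (1 - ‖(b j)⁻¹ - (C : ℂ)‖ / 4) ≤ ‖b j‖ ^ 2 := by
      intro j
      by_cases hX : 4 < ‖(b j)⁻¹ - (C : ℂ)‖
      · have : 0 ≤ ‖b j‖ ^ 2 := sq_nonneg _
        nlinarith
      · push Not at hX
        have h2 : ‖(b j)⁻¹‖ ≤ 8 := by
          have h3 : ‖(b j)⁻¹‖ ≤ ‖(b j)⁻¹ - (C : ℂ)‖ + ‖(C : ℂ)‖ := by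
            have := norm_add_le ((b j)⁻¹ - (C : ℂ)) (C : ℂ)
            rwa [sub_add_cancel] at this
          have h4 : ‖(C : ℂ)‖ = C := by rw [Complex.norm_real, Real.norm_of_nonneg hC0.le]
          linarith
        have hb : 0 < ‖b j‖ := norm_pos_iff.2 (h.ne j)
        rw [norm_inv, inv_le_comm₀ hb (by norm_num)] at h2
        have h5 : (1 / 64 : ℝ) ≤ ‖b j‖ ^ 2 := by
          have h6 : (8 : ℝ)⁻¹ ^ 2 ≤ ‖b j‖ ^ 2 := pow_le_pow_left₀ (by norm_num) h2 2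
          norm_num at h6 ⊢
          linarith
        have h7 := norm_nonneg ((b j)⁻¹ - (C : ℂ))
        linarith
    have h2 := sum_le_sum fun j (_ : j ∈ (univ : Finset (Fin N))) => h1 j
    rw [← mul_sum, sum_sub_distrib, ← sum_div] at h2
    have h3 : ∑ _j : Fin N, (1 : ℝ) = N := by simp
    rw [h3] at h2
    have h4 := h.sum_le
    linarith
  have him : ∑ j, (b j).im ^ 2 ≤ 2 / 1300 * N := by
    have h1 := h.sum_im_sq_le
    have h2 : (1 + C) * R ≤ C * (N / 1300) := by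
      have h3 : 1 + C ≤ C * (1 + 1 / κ) := by
        have h4 : 1 ≤ C * (1 / κ) := by
          rw [mul_one_div, le_div_iff₀ hκ]; linarith
        linarith
      calc (1 + C) * R ≤ C * (1 + 1 / κ) * R := by gcongr
        _ = C * ((1300 * (1 + 1 / κ) * R) / 1300) := by ring
        _ ≤ C * (N / 1300) := by gcongr
    have h3 : C * ∑ j, (b j).im ^ 2 ≤ C * (2 / 1300 * N) := by
      calc C * ∑ j, (b j).im ^ 2 ≤ 2 * (1 + C) * R := h1
        _ ≤ C * (2 / 1300 * N) := by linarith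
    exact le_of_mul_le_mul_left h3 hC0
  have hre : (1 / 100 : ℝ) * N ≤ ∑ j, (b j).re ^ 2 := by
    have h1 : ∑ j, ‖b j‖ ^ 2 = ∑ j, (b j).re ^ 2 + ∑ j, (b j).im ^ 2 := by
      rw [← sum_add_distrib]
      refine sum_congr rfl fun j _ => ?_
      rw [← Complex.normSq_eq_norm_sq, Complex.normSq_apply]
      ring
    have hN : (0 : ℝ) ≤ N := Nat.cast_nonneg _
    linarith
  have habs : (1 / 100 : ℝ) * N ≤ ∑ j, |(b j).re| := by
    refine hre.trans (sum_le_sum fun j _ => ?_)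
    have h1 : |(b j).re| ≤ 1 := (Complex.abs_re_le_norm _).trans (h.le_one j)
    have h2 : 0 ≤ |(b j).re| := abs_nonneg _
    rw [← sq_abs]
    nlinarith
  have hneg : ∑ j ∈ univ.filter (fun j => (b j).re ≤ 0), (b j).re ≤ - (1 / 250 * N) := by
    have e1 := sum_filter_add_sum_filter_not (univ : Finset (Fin N)) (fun j => (b j).re ≤ 0)
      (fun j => (b j).re)
    have e2 := sum_filter_add_sum_filter_not (univ : Finset (Fin N)) (fun j => (b j).re ≤ 0)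
      (fun j => |(b j).re|)
    have e3 : ∑ j ∈ univ.filter (fun j => (b j).re ≤ 0), |(b j).re| =
        - ∑ j ∈ univ.filter (fun j => (b j).re ≤ 0), (b j).re := by
      rw [← sum_neg_distrib]
      exact sum_congr rfl fun j hj => abs_of_nonpos (mem_filter.1 hj).2
    have e4 : ∑ j ∈ univ.filter (fun j => ¬ (b j).re ≤ 0), |(b j).re| =
        ∑ j ∈ univ.filter (fun j => ¬ (b j).re ≤ 0), (b j).re :=
      sum_congr rfl fun j hj => abs_of_pos (not_le.1 (mem_filter.1 hj).2)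
    rw [← hRs] at e1
    have hN : (0 : ℝ) ≤ N := Nat.cast_nonneg _
    linarith
  have hcard : ((univ.filter (fun j : Fin N => (b j).re ≤ 0)).card : ℝ) ≤ N := by
    have : (univ.filter (fun j : Fin N => (b j).re ≤ 0)).card ≤ N := by
      simpa using card_filter_le (univ : Finset (Fin N)) (fun j => (b j).re ≤ 0)
    exact_mod_cast this
  rcases Nat.eq_zero_or_pos N with hN | hN
  · subst hN
    simpa using hS0
  · have hN0 : (0 : ℝ) < N := by exact_mod_cast hN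
    have h1 := An1_cs b _ (x := 1 / 250 * N) (m := N) (by positivity) hcard hneg
    rw [← hS] at h1
    have h2 : 1 / 62500 * (N : ℝ) ≤ S := by
      have h3 : (N : ℝ) * (1 / 62500 * N) ≤ N * S := by
        calc (N : ℝ) * (1 / 62500 * N) = (1 / 250 * N) ^ 2 := by ring
          _ ≤ N * S := h1
      exact le_of_mul_le_mul_left h3 hN0
    refine le_trans ?_ h2
    have h4 : (N : ℝ) / (C + 1) ≤ N := div_le_self hN0.le (by linarith)
    linarith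

/-- Lower bound for the part of the mass on the negative side.  Notation `X_j = ‖(b j)⁻¹ - C‖`,
`R = (∑ b_j).re ≥ 0`, `R ≤ η N / (C+1)`.

Case `C ≥ 4`.  `U = {j | 1/2 ≤ ‖b j‖}`, `U^c = {‖b j‖ < 1/2}`.  For `j ∉ U`:
`C Re b_j ≥ 1 - ‖1 - C b_j‖ = 1 - X_j ‖b j‖ ≥ 1 - X_j / 2`.  `∑_{U^c} X_j ≤ 2 C R` (`sum_small_le`).
So `∑_U C Re b_j = C R - ∑_{U^c} C Re b_j ≤ 2 C R - |U^c|`.  For `j ∈ U`: `‖(b j)⁻¹‖ ≤ 2`,
`X_j ≥ C - 2`, so `|U| (C - 2) ≤ N`, `|U| ≤ N / 2`, `|U^c| ≥ N / 2`.  `C R ≤ η N`.  With `η ≤ 1/8`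
`∑_U Re b_j ≤ - N / (4 C)`.  Cauchy-Schwarz on `U ∩ {Re ≤ 0}`:
`(N/(4C))^2 ≤ |U| ∑_{Re ≤ 0} (Re b_j)^2`, `|U| ≤ N/(C-2) ≤ 2 N / C`, so
`∑_{Re ≤ 0} (Re b_j)^2 ≥ N/(32 C) ≥ N/(32 (C+1))`.

Case `κ ≤ C ≤ 4`.  `1 / ‖b j‖ ≤ X_j + C ≤ X_j + 4`; at most `N/4` indices have `X_j > 4`, the others
have `‖b j‖ ≥ 1/8`; so `∑ ‖b j‖^2 ≥ (3/4) N / 64 ≥ N / 86`.  By `sum_im_sq_le`
`∑ (Im b_j)^2 ≤ 2 (1 + 1/κ) R ≤ 2 (1 + 1/κ) η N ≤ N (1/86 - 1/100)` for small `η`, so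
`∑ |Re b_j| ≥ ∑ (Re b_j)^2 ≥ N / 100`, and `R ≤ η N` gives `∑_{Re ≤ 0} |Re b_j| ≥ N / 250`;
Cauchy-Schwarz: `∑_{Re ≤ 0} (Re b_j)^2 ≥ N / 62500`. -/
theorem sum_re_sq_ge {κ : ℝ} (hκ : 0 < κ) :
    ∃ η : ℝ, 0 < η ∧ ∀ (N : ℕ) (b : Fin N → ℂ) (C : ℝ), Dat N b C → κ ≤ C →
      (∑ j, b j).re ≤ η * (N / (C + 1)) →
      1 / 62500 * (N / (C + 1)) ≤ ∑ j ∈ univ.filter (fun j => (b j).re ≤ 0), (b j).re ^ 2 := by
  have hκ1 : 0 < 1 / κ := by positivity
  refine ⟨1 / (1300 * (1 + 1 / κ)), by positivity, fun N b C h hκC hR => ?_⟩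
  have hC0 : 0 < C := h.C_pos
  have hR0 := h.re_nonneg
  have hN : (0 : ℝ) ≤ N := Nat.cast_nonneg _
  have h1 : 1300 * (1 + 1 / κ) * (∑ j, b j).re ≤ N / (C + 1) := by
    have h2 : (0 : ℝ) < 1300 * (1 + 1 / κ) := by positivity
    rw [one_div, ← div_eq_inv_mul, le_div_iff₀ h2] at hR
    linarith
  rcases le_total 4 C with hC | hC
  · refine An1_large h hC ?_
    have h2 : 1300 * (∑ j, b j).re ≤ N / (C + 1) := by nlinarith
    rw [le_div_iff₀ (by linarith)] at h2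
    nlinarith
  · refine An1_small hκ h hC hκC (h1.trans ?_)
    exact div_le_self hN (by linarith)

end Pool.MP_c113aa_an.B1
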