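import Pool.Agent.Lib.c113aaP.An1

set_option autoImplicit false

namespace Pool.MP_c113aa_an.B1

open Finset

variable {N : ℕ} {b : Fin N → ℂ} {C : ℝ}

private theorem an8_sum_normsq_le (h : Dat N b C) : ∑ j, ‖b j‖ ^ 2 ≤ 3 * (N / (C + 1)) := by
  have hC := h.C_pos
  have h1 : ∑ j, ‖b j‖ ^ 2 ≤ ∑ j, ‖b j‖ := by
    apply Finset.sum_le_sum
    intro j _
    have h2 := h.le_one j
    have h3 := norm_nonneg (b j)
    nlinarith
  have h4 := h.sum_norm_le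
  have h5 : ∑ j, ‖b j‖ ≤ 3 * (N / (C + 1)) := by
    rw [← mul_div_assoc, le_div_iff₀ (by linarith)]
    linarith
  linarith

private theorem an8_im (b : Fin N → ℂ) : (∑ j, b j ^ 2).im = 2 * ∑ j, (b j).re * (b j).im := by
  rw [Complex.im_sum, Finset.mul_sum]
  apply Finset.sum_congr rfl
  intro j _
  rw [pow_two, Complex.mul_im]
  ring

private theorem an8_re (b : Fin N → ℂ) :
    (∑ j, b j ^ 2).re = ∑ j, (b j).re ^ 2 - ∑ j, (b j).im ^ 2 := by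
  rw [Complex.re_sum, ← Finset.sum_sub_distrib]
  apply Finset.sum_congr rfl
  intro j _
  rw [pow_two, Complex.mul_re]
  ring

private theorem an8_normsq (z : ℂ) : ‖z‖ ^ 2 = z.re ^ 2 + z.im ^ 2 := by
  rw [Complex.sq_norm, Complex.normSq_apply]
  ring

/-- `V₂ = ∑ b_j^2`.  `Im V₂ = 2 ∑ Re b_j Im b_j`, Cauchy-Schwarz:
`(Im V₂)^2 ≤ 4 ∑ ‖b j‖^2 ∑ (Im b_j)^2 ≤ 4 (3 d) (2 (1 + 1/C) R)`, `d = N/(C+1)`
(`sum_norm_le`, `‖b j‖ ≤ 1`, `sum_im_sq_le`). -/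
theorem Dat.im_sq_le (h : Dat N b C) :
    C * (∑ j, b j ^ 2).im ^ 2 ≤ 24 * (1 + C) * (N / (C + 1)) * (∑ j, b j).re := by
  have hC := h.C_pos
  have hR := h.re_nonneg
  have h1 := an8_sum_normsq_le h
  have h2 := h.sum_im_sq_le
  have h3 : ∑ j, (b j).re ^ 2 ≤ ∑ j, ‖b j‖ ^ 2 := by
    apply Finset.sum_le_sum
    intro j _
    rw [an8_normsq]
    have := sq_nonneg (b j).im
    linarith
  have h4 := Finset.sum_mul_sq_le_sq_mul_sq univ (fun j => (b j).re) (fun j => (b j).im)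
  have h5 : 0 ≤ ∑ j, (b j).im ^ 2 := Finset.sum_nonneg fun j _ => sq_nonneg _
  have h6 : 0 ≤ 3 * ((N : ℝ) / (C + 1)) := by positivity
  rw [an8_im]
  calc C * (2 * ∑ j, (b j).re * (b j).im) ^ 2
      = 4 * C * (∑ j, (b j).re * (b j).im) ^ 2 := by ring
    _ ≤ 4 * C * ((∑ j, (b j).re ^ 2) * ∑ j, (b j).im ^ 2) := by gcongr
    _ ≤ 4 * C * (3 * (N / (C + 1)) * ∑ j, (b j).im ^ 2) := by
        gcongr
        linarith
    _ = 4 * (3 * (N / (C + 1))) * (C * ∑ j, (b j).im ^ 2) := by ring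
    _ ≤ 4 * (3 * (N / (C + 1))) * (2 * (1 + C) * (∑ j, b j).re) := by gcongr
    _ = 24 * (1 + C) * (N / (C + 1)) * (∑ j, b j).re := by ring

/-- `‖V₂‖ ≤ 3 d`. -/
theorem Dat.norm_sq_le (h : Dat N b C) : ‖∑ j, b j ^ 2‖ ≤ 3 * (N / (C + 1)) := by
  calc ‖∑ j, b j ^ 2‖ ≤ ∑ j, ‖b j ^ 2‖ := norm_sum_le _ _
    _ = ∑ j, ‖b j‖ ^ 2 := by simp only [norm_pow]
    _ ≤ 3 * (N / (C + 1)) := an8_sum_normsq_le h

/-- For small `η`: `Re V₂ = ∑ (Re b_j)^2 - ∑ (Im b_j)^2 ≥ c₃ d - 2 (1+1/κ) η d ≥ (c₃/2) d` with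
`c₃ = 1/62500` (`sum_re_sq_ge`, `sum_im_sq_le`), and `|Im V₂| ≤ (24 (1+1/κ) η)^{1/2} d ≤ Re V₂ / 4`
(`im_sq_le`). -/
theorem exists_eta {κ : ℝ} (hκ : 0 < κ) :
    ∃ η : ℝ, 0 < η ∧ ∀ (N : ℕ) (b : Fin N → ℂ) (C : ℝ), Dat N b C → κ ≤ C →
      (∑ j, b j).re ≤ η * (N / (C + 1)) →
      1 / 62500 * (N / (C + 1)) ≤ ∑ j ∈ univ.filter (fun j => (b j).re ≤ 0), (b j).re ^ 2 ∧
      1 / 125000 * (N / (C + 1)) ≤ (∑ j, b j ^ 2).re ∧
      |(∑ j, b j ^ 2).im| ≤ (∑ j, b j ^ 2).re / 4 := by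
  obtain ⟨η₀, hη₀, hη⟩ := sum_re_sq_ge hκ
  obtain ⟨K, hKdef⟩ : ∃ K, K = 1 + 1 / κ := ⟨_, rfl⟩
  have hK1 : 0 < K := by rw [hKdef]; positivity
  refine ⟨min η₀ (1 / (6000000000000 * K)), lt_min hη₀ (by positivity), ?_⟩
  intro N b C h hκC hR
  have hC := h.C_pos
  have hR0 := h.re_nonneg
  obtain ⟨d, hd⟩ : ∃ d : ℝ, d = (N : ℝ) / (C + 1) := ⟨_, rfl⟩
  have hd0 : 0 ≤ d := by rw [hd]; positivity
  have e1 := hη N b C h hκC (hR.trans (by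
    rw [← hd]
    exact mul_le_mul_of_nonneg_right (min_le_left _ _) hd0))
  have e2 := h.sum_im_sq_le
  have e3 := h.im_sq_le
  rw [← hd] at e1 e3 hR ⊢
  have hR2 : (∑ j, b j).re ≤ 1 / (6000000000000 * K) * d :=
    hR.trans (mul_le_mul_of_nonneg_right (min_le_right _ _) hd0)
  have hKR : K * (∑ j, b j).re ≤ d / 6000000000000 := by
    calc K * (∑ j, b j).re ≤ K * (1 / (6000000000000 * K) * d) := by gcongr
      _ = d / 6000000000000 := by field_simp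
  have hCK : 1 + C ≤ K * C := by
    have : 1 ≤ 1 / κ * C := by
      rw [one_div, inv_mul_eq_div, le_div_iff₀ hκ]
      linarith
    rw [hKdef]
    linarith
  have e4 : ∑ j, (b j).im ^ 2 ≤ 2 * (d / 6000000000000) := by
    have : C * ∑ j, (b j).im ^ 2 ≤ C * (2 * (d / 6000000000000)) := by
      calc C * ∑ j, (b j).im ^ 2 ≤ 2 * (1 + C) * (∑ j, b j).re := e2
        _ ≤ 2 * (K * C) * (∑ j, b j).re := by gcongr
        _ = C * (2 * (K * (∑ j, b j).re)) := by ring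
        _ ≤ C * (2 * (d / 6000000000000)) := by gcongr
    exact le_of_mul_le_mul_left this hC
  have e5 : (∑ j, b j ^ 2).im ^ 2 ≤ (d / 500000) ^ 2 := by
    have : C * (∑ j, b j ^ 2).im ^ 2 ≤ C * (d / 500000) ^ 2 := by
      calc C * (∑ j, b j ^ 2).im ^ 2 ≤ 24 * (1 + C) * d * (∑ j, b j).re := e3
        _ ≤ 24 * (K * C) * d * (∑ j, b j).re := by gcongr
        _ = C * (24 * d * (K * (∑ j, b j).re)) := by ring
        _ ≤ C * (24 * d * (d / 6000000000000)) := by gcongr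
        _ = C * (d / 500000) ^ 2 := by ring
    exact le_of_mul_le_mul_left this hC
  have e6 : ∑ j ∈ univ.filter (fun j => (b j).re ≤ 0), (b j).re ^ 2 ≤ ∑ j, (b j).re ^ 2 :=
    Finset.sum_le_sum_of_subset_of_nonneg (Finset.filter_subset _ _) fun j _ _ => sq_nonneg _
  have e7 : 1 / 125000 * d ≤ (∑ j, b j ^ 2).re := by
    rw [an8_re]
    linarith
  refine ⟨e1, e7, ?_⟩
  have e8 : |(∑ j, b j ^ 2).im| ≤ d / 500000 := abs_le_of_sq_le_sq e5 (by positivity)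
  linarith

end Pool.MP_c113aa_an.B1
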