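import Mathlib

set_option autoImplicit false

namespace Pool.MP_c113aa_an.B1

private theorem anM_one_sub_cos_le (v : ℝ) : 1 - Real.cos v ≤ |v| := by
  rcases le_or_gt |v| 2 with h | h
  · have h1 := Real.one_sub_sq_div_two_le_cos (x := v)
    have h2 : v ^ 2 = |v| ^ 2 := (sq_abs v).symm
    nlinarith [abs_nonneg v]
  · have := Real.neg_one_le_cos v
    linarith

private theorem anM_g_cont (α : ℝ) : Continuous fun u : ℝ => Real.exp (-α * u - u ^ 2 / 2) := by
  fun_prop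

private theorem anM_g_lower {K α u : ℝ} (hα : 0 ≤ α) (hαK : α ≤ K) (hu0 : 0 ≤ u) (hu1 : u ≤ 1) :
    Real.exp (-K - 1 / 2) ≤ Real.exp (-α * u - u ^ 2 / 2) := by
  apply Real.exp_le_exp.2
  have h1 : α * u ≤ K := by nlinarith
  have h2 : u ^ 2 ≤ 1 := by nlinarith
  linarith

/-- the real part -/
private theorem anM_re {K α β S : ℝ} (hα : 0 ≤ α) (hαK : α ≤ K) (hS : 1 ≤ S) :
    Real.exp (-K - 1 / 2) - |β| ≤
      ∫ u in (0 : ℝ)..S, Real.exp (-α * u - u ^ 2 / 2) * Real.cos (β * u) := by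
  have hS0 : (0 : ℝ) ≤ S := by linarith
  have hc1 : Continuous fun u : ℝ => Real.exp (-α * u - u ^ 2 / 2) * Real.cos (β * u) := by fun_prop
  have hc2 : Continuous fun u : ℝ => Real.exp (-α * u - u ^ 2 / 2) := anM_g_cont α
  have hc3 : Continuous fun u : ℝ => |β| * (u * Real.exp (-(u ^ 2 / 2))) := by fun_prop
  have h1 : ∫ u in (0 : ℝ)..S, (Real.exp (-α * u - u ^ 2 / 2) - |β| * (u * Real.exp (-(u ^ 2 / 2))))
      ≤ ∫ u in (0 : ℝ)..S, Real.exp (-α * u - u ^ 2 / 2) * Real.cos (β * u) := by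
    apply intervalIntegral.integral_mono_on hS0 ((hc2.sub hc3).intervalIntegrable _ _)
      (hc1.intervalIntegrable _ _)
    intro u hu
    have hu0 : 0 ≤ u := hu.1
    have e1 := anM_one_sub_cos_le (β * u)
    rw [abs_mul, abs_of_nonneg hu0] at e1
    have e2 : Real.exp (-α * u - u ^ 2 / 2) ≤ Real.exp (-(u ^ 2 / 2)) := by
      apply Real.exp_le_exp.2
      have := mul_nonneg hα hu0
      linarith
    have e3 : 0 ≤ 1 - Real.cos (β * u) := by linarith [Real.cos_le_one (β * u)]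
    have e4 : Real.exp (-α * u - u ^ 2 / 2) * (1 - Real.cos (β * u)) ≤
        Real.exp (-(u ^ 2 / 2)) * (|β| * u) :=
      mul_le_mul e2 e1 e3 (Real.exp_pos _).le
    change Real.exp (-α * u - u ^ 2 / 2) - |β| * (u * Real.exp (-(u ^ 2 / 2))) ≤
      Real.exp (-α * u - u ^ 2 / 2) * Real.cos (β * u)
    have e5 : Real.exp (-(u ^ 2 / 2)) * (|β| * u) = |β| * (u * Real.exp (-(u ^ 2 / 2))) := by ring
    linarith
  have h2 : ∫ u in (0 : ℝ)..S, (Real.exp (-α * u - u ^ 2 / 2) - |β| * (u * Real.exp (-(u ^ 2 / 2))))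
      = (∫ u in (0 : ℝ)..S, Real.exp (-α * u - u ^ 2 / 2)) -
        |β| * ∫ u in (0 : ℝ)..S, u * Real.exp (-(u ^ 2 / 2)) := by
    rw [intervalIntegral.integral_sub (hc2.intervalIntegrable _ _) (hc3.intervalIntegrable _ _),
      intervalIntegral.integral_const_mul]
  have h3 : ∫ u in (0 : ℝ)..S, u * Real.exp (-(u ^ 2 / 2)) = 1 - Real.exp (-(S ^ 2 / 2)) := by
    have hd : ∀ u ∈ Set.uIcc (0 : ℝ) S, HasDerivAt (fun u : ℝ => - Real.exp (-(u ^ 2 / 2)))
        (u * Real.exp (-(u ^ 2 / 2))) u := by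
      intro u _
      have a1 : HasDerivAt (fun u : ℝ => -(u ^ 2 / 2)) (-u) u :=
        ((hasDerivAt_pow 2 u).div_const 2).neg.congr_deriv (by norm_num)
      exact a1.exp.neg.congr_deriv (by ring)
    rw [intervalIntegral.integral_eq_sub_of_hasDerivAt hd
      ((by fun_prop : Continuous fun u : ℝ => u * Real.exp (-(u ^ 2 / 2))).intervalIntegrable _ _)]
    have e0 : -((0 : ℝ) ^ 2 / 2) = 0 := by norm_num
    rw [e0, Real.exp_zero]
    ring
  have h4 : ∫ u in (0 : ℝ)..S, u * Real.exp (-(u ^ 2 / 2)) ≤ 1 := by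
    rw [h3]
    linarith [Real.exp_pos (-(S ^ 2 / 2))]
  have h5 : Real.exp (-K - 1 / 2) ≤ ∫ u in (0 : ℝ)..S, Real.exp (-α * u - u ^ 2 / 2) := by
    have a1 : ∫ u in (0 : ℝ)..1, Real.exp (-K - 1 / 2) ≤
        ∫ u in (0 : ℝ)..1, Real.exp (-α * u - u ^ 2 / 2) := by
      apply intervalIntegral.integral_mono_on zero_le_one (by simp) (hc2.intervalIntegrable _ _)
      intro u hu
      exact anM_g_lower hα hαK hu.1 hu.2
    have a2 : (∫ u in (0 : ℝ)..1, Real.exp (-α * u - u ^ 2 / 2)) +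
        ∫ u in (1 : ℝ)..S, Real.exp (-α * u - u ^ 2 / 2) =
        ∫ u in (0 : ℝ)..S, Real.exp (-α * u - u ^ 2 / 2) :=
      intervalIntegral.integral_add_adjacent_intervals (hc2.intervalIntegrable _ _)
        (hc2.intervalIntegrable _ _)
    have a3 : 0 ≤ ∫ u in (1 : ℝ)..S, Real.exp (-α * u - u ^ 2 / 2) :=
      intervalIntegral.integral_nonneg hS fun u _ => (Real.exp_pos _).le
    have a4 : ∫ u in (0 : ℝ)..1, Real.exp (-K - 1 / 2) = Real.exp (-K - 1 / 2) := by simp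
    linarith
  have h6 : |β| * ∫ u in (0 : ℝ)..S, u * Real.exp (-(u ^ 2 / 2)) ≤ |β| * 1 :=
    mul_le_mul_of_nonneg_left h4 (abs_nonneg β)
  linarith

/-- the imaginary part -/
private theorem anM_im {K α β S : ℝ} (hK : 0 < K) (hα : 0 ≤ α) (hαK : α ≤ K) (hβ : |β| ≤ K)
    (hS : 1 ≤ S) :
    (2 / Real.pi ^ 2 * Real.exp (-K - 1 / 2) * ((1 / (1 + K)) ^ 4 / 4)) * β ^ 2 ≤
      β * ∫ u in (0 : ℝ)..S, Real.exp (-α * u - u ^ 2 / 2) * Real.sin (β * u) := by
  have hS0 : (0 : ℝ) ≤ S := by linarith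
  set r : ℝ := 1 / (1 + K) with hr
  have hr0 : 0 < r := by positivity
  have hr1 : r ≤ 1 := by
    rw [hr, div_le_one (by linarith)]
    linarith
  have hrS : r ≤ S := by linarith
  have hrK : K * r ≤ 1 := by
    rw [hr, mul_one_div, div_le_one (by linarith)]
    linarith
  have hcg : Continuous fun u : ℝ => Real.exp (-α * u - u ^ 2 / 2) := anM_g_cont α
  have hc1 : Continuous fun u : ℝ => Real.exp (-α * u - u ^ 2 / 2) * Real.sin (β * u) := by fun_prop
  have hc2 : Continuous fun u : ℝ => (1 - Real.cos (β * u)) * ((α + u) *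
      Real.exp (-α * u - u ^ 2 / 2)) := by fun_prop
  have hd : ∀ u ∈ Set.uIcc (0 : ℝ) S,
      HasDerivAt (fun u : ℝ => (1 - Real.cos (β * u)) * Real.exp (-α * u - u ^ 2 / 2))
        (β * (Real.exp (-α * u - u ^ 2 / 2) * Real.sin (β * u)) -
          (1 - Real.cos (β * u)) * ((α + u) * Real.exp (-α * u - u ^ 2 / 2))) u := by
    intro u _
    have b0 : HasDerivAt (fun u : ℝ => β * u) β u := by
      simpa using (hasDerivAt_id u).const_mul β
    have b1 : HasDerivAt (fun u : ℝ => 1 - Real.cos (β * u)) (Real.sin (β * u) * β) u :=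
      ((b0.cos).const_sub 1).congr_deriv (by ring)
    have b2 : HasDerivAt (fun u : ℝ => -α * u - u ^ 2 / 2) (-α - u) u := by
      have c1 : HasDerivAt (fun u : ℝ => -α * u) (-α) u := by
        simpa using (hasDerivAt_id u).const_mul (-α)
      have c2 : HasDerivAt (fun u : ℝ => u ^ 2 / 2) u u :=
        ((hasDerivAt_pow 2 u).div_const 2).congr_deriv (by norm_num)
      exact c1.sub c2
    exact (b1.mul b2.exp).congr_deriv (by ring)
  have hi : ∫ u in (0 : ℝ)..S, (β * (Real.exp (-α * u - u ^ 2 / 2) * Real.sin (β * u)) -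
      (1 - Real.cos (β * u)) * ((α + u) * Real.exp (-α * u - u ^ 2 / 2))) =
      (1 - Real.cos (β * S)) * Real.exp (-α * S - S ^ 2 / 2) := by
    rw [intervalIntegral.integral_eq_sub_of_hasDerivAt hd
      (((hc1.const_mul β).sub hc2).intervalIntegrable _ _)]
    simp
  rw [intervalIntegral.integral_sub ((hc1.const_mul β).intervalIntegrable _ _)
    (hc2.intervalIntegrable _ _), intervalIntegral.integral_const_mul] at hi
  have hend : 0 ≤ (1 - Real.cos (β * S)) * Real.exp (-α * S - S ^ 2 / 2) :=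
    mul_nonneg (by linarith [Real.cos_le_one (β * S)]) (Real.exp_pos _).le
  have hsplit : (∫ u in (0 : ℝ)..r, (1 - Real.cos (β * u)) * ((α + u) *
      Real.exp (-α * u - u ^ 2 / 2))) + ∫ u in r..S, (1 - Real.cos (β * u)) * ((α + u) *
      Real.exp (-α * u - u ^ 2 / 2)) = ∫ u in (0 : ℝ)..S, (1 - Real.cos (β * u)) * ((α + u) *
      Real.exp (-α * u - u ^ 2 / 2)) :=
    intervalIntegral.integral_add_adjacent_intervals (hc2.intervalIntegrable _ _)
      (hc2.intervalIntegrable _ _)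
  have hnn : 0 ≤ ∫ u in r..S, (1 - Real.cos (β * u)) * ((α + u) *
      Real.exp (-α * u - u ^ 2 / 2)) := by
    apply intervalIntegral.integral_nonneg hrS
    intro u hu
    have : 0 ≤ u := hr0.le.trans hu.1
    exact mul_nonneg (by linarith [Real.cos_le_one (β * u)])
      (mul_nonneg (by linarith) (Real.exp_pos _).le)
  have hlow : ∫ u in (0 : ℝ)..r, (2 / Real.pi ^ 2 * Real.exp (-K - 1 / 2) * β ^ 2) * u ^ 3 ≤
      ∫ u in (0 : ℝ)..r, (1 - Real.cos (β * u)) * ((α + u) * Real.exp (-α * u - u ^ 2 / 2)) := by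
    apply intervalIntegral.integral_mono_on hr0.le
      ((by fun_prop : Continuous fun u : ℝ =>
        (2 / Real.pi ^ 2 * Real.exp (-K - 1 / 2) * β ^ 2) * u ^ 3).intervalIntegrable _ _)
      (hc2.intervalIntegrable _ _)
    intro u hu
    have hu0 : 0 ≤ u := hu.1
    have hu1 : u ≤ 1 := hu.2.trans hr1
    have hbu : |β * u| ≤ Real.pi := by
      rw [abs_mul, abs_of_nonneg hu0]
      have : |β| * u ≤ K * r := mul_le_mul hβ hu.2 hu0 hK.le
      linarith [Real.pi_gt_three]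
    have e1 := Real.cos_le_one_sub_mul_cos_sq hbu
    have e2 : 2 / Real.pi ^ 2 * (β * u) ^ 2 ≤ 1 - Real.cos (β * u) := by linarith
    have e3 := anM_g_lower hα hαK hu0 hu1
    have e4 : u * Real.exp (-K - 1 / 2) ≤ (α + u) * Real.exp (-α * u - u ^ 2 / 2) :=
      mul_le_mul (by linarith) e3 (Real.exp_pos _).le (by linarith)
    have e5 : 2 / Real.pi ^ 2 * (β * u) ^ 2 * (u * Real.exp (-K - 1 / 2)) ≤
        (1 - Real.cos (β * u)) * ((α + u) * Real.exp (-α * u - u ^ 2 / 2)) :=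
      mul_le_mul e2 e4 (mul_nonneg hu0 (Real.exp_pos _).le)
        (by linarith [Real.cos_le_one (β * u)])
    calc (2 / Real.pi ^ 2 * Real.exp (-K - 1 / 2) * β ^ 2) * u ^ 3
        = 2 / Real.pi ^ 2 * (β * u) ^ 2 * (u * Real.exp (-K - 1 / 2)) := by ring
      _ ≤ _ := e5
  rw [intervalIntegral.integral_const_mul, integral_pow] at hlow
  have hfin : (2 / Real.pi ^ 2 * Real.exp (-K - 1 / 2) * (r ^ 4 / 4)) * β ^ 2 =
      2 / Real.pi ^ 2 * Real.exp (-K - 1 / 2) * β ^ 2 * ((r ^ (3 + 1) - 0 ^ (3 + 1)) / (↑3 + 1)) := by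
    norm_num
    ring
  rw [hfin]
  linarith

/-- Mills type lower bound, uniform in `S ≥ 1`.  `g(u) = exp(-α u - u^2/2)` is positive, decreasing.
Imaginary part: `| β ∫_0^S sin(β u) g du | = (1 - cos β S) g(S) + ∫_0^S (1 - cos β u) |g'(u)| du
≥ ∫_0^1 (1 - cos β u) u g(u) du` (integrate by parts; `|g'| = (α+u) g ≥ u g`), and `g(u) ≥ exp(-K-1/2)` on
`[0,1]`, `1 - cos(β u) ≥ c (β u)^2` for `|β u| ≤ K` (e.g. `1 - cos v = 2 sin^2(v/2)`, or: on `[0,1]` the
integral is a positive continuous function of `|β| ∈ [β₀, K]`), so `|Im| ≥ m₁(K, β₀) > 0` for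
`β₀ ≤ |β| ≤ K`.
For `|β| ≤ β₀` (β₀ ≤ 1 small): real part `∫_0^S cos(β u) g ≥ ∫_0^1 cos(1) exp(-K - 1/2) du -
∫_{π/(2β₀)}^∞ exp(-u^2/2) du` (the cosine is nonnegative for `u ≤ π/(2|β|)`), positive for small `β₀`.
Any other proof (e.g. compactness in `α, β` for the full integral and a tail estimate for large `S`) is
fine. -/
theorem mills {K : ℝ} (hK : 0 < K) :
    ∃ m : ℝ, 0 < m ∧ ∀ α β S : ℝ, 0 ≤ α → α ≤ K → |β| ≤ K → 1 ≤ S →
      m ≤ ‖∫ u in (0 : ℝ)..S, Complex.exp (-(((α : ℂ) + β * Complex.I) * u) - (u : ℂ) ^ 2 / 2)‖ := by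
  set E : ℝ := Real.exp (-K - 1 / 2) with hE
  have hE0 : 0 < E := Real.exp_pos _
  set c : ℝ := 2 / Real.pi ^ 2 * E * ((1 / (1 + K)) ^ 4 / 4) with hc
  have hc0 : 0 < c := by
    have := Real.pi_pos
    positivity
  refine ⟨min (E / 2) (c * (E / 2)), lt_min (by positivity) (by positivity), ?_⟩
  intro α β S hα hαK hβ hS
  set f : ℝ → ℂ := fun u => Complex.exp (-(((α : ℂ) + β * Complex.I) * u) - (u : ℂ) ^ 2 / 2) with hf
  have hfc : Continuous f := by
    rw [hf]
    fun_prop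
  have hfi : IntervalIntegrable f MeasureTheory.volume 0 S := hfc.intervalIntegrable _ _
  have hz : ∀ u : ℝ, (-(((α : ℂ) + β * Complex.I) * u) - (u : ℂ) ^ 2 / 2).re = -α * u - u ^ 2 / 2 ∧
      (-(((α : ℂ) + β * Complex.I) * u) - (u : ℂ) ^ 2 / 2).im = -(β * u) := by
    intro u
    have : -(((α : ℂ) + β * Complex.I) * u) - (u : ℂ) ^ 2 / 2 =
        ((-α * u - u ^ 2 / 2 : ℝ) : ℂ) + ((-(β * u) : ℝ) : ℂ) * Complex.I := by
      push_cast
      ring
    rw [this]
    constructor <;> simp [-Complex.ofReal_neg, -Complex.ofReal_mul, -Complex.ofReal_sub]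
  have hre : ∀ u, (f u).re = Real.exp (-α * u - u ^ 2 / 2) * Real.cos (β * u) := by
    intro u
    rw [hf]
    simp only
    rw [Complex.exp_re, (hz u).1, (hz u).2, Real.cos_neg]
  have him : ∀ u, (f u).im = -(Real.exp (-α * u - u ^ 2 / 2) * Real.sin (β * u)) := by
    intro u
    rw [hf]
    simp only
    rw [Complex.exp_im, (hz u).1, (hz u).2, Real.sin_neg]
    ring
  have hR : (∫ u in (0 : ℝ)..S, f u).re =
      ∫ u in (0 : ℝ)..S, Real.exp (-α * u - u ^ 2 / 2) * Real.cos (β * u) := by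
    have := Complex.reCLM.intervalIntegral_comp_comm hfi
    simp only [Complex.reCLM_apply] at this
    rw [← this]
    exact intervalIntegral.integral_congr fun u _ => hre u
  have hI : (∫ u in (0 : ℝ)..S, f u).im =
      -∫ u in (0 : ℝ)..S, Real.exp (-α * u - u ^ 2 / 2) * Real.sin (β * u) := by
    have := Complex.imCLM.intervalIntegral_comp_comm hfi
    simp only [Complex.imCLM_apply] at this
    rw [← this, ← intervalIntegral.integral_neg]
    exact intervalIntegral.integral_congr fun u _ => him u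
  have h1 := Complex.abs_re_le_norm (∫ u in (0 : ℝ)..S, f u)
  have h2 := Complex.abs_im_le_norm (∫ u in (0 : ℝ)..S, f u)
  rw [hR] at h1
  rw [hI, abs_neg] at h2
  have h3 := anM_re (β := β) hα hαK hS
  have h4 := anM_im hK hα hαK hβ hS
  rw [← hE] at h3
  rw [← hE, ← hc] at h4
  rcases le_or_gt |β| (E / 2) with hb | hb
  · refine (min_le_left _ _).trans ?_
    have := le_abs_self (∫ u in (0 : ℝ)..S, Real.exp (-α * u - u ^ 2 / 2) * Real.cos (β * u))
    linarith
  · refine (min_le_right _ _).trans ?_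
    set J := ∫ u in (0 : ℝ)..S, Real.exp (-α * u - u ^ 2 / 2) * Real.sin (β * u) with hJ
    have hb0 : 0 < |β| := by linarith [half_pos hE0]
    have h5 : β * J ≤ |β| * |J| := by
      rw [← abs_mul]
      exact le_abs_self _
    have h6 : c * |β| * |β| ≤ |J| * |β| := by
      have : c * |β| * |β| = c * β ^ 2 := by
        rw [mul_assoc, ← sq, sq_abs]
      rw [this]
      linarith [mul_comm |J| |β|]
    have h7 : c * |β| ≤ |J| := le_of_mul_le_mul_right h6 hb0
    have h8 : c * (E / 2) ≤ c * |β| := mul_le_mul_of_nonneg_left hb.le hc0.le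
    linarith

end Pool.MP_c113aa_an.B1
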