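import Pool.Agent.Lib.c113aaP.An2
import Pool.Agent.Lib.c113aaP.An8
import Pool.Agent.Lib.c113aaP.AnM

set_option autoImplicit false

namespace Pool.MP_c113aa_an.B1

open Finset

private theorem an10_log {z : ℂ} (hz : ‖z‖ ≤ 1 / 2) :
    ‖Complex.log (1 + z) - z + z ^ 2 / 2‖ ≤ 2 / 3 * ‖z‖ ^ 3 := by
  have h1 := Complex.norm_log_sub_logTaylor_le 2 (z := z) (by linarith)
  have h2 : Complex.logTaylor (2 + 1) z = z - z ^ 2 / 2 := by
    simp [Complex.logTaylor, Finset.sum_range_succ]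
    ring
  rw [h2] at h1
  have h3 : Complex.log (1 + z) - z + z ^ 2 / 2 = Complex.log (1 + z) - (z - z ^ 2 / 2) := by ring
  rw [h3]
  refine h1.trans ?_
  have h4 : (1 - ‖z‖)⁻¹ ≤ 2 := by
    rw [inv_le_comm₀ (by linarith) (by norm_num)]
    linarith
  have h5 : 0 ≤ ‖z‖ ^ 3 := by positivity
  have h6 : ‖z‖ ^ (2 + 1) * (1 - ‖z‖)⁻¹ ≤ ‖z‖ ^ 3 * 2 :=
    mul_le_mul_of_nonneg_left h4 h5
  push_cast
  rw [div_le_iff₀ (by norm_num)]
  linarith

/-- Gaussian approximation.  With `δ = - x b_j` apply `log(1 - w) = - w - w^2/2 + O(|w|^3)`: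
for `0 ≤ x ≤ 1/2`, `|log(1 - x b_j) + x b_j + x^2 b_j^2/2| ≤ x^3 ‖b j‖^3/(3 (1 - x)) ≤ (2/3) x^3 ‖b j‖`
(`Complex.norm_log_one_add_sub_taylor...` or `Complex.norm_log_sub_logTaylor_le`); so
`gg b x = exp(- x V₁ - x^2 V₂/2 + E)`, `‖E‖ ≤ 2 d x^3` (`sum_norm_le`), `d = N/(C+1)`. -/
theorem Dat.gg_eq_exp {N : ℕ} {b : Fin N → ℂ} {C : ℝ} (h : Dat N b C) {x : ℝ} (hx0 : 0 ≤ x)
    (hx : x ≤ 1 / 2) :
    ∃ E : ℂ, ‖E‖ ≤ 2 * (N / (C + 1)) * x ^ 3 ∧
      gg b x = Complex.exp (-(x * ∑ j, b j) - (x : ℂ) ^ 2 * (∑ j, b j ^ 2) / 2 + E) := by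
  have hnz : ∀ j, ‖-((x : ℂ) * b j)‖ = x * ‖b j‖ := by
    intro j
    rw [norm_neg, norm_mul, Complex.norm_real, Real.norm_of_nonneg hx0]
  have hb : ∀ j, ‖-((x : ℂ) * b j)‖ ≤ 1 / 2 := by
    intro j
    rw [hnz]
    have h1 := h.le_one j
    have h2 : x * ‖b j‖ ≤ x * 1 := mul_le_mul_of_nonneg_left h1 hx0
    linarith
  have hne : ∀ j, 1 + -((x : ℂ) * b j) ≠ 0 := by
    intro j h0
    have h1 : -((x : ℂ) * b j) = -1 := (eq_neg_of_add_eq_zero_right h0)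
    have h2 := hb j
    rw [h1, norm_neg, norm_one] at h2
    norm_num at h2
  have hC1 : 0 < C + 1 := by linarith [h.C_pos]
  refine ⟨∑ j, (Complex.log (1 + -((x : ℂ) * b j)) - (-((x : ℂ) * b j)) +
    (-((x : ℂ) * b j)) ^ 2 / 2), ?_, ?_⟩
  · have h1 : ∀ j, ‖Complex.log (1 + -((x : ℂ) * b j)) - (-((x : ℂ) * b j)) +
        (-((x : ℂ) * b j)) ^ 2 / 2‖ ≤ 2 / 3 * x ^ 3 * ‖b j‖ := by
      intro j
      refine (an10_log (hb j)).trans ?_
      rw [hnz, mul_pow]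
      have h2 : ‖b j‖ ^ 3 ≤ ‖b j‖ := by
        calc ‖b j‖ ^ 3 = ‖b j‖ ^ 2 * ‖b j‖ := by ring
          _ ≤ 1 * ‖b j‖ := mul_le_mul_of_nonneg_right
              (pow_le_one₀ (norm_nonneg _) (h.le_one j)) (norm_nonneg _)
          _ = ‖b j‖ := one_mul _
      have h3 : 0 ≤ 2 / 3 * x ^ 3 := by positivity
      calc 2 / 3 * (x ^ 3 * ‖b j‖ ^ 3) = 2 / 3 * x ^ 3 * ‖b j‖ ^ 3 := by ring
        _ ≤ 2 / 3 * x ^ 3 * ‖b j‖ := mul_le_mul_of_nonneg_left h2 h3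
    have h2 : ∑ j, ‖b j‖ ≤ 3 * (N / (C + 1)) := by
      have h3 := h.sum_norm_le
      rw [← mul_div_assoc, le_div_iff₀ hC1]
      linarith
    calc ‖∑ j, (Complex.log (1 + -((x : ℂ) * b j)) - (-((x : ℂ) * b j)) +
          (-((x : ℂ) * b j)) ^ 2 / 2)‖
        ≤ ∑ j, ‖Complex.log (1 + -((x : ℂ) * b j)) - (-((x : ℂ) * b j)) +
          (-((x : ℂ) * b j)) ^ 2 / 2‖ := norm_sum_le _ _
      _ ≤ ∑ j, 2 / 3 * x ^ 3 * ‖b j‖ := Finset.sum_le_sum fun j _ => h1 j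
      _ = 2 / 3 * x ^ 3 * ∑ j, ‖b j‖ := by rw [Finset.mul_sum]
      _ ≤ 2 / 3 * x ^ 3 * (3 * (N / (C + 1))) :=
          mul_le_mul_of_nonneg_left h2 (by positivity)
      _ = 2 * (N / (C + 1)) * x ^ 3 := by ring
  · have h1 : ∀ j ∈ (Finset.univ : Finset (Fin N)), (1 - (x : ℂ) * b j) =
        Complex.exp (Complex.log (1 + -((x : ℂ) * b j))) := by
      intro j _
      rw [Complex.exp_log (hne j)]
      ring
    unfold gg
    rw [Finset.prod_congr rfl h1, ← Complex.exp_sum]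
    congr 1
    rw [Finset.mul_sum, Finset.mul_sum, Finset.sum_div, ← Finset.sum_neg_distrib,
      ← Finset.sum_sub_distrib, ← Finset.sum_add_distrib]
    refine Finset.sum_congr rfl fun j _ => ?_
    ring

/-- the Gaussian integral after substitution -/
private theorem an10_gauss (V : ℂ) {B : ℝ} (hB : 0 < B) (y : ℝ) :
    ∫ x in (0 : ℝ)..y, Complex.exp (-((x : ℂ) * V) - (x : ℂ) ^ 2 * B / 2) =
      ((Real.sqrt B)⁻¹ : ℂ) * ∫ u in (0 : ℝ)..(Real.sqrt B * y),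
        Complex.exp (-((((V.re / Real.sqrt B : ℝ) : ℂ) + ((V.im / Real.sqrt B : ℝ) : ℂ) *
          Complex.I) * u) - (u : ℂ) ^ 2 / 2) := by
  have hs : 0 < Real.sqrt B := Real.sqrt_pos.2 hB
  have hsc : ((Real.sqrt B : ℝ) : ℂ) ≠ 0 := by exact_mod_cast hs.ne'
  have h1 := intervalIntegral.integral_comp_mul_left (a := 0) (b := y) (c := Real.sqrt B)
    (fun u : ℝ => Complex.exp (-((((V.re / Real.sqrt B : ℝ) : ℂ) +
      ((V.im / Real.sqrt B : ℝ) : ℂ) * Complex.I) * u) - (u : ℂ) ^ 2 / 2)) hs.ne'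
  rw [mul_zero] at h1
  have h2 : ∀ x : ℝ, Complex.exp (-((((V.re / Real.sqrt B : ℝ) : ℂ) +
      ((V.im / Real.sqrt B : ℝ) : ℂ) * Complex.I) * ((Real.sqrt B * x : ℝ) : ℂ)) -
      ((Real.sqrt B * x : ℝ) : ℂ) ^ 2 / 2) =
      Complex.exp (-((x : ℂ) * V) - (x : ℂ) ^ 2 * B / 2) := by
    intro x
    congr 1
    have e1 : (((V.re / Real.sqrt B : ℝ) : ℂ) + ((V.im / Real.sqrt B : ℝ) : ℂ) * Complex.I) *
        ((Real.sqrt B * x : ℝ) : ℂ) = (x : ℂ) * V := by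
      conv_rhs => rw [← Complex.re_add_im V]
      push_cast
      field_simp
    have e2 : ((Real.sqrt B * x : ℝ) : ℂ) ^ 2 = (x : ℂ) ^ 2 * B := by
      have e3 : (Real.sqrt B * x) ^ 2 = x ^ 2 * B := by
        rw [mul_pow, Real.sq_sqrt hB.le]
        ring
      exact_mod_cast e3
    rw [e1, e2]
  simp only [h2] at h1
  rw [h1, Complex.real_smul]
  push_cast
  rfl

/-- the tail -/
private theorem an10_tail {g : ℝ → ℂ} (hg : Continuous g) {a y z : ℝ} (ha : 0 < a) (hyz : y ≤ z)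
    (hy : 0 ≤ y) (h : ∀ x, y ≤ x → x ≤ z → ‖g x‖ ≤ Real.exp (-(a * x))) :
    ‖∫ x in y..z, g x‖ ≤ 1 / a := by
  have h1 : ∀ x, HasDerivAt (fun x : ℝ => -(Real.exp (-(a * x)) / a)) (Real.exp (-(a * x))) x := by
    intro x
    have h2 : HasDerivAt (fun x : ℝ => -(a * x)) (-a) x := by
      have h0 := (hasDerivAt_id x).const_mul (-a)
      simp only [mul_one, id] at h0
      have e : (fun x : ℝ => -(a * x)) = fun x => -a * x := by
        funext x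
        ring
      rw [e]
      exact h0
    have h3 : HasDerivAt (fun x : ℝ => -(Real.exp (-(a * x)) / a))
        (-(Real.exp (-(a * x)) * -a / a)) x := (h2.exp.div_const a).neg
    have e2 : -(Real.exp (-(a * x)) * -a / a) = Real.exp (-(a * x)) := by
      field_simp
    rw [e2] at h3
    exact h3
  have hint : ∫ x in y..z, Real.exp (-(a * x)) =
      -(Real.exp (-(a * z)) / a) - -(Real.exp (-(a * y)) / a) := by
    apply intervalIntegral.integral_eq_sub_of_hasDerivAt (fun x _ => h1 x)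
    exact (by fun_prop : Continuous fun x : ℝ => Real.exp (-(a * x))).intervalIntegrable _ _
  calc ‖∫ x in y..z, g x‖ ≤ ∫ x in y..z, ‖g x‖ :=
        intervalIntegral.norm_integral_le_integral_norm hyz
    _ ≤ ∫ x in y..z, Real.exp (-(a * x)) := by
        apply intervalIntegral.integral_mono_on hyz
        · exact hg.norm.intervalIntegrable _ _
        · exact (by fun_prop : Continuous fun x : ℝ => Real.exp (-(a * x))).intervalIntegrable _ _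
        · intro x hx
          exact h x hx.1 hx.2
    _ ≤ 1 / a := by
        rw [hint]
        have h4 : Real.exp (-(a * y)) ≤ 1 := by
          rw [Real.exp_le_one_iff]
          nlinarith
        have h5 : 0 < Real.exp (-(a * z)) := Real.exp_pos _
        have h6 : 0 < Real.exp (-(a * z)) / a := by positivity
        have h7 : Real.exp (-(a * y)) / a ≤ 1 / a := div_le_div_of_nonneg_right h4 ha.le
        linarith

/-- Regime 3: `‖V₁‖ ≤ K √d`, `d = N/(C+1) ≥ d₀`.  Then `R ≤ K √d ≤ η d` for large `d`, so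
`exists_eta` gives `B := Re V₂ ≥ c₄ d` (`c₄ = 1/125000`, also `B ≤ 3 d`) and, `norm_gg_le_exp` with
`σ = c₃ d`: `‖gg b x‖ ≤ exp(- c₃ d x^2/(2(1+x)))` on `[0,C]`.  `im_sq_le`:
`|Im V₂| ≤ (24 (1+1/κ) d K √d)^{1/2} = c₅ d^{3/4}`.  Put `x₂ = S/√d` with a constant `S` (large).
On `[0,x₂]` (`gg_eq_exp`): `gg b x = exp(-x V₁ - x^2 B/2) exp(E')`,
`‖E'‖ ≤ 2 S^3/√d + c₅ S^2 d^{-1/4}/2 → 0`, and `‖exp(-x V₁ - x^2 B/2)‖ ≤ 1`; so
`‖∫_0^{x₂} gg - ∫_0^{x₂} exp(-x V₁ - x^2 B/2) dx‖ ≤ (S/√d) (e^{‖E'‖} - 1)`.  Substituting `u = √B x`: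
`∫_0^{x₂} exp(-x V₁ - x^2 B/2) dx = (1/√B) ∫_0^{S √(B/d)} exp(-a u - u^2/2) du`, `a = V₁/√B`,
`|Re a|, |Im a| ≤ K/√c₄`, `S √(B/d) ≥ S √c₄ ≥ 1`, so by `mills (K/√c₄)` its norm is at least
`m/√B ≥ m/√(3d)`.  Tail `∫_{x₂}^{C-lam} ‖gg‖ ≤ ∫_{x₂}^∞ exp(-c₃ d min(x^2, x)/4) dx` is
`≤ (4/(c₃ S √d)) exp(-c₃ S^2/4) + (4/(c₃ d)) exp(-c₃ d/4)`.  Choose `S` with the first term
`≤ m/(8√d)`, then `d₀`.  Total `‖II b (C-lam)‖ ≥ m/(4 √d) ≥ 1/(6 d) ≥ 1/(6N)`. -/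
theorem regime_three {κ lam K : ℝ} (hlam : 0 < lam) (hκ : lam < κ) (hK : 0 < K) :
    ∃ d₀ : ℝ, 0 < d₀ ∧ ∀ (N : ℕ) (b : Fin N → ℂ) (C : ℝ), Dat N b C →
      κ ≤ C → d₀ ≤ N / (C + 1) → ‖∑ j, b j‖ ≤ K * Real.sqrt (N / (C + 1)) →
      1 / (6 * (N : ℝ)) ≤ ‖II b (C - lam)‖ := by
  have hκ0 : 0 < κ := hlam.trans hκ
  have hκl : 0 < κ - lam := by linarith
  obtain ⟨η, hη, hηall⟩ := exists_eta hκ0
  obtain ⟨c₄, hc₄⟩ : ∃ c₄ : ℝ, c₄ = 1 / 125000 := ⟨_, rfl⟩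
  have hc₄0 : 0 < c₄ := by
    rw [hc₄]
    norm_num
  have hs4 : 0 < Real.sqrt c₄ := Real.sqrt_pos.2 hc₄0
  obtain ⟨m, hm, hmills⟩ := mills (K := K / Real.sqrt c₄) (by positivity)
  obtain ⟨S, hS⟩ : ∃ S : ℝ, S = 1 / Real.sqrt c₄ + 32 * 62500 / m := ⟨_, rfl⟩
  have hS1 : 1 / Real.sqrt c₄ ≤ S := by
    rw [hS]
    have : 0 < 32 * 62500 / m := by positivity
    linarith
  have hS2 : 32 * 62500 / m ≤ S := by
    rw [hS]
    have : 0 < 1 / Real.sqrt c₄ := by positivity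
    linarith
  have hS0 : 0 < S := lt_of_lt_of_le (by positivity) hS1
  obtain ⟨A, hA⟩ : ∃ A : ℝ, A = 24 * (1 + 1 / κ) * K := ⟨_, rfl⟩
  have hA0 : 0 < A := by
    rw [hA]
    positivity
  obtain ⟨δ, hδ⟩ : ∃ δ : ℝ, δ = min (1 / 2) (m / (32 * S)) := ⟨_, rfl⟩
  have hδ0 : 0 < δ := by
    rw [hδ]
    exact lt_min (by norm_num) (by positivity)
  have hδ1 : δ ≤ 1 / 2 := by
    rw [hδ]
    exact min_le_left _ _
  have hδ2 : δ ≤ m / (32 * S) := by
    rw [hδ]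
    exact min_le_right _ _
  have p1 : 0 < K / η := by positivity
  have p2 : 0 < 2 * S := by positivity
  have p3 : 0 < S / (κ - lam) := by positivity
  have p4 : 0 < 2 * S ^ 3 / δ := by positivity
  have p5 : 0 < S ^ 4 * A / (4 * δ ^ 2) := by positivity
  have p6 : 0 < 2 / (3 * m) := by positivity
  obtain ⟨r₀, hr₀⟩ : ∃ r₀ : ℝ, r₀ = K / η + 2 * S + S / (κ - lam) + 2 * S ^ 3 / δ +
    S ^ 4 * A / (4 * δ ^ 2) + 2 / (3 * m) := ⟨_, rfl⟩
  have hr₀0 : 0 < r₀ := by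
    rw [hr₀]
    positivity
  refine ⟨r₀ ^ 2, by positivity, ?_⟩
  intro N b C h hC hd hV
  have hC0 := h.C_pos
  have hC1 : 0 < C + 1 := by linarith
  have hCe := fun x : ℝ => h.norm_gg_le_exp (σ := 1 / 62500 * ((N : ℝ) / (C + 1))) (x := x)
  have hE := fun x : ℝ => h.gg_eq_exp (x := x)
  have him := h.im_sq_le
  have hnsq := h.norm_sq_le
  have hη2 := hηall N b C h hC
  have hdN : (N : ℝ) / (C + 1) ≤ N := div_le_self (Nat.cast_nonneg N) (by linarith)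
  obtain ⟨d, hdd⟩ : ∃ d : ℝ, d = (N : ℝ) / (C + 1) := ⟨_, rfl⟩
  rw [← hdd] at hd hV him hnsq hη2 hdN
  simp only [← hdd] at hE hCe
  have hr1 : r₀ ≤ Real.sqrt d := Real.le_sqrt_of_sq_le hd
  obtain ⟨r, hr⟩ : ∃ r : ℝ, r = Real.sqrt d := ⟨_, rfl⟩
  rw [← hr] at hr1 hV
  have hr0 : 0 < r := hr₀0.trans_le hr1
  have hd0 : 0 < d := lt_of_lt_of_le (by positivity) hd
  have hrr : r ^ 2 = d := by
    rw [hr]
    exact Real.sq_sqrt hd0.le
  have q1 : K / η ≤ r := by linarith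
  have q2 : 2 * S ≤ r := by linarith
  have q3 : S / (κ - lam) ≤ r := by linarith
  have q4 : 2 * S ^ 3 / δ ≤ r := by linarith
  have q5 : S ^ 4 * A / (4 * δ ^ 2) ≤ r := by linarith
  have q6 : 2 / (3 * m) ≤ r := by linarith
  obtain ⟨V, hVd⟩ : ∃ V : ℂ, V = ∑ j, b j := ⟨_, rfl⟩
  obtain ⟨V₂, hV₂⟩ : ∃ V₂ : ℂ, V₂ = ∑ j, b j ^ 2 := ⟨_, rfl⟩
  have hRe := h.re_nonneg
  rw [← hVd] at hV hη2 him hRe
  rw [← hV₂] at hnsq hη2 him
  simp only [← hVd, ← hV₂] at hE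
  have hRK : V.re ≤ K * r := (Complex.re_le_norm V).trans hV
  have hIK : |V.im| ≤ K * r := (Complex.abs_im_le_norm V).trans hV
  have hKη : K * r ≤ η * d := by
    rw [div_le_iff₀ hη] at q1
    rw [← hrr]
    nlinarith
  obtain ⟨g1, g2, g3⟩ := hη2 (hRK.trans hKη)
  rw [← hc₄] at g2
  have hB0 : 0 < V₂.re := lt_of_lt_of_le (by positivity) g2
  have hB3 : V₂.re ≤ 3 * d := (Complex.re_le_norm V₂).trans hnsq
  have hsB : 0 < Real.sqrt V₂.re := Real.sqrt_pos.2 hB0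
  have hsB1 : Real.sqrt c₄ * r ≤ Real.sqrt V₂.re := by
    rw [hr, ← Real.sqrt_mul hc₄0.le]
    exact Real.sqrt_le_sqrt g2
  have hsB2 : Real.sqrt V₂.re ≤ 2 * r := by
    rw [Real.sqrt_le_left (by positivity), mul_pow, hrr]
    linarith
  -- the imaginary part of `V₂`
  have hq : V₂.im ^ 2 ≤ A * r ^ 3 := by
    have e1 : 1 + C ≤ C * (1 + 1 / κ) := by
      have : 1 ≤ C * (1 / κ) := by
        rw [mul_one_div, le_div_iff₀ hκ0]
        linarith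
      linarith
    have e2 : 24 * (1 + C) * d * V.re ≤ 24 * (C * (1 + 1 / κ)) * d * (K * r) := by
      have e3 : 24 * (1 + C) * d ≤ 24 * (C * (1 + 1 / κ)) * d := by
        apply mul_le_mul_of_nonneg_right _ hd0.le
        linarith
      have e4 : 0 ≤ 24 * (C * (1 + 1 / κ)) * d := by positivity
      exact mul_le_mul e3 hRK hRe e4
    have e5 : C * V₂.im ^ 2 ≤ C * (A * r ^ 3) := by
      refine (him.trans e2).trans (le_of_eq ?_)
      rw [hA, ← hrr]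
      ring
    exact le_of_mul_le_mul_left e5 hC0
  obtain ⟨x₂, hx₂⟩ : ∃ x₂ : ℝ, x₂ = S / r := ⟨_, rfl⟩
  have hx0 : 0 < x₂ := by
    rw [hx₂]
    positivity
  have hx1 : x₂ ≤ 1 / 2 := by
    rw [hx₂, div_le_div_iff₀ hr0 (by norm_num)]
    linarith
  have hx3 : x₂ ≤ C - lam := by
    have : x₂ ≤ κ - lam := by
      rw [hx₂, div_le_iff₀ hr0]
      rw [div_le_iff₀ hκl] at q3
      linarith
    linarith
  have hxr : x₂ * r = S := by
    rw [hx₂]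
    field_simp
  -- pointwise on `[0, x₂]`
  have hpt : ∀ x, 0 ≤ x → x ≤ x₂ →
      ‖gg b x - Complex.exp (-((x : ℂ) * V) - (x : ℂ) ^ 2 * (V₂.re : ℝ) / 2)‖ ≤ 4 * δ := by
    intro x hx hxx
    obtain ⟨E, hE1, hE2⟩ := hE x hx (hxx.trans hx1)
    have e1 : 2 * d * x ^ 3 ≤ δ := by
      have e2 : x ^ 3 ≤ x₂ ^ 3 := pow_le_pow_left₀ hx hxx 3
      have e3 : 2 * d * x ^ 3 ≤ 2 * d * x₂ ^ 3 :=
        mul_le_mul_of_nonneg_left e2 (by positivity)
      have e4 : 2 * d * x₂ ^ 3 * r = 2 * S ^ 3 := by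
        rw [← hrr, ← hxr]
        ring
      rw [div_le_iff₀ hδ0] at q4
      have e5 : 2 * d * x₂ ^ 3 * r ≤ δ * r := by
        rw [e4]
        linarith
      exact e3.trans (le_of_mul_le_mul_right e5 hr0)
    have e6 : |x ^ 2 * V₂.im / 2| ≤ δ := by
      apply abs_le_of_sq_le_sq _ hδ0.le
      have e2 : x ^ 4 ≤ x₂ ^ 4 := pow_le_pow_left₀ hx hxx 4
      have e3 : x ^ 4 * V₂.im ^ 2 ≤ x₂ ^ 4 * (A * r ^ 3) :=
        mul_le_mul e2 hq (sq_nonneg _) (by positivity)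
      have e4 : x₂ ^ 4 * (A * r ^ 3) * r = S ^ 4 * A := by
        rw [← hxr]
        ring
      rw [div_le_iff₀ (by positivity)] at q5
      have e5 : x₂ ^ 4 * (A * r ^ 3) * r ≤ 4 * δ ^ 2 * r := by
        rw [e4]
        linarith
      have e7 := le_of_mul_le_mul_right e5 hr0
      have e8 : (x ^ 2 * V₂.im / 2) ^ 2 = x ^ 4 * V₂.im ^ 2 / 4 := by ring
      rw [e8]
      linarith
    have e9 : gg b x = Complex.exp (-((x : ℂ) * V) - (x : ℂ) ^ 2 * (V₂.re : ℝ) / 2) *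
        Complex.exp (E - ((x ^ 2 * V₂.im / 2 : ℝ) : ℂ) * Complex.I) := by
      rw [hE2, ← Complex.exp_add]
      congr 1
      conv_lhs => rw [← Complex.re_add_im V₂]
      push_cast
      ring
    have e10 : ‖E - ((x ^ 2 * V₂.im / 2 : ℝ) : ℂ) * Complex.I‖ ≤ 2 * δ := by
      refine (norm_sub_le _ _).trans ?_
      rw [norm_mul, Complex.norm_I, mul_one, Complex.norm_real, Real.norm_eq_abs]
      linarith
    have e11 : ‖Complex.exp (-((x : ℂ) * V) - (x : ℂ) ^ 2 * (V₂.re : ℝ) / 2)‖ ≤ 1 := by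
      rw [Complex.norm_exp, Real.exp_le_one_iff]
      have e12 : (-((x : ℂ) * V) - (x : ℂ) ^ 2 * (V₂.re : ℝ) / 2) =
          ((-(x * V.re) - x ^ 2 * V₂.re / 2 : ℝ) : ℂ) + ((-(x * V.im) : ℝ) : ℂ) * Complex.I := by
        conv_lhs => rw [← Complex.re_add_im V]
        push_cast
        ring
      rw [e12, Complex.add_re, Complex.ofReal_re, Complex.re_ofReal_mul, Complex.I_re, mul_zero,
        add_zero]
      have e13 : 0 ≤ x * V.re := mul_nonneg hx hRe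
      have e14 : 0 ≤ x ^ 2 * V₂.re := by positivity
      linarith
    rw [e9]
    have e15 : Complex.exp (-((x : ℂ) * V) - (x : ℂ) ^ 2 * (V₂.re : ℝ) / 2) *
        Complex.exp (E - ((x ^ 2 * V₂.im / 2 : ℝ) : ℂ) * Complex.I) -
        Complex.exp (-((x : ℂ) * V) - (x : ℂ) ^ 2 * (V₂.re : ℝ) / 2) =
        Complex.exp (-((x : ℂ) * V) - (x : ℂ) ^ 2 * (V₂.re : ℝ) / 2) *
        (Complex.exp (E - ((x ^ 2 * V₂.im / 2 : ℝ) : ℂ) * Complex.I) - 1) := by ring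
    rw [e15, norm_mul]
    have e16 := Complex.norm_exp_sub_one_le
      (x := E - ((x ^ 2 * V₂.im / 2 : ℝ) : ℂ) * Complex.I) (by linarith)
    calc ‖Complex.exp (-((x : ℂ) * V) - (x : ℂ) ^ 2 * (V₂.re : ℝ) / 2)‖ *
          ‖Complex.exp (E - ((x ^ 2 * V₂.im / 2 : ℝ) : ℂ) * Complex.I) - 1‖
        ≤ 1 * (2 * (2 * δ)) := by
          apply mul_le_mul e11 _ (norm_nonneg _) zero_le_one
          linarith
      _ = 4 * δ := by ring
  -- the three parts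
  have hgc := continuous_gg b
  have hGc : Continuous fun x : ℝ =>
      Complex.exp (-((x : ℂ) * V) - (x : ℂ) ^ 2 * (V₂.re : ℝ) / 2) := by fun_prop
  have t1 : ‖∫ x in (0 : ℝ)..x₂, (gg b x -
      Complex.exp (-((x : ℂ) * V) - (x : ℂ) ^ 2 * (V₂.re : ℝ) / 2))‖ ≤ m / 8 / r := by
    have e1 := intervalIntegral.norm_integral_le_of_norm_le_const (a := (0 : ℝ)) (b := x₂)
      (f := fun x : ℝ => gg b x -
        Complex.exp (-((x : ℂ) * V) - (x : ℂ) ^ 2 * (V₂.re : ℝ) / 2)) (C := 4 * δ) (by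
        intro x hx
        rw [Set.uIoc_of_le hx0.le] at hx
        exact hpt x hx.1.le hx.2)
    refine e1.trans ?_
    rw [sub_zero, abs_of_pos hx0, le_div_iff₀ hr0, mul_assoc, hxr]
    rw [le_div_iff₀ (by positivity)] at hδ2
    linarith
  have t2 : m / 2 / r ≤ ‖∫ x in (0 : ℝ)..x₂,
      Complex.exp (-((x : ℂ) * V) - (x : ℂ) ^ 2 * (V₂.re : ℝ) / 2)‖ := by
    rw [an10_gauss V hB0 x₂, norm_mul]
    have e1 : ‖((Real.sqrt V₂.re)⁻¹ : ℂ)‖ = (Real.sqrt V₂.re)⁻¹ := by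
      rw [norm_inv, Complex.norm_real, Real.norm_of_nonneg hsB.le]
    rw [e1]
    have hden : 0 < Real.sqrt c₄ * r := by positivity
    have hKr : K * r / (Real.sqrt c₄ * r) = K / Real.sqrt c₄ := by field_simp
    have e2 := hmills (V.re / Real.sqrt V₂.re) (V.im / Real.sqrt V₂.re)
      (Real.sqrt V₂.re * x₂) (div_nonneg hRe hsB.le)
      (by
        rw [← hKr]
        exact div_le_div₀ (by positivity) hRK hden hsB1)
      (by
        rw [abs_div, abs_of_pos hsB, ← hKr]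
        exact div_le_div₀ (by positivity) hIK hden hsB1)
      (by
        have e3 : Real.sqrt c₄ * r * x₂ ≤ Real.sqrt V₂.re * x₂ :=
          mul_le_mul_of_nonneg_right hsB1 hx0.le
        have e4 : Real.sqrt c₄ * r * x₂ = Real.sqrt c₄ * S := by
          rw [← hxr]
          ring
        rw [div_le_iff₀ hs4] at hS1
        linarith)
    have e5 : (2 * r)⁻¹ ≤ (Real.sqrt V₂.re)⁻¹ := inv_anti₀ hsB hsB2
    calc m / 2 / r = (2 * r)⁻¹ * m := by field_simp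
      _ ≤ (Real.sqrt V₂.re)⁻¹ * _ := mul_le_mul e5 e2 hm.le (by positivity)
  have t3 : ‖∫ x in x₂..(C - lam), gg b x‖ ≤ m / 8 / r := by
    have ha : 0 < 1 / 62500 * S * r / 4 := by positivity
    have e1 := an10_tail hgc ha hx3 hx0.le (by
      intro x hxa hxb
      have hx' : 0 < x := hx0.trans_le hxa
      refine (hCe x g1 hx'.le (by linarith)).trans ?_
      rw [Real.exp_le_exp, neg_le_neg_iff]
      have e2 : x₂ * x / 4 ≤ x ^ 2 / (2 * (1 + x)) := by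
        rw [div_le_div_iff₀ (by norm_num) (by positivity)]
        nlinarith [mul_nonneg hx'.le (sub_nonneg.2 hxa), mul_nonneg hx'.le hx'.le]
      have e3 : 1 / 62500 * S * r / 4 * x = 1 / 62500 * d * (x₂ * x / 4) := by
        rw [← hxr, ← hrr]
        ring
      rw [e3]
      exact mul_le_mul_of_nonneg_left e2 (by positivity))
    refine e1.trans ?_
    rw [div_le_div_iff₀ ha hr0]
    rw [div_le_iff₀ hm] at hS2
    nlinarith
  -- combine
  have hsplit : II b (C - lam) =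
      (∫ x in (0 : ℝ)..x₂, Complex.exp (-((x : ℂ) * V) - (x : ℂ) ^ 2 * (V₂.re : ℝ) / 2)) +
      ((∫ x in (0 : ℝ)..x₂, (gg b x -
        Complex.exp (-((x : ℂ) * V) - (x : ℂ) ^ 2 * (V₂.re : ℝ) / 2))) +
      ∫ x in x₂..(C - lam), gg b x) := by
    unfold II
    rw [← intervalIntegral.integral_add_adjacent_intervals (hgc.intervalIntegrable 0 x₂)
      (hgc.intervalIntegrable x₂ (C - lam)),
      intervalIntegral.integral_sub (hgc.intervalIntegrable 0 x₂)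
        (hGc.intervalIntegrable 0 x₂)]
    ring
  have hlow : m / 4 / r ≤ ‖II b (C - lam)‖ := by
    rw [hsplit]
    have e1 := norm_sub_le_norm_add (∫ x in (0 : ℝ)..x₂,
      Complex.exp (-((x : ℂ) * V) - (x : ℂ) ^ 2 * (V₂.re : ℝ) / 2))
      ((∫ x in (0 : ℝ)..x₂, (gg b x -
        Complex.exp (-((x : ℂ) * V) - (x : ℂ) ^ 2 * (V₂.re : ℝ) / 2))) +
      ∫ x in x₂..(C - lam), gg b x)
    have e2 := norm_add_le (∫ x in (0 : ℝ)..x₂, (gg b x -
        Complex.exp (-((x : ℂ) * V) - (x : ℂ) ^ 2 * (V₂.re : ℝ) / 2)))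
      (∫ x in x₂..(C - lam), gg b x)
    have e3 : m / 4 / r = m / 2 / r - (m / 8 / r + m / 8 / r) := by ring
    rw [e3]
    linarith
  refine le_trans ?_ hlow
  have hN0 : 0 < (N : ℝ) := lt_of_lt_of_le hd0 hdN
  have e1 : 1 / (6 * (N : ℝ)) ≤ 1 / (6 * d) :=
    one_div_le_one_div_of_le (by positivity) (by linarith)
  refine e1.trans ?_
  rw [← hrr, div_le_div_iff₀ (by positivity) hr0]
  rw [div_le_iff₀ (by positivity)] at q6
  nlinarith

end Pool.MP_c113aa_an.B1
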