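import Pool.Agent.Lib.c113aaP.An0

set_option autoImplicit false

namespace Pool.MP_c113aa_an.B1

open Finset

variable {N : ℕ} {b : Fin N → ℂ} {C : ℝ}

/-- The derivative of `BV.LL b`. -/
private noncomputable def an6D {N : ℕ} (b : Fin N → ℂ) (x : ℝ) : ℂ :=
  -∑ j, b j ^ 2 / (1 - (x : ℂ) * b j) ^ 2

private theorem an6_norm_ofReal {x : ℝ} (hx0 : 0 ≤ x) (hx : x ≤ 1 / 2) : ‖(x : ℂ)‖ ≤ 1 / 2 := by
  rw [Complex.norm_real, Real.norm_of_nonneg hx0]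
  exact hx

private theorem an6_half {x : ℝ} (hx0 : 0 ≤ x) (hx : x ≤ 1 / 2) {v : ℂ} (hv : ‖v‖ ≤ 1) :
    1 / 2 ≤ ‖1 - (x : ℂ) * v‖ := by
  have h1 := BV.one_sub_norm_ge hv (an6_norm_ofReal hx0 hx)
  linarith

private theorem an6_ne {x : ℝ} (hx0 : 0 ≤ x) (hx : x ≤ 1 / 2) {v : ℂ} (hv : ‖v‖ ≤ 1) :
    1 - (x : ℂ) * v ≠ 0 := by
  intro h
  have h1 := an6_half hx0 hx hv
  rw [h, norm_zero] at h1
  norm_num at h1

private theorem an6_hasDerivAt_gg (hb : ∀ j, ‖b j‖ ≤ 1) {x : ℝ} (hx0 : 0 ≤ x) (hx : x ≤ 1 / 2) :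
    HasDerivAt (gg b) (BV.LL b (x : ℂ) * gg b x) x := by
  have h1 := BV.hasDerivAt_prod b hb (x : ℂ) (lt_of_le_of_lt (an6_norm_ofReal hx0 hx) (by norm_num))
  exact h1.comp_ofReal

private theorem an6_hasDerivAt_LL (hb : ∀ j, ‖b j‖ ≤ 1) {x : ℝ} (hx0 : 0 ≤ x) (hx : x ≤ 1 / 2) :
    HasDerivAt (fun y : ℝ => BV.LL b (y : ℂ)) (an6D b x) x := by
  have h0 : HasDerivAt (BV.LL b) (an6D b x) (x : ℂ) := by
    have h1 : ∀ j ∈ (univ : Finset (Fin N)),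
        HasDerivAt (fun y : ℂ => b j / (1 - y * b j)) (b j ^ 2 / (1 - (x : ℂ) * b j) ^ 2) x := by
      intro j _
      have h3 := an6_ne hx0 hx (hb j)
      have h4 : HasDerivAt (fun y : ℂ => 1 - y * b j) (-(b j)) x := by
        simpa using ((hasDerivAt_id (x : ℂ)).mul_const (b j)).const_sub 1
      have h5 := (hasDerivAt_const (x : ℂ) (b j)).div h4 h3
      refine h5.congr_deriv ?_
      congr 1
      ring
    exact (HasDerivAt.fun_sum h1).neg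
  exact h0.comp_ofReal

private theorem an6_norm_D (h : Dat N b C) {x : ℝ} (hx0 : 0 ≤ x) (hx : x ≤ 1 / 2) :
    ‖an6D b x‖ ≤ 12 * (N / (C + 1)) := by
  have hC : 0 < C + 1 := by linarith [h.C_pos]
  have h1 : ‖an6D b x‖ ≤ ∑ j, 4 * ‖b j‖ := by
    unfold an6D
    rw [norm_neg]
    refine norm_sum_le_of_le _ fun j _ => ?_
    have h2 := an6_half hx0 hx (h.le_one j)
    have h3 := h.le_one j
    have h4 : 0 ≤ ‖b j‖ := norm_nonneg _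
    rw [norm_div, norm_pow, norm_pow, div_le_iff₀ (by positivity)]
    have h5 : 1 / 4 ≤ ‖1 - (x : ℂ) * b j‖ ^ 2 := by nlinarith
    have h6 : ‖b j‖ ^ 2 ≤ ‖b j‖ := by nlinarith
    nlinarith
  rw [← mul_sum] at h1
  have h2 := h.sum_norm_le
  have h3 : ∑ j, ‖b j‖ ≤ 3 * N / (C + 1) := by
    rw [le_div_iff₀ hC]
    linarith
  calc ‖an6D b x‖ ≤ 4 * ∑ j, ‖b j‖ := h1
    _ ≤ 4 * (3 * N / (C + 1)) := by linarith
    _ = 12 * (N / (C + 1)) := by ring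

/-- Integration by parts.  `L(x) = BV.LL b x = - ∑ b_j / (1 - x b_j)` satisfies `gg' = L gg`
(`BV.hasDerivAt_prod`), `L(0) = - V₁` with `V₁ = ∑ b_j`, and for `0 ≤ x ≤ 1/2`
`L'(x) = - ∑ b_j^2/(1 - x b_j)^2`, `‖L'‖ ≤ 4 ∑ ‖b j‖ ≤ 12 N/(C+1)` (`sum_norm_le`).  `L ≠ 0` on `[0, x₃]`
by `hL`.  `(gg / L)' = gg - gg L'/L^2`, so
`II b x₃ = gg(x₃)/L(x₃) + 1/V₁ + ∫_0^{x₃} gg L'/L^2`, and `1/‖L‖ ≤ 2/‖V₁‖`.  (You may use
`intervalIntegral.integral_eq_sub_of_hasDerivAt`; all functions are continuous on `[0, x₃]`.  See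
`BV.norm_ode_le` and `BV.hasDerivAt_LL` in `MP_c113aa_an/S3O3.lean` for similar computations.) -/
theorem Dat.norm_II_sub_le (h : Dat N b C) {x₃ : ℝ} (hx0 : 0 ≤ x₃) (hx3 : x₃ ≤ 1 / 2)
    (hV : (∑ j, b j) ≠ 0)
    (hL : ∀ x : ℝ, 0 ≤ x → x ≤ x₃ → ‖∑ j, b j‖ / 2 ≤ ‖BV.LL b (x : ℂ)‖) :
    ‖II b x₃ - (∑ j, b j)⁻¹‖ ≤ 2 * ‖gg b x₃‖ / ‖∑ j, b j‖
      + 48 * (N / (C + 1)) / ‖∑ j, b j‖ ^ 2 * ∫ x in (0 : ℝ)..x₃, ‖gg b x‖ := by
  obtain ⟨V, hVe⟩ : ∃ V, V = ∑ j, b j := ⟨_, rfl⟩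
  rw [← hVe] at hV hL ⊢
  have hV0 : 0 < ‖V‖ := norm_pos_iff.2 hV
  have hC : 0 < C + 1 := by linarith [h.C_pos]
  have hmem : ∀ x ∈ Set.uIcc (0 : ℝ) x₃, 0 ≤ x ∧ x ≤ x₃ ∧ x ≤ 1 / 2 := fun x hx => by
    rw [Set.uIcc_of_le hx0] at hx
    exact ⟨hx.1, hx.2, hx.2.trans hx3⟩
  have hLne : ∀ x ∈ Set.uIcc (0 : ℝ) x₃, BV.LL b (x : ℂ) ≠ 0 := fun x hx => by
    obtain ⟨h1, h2, h3⟩ := hmem x hx
    have h4 := hL x h1 h2
    exact norm_pos_iff.1 (lt_of_lt_of_le (by positivity) h4)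
  have hLc : ContinuousOn (fun y : ℝ => BV.LL b (y : ℂ)) (Set.uIcc (0 : ℝ) x₃) := fun x hx => by
    obtain ⟨h1, h2, h3⟩ := hmem x hx
    exact (an6_hasDerivAt_LL h.le_one h1 h3).continuousAt.continuousWithinAt
  have hDc : ContinuousOn (an6D b) (Set.uIcc (0 : ℝ) x₃) := by
    unfold an6D
    refine (continuousOn_finsetSum _ fun j _ => ?_).neg
    refine continuousOn_const.div (by fun_prop) fun x hx => ?_
    obtain ⟨h1, h2, h3⟩ := hmem x hx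
    exact pow_ne_zero 2 (an6_ne h1 h3 (h.le_one j))
  have hQc : ContinuousOn (fun x : ℝ => gg b x * an6D b x / BV.LL b (x : ℂ) ^ 2)
      (Set.uIcc (0 : ℝ) x₃) :=
    ((continuous_gg b).continuousOn.mul hDc).div (hLc.pow 2) fun x hx => pow_ne_zero 2 (hLne x hx)
  have hQi : IntervalIntegrable (fun x : ℝ => gg b x * an6D b x / BV.LL b (x : ℂ) ^ 2)
      MeasureTheory.volume 0 x₃ := hQc.intervalIntegrable
  have hgi : IntervalIntegrable (gg b) MeasureTheory.volume 0 x₃ :=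
    (continuous_gg b).intervalIntegrable _ _
  have hder : ∀ x ∈ Set.uIcc (0 : ℝ) x₃,
      HasDerivAt (fun x : ℝ => gg b x / BV.LL b (x : ℂ))
        (gg b x - gg b x * an6D b x / BV.LL b (x : ℂ) ^ 2) x := fun x hx => by
    obtain ⟨h1, h2, h3⟩ := hmem x hx
    have h4 := (an6_hasDerivAt_gg h.le_one h1 h3).div (an6_hasDerivAt_LL h.le_one h1 h3) (hLne x hx)
    refine h4.congr_deriv ?_
    have h5 := hLne x hx
    field_simp
  have hint := intervalIntegral.integral_eq_sub_of_hasDerivAt hder (hgi.sub hQi)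
  rw [intervalIntegral.integral_sub hgi hQi] at hint
  have hg0 : gg b 0 = 1 := by
    unfold gg
    simp
  have hL0 : BV.LL b ((0 : ℝ) : ℂ) = -V := by
    unfold BV.LL
    rw [hVe]
    simp
  have hII : II b x₃ = ∫ x in (0 : ℝ)..x₃, gg b x := rfl
  have heq : II b x₃ - V⁻¹ = gg b x₃ / BV.LL b (x₃ : ℂ) +
      ∫ x in (0 : ℝ)..x₃, gg b x * an6D b x / BV.LL b (x : ℂ) ^ 2 := by
    rw [hII]
    rw [hg0, hL0] at hint
    have e1 : (1 : ℂ) / -V = -V⁻¹ := by rw [div_neg, one_div]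
    rw [e1] at hint
    linear_combination hint
  rw [heq]
  refine (norm_add_le _ _).trans (add_le_add ?_ ?_)
  · rw [norm_div]
    have h1 := hL x₃ hx0 le_rfl
    have h2 : 0 < ‖BV.LL b (x₃ : ℂ)‖ := lt_of_lt_of_le (by positivity) h1
    rw [div_le_div_iff₀ h2 hV0]
    nlinarith [norm_nonneg (gg b x₃)]
  · refine (intervalIntegral.norm_integral_le_integral_norm hx0).trans ?_
    rw [← intervalIntegral.integral_const_mul]
    refine intervalIntegral.integral_mono_on hx0 hQi.norm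
      ((continuous_gg b).norm.intervalIntegrable _ _ |>.const_mul _) fun x hx => ?_
    have hx' : x ∈ Set.uIcc (0 : ℝ) x₃ := by rw [Set.uIcc_of_le hx0]; exact hx
    obtain ⟨h1, h2, h3⟩ := hmem x hx'
    have h4 := an6_norm_D h h1 h3
    have h5 := hL x h1 h2
    have h6 : 0 < ‖BV.LL b (x : ℂ)‖ := norm_pos_iff.2 (hLne x hx')
    rw [norm_div, norm_mul, norm_pow, div_le_iff₀ (by positivity)]
    have h7 : ‖V‖ ^ 2 / 4 ≤ ‖BV.LL b (x : ℂ)‖ ^ 2 := by nlinarith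
    have h8 : 0 ≤ (N : ℝ) / (C + 1) := by positivity
    have h9 : 48 * ((N : ℝ) / (C + 1)) / ‖V‖ ^ 2 * ‖gg b x‖ * (‖V‖ ^ 2 / 4) =
        ‖gg b x‖ * (12 * ((N : ℝ) / (C + 1))) := by
      field_simp
      ring
    calc ‖gg b x‖ * ‖an6D b x‖ ≤ ‖gg b x‖ * (12 * ((N : ℝ) / (C + 1))) :=
          mul_le_mul_of_nonneg_left h4 (norm_nonneg _)
      _ = 48 * ((N : ℝ) / (C + 1)) / ‖V‖ ^ 2 * ‖gg b x‖ * (‖V‖ ^ 2 / 4) := h9.symm
      _ ≤ 48 * ((N : ℝ) / (C + 1)) / ‖V‖ ^ 2 * ‖gg b x‖ * ‖BV.LL b (x : ℂ)‖ ^ 2 :=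
          mul_le_mul_of_nonneg_left h7 (by positivity)

end Pool.MP_c113aa_an.B1
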