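import Pool.Agent.Lib.c113aaP.An2
import Pool.Agent.Lib.c113aaP.An6
import Pool.Agent.Lib.c113aaP.An8

set_option autoImplicit false

namespace Pool.MP_c113aa_an.B1

open Finset

/-- `V₁ = R + i y` with `R ≥ 0`, `V₂ = p + i q`, `p ≥ 0`, `|q| ≤ p/4`, `x ≥ 0`:
`2 ‖V₁ + V₂ x‖ ≥ (R + p x) + (|y| - (p/4) x) ≥ ‖V₁‖ + (3/4) p x`. -/
theorem norm_add_ge {V₁ V₂ : ℂ} {x : ℝ} (h1 : 0 ≤ V₁.re) (h2 : |V₂.im| ≤ V₂.re / 4)
    (hx : 0 ≤ x) : ‖V₁‖ / 2 + 3 / 8 * V₂.re * x ≤ ‖V₁ + V₂ * (x : ℂ)‖ := by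
  have hre : (V₁ + V₂ * (x : ℂ)).re = V₁.re + V₂.re * x := by simp
  have him : (V₁ + V₂ * (x : ℂ)).im = V₁.im + V₂.im * x := by simp
  have e1 := Complex.abs_re_le_norm (V₁ + V₂ * (x : ℂ))
  have e2 := Complex.abs_im_le_norm (V₁ + V₂ * (x : ℂ))
  rw [hre] at e1
  rw [him] at e2
  have e3 : V₁.re + V₂.re * x ≤ |V₁.re + V₂.re * x| := le_abs_self _
  have e4 : |V₁.im| - |V₂.im * x| ≤ |V₁.im + V₂.im * x| := by
    have := abs_sub_abs_le_abs_sub V₁.im (-(V₂.im * x))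
    rwa [abs_neg, sub_neg_eq_add] at this
  have e5 : |V₂.im * x| = |V₂.im| * x := by rw [abs_mul, abs_of_nonneg hx]
  have e6 : |V₂.im| * x ≤ V₂.re / 4 * x := mul_le_mul_of_nonneg_right h2 hx
  have e7 := Complex.norm_le_abs_re_add_abs_im V₁
  rw [abs_of_nonneg h1] at e7
  linarith

private theorem an9_LL_add_le {N : ℕ} (v : Fin N → ℂ) (hv : ∀ j, ‖v j‖ ≤ 1) (x : ℂ)
    (hx : ‖x‖ ≤ 1 / 2) :
    ‖BV.LL v x + ((∑ j, v j) + x * ∑ j, v j ^ 2)‖ ≤ 2 * (∑ j, ‖v j‖) * ‖x‖ ^ 2 := by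
  have h1 : BV.LL v x + ((∑ j, v j) + x * ∑ j, v j ^ 2)
      = ∑ j, (-(x ^ 2 * v j ^ 3 / (1 - x * v j))) := by
    unfold BV.LL
    rw [mul_sum, ← sum_neg_distrib, ← sum_add_distrib, ← sum_add_distrib]
    apply sum_congr rfl
    intro j _
    have h2 := BV.one_sub_norm_ge (hv j) hx
    have h3 : (1 - x * v j) ≠ 0 := by
      intro h
      rw [h, norm_zero] at h2
      norm_num at h2
    obtain ⟨d, hd⟩ : ∃ d, d = 1 - x * v j := ⟨_, rfl⟩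
    rw [← hd] at h3 ⊢
    have h4 : -(v j / d) + (v j + x * v j ^ 2) + x ^ 2 * v j ^ 3 / d
        = (-v j + (v j + x * v j ^ 2) * d + x ^ 2 * v j ^ 3) / d := by
      field_simp
    rw [eq_neg_iff_add_eq_zero, h4, div_eq_zero_iff]
    left
    rw [hd]
    ring
  rw [h1]
  have h4 : ∀ j ∈ (univ : Finset (Fin N)), ‖-(x ^ 2 * v j ^ 3 / (1 - x * v j))‖
      ≤ 2 * ‖x‖ ^ 2 * ‖v j‖ := by
    intro j _
    have h2 := BV.one_sub_norm_ge (hv j) hx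
    have h2' : (1 : ℝ) / 2 ≤ ‖1 - x * v j‖ := by linarith
    rw [norm_neg, norm_div, norm_mul, norm_pow, norm_pow]
    rw [div_le_iff₀ (by linarith)]
    have h0 : 0 ≤ ‖v j‖ := norm_nonneg _
    have h5 : ‖v j‖ ^ 3 ≤ ‖v j‖ := by
      have h51 : ‖v j‖ ^ 2 ≤ 1 := pow_le_one₀ h0 (hv j)
      calc ‖v j‖ ^ 3 = ‖v j‖ ^ 2 * ‖v j‖ := by ring
        _ ≤ 1 * ‖v j‖ := mul_le_mul_of_nonneg_right h51 h0
        _ = ‖v j‖ := one_mul _
    have h6 : 0 ≤ ‖x‖ ^ 2 := by positivity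
    have h7 : 0 ≤ ‖x‖ ^ 2 * ‖v j‖ := mul_nonneg h6 h0
    calc ‖x‖ ^ 2 * ‖v j‖ ^ 3 ≤ ‖x‖ ^ 2 * ‖v j‖ := mul_le_mul_of_nonneg_left h5 h6
      _ = 2 * (‖x‖ ^ 2 * ‖v j‖) * (1 / 2) := by ring
      _ ≤ 2 * (‖x‖ ^ 2 * ‖v j‖) * ‖1 - x * v j‖ :=
          mul_le_mul_of_nonneg_left h2' (by linarith)
      _ = 2 * ‖x‖ ^ 2 * ‖v j‖ * ‖1 - x * v j‖ := by ring
  calc ‖∑ j, (-(x ^ 2 * v j ^ 3 / (1 - x * v j)))‖
      ≤ ∑ j, ‖-(x ^ 2 * v j ^ 3 / (1 - x * v j))‖ := norm_sum_le _ _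
    _ ≤ ∑ j, 2 * ‖x‖ ^ 2 * ‖v j‖ := sum_le_sum h4
    _ = 2 * (∑ j, ‖v j‖) * ‖x‖ ^ 2 := by
        rw [← mul_sum]; ring

private theorem an9_gauss {B y : ℝ} (hB : 0 < B) (hy : 0 ≤ y) :
    ∫ x in (0 : ℝ)..y, Real.exp (-B * x ^ 2) ≤ Real.sqrt (Real.pi / B) / 2 := by
  rw [intervalIntegral.integral_of_le hy, ← integral_gaussian_Ioi]
  refine MeasureTheory.setIntegral_mono_set (integrable_exp_neg_mul_sq hB).integrableOn ?_ ?_
  · exact Filter.Eventually.of_forall fun x => (Real.exp_pos _).le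
  · exact (Set.Ioc_subset_Ioi_self).eventuallyLE

private theorem an9_tail {a u v : ℝ} (ha : 0 < a) :
    ∫ x in u..v, Real.exp (-(a * x)) ≤ Real.exp (-(a * u)) / a := by
  have h1 : ∀ x : ℝ, HasDerivAt (fun t : ℝ => -(Real.exp (-(a * t)) / a)) (Real.exp (-(a * x))) x := by
    intro x
    have h2 : HasDerivAt (fun t : ℝ => -(a * t)) (-(a * 1)) x :=
      ((hasDerivAt_id x).const_mul a).neg
    have h3 := ((h2.exp).div_const a).neg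
    have h5 : -(Real.exp (-(a * x)) * (-(a * 1)) / a) = Real.exp (-(a * x)) := by
      rw [mul_one, mul_neg, neg_div, neg_neg, mul_div_assoc, div_self ha.ne', mul_one]
    rw [h5] at h3
    exact h3
  rw [intervalIntegral.integral_eq_sub_of_hasDerivAt (fun x _ => h1 x)
    (Continuous.intervalIntegrable (by fun_prop) _ _)]
  have h4 : 0 ≤ Real.exp (-(a * v)) / a := div_nonneg (Real.exp_pos _).le ha.le
  linarith

/-- Regime 2: `R ≤ η d` (`d = N/(C+1)`, η from `exists_eta κ`) and `‖V₁‖ ≥ K √d`.  `c₃ = 1/62500`,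
`c₄ = 1/125000`.  Decay (`norm_gg_le_exp` with `σ = c₃ d`): `‖gg b x‖ ≤ exp (- c₃ d x^2/(2(1+x)))` on
`[0,C]`.  `x₃ = min (c₄/16) (κ - lam)`.  For `0 ≤ x ≤ x₃`:
`‖LL b x + V₁ + V₂ x‖ ≤ x^2 ∑ ‖b j‖^3/(1-x) ≤ 6 d x^2 ≤ (3/8) c₄ d x`
(`-b/(1-xb) + b + b^2 x = - x^2 b^3/(1-xb)`), so by `norm_add_ge` `‖LL b x‖ ≥ ‖V₁‖/2` and `norm_II_sub_le`
applies.  `∫_0^{x₃} ‖gg‖ ≤ ∫_0^∞ exp(-(c₃/4) d x^2) ≤ 2/√(c₃ d)` so
`48 d/‖V₁‖^2 · 2/√(c₃ d) ≤ (96/(√c₃ K))/‖V₁‖ ≤ (1/8)/‖V₁‖` for `K = 768/√c₃`; the other terms: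
`2 ‖gg(x₃)‖/‖V₁‖ ≤ (1/8)/‖V₁‖`, tail `∫_{x₃}^{C-lam} ‖gg‖ ≤ ∫_{x₃}^∞ exp(- c₃ d x x₃/4) ≤
4/(c₃ d x₃) exp(- c₃ d x₃^2/4) ≤ (1/8)/‖V₁‖` (`‖V₁‖ ≤ 3 d`) for `d ≥ d₀`.  Hence
`‖II b (C - lam)‖ ≥ 1/(2‖V₁‖) ≥ 1/(6 d) ≥ 1/(6 N)`. -/
theorem regime_two {κ lam : ℝ} (hlam : 0 < lam) (hκ : lam < κ) :
    ∃ η K d₀ : ℝ, 0 < η ∧ 0 < K ∧ 0 < d₀ ∧ ∀ (N : ℕ) (b : Fin N → ℂ) (C : ℝ), Dat N b C →
      κ ≤ C → d₀ ≤ N / (C + 1) → (∑ j, b j).re ≤ η * (N / (C + 1)) →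
      K * Real.sqrt (N / (C + 1)) ≤ ‖∑ j, b j‖ →
      1 / (6 * (N : ℝ)) ≤ ‖II b (C - lam)‖ := by
  obtain ⟨η, hη, hmain⟩ := exists_eta (hlam.trans hκ)
  obtain ⟨c3, hc3⟩ : ∃ c3 : ℝ, c3 = 1 / 62500 := ⟨_, rfl⟩
  have hc3p : 0 < c3 := by rw [hc3]; norm_num
  have hc31 : c3 ≤ 1 := by rw [hc3]; norm_num
  obtain ⟨x3, hx3⟩ : ∃ x3 : ℝ, x3 = min (1 / 2000000) (κ - lam) := ⟨_, rfl⟩
  have hx3p : 0 < x3 := by
    rw [hx3]
    exact lt_min (by norm_num) (by linarith)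
  have hx3a : x3 ≤ 1 / 2000000 := by rw [hx3]; exact min_le_left _ _
  have hx3b : x3 ≤ κ - lam := by rw [hx3]; exact min_le_right _ _
  obtain ⟨ε, hε⟩ : ∃ ε : ℝ, ε = c3 * x3 / 96 := ⟨_, rfl⟩
  have hεp : 0 < ε := by rw [hε]; positivity
  have hε16 : ε ≤ 1 / 16 := by
    rw [hε]
    nlinarith
  refine ⟨η, 768 / Real.sqrt c3, 4 / (c3 * x3 ^ 2 * ε), hη, by positivity, by positivity, ?_⟩
  intro N b C hD hκC hd0 hR hK
  obtain ⟨hσ, hV2, hV2i⟩ := hmain N b C hD hκC hR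
  have hCp := hD.C_pos
  obtain ⟨d, hd⟩ : ∃ d : ℝ, d = (N : ℝ) / (C + 1) := ⟨_, rfl⟩
  rw [← hd] at hd0 hR hK hσ hV2
  have hdp : 0 < d := lt_of_lt_of_le (by positivity) hd0
  have hdN : d ≤ N := by
    rw [hd, div_le_iff₀ (by linarith)]
    have : (0 : ℝ) ≤ N := Nat.cast_nonneg N
    nlinarith
  obtain ⟨V, hV⟩ : ∃ V : ℂ, V = ∑ j, b j := ⟨_, rfl⟩
  rw [← hV] at hR hK
  have hVre : 0 ≤ V.re := by rw [hV]; exact hD.re_nonneg
  have hsd : 0 < Real.sqrt d := Real.sqrt_pos.2 hdp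
  have hsc : 0 < Real.sqrt c3 := Real.sqrt_pos.2 hc3p
  have hVp : 0 < ‖V‖ := lt_of_lt_of_le (by positivity) hK
  have hVne : V ≠ 0 := norm_pos_iff.1 hVp
  have hsumn : ∑ j, ‖b j‖ ≤ 3 * d := by
    have := hD.sum_norm_le
    rw [hd, ← mul_div_assoc, le_div_iff₀ (by linarith)]
    linarith
  have hV3 : ‖V‖ ≤ 3 * d := by
    rw [hV]
    exact (norm_sum_le _ _).trans hsumn
  -- decay of the product
  have hgg : ∀ x : ℝ, 0 ≤ x → x ≤ C → ‖gg b x‖ ≤ Real.exp (-(c3 * d * (x ^ 2 / (2 * (1 + x))))) := by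
    intro x h0 h1
    refine hD.norm_gg_le_exp ?_ h0 h1
    rw [hc3]
    exact hσ
  have hexp1 : Real.exp (-(c3 * d * x3 ^ 2 / 4)) ≤ ε := by
    have h1 : 1 / ε ≤ c3 * d * x3 ^ 2 / 4 := by
      rw [div_le_iff₀ (by positivity)] at hd0
      rw [div_le_iff₀ hεp]
      nlinarith
    have h2 : c3 * d * x3 ^ 2 / 4 ≤ Real.exp (c3 * d * x3 ^ 2 / 4) := by
      have := Real.add_one_le_exp (c3 * d * x3 ^ 2 / 4)
      linarith
    rw [Real.exp_neg]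
    have h3 : 1 / ε ≤ Real.exp (c3 * d * x3 ^ 2 / 4) := h1.trans h2
    have h4 := inv_anti₀ (by positivity) h3
    rw [one_div, inv_inv] at h4
    exact h4
  have hx3C : x3 ≤ C - lam := by linarith
  have hx3C2 : x3 ≤ C := by linarith
  -- the logarithmic derivative
  have hL : ∀ x : ℝ, 0 ≤ x → x ≤ x3 → ‖∑ j, b j‖ / 2 ≤ ‖BV.LL b (x : ℂ)‖ := by
    intro x h0 h1
    rw [← hV]
    have hxn : ‖(x : ℂ)‖ = x := by rw [Complex.norm_real, Real.norm_eq_abs, abs_of_nonneg h0]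
    have e1 := an9_LL_add_le b hD.le_one (x : ℂ) (by rw [hxn]; linarith)
    rw [← hV, hxn] at e1
    have e2 := norm_add_ge hVre hV2i h0
    have e3 : ‖V + (∑ j, b j ^ 2) * (x : ℂ)‖ - ‖BV.LL b (x : ℂ) + (V + (x : ℂ) * ∑ j, b j ^ 2)‖ ≤
        ‖BV.LL b (x : ℂ)‖ := by
      have h5 := norm_sub_norm_le (V + (∑ j, b j ^ 2) * (x : ℂ))
        (BV.LL b (x : ℂ) + (V + (x : ℂ) * ∑ j, b j ^ 2))
      have h6 : (V + (∑ j, b j ^ 2) * (x : ℂ)) - (BV.LL b (x : ℂ) + (V + (x : ℂ) * ∑ j, b j ^ 2)) =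
          - BV.LL b (x : ℂ) := by ring
      rw [h6, norm_neg] at h5
      exact h5
    have e4 : 2 * (∑ j, ‖b j‖) * x ^ 2 ≤ 6 * d * x ^ 2 := by
      have : 0 ≤ x ^ 2 := sq_nonneg x
      nlinarith
    have e5 : 6 * d * x ^ 2 ≤ 3 / 8 * (∑ j, b j ^ 2).re * x := by
      have h7 : 6 * d * x ≤ 3 / 8 * (∑ j, b j ^ 2).re := by
        have h8 : d * x ≤ d * (1 / 2000000) := mul_le_mul_of_nonneg_left (h1.trans hx3a) hdp.le
        linarith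
      have h9 := mul_le_mul_of_nonneg_right h7 h0
      nlinarith
    linarith
  have hII := hD.norm_II_sub_le hx3p.le (by linarith) (by rw [← hV]; exact hVne) hL
  rw [← hV, ← hd] at hII
  -- the first integral
  have hint1 : ∫ x in (0 : ℝ)..x3, ‖gg b x‖ ≤ 2 / (Real.sqrt c3 * Real.sqrt d) := by
    have hB : 0 < c3 * d / 4 := by positivity
    have h1 : ∫ x in (0 : ℝ)..x3, ‖gg b x‖ ≤
        ∫ x in (0 : ℝ)..x3, Real.exp (-(c3 * d / 4) * x ^ 2) := by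
      refine intervalIntegral.integral_mono_on hx3p.le
        ((continuous_gg b).norm.intervalIntegrable _ _)
        (Continuous.intervalIntegrable (by fun_prop) _ _) ?_
      intro x hx
      refine (hgg x hx.1 (hx.2.trans hx3C2)).trans (Real.exp_le_exp.2 ?_)
      have h2 : x ^ 2 / 4 ≤ x ^ 2 / (2 * (1 + x)) := by
        have hx1 : x ≤ 1 := by linarith [hx.2]
        refine div_le_div_of_nonneg_left (sq_nonneg x) (by linarith [hx.1]) (by linarith)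
      have h3 : c3 * d * (x ^ 2 / 4) ≤ c3 * d * (x ^ 2 / (2 * (1 + x))) :=
        mul_le_mul_of_nonneg_left h2 (by positivity)
      nlinarith
    refine h1.trans ((an9_gauss hB hx3p.le).trans ?_)
    have h4 : Real.sqrt (Real.pi / (c3 * d / 4)) ≤ 4 / (Real.sqrt c3 * Real.sqrt d) := by
      have h5 : 0 ≤ 4 / (Real.sqrt c3 * Real.sqrt d) := by positivity
      rw [Real.sqrt_le_left h5, div_pow, mul_pow, Real.sq_sqrt hc3p.le, Real.sq_sqrt hdp.le,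
        div_le_div_iff₀ hB (by positivity)]
      have hpi := Real.pi_le_four
      have hcd : 0 < c3 * d := by positivity
      nlinarith
    calc Real.sqrt (Real.pi / (c3 * d / 4)) / 2 ≤ 4 / (Real.sqrt c3 * Real.sqrt d) / 2 := by
          linarith
      _ = 2 / (Real.sqrt c3 * Real.sqrt d) := by ring
  have hT1 : 2 * ‖gg b x3‖ / ‖V‖ ≤ 1 / 8 / ‖V‖ := by
    refine div_le_div_of_nonneg_right ?_ hVp.le
    have h1 : ‖gg b x3‖ ≤ ε := by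
      refine (hgg x3 hx3p.le hx3C2).trans (le_trans (Real.exp_le_exp.2 ?_) hexp1)
      have h2 : x3 ^ 2 / 4 ≤ x3 ^ 2 / (2 * (1 + x3)) := by
        refine div_le_div_of_nonneg_left (sq_nonneg x3) (by linarith) (by linarith)
      have h3 : c3 * d * (x3 ^ 2 / 4) ≤ c3 * d * (x3 ^ 2 / (2 * (1 + x3))) :=
        mul_le_mul_of_nonneg_left h2 (by positivity)
      have h4 : c3 * d * x3 ^ 2 / 4 = c3 * d * (x3 ^ 2 / 4) := by ring
      rw [h4]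
      linarith
    linarith
  have hT2 : 48 * d / ‖V‖ ^ 2 * ∫ x in (0 : ℝ)..x3, ‖gg b x‖ ≤ 1 / 8 / ‖V‖ := by
    have h1 : 48 * d / ‖V‖ ^ 2 * ∫ x in (0 : ℝ)..x3, ‖gg b x‖ ≤
        48 * d / ‖V‖ ^ 2 * (2 / (Real.sqrt c3 * Real.sqrt d)) :=
      mul_le_mul_of_nonneg_left hint1 (by positivity)
    refine h1.trans ?_
    have hdd : d = Real.sqrt d * Real.sqrt d := (Real.mul_self_sqrt hdp.le).symm
    have h2 : 48 * d / ‖V‖ ^ 2 * (2 / (Real.sqrt c3 * Real.sqrt d)) =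
        (96 * Real.sqrt d / Real.sqrt c3) / ‖V‖ / ‖V‖ := by
      nth_rewrite 1 [hdd]
      field_simp
      ring
    rw [h2]
    refine div_le_div_of_nonneg_right ?_ hVp.le
    rw [div_le_iff₀ hVp]
    have h3 : 1 / 8 * (768 / Real.sqrt c3 * Real.sqrt d) ≤ 1 / 8 * ‖V‖ := by linarith
    have h4 : 96 * Real.sqrt d / Real.sqrt c3 = 1 / 8 * (768 / Real.sqrt c3 * Real.sqrt d) := by
      ring
    rw [h4]
    exact h3
  -- the tail
  have hT3 : ‖∫ x in x3..(C - lam), gg b x‖ ≤ 1 / 8 / ‖V‖ := by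
    have ha : 0 < c3 * d * x3 / 4 := by positivity
    have h1 : ‖∫ x in x3..(C - lam), gg b x‖ ≤
        ∫ x in x3..(C - lam), Real.exp (-(c3 * d * x3 / 4 * x)) := by
      refine (intervalIntegral.norm_integral_le_integral_norm hx3C).trans ?_
      refine intervalIntegral.integral_mono_on hx3C
        ((continuous_gg b).norm.intervalIntegrable _ _)
        (Continuous.intervalIntegrable (by fun_prop) _ _) ?_
      intro x hx
      have hx0 : 0 ≤ x := hx3p.le.trans hx.1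
      refine (hgg x hx0 (by linarith [hx.2])).trans (Real.exp_le_exp.2 ?_)
      have h2 : x3 * x / 4 ≤ x ^ 2 / (2 * (1 + x)) := by
        rw [div_le_div_iff₀ (by norm_num) (by linarith)]
        have h21 : x3 * x ≤ 1 * x := mul_le_mul_of_nonneg_right (by linarith) hx0
        have h22 : x3 * x ≤ x * x := mul_le_mul_of_nonneg_right hx.1 hx0
        have h23 : x3 * x * x ≤ 1 * x * x := mul_le_mul_of_nonneg_right h21 hx0
        nlinarith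
      have h3 : c3 * d * (x3 * x / 4) ≤ c3 * d * (x ^ 2 / (2 * (1 + x))) :=
        mul_le_mul_of_nonneg_left h2 (by positivity)
      nlinarith
    refine h1.trans ((an9_tail ha).trans ?_)
    have h4 : Real.exp (-(c3 * d * x3 / 4 * x3)) ≤ ε := by
      refine le_trans (le_of_eq ?_) hexp1
      congr 1
      ring
    calc Real.exp (-(c3 * d * x3 / 4 * x3)) / (c3 * d * x3 / 4) ≤ ε / (c3 * d * x3 / 4) :=
          div_le_div_of_nonneg_right h4 ha.le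
      _ = 1 / 8 / (3 * d) := by
          rw [hε]
          field_simp
          norm_num
      _ ≤ 1 / 8 / ‖V‖ := div_le_div_of_nonneg_left (by norm_num) hVp hV3
  -- assembly
  have hsplit : II b (C - lam) = II b x3 + ∫ x in x3..(C - lam), gg b x := by
    unfold II
    rw [intervalIntegral.integral_add_adjacent_intervals]
    · exact (continuous_gg b).intervalIntegrable _ _
    · exact (continuous_gg b).intervalIntegrable _ _
  have hfin : 1 / ‖V‖ - 3 / 8 / ‖V‖ ≤ ‖II b (C - lam)‖ := by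
    have h1 : V⁻¹ = II b (C - lam) - ((II b x3 - V⁻¹) + ∫ x in x3..(C - lam), gg b x) := by
      rw [hsplit]
      ring
    have h2 : ‖V⁻¹‖ ≤ ‖II b (C - lam)‖ + (‖II b x3 - V⁻¹‖ + ‖∫ x in x3..(C - lam), gg b x‖) := by
      calc ‖V⁻¹‖ = ‖II b (C - lam) - ((II b x3 - V⁻¹) + ∫ x in x3..(C - lam), gg b x)‖ := by
            rw [← h1]
        _ ≤ ‖II b (C - lam)‖ + ‖(II b x3 - V⁻¹) + ∫ x in x3..(C - lam), gg b x‖ :=
            norm_sub_le _ _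
        _ ≤ _ := add_le_add le_rfl (norm_add_le _ _)
    rw [norm_inv, ← one_div] at h2
    have h3 : 3 / 8 / ‖V‖ = 1 / 8 / ‖V‖ + 1 / 8 / ‖V‖ + 1 / 8 / ‖V‖ := by ring
    rw [h3]
    linarith
  have hlast : 1 / (6 * (N : ℝ)) ≤ 1 / ‖V‖ - 3 / 8 / ‖V‖ := by
    have h1 : 1 / ‖V‖ - 3 / 8 / ‖V‖ = 5 / 8 / ‖V‖ := by ring
    rw [h1]
    have hNp : (0 : ℝ) < N := hdp.trans_le hdN
    rw [div_le_div_iff₀ (by positivity) hVp]
    nlinarith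
  exact hlast.trans hfin

end Pool.MP_c113aa_an.B1
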