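import Pool.Agent.Lib.c113aaP.An7
import Pool.Agent.Lib.c113aaP.An9
import Pool.Agent.Lib.c113aaP.An10

set_option autoImplicit false

namespace Pool.MP_c113aa_an.B1

open Finset

/-- Assembly of the three regimes. -/
theorem large_d {κ lam : ℝ} (hlam : 0 < lam) (hκ : lam < κ) :
    ∃ d₀ : ℝ, 0 < d₀ ∧ ∀ (N : ℕ) (b : Fin N → ℂ) (C : ℝ), Dat N b C → κ ≤ C →
      d₀ ≤ N / (C + 1) → 1 / (6 * (N : ℝ)) ≤ ‖II b (C - lam)‖ := by
  obtain ⟨η, K, d₂, hη, hK, hd₂, h2⟩ := regime_two hlam hκ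
  obtain ⟨d₁, hd₁, h1⟩ := regime_one hlam hκ hη
  obtain ⟨d₃, hd₃, h3⟩ := regime_three hlam hκ hK
  refine ⟨max d₁ (max d₂ d₃), by positivity, fun N b C h hC hd => ?_⟩
  rcases le_total (η * (N / (C + 1))) (∑ j, b j).re with hR | hR
  · exact h1 N b C h hC ((le_max_left _ _).trans hd) hR
  · rcases le_total (K * Real.sqrt (N / (C + 1))) ‖∑ j, b j‖ with hV | hV
    · exact h2 N b C h hC (((le_max_left _ _).trans (le_max_right _ _)).trans hd) hR hV
    · exact h3 N b C h hC (((le_max_right _ _).trans (le_max_right _ _)).trans hd) hV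

end Pool.MP_c113aa_an.B1
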