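import Pool.Agent.Lib.c113aaP.An0

set_option autoImplicit false

namespace Pool.MP_c113aa_an.B1

open Finset

variable {N : ℕ} {b : Fin N → ℂ} {C : ℝ}

/-- `log (1 + τ) ≤ τ - τ^2 / (2 (1 + τ))`. -/
private theorem An2_log_le {τ : ℝ} (hτ : 0 ≤ τ) :
    Real.log (1 + τ) ≤ τ - τ ^ 2 / (2 * (1 + τ)) := by
  have h1 : (0 : ℝ) < 1 + τ := by linarith
  have h2 : 0 ≤ Real.log (1 + τ) := Real.log_nonneg (by linarith)
  have h3 := Real.self_le_sinh_iff.2 h2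
  rw [Real.sinh_eq, Real.exp_neg, Real.exp_log h1] at h3
  have h4 : (1 + τ - (1 + τ)⁻¹) / 2 = τ - τ ^ 2 / (2 * (1 + τ)) := by
    field_simp
    ring
  linarith

/-- The inequality `mul_exp_le_exp` (private copy used in `An2_term`). -/
private theorem mul_exp_le_exp_aux {y τ : ℝ} (hτ : 0 ≤ τ) (hy : 1 + τ ≤ y) :
    y * Real.exp (τ ^ 2 / (2 * (1 + τ))) ≤ Real.exp (y - 1) := by
  have h1 : (0 : ℝ) < 1 + τ := by linarith
  have hy0 : 0 < y := by linarith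
  have h2 := An2_log_le hτ
  have h3 : Real.log y ≤ Real.log (1 + τ) + (y - 1 - τ) := by
    have h4 := Real.log_le_sub_one_of_pos (div_pos hy0 h1)
    rw [Real.log_div hy0.ne' h1.ne'] at h4
    have h5 : y / (1 + τ) - 1 ≤ y - 1 - τ := by
      have e : y / (1 + τ) - 1 = (y - (1 + τ)) / (1 + τ) := by field_simp
      rw [e, div_le_iff₀ h1]
      nlinarith
    linarith
  have h6 : y = Real.exp (Real.log y) := (Real.exp_log hy0).symm
  calc y * Real.exp (τ ^ 2 / (2 * (1 + τ)))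
      = Real.exp (Real.log y + τ ^ 2 / (2 * (1 + τ))) := by
        rw [Real.exp_add, Real.exp_log hy0]
    _ ≤ Real.exp (y - 1) := Real.exp_le_exp.2 (by linarith)

private theorem An2_term {z : ℂ} {x : ℝ} (hx : 0 ≤ x) (hz : ‖z‖ ≤ 1) :
    ‖1 - (x : ℂ) * z‖ ≤ Real.exp (‖1 - (x : ℂ) * z‖ - 1
      - (x ^ 2 / (2 * (1 + x))) * (if z.re ≤ 0 then z.re ^ 2 else 0)) := by
  set y : ℝ := ‖1 - (x : ℂ) * z‖ with hy
  by_cases h : z.re ≤ 0
  · rw [if_pos h]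
    set τ : ℝ := -(x * z.re) with hτ
    have hτ0 : 0 ≤ τ := by
      rw [hτ]
      nlinarith
    have hre : |z.re| ≤ 1 := (Complex.abs_re_le_norm z).trans hz
    have hre' : -z.re ≤ 1 := (neg_le_abs _).trans hre
    have hτx : τ ≤ x := by
      rw [hτ]
      nlinarith
    have hy1 : 1 + τ ≤ y := by
      have h1 : (1 - (x : ℂ) * z).re ≤ ‖1 - (x : ℂ) * z‖ := Complex.re_le_norm _
      have h2 : (1 - (x : ℂ) * z).re = 1 + τ := by
        simp [hτ]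
        ring
      rw [h2] at h1
      exact h1
    have h3 := mul_exp_le_exp_aux hτ0 hy1
    have h4 : x ^ 2 / (2 * (1 + x)) * z.re ^ 2 ≤ τ ^ 2 / (2 * (1 + τ)) := by
      have e : x ^ 2 / (2 * (1 + x)) * z.re ^ 2 = τ ^ 2 / (2 * (1 + x)) := by
        rw [hτ]
        ring
      rw [e]
      apply div_le_div_of_nonneg_left (sq_nonneg _) (by linarith) (by linarith)
    have h5 : y = y * Real.exp (τ ^ 2 / (2 * (1 + τ))) *
        Real.exp (-(τ ^ 2 / (2 * (1 + τ)))) := by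
      rw [mul_assoc, ← Real.exp_add, add_neg_cancel, Real.exp_zero, mul_one]
    calc y = y * Real.exp (τ ^ 2 / (2 * (1 + τ))) * Real.exp (-(τ ^ 2 / (2 * (1 + τ)))) := h5
      _ ≤ Real.exp (y - 1) * Real.exp (-(τ ^ 2 / (2 * (1 + τ)))) :=
          mul_le_mul_of_nonneg_right h3 (Real.exp_pos _).le
      _ = Real.exp (y - 1 - τ ^ 2 / (2 * (1 + τ))) := by
          rw [← Real.exp_add]
          congr 1
      _ ≤ _ := by
          apply Real.exp_le_exp.2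
          linarith
  · rw [if_neg h, mul_zero, sub_zero]
    have := Real.add_one_le_exp (y - 1)
    linarith

/-- (a) `τ - log (1 + τ) ≥ τ^2 / (2 (1 + τ))` for `τ ≥ 0` (derivatives), i.e.
`(1 + τ) exp (τ^2 / (2 (1+τ))) ≤ exp τ`; (b) `y ↦ exp (y - 1) / y` is nondecreasing for `y ≥ 1`; so for
`y ≥ 1 + τ`: `y exp (τ^2/(2(1+τ))) ≤ exp (y - 1)`. -/
theorem mul_exp_le_exp {y τ : ℝ} (hτ : 0 ≤ τ) (hy : 1 + τ ≤ y) :
    y * Real.exp (τ ^ 2 / (2 * (1 + τ))) ≤ Real.exp (y - 1) :=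
  mul_exp_le_exp_aux hτ hy

/-- Decay of the product when `σ ≤ ∑_{Re ≤ 0} (Re b_j)^2`.  `y_j = ‖1 - x b_j‖`,
`s = x / C ∈ [0,1]`, `y_j ≤ 1 - s + s ‖(b j)⁻¹ - C‖` (as in `norm_gg_le_one`), so `∑ (y_j - 1) ≤ 0`.
For every `j`: `y_j ≤ exp (y_j - 1)`; for `Re b_j ≤ 0`: `y_j ≥ 1 + τ` with `τ = x |Re b_j| ≤ x`, so by
`mul_exp_le_exp` `y_j ≤ exp (y_j - 1 - τ^2/(2 (1+τ)))` and `τ^2/(2(1+τ)) ≥ x^2 (Re b_j)^2/(2 (1+x))`.
Multiply. -/
theorem Dat.norm_gg_le_exp (h : Dat N b C) {σ x : ℝ}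
    (hσ : σ ≤ ∑ j ∈ univ.filter (fun j => (b j).re ≤ 0), (b j).re ^ 2)
    (hx0 : 0 ≤ x) (hxC : x ≤ C) :
    ‖gg b x‖ ≤ Real.exp (-(σ * (x ^ 2 / (2 * (1 + x))))) := by
  set κ : ℝ := x ^ 2 / (2 * (1 + x)) with hκ
  have hκ0 : 0 ≤ κ := by positivity
  have hC := h.C_pos
  unfold gg
  rw [norm_prod]
  have h1 : ∏ j, ‖1 - (x : ℂ) * b j‖ ≤ ∏ j, Real.exp (‖1 - (x : ℂ) * b j‖ - 1
      - κ * (if (b j).re ≤ 0 then (b j).re ^ 2 else 0)) :=
    Finset.prod_le_prod (fun j _ => norm_nonneg _) fun j _ => An2_term hx0 (h.le_one j)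
  rw [← Real.exp_sum] at h1
  refine h1.trans (Real.exp_le_exp.2 ?_)
  rw [Finset.sum_sub_distrib, ← Finset.mul_sum]
  have h2 : ∑ j, (if (b j).re ≤ 0 then (b j).re ^ 2 else 0)
      = ∑ j ∈ univ.filter (fun j => (b j).re ≤ 0), (b j).re ^ 2 := by
    rw [Finset.sum_filter]
  rw [h2]
  have h3 : κ * σ ≤ κ * ∑ j ∈ univ.filter (fun j => (b j).re ≤ 0), (b j).re ^ 2 :=
    mul_le_mul_of_nonneg_left hσ hκ0
  have h4 : ∀ j, ‖1 - (x : ℂ) * b j‖ - 1 ≤ x / C * (‖(b j)⁻¹ - (C : ℂ)‖ - 1) := by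
    intro j
    set s : ℝ := x / C with hs
    have hs0 : 0 ≤ s := by positivity
    have hs1 : s ≤ 1 := (div_le_one hC).2 hxC
    have hsx : s * C = x := div_mul_cancel₀ _ hC.ne'
    have e1 : 1 - (x : ℂ) * b j = ((1 - s : ℝ) : ℂ) + (s : ℂ) * (b j * ((b j)⁻¹ - (C : ℂ))) := by
      rw [mul_sub, mul_inv_cancel₀ (h.ne j), ← hsx]
      push_cast
      ring
    have e2 : ‖b j * ((b j)⁻¹ - (C : ℂ))‖ ≤ ‖(b j)⁻¹ - (C : ℂ)‖ := by
      rw [norm_mul]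
      exact mul_le_of_le_one_left (norm_nonneg _) (h.le_one j)
    have e3 : ‖1 - (x : ℂ) * b j‖ ≤ (1 - s) + s * ‖(b j)⁻¹ - (C : ℂ)‖ := by
      rw [e1]
      refine (norm_add_le _ _).trans ?_
      rw [norm_mul, Complex.norm_real, Complex.norm_real, Real.norm_of_nonneg hs0,
        Real.norm_of_nonneg (by linarith)]
      have := mul_le_mul_of_nonneg_left e2 hs0
      linarith
    linarith
  have h5 : ∑ j, (‖1 - (x : ℂ) * b j‖ - 1) ≤ 0 := by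
    calc ∑ j, (‖1 - (x : ℂ) * b j‖ - 1) ≤ ∑ j, x / C * (‖(b j)⁻¹ - (C : ℂ)‖ - 1) :=
          Finset.sum_le_sum fun j _ => h4 j
      _ = x / C * (∑ j, ‖(b j)⁻¹ - (C : ℂ)‖ - N) := by
          rw [← Finset.mul_sum, Finset.sum_sub_distrib]
          simp
      _ ≤ 0 := by
          apply mul_nonpos_of_nonneg_of_nonpos (by positivity)
          linarith [h.sum_le]
  linarith

end Pool.MP_c113aa_an.B1
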