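import Pool.Agent.Lib.c113aaP.An2

set_option autoImplicit false

namespace Pool.MP_c113aa_an.B1

open Finset

/-- Pointwise inequality for `C ≥ 4`.  `γ = x₁ / 12 ≤ 1/12`, `s = x / C ∈ (0,1]`, `a = C b`, `W = ‖b⁻¹‖ ≥ 1`,
`ρ = ‖1 - a‖`, `‖b⁻¹ - C‖ = W ρ`.  `‖1 - x b‖ = ‖(1-s) + s (1-a)‖ ≤ 1 - s + s ρ = 1 + τ`, `τ = s (ρ - 1)`.
If `(1-γ) W ≥ 1`: `‖1 - x b‖ ≤ 1 + τ ≤ exp τ ≤ exp (s ((1-γ) W ρ - 1))`.
Otherwise `W < 1/(1-γ) ≤ 12/11`, `‖a‖ = C / W ≥ (11/12) C`, `ρ ≥ (11/12) C - 1 ≥ 8/3`, so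
`τ ≥ (5/8) s ρ` and `τ ≥ s ((11/12) C - 2) ≥ (5/12) x ≥ (5/12) x₁`.  By `mul_exp_le_exp`
(y = 1 + τ) `1 + τ ≤ exp (τ - τ^2/(2(1+τ)))` and `τ^2/(2(1+τ)) = τ · τ/(2(1+τ))
≥ (5/8) s ρ · (5/12) x₁/(2 (1 + 5/12)) ≥ (x₁/12) s ρ = γ s ρ` (monotone in `τ`, `x₁ ≤ 1`).  So
`‖1 - x b‖ ≤ exp (s (ρ - 1) - γ s ρ) ≤ exp (s ((1-γ) W ρ - 1))`. -/
theorem one_sub_le_far {C x x₁ : ℝ} (hC : 4 ≤ C) (hx1 : 0 < x₁) (hx1' : x₁ ≤ 1) (hx : x₁ ≤ x)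
    (hxC : x ≤ C) (b : ℂ) (hb : b ≠ 0) (hb1 : ‖b‖ ≤ 1) :
    ‖1 - (x : ℂ) * b‖ ≤ Real.exp (x / C * ((1 - x₁ / 12) * ‖b⁻¹ - (C : ℂ)‖ - 1)) := by
  have hC0 : 0 < C := by linarith
  have hx0 : 0 < x := by linarith
  obtain ⟨s, hs⟩ : ∃ s, s = x / C := ⟨_, rfl⟩
  have hs0 : 0 < s := by rw [hs]; exact div_pos hx0 hC0
  have hs1 : s ≤ 1 := by rw [hs]; exact (div_le_one hC0).2 hxC
  have hsC : s * C = x := by rw [hs]; field_simp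
  rw [← hs]
  obtain ⟨X, hX⟩ : ∃ X, X = ‖b⁻¹ - (C : ℂ)‖ := ⟨_, rfl⟩
  have hX0 : 0 ≤ X := by rw [hX]; exact norm_nonneg _
  rw [← hX]
  obtain ⟨ρ, hρ⟩ : ∃ ρ, ρ = ‖1 - (C : ℂ) * b‖ := ⟨_, rfl⟩
  have hρ0 : 0 ≤ ρ := by rw [hρ]; exact norm_nonneg _
  have hρX : ρ = X * ‖b‖ := by
    rw [hρ, hX, ← norm_mul]
    congr 1
    field_simp
  have hmain : ‖1 - (x : ℂ) * b‖ ≤ 1 + s * (ρ - 1) := by
    have e : 1 - (x : ℂ) * b = ((1 - s : ℝ) : ℂ) + ((s : ℝ) : ℂ) * (1 - (C : ℂ) * b) := by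
      rw [← hsC]
      push_cast
      ring
    rw [e]
    calc ‖((1 - s : ℝ) : ℂ) + ((s : ℝ) : ℂ) * (1 - (C : ℂ) * b)‖
        ≤ ‖((1 - s : ℝ) : ℂ)‖ + ‖((s : ℝ) : ℂ) * (1 - (C : ℂ) * b)‖ := norm_add_le _ _
      _ = (1 - s) + s * ρ := by
          rw [norm_mul, Complex.norm_real, Complex.norm_real, Real.norm_of_nonneg hs0.le,
            Real.norm_of_nonneg (by linarith), ← hρ]
      _ = 1 + s * (ρ - 1) := by ring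
  refine hmain.trans ?_
  rcases le_or_gt ‖b‖ (1 - x₁ / 12) with h1 | h1
  · have h2 : 1 + s * (ρ - 1) ≤ Real.exp (s * (ρ - 1)) := by
      have := Real.add_one_le_exp (s * (ρ - 1))
      linarith
    refine h2.trans (Real.exp_le_exp.2 ?_)
    have h3 : ρ ≤ (1 - x₁ / 12) * X := by
      rw [hρX, mul_comm]
      exact mul_le_mul_of_nonneg_right h1 hX0
    exact mul_le_mul_of_nonneg_left (by linarith) hs0.le
  · have hb11 : 11 / 12 < ‖b‖ := by linarith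
    have hρX' : ρ ≤ X := by
      rw [hρX]
      exact mul_le_of_le_one_right hX0 hb1
    have hρC : 11 / 12 * C - 1 ≤ ρ := by
      have h2 : C * ‖b‖ - 1 ≤ ρ := by
        rw [hρ]
        have h3 := norm_sub_norm_le ((C : ℂ) * b) 1
        rw [norm_mul, Complex.norm_real, Real.norm_of_nonneg hC0.le, norm_one, norm_sub_rev] at h3
        exact h3
      nlinarith
    have hρ8 : 8 / 3 ≤ ρ := by linarith
    obtain ⟨τ, hτ⟩ : ∃ τ, τ = s * (ρ - 1) := ⟨_, rfl⟩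
    rw [← hτ]
    have hτ1 : 5 / 8 * (s * ρ) ≤ τ := by rw [hτ]; nlinarith
    have hτ2 : 5 / 12 * x₁ ≤ τ := by
      have h3 : s * (5 / 12 * C) ≤ τ := by
        rw [hτ]
        exact mul_le_mul_of_nonneg_left (by linarith) hs0.le
      have h4 : s * (5 / 12 * C) = 5 / 12 * x := by rw [← hsC]; ring
      linarith
    have hτ0 : 0 < τ := by linarith
    have hsρ : 0 ≤ s * ρ := mul_nonneg hs0.le hρ0
    have h5 : (1 + τ) * Real.exp (τ ^ 2 / (2 * (1 + τ))) ≤ Real.exp τ := by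
      have := mul_exp_le_exp (y := 1 + τ) (τ := τ) hτ0.le le_rfl
      simpa using this
    have h6 : 1 + τ ≤ Real.exp (τ - τ ^ 2 / (2 * (1 + τ))) := by
      rw [Real.exp_sub, le_div_iff₀ (Real.exp_pos _)]
      exact h5
    refine h6.trans (Real.exp_le_exp.2 ?_)
    have h7 : 5 / 34 * x₁ ≤ τ / (2 * (1 + τ)) := by
      rw [le_div_iff₀ (by linarith)]
      nlinarith
    have h8 : x₁ / 12 * (s * ρ) ≤ τ ^ 2 / (2 * (1 + τ)) := by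
      have e : τ ^ 2 / (2 * (1 + τ)) = τ * (τ / (2 * (1 + τ))) := by ring
      rw [e]
      calc x₁ / 12 * (s * ρ) ≤ 5 / 8 * (s * ρ) * (5 / 34 * x₁) := by nlinarith [mul_nonneg hsρ hx1.le]
        _ ≤ τ * (τ / (2 * (1 + τ))) := mul_le_mul hτ1 h7 (by positivity) hτ0.le
    have h9 : s * ((1 - x₁ / 12) * ρ - 1) ≤ s * ((1 - x₁ / 12) * X - 1) := by
      refine mul_le_mul_of_nonneg_left ?_ hs0.le
      have : (1 - x₁ / 12) * ρ ≤ (1 - x₁ / 12) * X :=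
        mul_le_mul_of_nonneg_left hρX' (by linarith)
      linarith
    have h10 : τ - x₁ / 12 * (s * ρ) = s * ((1 - x₁ / 12) * ρ - 1) := by rw [hτ]; ring
    linarith

end Pool.MP_c113aa_an.B1
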