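import Pool.Agent.Lib.c113aaP.An2

set_option autoImplicit false

namespace Pool.MP_c113aa_an.B1

open Finset

private theorem an4_exp {τ : ℝ} (h : -1 ≤ τ) : (1 + τ) ^ 2 + τ ^ 2 / 16 ≤ Real.exp (2 * τ) := by
  have h1 : τ / 2 + 1 ≤ Real.exp (τ / 2) := Real.add_one_le_exp _
  have h2 : (τ / 2 + 1) ^ 4 ≤ Real.exp (τ / 2) ^ 4 :=
    pow_le_pow_left₀ (by linarith) h1 4
  have h3 : Real.exp (τ / 2) ^ 4 = Real.exp (2 * τ) := by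
    rw [← Real.exp_nat_mul]
    congr 1
    push_cast
    ring
  rw [h3] at h2
  refine le_trans ?_ h2
  nlinarith [mul_nonneg (sq_nonneg τ) (by linarith : (0 : ℝ) ≤ 1 + τ),
    mul_nonneg (sq_nonneg τ) (sq_nonneg (τ + 1)), sq_nonneg τ]

private theorem an4_pos {κ lam x₁ : ℝ} (hκ : 0 < κ) (hlam : 0 < lam) (hx1 : 0 < x₁) :
    0 < min (x₁ ^ 2 / 256) (x₁ * lam / 16) * (κ ^ 2 / 4) :=
  mul_pos (lt_min (by positivity) (by positivity)) (by positivity)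

private theorem an4_core {κ lam x₁ : ℝ} (hκ : 0 < κ) (hlam : 0 < lam) (hx1 : 0 < x₁)
    {C x s ρ A y : ℝ} (hC : κ ≤ C) (hC4 : C ≤ 4) (hx : x₁ ≤ x) (hxC : x ≤ C - lam)
    (hs : s = x / C) (hρ0 : 0 ≤ ρ) (hρ5 : ρ ≤ 5) (hy0 : 0 ≤ y) (hA : κ ^ 2 / 4 ≤ A)
    (hAr : (1 - ρ) ^ 2 ≤ A)
    (hy : y ^ 2 = (1 - s + s * ρ) ^ 2 - s * (1 - s) * (A - (1 - ρ) ^ 2)) :
    y ≤ Real.exp (s * (ρ - 1) -
      min (x₁ ^ 2 / 256) (x₁ * lam / 16) * (κ ^ 2 / 4) * Real.exp (-8) / 2) := by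
  set m := min (x₁ ^ 2 / 256) (x₁ * lam / 16) with hm
  have hC0 : 0 < C := lt_of_lt_of_le hκ hC
  have hm0 : 0 < m := lt_min (by positivity) (by positivity)
  have hs1 : x₁ / 4 ≤ s := by
    rw [hs, div_le_div_iff₀ (by norm_num) hC0]
    nlinarith
  have hs2 : lam / 4 ≤ 1 - s := by
    have h1 : 1 - s = (C - x) / C := by
      rw [hs]
      field_simp
    rw [h1, div_le_div_iff₀ (by norm_num) hC0]
    nlinarith
  have hs0 : 0 < s := by linarith [div_pos hx1 (by norm_num : (0 : ℝ) < 4)]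
  have hs3 : 0 < 1 - s := by linarith [div_pos hlam (by norm_num : (0 : ℝ) < 4)]
  have hτ1 : -1 ≤ s * (ρ - 1) := by nlinarith [mul_nonneg hs0.le hρ0]
  have hτ4 : s * (ρ - 1) ≤ 4 := by
    nlinarith [mul_nonneg hs0.le hρ0, mul_nonneg hs0.le (by linarith : (0 : ℝ) ≤ 5 - ρ)]
  have h1 := an4_exp hτ1
  have h2 : m * A ≤ (s * (ρ - 1)) ^ 2 / 16 + s * (1 - s) * (A - (1 - ρ) ^ 2) := by
    have h3 : m ≤ s ^ 2 / 16 := by
      refine (min_le_left _ _).trans ?_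
      have : (x₁ / 4) ^ 2 ≤ s ^ 2 := pow_le_pow_left₀ (by positivity) hs1 2
      nlinarith
    have h4 : m ≤ s * (1 - s) := by
      refine (min_le_right _ _).trans ?_
      have : x₁ / 4 * (lam / 4) ≤ s * (1 - s) := mul_le_mul hs1 hs2 (by positivity) hs0.le
      linarith
    have h5 := mul_le_mul_of_nonneg_right h3 (sq_nonneg (1 - ρ))
    have h6 := mul_le_mul_of_nonneg_right h4 (sub_nonneg.2 hAr)
    nlinarith [h5, h6]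
  have h3 : m * (κ ^ 2 / 4) ≤ m * A := mul_le_mul_of_nonneg_left hA hm0.le
  have h4 : y ^ 2 ≤ Real.exp (2 * (s * (ρ - 1))) - m * (κ ^ 2 / 4) := by
    have h5 : (1 - s + s * ρ) ^ 2 = (1 + s * (ρ - 1)) ^ 2 := by ring
    rw [hy, h5]
    linarith
  have h5 : Real.exp (2 * (s * (ρ - 1))) * Real.exp (-8) ≤ 1 := by
    rw [← Real.exp_add]
    exact Real.exp_le_one_iff.2 (by linarith)
  have hh0 : 0 < m * (κ ^ 2 / 4) := mul_pos hm0 (by positivity)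
  have h6 : y ^ 2 ≤ Real.exp (2 * (s * (ρ - 1))) * (1 - m * (κ ^ 2 / 4) * Real.exp (-8)) := by
    nlinarith [mul_le_mul_of_nonneg_left h5 hh0.le]
  have h7 : 1 - m * (κ ^ 2 / 4) * Real.exp (-8) ≤ Real.exp (-(m * (κ ^ 2 / 4) * Real.exp (-8))) := by
    have := Real.add_one_le_exp (-(m * (κ ^ 2 / 4) * Real.exp (-8)))
    linarith
  have h8 : y ^ 2 ≤ (Real.exp (s * (ρ - 1) - m * (κ ^ 2 / 4) * Real.exp (-8) / 2)) ^ 2 := by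
    refine h6.trans ((mul_le_mul_of_nonneg_left h7 (Real.exp_pos _).le).trans (le_of_eq ?_))
    rw [← Real.exp_add, ← Real.exp_nat_mul]
    congr 1
    push_cast
    ring
  exact (pow_le_pow_iff_left₀ hy0 (Real.exp_pos _).le two_ne_zero).1 h8

/-- Pointwise inequality for `κ ≤ C ≤ 4`, `x₁ ≤ x ≤ C - lam`.  `s = x / C`, `s ≥ x₁/4`, `1 - s ≥ lam/4`,
`a = C b`, `W = ‖b⁻¹‖ ≥ 1`, `ρ = ‖1 - a‖`, `‖b⁻¹ - C‖ = W ρ`, `y = ‖1 - x b‖ = ‖(1-s) + s(1-a)‖ ≤ 1 + s (ρ-1)`.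
Choose `γ ≤ 1/2` small.  If `(1-γ) W ≥ 1`: as in `one_sub_le_far`,
`y ≤ 1 + s(ρ-1) ≤ exp (s (ρ - 1)) ≤ exp (s ((1-γ) W ρ - 1))`.
Otherwise `W < 2`, `‖a‖ = C / W ≥ κ/2 =: κ'`, `‖a‖ ≤ 4`, `ρ ≤ 5`, and it is enough to find `g > 0`
(depending on κ, lam, x₁) with `y ≤ exp (s (ρ - 1) - g)`; then `γ = min (1/2) (g/5)` works because
`γ s ρ ≤ 5 γ`, `W ≥ 1`.
(i) `|ρ - 1| ≥ κ'/2`: `τ = s (ρ - 1)`, `|τ| ≥ x₁ κ'/8`, `τ ∈ [-1, 4]`; `1 + τ ≤ exp (τ - τ^2/10)` on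
`[-1,4]` (for τ ≥ 0 from `mul_exp_le_exp`: `τ^2/(2(1+τ)) ≥ τ^2/10`; for `-1 ≤ τ ≤ 0`:
`log (1+τ) ≤ τ - τ^2/2`).  So `g = (x₁ κ'/8)^2/10` works.
(ii) `|ρ - 1| < κ'/2`: `ρ - Re(1-a) = (‖a‖^2 - (1-ρ)^2)/2 ≥ 3 κ'^2/8`, and
`y^2 = (1-s+sρ)^2 - 2 s (1-s) (ρ - Re (1-a)) ≤ (1-s+sρ)^2 - (x₁ lam/8) (3 κ'^2/8)`, with `1 - s + s ρ ≤ 5`;
so `y ≤ (1 + τ) sqrt (1 - q/25) ≤ exp (τ - q/50)`, `q = 3 x₁ lam κ'^2/64`. -/
theorem one_sub_le_near {κ lam x₁ : ℝ} (hκ : 0 < κ) (hlam : 0 < lam) (hx1 : 0 < x₁) :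
    ∃ γ : ℝ, 0 < γ ∧ γ ≤ 1 / 2 ∧ ∀ C : ℝ, κ ≤ C → C ≤ 4 → ∀ x : ℝ, x₁ ≤ x → x ≤ C - lam →
      ∀ b : ℂ, b ≠ 0 → ‖b‖ ≤ 1 →
      ‖1 - (x : ℂ) * b‖ ≤ Real.exp (x / C * ((1 - γ) * ‖b⁻¹ - (C : ℂ)‖ - 1)) := by
  set g := min (x₁ ^ 2 / 256) (x₁ * lam / 16) * (κ ^ 2 / 4) * Real.exp (-8) / 2 with hg
  have hg0 : 0 < g := by
    have h1 := an4_pos hκ hlam hx1
    have h2 := Real.exp_pos (-8)
    positivity
  refine ⟨min (1 / 2) (g / 5), lt_min (by norm_num) (by positivity), min_le_left _ _, ?_⟩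
  intro C hC hC4 x hx hxC b hb hb1
  set γ := min (1 / 2) (g / 5) with hγ
  have hγ0 : 0 < γ := lt_min (by norm_num) (by positivity)
  have hγ1 : γ ≤ 1 / 2 := min_le_left _ _
  have hγ2 : γ ≤ g / 5 := min_le_right _ _
  have hC0 : 0 < C := lt_of_lt_of_le hκ hC
  have hx0 : 0 < x := lt_of_lt_of_le hx1 hx
  obtain ⟨s, hs⟩ : ∃ s, s = x / C := ⟨_, rfl⟩
  obtain ⟨ρ, hρ⟩ : ∃ ρ, ρ = ‖1 - (C : ℂ) * b‖ := ⟨_, rfl⟩
  obtain ⟨W, hW⟩ : ∃ W, W = ‖b⁻¹‖ := ⟨_, rfl⟩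
  obtain ⟨y, hy⟩ : ∃ y, y = ‖1 - (x : ℂ) * b‖ := ⟨_, rfl⟩
  have hs0 : 0 < s := by rw [hs]; positivity
  have hs1 : s ≤ 1 := by
    rw [hs, div_le_one hC0]
    linarith
  have hρ0 : 0 ≤ ρ := by rw [hρ]; exact norm_nonneg _
  have hy0 : 0 ≤ y := by rw [hy]; exact norm_nonneg _
  have hbpos : 0 < ‖b‖ := norm_pos_iff.2 hb
  have hW1 : 1 ≤ W := by
    rw [hW, norm_inv]
    exact (one_le_inv₀ hbpos).2 hb1
  have hWb : W * ‖b‖ = 1 := by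
    rw [hW, norm_inv, inv_mul_cancel₀ hbpos.ne']
  have hprod : ‖b⁻¹ - (C : ℂ)‖ = W * ρ := by
    rw [hW, hρ, ← norm_mul]
    congr 1
    field_simp
  have hxs : x = s * C := by
    rw [hs, div_mul_cancel₀ _ hC0.ne']
  have hρ2 : ρ ^ 2 = 1 - 2 * C * b.re + C ^ 2 * ‖b‖ ^ 2 := by
    rw [hρ, Complex.sq_norm, Complex.sq_norm, Complex.normSq_apply, Complex.normSq_apply]
    simp
    ring
  have hy2 : y ^ 2 = 1 - 2 * x * b.re + x ^ 2 * ‖b‖ ^ 2 := by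
    rw [hy, Complex.sq_norm, Complex.sq_norm, Complex.normSq_apply, Complex.normSq_apply]
    simp
    ring
  have hyid : y ^ 2 = (1 - s + s * ρ) ^ 2 - s * (1 - s) * ((C * ‖b‖) ^ 2 - (1 - ρ) ^ 2) := by
    have h1 : (1 - s + s * ρ) ^ 2 - s * (1 - s) * ((C * ‖b‖) ^ 2 - (1 - ρ) ^ 2) =
        (1 - s) + s * ρ ^ 2 - s * (1 - s) * (C * ‖b‖) ^ 2 := by ring
    rw [h1, hρ2, hy2, hxs]
    ring
  have hAr : (1 - ρ) ^ 2 ≤ (C * ‖b‖) ^ 2 := by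
    have h1 : |1 - ρ| ≤ C * ‖b‖ := by
      have h2 := abs_norm_sub_norm_le (1 : ℂ) (1 - (C : ℂ) * b)
      rw [norm_one, ← hρ, sub_sub_cancel, norm_mul, Complex.norm_real, Real.norm_eq_abs,
        abs_of_pos hC0] at h2
      exact h2
    calc (1 - ρ) ^ 2 = |1 - ρ| ^ 2 := (sq_abs _).symm
      _ ≤ (C * ‖b‖) ^ 2 := pow_le_pow_left₀ (abs_nonneg _) h1 2
  rw [← hy, ← hs, hprod]
  by_cases hcase : 1 ≤ (1 - γ) * W
  · have h1 : y ≤ 1 + s * (ρ - 1) := by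
      have h2 : y ^ 2 ≤ (1 + s * (ρ - 1)) ^ 2 := by
        have h3 : (1 + s * (ρ - 1)) ^ 2 = (1 - s + s * ρ) ^ 2 := by ring
        rw [h3, hyid]
        have h4 : 0 ≤ s * (1 - s) * ((C * ‖b‖) ^ 2 - (1 - ρ) ^ 2) :=
          mul_nonneg (mul_nonneg hs0.le (by linarith)) (by linarith)
        linarith
      have h3 : 0 ≤ 1 + s * (ρ - 1) := by nlinarith [mul_nonneg hs0.le hρ0]
      exact (pow_le_pow_iff_left₀ hy0 h3 two_ne_zero).1 h2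
    refine h1.trans ?_
    have h2 : 1 + s * (ρ - 1) ≤ Real.exp (s * (ρ - 1)) := by
      have := Real.add_one_le_exp (s * (ρ - 1))
      linarith
    refine h2.trans (Real.exp_le_exp.2 (mul_le_mul_of_nonneg_left ?_ hs0.le))
    have h3 : 1 * ρ ≤ (1 - γ) * W * ρ := mul_le_mul_of_nonneg_right hcase hρ0
    linarith
  · rw [not_le] at hcase
    have hW2 : W < 2 := by nlinarith
    have hb2 : 1 / 2 ≤ ‖b‖ := by nlinarith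
    have hA : κ ^ 2 / 4 ≤ (C * ‖b‖) ^ 2 := by
      have h1 : κ / 2 ≤ C * ‖b‖ := by
        have := mul_le_mul hC hb2 (by norm_num) hC0.le
        linarith
      have h2 := pow_le_pow_left₀ (by positivity) h1 2
      nlinarith [h2]
    have hρ5 : ρ ≤ 5 := by
      have h1 : ρ ≤ 1 + C * ‖b‖ := by
        rw [hρ]
        refine (norm_sub_le _ _).trans ?_
        rw [norm_one, norm_mul, Complex.norm_real, Real.norm_eq_abs, abs_of_pos hC0]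
      nlinarith
    have h1 := an4_core hκ hlam hx1 hC hC4 hx hxC hs hρ0 hρ5 hy0 hA hAr hyid
    refine h1.trans (Real.exp_le_exp.2 ?_)
    rw [← hg]
    have h2 : (1 - γ) * ρ ≤ (1 - γ) * (W * ρ) := by
      have : 1 * ρ ≤ W * ρ := mul_le_mul_of_nonneg_right hW1 hρ0
      exact mul_le_mul_of_nonneg_left (by linarith) (by linarith)
    have h3 : s * ((1 - γ) * ρ - 1) ≤ s * ((1 - γ) * (W * ρ) - 1) :=
      mul_le_mul_of_nonneg_left (by linarith) hs0.le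
    have h4 : γ * (s * ρ) ≤ γ * 5 := by
      refine mul_le_mul_of_nonneg_left ?_ hγ0.le
      nlinarith
    nlinarith [h3, h4]

end Pool.MP_c113aa_an.B1
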