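import Pool.Agent.Lib.c113aaP.An3
import Pool.Agent.Lib.c113aaP.An4

set_option autoImplicit false

namespace Pool.MP_c113aa_an.B1

open Finset

private theorem an5_exp_le {γ γ' t X : ℝ} (ht : 0 ≤ t) (hX : 0 ≤ X) (h : γ ≤ γ') :
    Real.exp (t * ((1 - γ') * X - 1)) ≤ Real.exp (t * ((1 - γ) * X - 1)) := by
  apply Real.exp_le_exp.mpr
  apply mul_le_mul_of_nonneg_left _ ht
  have h1 : (1 - γ') * X ≤ (1 - γ) * X := mul_le_mul_of_nonneg_right (by linarith) hX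
  linarith

private theorem an5_prod_le {N : ℕ} {b : Fin N → ℂ} {x : ℝ} {e : Fin N → ℝ}
    (h : ∀ j, ‖1 - (x : ℂ) * b j‖ ≤ Real.exp (e j)) :
    ‖gg b x‖ ≤ Real.exp (∑ j, e j) := by
  unfold gg
  rw [norm_prod, Real.exp_sum]
  exact Finset.prod_le_prod (fun j _ => norm_nonneg _) (fun j _ => h j)

/-- Exponential decay away from 0.  For `C ≥ 4` use `one_sub_le_far` with `min x₁ 1`, for `C ≤ 4`
`one_sub_le_near`; `γ` = the minimum of the two.  Multiply over `j`: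
`‖gg b x‖ ≤ exp ((x/C) ((1-γ) ∑ X_j - N)) ≤ exp (- γ N x / C) ≤ exp (-(γ (N/(C+1)) x))`, as `∑ X_j ≤ N`.
(With a smaller γ the pointwise inequality still holds, since `(1-γ) X` only increases.) -/
theorem exists_decay {κ lam x₁ : ℝ} (hκ : 0 < κ) (hlam : 0 < lam) (hx1 : 0 < x₁) :
    ∃ γ : ℝ, 0 < γ ∧ γ ≤ 1 / 2 ∧ ∀ (N : ℕ) (b : Fin N → ℂ) (C : ℝ), Dat N b C → κ ≤ C →
      ∀ x : ℝ, x₁ ≤ x → x ≤ C - lam → ‖gg b x‖ ≤ Real.exp (-(γ * (N / (C + 1)) * x)) := by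
  obtain ⟨γ₂, hγ0, hγ1, hnear⟩ := one_sub_le_near hκ hlam hx1
  have hm0 : 0 < min x₁ 1 := lt_min hx1 one_pos
  refine ⟨min (min x₁ 1 / 12) γ₂, lt_min (by positivity) hγ0, (min_le_right _ _).trans hγ1, ?_⟩
  intro N b C hD hκC x hx hxC
  set γ : ℝ := min (min x₁ 1 / 12) γ₂ with hγdef
  have hγpos : 0 < γ := lt_min (by positivity) hγ0
  have hγle : γ ≤ 1 / 2 := (min_le_right _ _).trans hγ1
  have hx0 : 0 < x := lt_of_lt_of_le hx1 hx
  have hC0 : 0 < C := hD.C_pos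
  have ht : 0 ≤ x / C := by positivity
  have hpt : ∀ j, ‖1 - (x : ℂ) * b j‖
      ≤ Real.exp (x / C * ((1 - γ) * ‖(b j)⁻¹ - (C : ℂ)‖ - 1)) := by
    intro j
    rcases le_total 4 C with h4 | h4
    · have h1 := one_sub_le_far (C := C) (x := x) (x₁ := min x₁ 1) h4 hm0 (min_le_right _ _)
        ((min_le_left _ _).trans hx) (by linarith) (b j) (hD.ne j) (hD.le_one j)
      exact h1.trans (an5_exp_le ht (norm_nonneg _) (min_le_left _ _))
    · have h1 := hnear C hκC h4 x hx hxC (b j) (hD.ne j) (hD.le_one j)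
      exact h1.trans (an5_exp_le ht (norm_nonneg _) (min_le_right _ _))
  refine (an5_prod_le hpt).trans (Real.exp_le_exp.mpr ?_)
  rw [← Finset.mul_sum, Finset.sum_sub_distrib, ← Finset.mul_sum]
  simp only [Finset.sum_const, Finset.card_univ, Fintype.card_fin, nsmul_eq_mul, mul_one]
  have hs := hD.sum_le
  have h1 : (1 - γ) * ∑ j, ‖(b j)⁻¹ - (C : ℂ)‖ ≤ (1 - γ) * N :=
    mul_le_mul_of_nonneg_left hs (by linarith)
  have h2 : x / C * ((1 - γ) * ∑ j, ‖(b j)⁻¹ - (C : ℂ)‖ - N) ≤ x / C * (-(γ * N)) :=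
    mul_le_mul_of_nonneg_left (by linarith) ht
  have h3 : x / (C + 1) * (γ * N) ≤ x / C * (γ * N) := by
    apply mul_le_mul_of_nonneg_right _ (by positivity)
    exact div_le_div_of_nonneg_left hx0.le hC0 (by linarith)
  have h4 : γ * (N / (C + 1)) * x = x / (C + 1) * (γ * N) := by ring
  rw [h4]
  linarith

/-- Decay near 0.  By `BV.norm_one_add_le` (`‖1 + d‖ ≤ exp (Re d + ‖d‖^2/2)`) with `d = - x b_j`,
`‖gg b x‖ ≤ exp (- x R + x^2/2 ∑ ‖b j‖^2)`, `∑ ‖b j‖^2 ≤ ∑ ‖b j‖ ≤ 3 N/(C+1)` (`sum_norm_le`); with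
`R ≥ η N/(C+1)` and `x ≤ η/3` the exponent is at most `- η d x + (3/2) d x^2 ≤ - (η/2) d x`. -/
theorem Dat.norm_gg_le_small {N : ℕ} {b : Fin N → ℂ} {C : ℝ} (h : Dat N b C) {η x : ℝ}
    (hη : 0 < η) (hR : η * (N / (C + 1)) ≤ (∑ j, b j).re) (hx0 : 0 ≤ x) (hx : x ≤ η / 3) :
    ‖gg b x‖ ≤ Real.exp (-(η / 2 * (N / (C + 1)) * x)) := by
  have hC0 : 0 < C := h.C_pos
  have hC1 : 0 < C + 1 := by linarith
  have hpt : ∀ j, ‖1 - (x : ℂ) * b j‖
      ≤ Real.exp (-(x * (b j).re) + x ^ 2 / 2 * ‖b j‖) := by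
    intro j
    have h1 := BV.norm_one_add_le (-((x : ℂ) * b j))
    have h2 : (1 : ℂ) + -((x : ℂ) * b j) = 1 - (x : ℂ) * b j := by ring
    rw [h2] at h1
    refine h1.trans (Real.exp_le_exp.mpr ?_)
    have h3 : (-((x : ℂ) * b j)).re = -(x * (b j).re) := by
      simp [Complex.mul_re]
    have h4 : ‖-((x : ℂ) * b j)‖ = x * ‖b j‖ := by
      rw [norm_neg, norm_mul, Complex.norm_real, Real.norm_of_nonneg hx0]
    rw [h3, h4]
    have h5 : ‖b j‖ ^ 2 ≤ ‖b j‖ := by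
      have := h.le_one j
      have h0 := norm_nonneg (b j)
      nlinarith
    have h6 : x ^ 2 / 2 * ‖b j‖ ^ 2 ≤ x ^ 2 / 2 * ‖b j‖ :=
      mul_le_mul_of_nonneg_left h5 (by positivity)
    nlinarith
  refine (an5_prod_le hpt).trans (Real.exp_le_exp.mpr ?_)
  rw [Finset.sum_add_distrib, Finset.sum_neg_distrib, ← Finset.mul_sum, ← Finset.mul_sum,
    ← Complex.re_sum]
  set d : ℝ := (N : ℝ) / (C + 1) with hd
  have hd0 : 0 ≤ d := by positivity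
  have h7 : ∑ j, ‖b j‖ ≤ 3 * d := by
    have h8 := h.sum_norm_le
    have h9 : ∑ j, ‖b j‖ ≤ (3 * N) / (C + 1) := by
      rw [le_div_iff₀ hC1]
      linarith
    calc ∑ j, ‖b j‖ ≤ (3 * N) / (C + 1) := h9
      _ = 3 * d := by rw [hd]; ring
  have h10 : x * (η * d) ≤ x * (∑ j, b j).re := mul_le_mul_of_nonneg_left hR hx0
  have h11 : x ^ 2 / 2 * ∑ j, ‖b j‖ ≤ x ^ 2 / 2 * (3 * d) :=
    mul_le_mul_of_nonneg_left h7 (by positivity)
  have h12 : x * (x * d) ≤ (η / 3) * (x * d) :=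
    mul_le_mul_of_nonneg_right hx (by positivity)
  nlinarith

end Pool.MP_c113aa_an.B1
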