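import Pool.Agent.Lib.c113aaP.An5
import Pool.Agent.Lib.c113aaP.An6

set_option autoImplicit false

namespace Pool.MP_c113aa_an.B1

open Finset

private theorem an7_int_exp {k p q : ℝ} (hk : 0 < k) :
    ∫ x in p..q, Real.exp (-(k * x)) ≤ Real.exp (-(k * p)) / k := by
  have hder : ∀ x : ℝ, HasDerivAt (fun x : ℝ => -(Real.exp (-(k * x)) / k))
      (Real.exp (-(k * x))) x := by
    intro x
    have h1 : HasDerivAt (fun x : ℝ => -(k * x)) (-k) x := by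
      have := ((hasDerivAt_id x).const_mul k).fun_neg
      simpa using this
    have h2 := (h1.exp.div_const k).fun_neg
    have h3 : -(Real.exp (-(k * x)) * -k / k) = Real.exp (-(k * x)) := by
      field_simp
    rw [h3] at h2
    exact h2
  rw [intervalIntegral.integral_eq_sub_of_hasDerivAt (fun x _ => hder x)
    ((by fun_prop : Continuous fun x : ℝ => Real.exp (-(k * x))).intervalIntegrable _ _)]
  have h4 : 0 < Real.exp (-(k * q)) / k := by positivity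
  linarith

private theorem an7_norm_LL {N : ℕ} {b : Fin N → ℂ} (hb : ∀ j, ‖b j‖ ≤ 1) {x : ℝ} (hx0 : 0 ≤ x)
    (hx : x ≤ 1 / 2) : ‖BV.LL b (x : ℂ) + ∑ j, b j‖ ≤ 2 * x * ∑ j, ‖b j‖ := by
  have hxn : ‖(x : ℂ)‖ ≤ 1 / 2 := by
    rw [Complex.norm_real, Real.norm_of_nonneg hx0]
    exact hx
  have h1 : BV.LL b (x : ℂ) + ∑ j, b j = ∑ j, -((x : ℂ) * b j ^ 2 / (1 - x * b j)) := by
    unfold BV.LL
    rw [← sum_neg_distrib, ← sum_add_distrib]
    refine sum_congr rfl fun j _ => ?_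
    have h2 := BV.one_sub_norm_ge (hb j) hxn
    have h3 : (1 - (x : ℂ) * b j) ≠ 0 := by
      intro h
      rw [h, norm_zero] at h2
      norm_num at h2
    have h5 : b j * (1 - (x : ℂ) * b j) / (1 - (x : ℂ) * b j) = b j := mul_div_cancel_right₀ _ h3
    calc -(b j / (1 - (x : ℂ) * b j)) + b j
        = -(b j / (1 - (x : ℂ) * b j)) + b j * (1 - (x : ℂ) * b j) / (1 - (x : ℂ) * b j) := by
          rw [h5]
      _ = -((x : ℂ) * b j ^ 2 / (1 - x * b j)) := by ring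
  rw [h1, mul_sum]
  refine (norm_sum_le _ _).trans (sum_le_sum fun j _ => ?_)
  have h2 := BV.one_sub_norm_ge (hb j) hxn
  have h4 : 0 < ‖1 - (x : ℂ) * b j‖ := lt_of_lt_of_le (by norm_num) h2
  rw [norm_neg, norm_div, norm_mul, norm_pow, Complex.norm_real, Real.norm_of_nonneg hx0,
    div_le_iff₀ h4]
  have h5 : ‖b j‖ ^ 2 ≤ ‖b j‖ := by
    have := hb j
    nlinarith [norm_nonneg (b j)]
  have h6 : 1 ≤ 2 * ‖1 - (x : ℂ) * b j‖ := by linarith
  calc x * ‖b j‖ ^ 2 ≤ x * ‖b j‖ := mul_le_mul_of_nonneg_left h5 hx0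
    _ = x * ‖b j‖ * 1 := (mul_one _).symm
    _ ≤ x * ‖b j‖ * (2 * ‖1 - (x : ℂ) * b j‖) :=
        mul_le_mul_of_nonneg_left h6 (mul_nonneg hx0 (norm_nonneg _))
    _ = 2 * x * ‖b j‖ * ‖1 - (x : ℂ) * b j‖ := by ring

private theorem an7_exp_le {u : ℝ} (hu : 0 < u) : Real.exp (-u) ≤ 1 / u := by
  rw [Real.exp_neg, ← one_div]
  refine one_div_le_one_div_of_le hu ?_
  have := Real.add_one_le_exp u
  linarith

/-- The final arithmetic. -/
private theorem an7_arith {v d η g x₃ E B₁ B₂ Y N : ℝ} (hη : 0 < η) (hg : 0 < g) (hx : 0 < x₃)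
    (hd0 : 0 < d) (hd : 2 * (2 / (g * x₃) + 48 / (η * g) + 3 / (g ^ 2 * x₃)) ≤ d)
    (hv1 : η * d ≤ v) (hv2 : v ≤ 3 * d) (hE : E ≤ 1 / (g * d * x₃))
    (hB1 : B₁ ≤ 2 * E / v + 48 * d / v ^ 2 * (1 / (g * d))) (hB2 : B₂ ≤ E / (g * d))
    (hY : v⁻¹ ≤ Y + B₁ + B₂) (hN : d ≤ N) : 1 / (6 * N) ≤ Y := by
  have hv0 : 0 < v := lt_of_lt_of_le (by positivity) hv1
  have t1 : 2 * E ≤ 2 / (g * x₃) / d := by
    have : 2 * (1 / (g * d * x₃)) = 2 / (g * x₃) / d := by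
      field_simp
    rw [← this]
    linarith
  have t2 : 48 * d / v ^ 2 * (1 / (g * d)) * v ≤ 48 / (η * g) / d := by
    have e1 : 48 * d / v ^ 2 * (1 / (g * d)) * v = 48 / (v * g) := by
      field_simp
    have e2 : 48 / (η * g) / d = 48 / (η * d * g) := by
      field_simp
    rw [e1, e2]
    gcongr
  have t3 : E / (g * d) * v ≤ 3 / (g ^ 2 * x₃) / d := by
    have e2 : 3 / (g ^ 2 * x₃) / d = 1 / (g * d * x₃) / (g * d) * (3 * d) := by
      field_simp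
    rw [e2]
    gcongr
  have t4 : (2 / (g * x₃) + 48 / (η * g) + 3 / (g ^ 2 * x₃)) / d ≤ 1 / 2 := by
    rw [div_le_iff₀ hd0]
    linarith
  rw [add_div, add_div] at t4
  have t5 : (B₁ + B₂) * v ≤ 1 / 2 := by
    have e1 : (2 * E / v + 48 * d / v ^ 2 * (1 / (g * d)) + E / (g * d)) * v =
        2 * E + 48 * d / v ^ 2 * (1 / (g * d)) * v + E / (g * d) * v := by
      have : 2 * E / v * v = 2 * E := div_mul_cancel₀ _ hv0.ne'
      rw [add_mul, add_mul, this]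
    have e2 : (B₁ + B₂) * v ≤
        (2 * E / v + 48 * d / v ^ 2 * (1 / (g * d)) + E / (g * d)) * v :=
      mul_le_mul_of_nonneg_right (by linarith) hv0.le
    linarith
  have t6 : B₁ + B₂ ≤ 1 / (2 * v) := by
    rw [le_div_iff₀ (by positivity)]
    linarith
  have t7 : v⁻¹ = 1 / (2 * v) + 1 / (2 * v) := by
    field_simp
    norm_num
  have t8 : 1 / (2 * v) ≤ Y := by linarith
  refine le_trans ?_ t8
  refine one_div_le_one_div_of_le (by positivity) ?_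
  linarith

/-- Regime 1 (`R ≥ η d`, `d = N/(C+1)`).  Take `y = C - lam`, `x₃ = min (η/12) (min (1/2) (κ - lam))`, `x₁ = x₃`,
`γ` from `exists_decay κ lam x₁`, `γ' = min γ (η/2)`; then (`norm_gg_le_small` and `exists_decay`)
`‖gg b x‖ ≤ exp (- γ' d x)` on `[0, y]` and also on `[0,x₃]`.  On `[0,x₃]`:
`‖LL b x + V₁‖ ≤ x ∑ ‖b j‖^2/(1-x) ≤ 2 x · 3 d = 6 d x ≤ η d/2 ≤ ‖V₁‖/2`, as `‖V₁‖ ≥ R ≥ η d`
(`-b/(1-xb) + b = - x b^2/(1 - x b)`).  So `norm_II_sub_le` applies; with `∫_0^{x₃} ‖gg‖ ≤ 1/(γ' d)`,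
`‖V₁‖ ≤ 3 d`, `‖V₁‖ ≥ η d`:
`‖II b y‖ ≥ (1/‖V₁‖) (1 - 2 e^{-γ' d x₃} - 48/(η γ' d) - (3/γ') e^{-γ' d x₃}) ≥ 1/(2‖V₁‖) ≥ 1/(6 d) ≥ 1/(6N)`
for `d ≥ d₀` (the tail is `∫_{x₃}^y ‖gg‖ ≤ e^{-γ' d x₃}/(γ' d)`). -/
theorem regime_one {κ lam η : ℝ} (hlam : 0 < lam) (hκ : lam < κ) (hη : 0 < η) :
    ∃ d₀ : ℝ, 0 < d₀ ∧ ∀ (N : ℕ) (b : Fin N → ℂ) (C : ℝ), Dat N b C → κ ≤ C →
      d₀ ≤ N / (C + 1) → η * (N / (C + 1)) ≤ (∑ j, b j).re →
      1 / (6 * (N : ℝ)) ≤ ‖II b (C - lam)‖ := by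
  have hκ0 : 0 < κ := hlam.trans hκ
  obtain ⟨x₃, hx3⟩ : ∃ x₃, x₃ = min (η / 12) (min (1 / 2) (κ - lam)) := ⟨_, rfl⟩
  have h3a : 0 < x₃ := by
    rw [hx3]
    exact lt_min (by positivity) (lt_min (by norm_num) (by linarith))
  have h3b : x₃ ≤ η / 12 := by
    rw [hx3]
    exact min_le_left _ _
  have h3c : x₃ ≤ 1 / 2 := by
    rw [hx3]
    exact (min_le_right _ _).trans (min_le_left _ _)
  have h3d : x₃ ≤ κ - lam := by
    rw [hx3]
    exact (min_le_right _ _).trans (min_le_right _ _)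
  obtain ⟨γ, hγ0, -, hγ⟩ := exists_decay hκ0 hlam h3a
  obtain ⟨g, hg⟩ : ∃ g, g = min γ (η / 2) := ⟨_, rfl⟩
  have hg0 : 0 < g := by
    rw [hg]
    exact lt_min hγ0 (by positivity)
  have hgγ : g ≤ γ := by
    rw [hg]
    exact min_le_left _ _
  have hgη : g ≤ η / 2 := by
    rw [hg]
    exact min_le_right _ _
  refine ⟨2 * (2 / (g * x₃) + 48 / (η * g) + 3 / (g ^ 2 * x₃)), by positivity, ?_⟩
  intro N b C h hC hd hR
  have hsm := fun x (hx0 : 0 ≤ x) (hx : x ≤ η / 3) => h.norm_gg_le_small hη hR hx0 hx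
  have hfar := hγ N b C h hC
  obtain ⟨d, hdd⟩ : ∃ d, d = (N : ℝ) / (C + 1) := ⟨_, rfl⟩
  have hC0 := h.C_pos
  have hd0 : 0 < d := by
    rw [hdd]
    exact lt_of_lt_of_le (by positivity) hd
  have hNd : (N : ℝ) = d * (C + 1) := by
    rw [hdd]
    field_simp
  rw [← hdd] at hd hR
  -- decay
  have hdec : ∀ x, 0 ≤ x → x ≤ C - lam → ‖gg b x‖ ≤ Real.exp (-(g * d * x)) := by
    intro x hx0 hxC
    rcases le_total x x₃ with hx | hx
    · refine (hsm x hx0 (by linarith)).trans (Real.exp_le_exp.2 (neg_le_neg ?_))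
      rw [← hdd]
      gcongr
    · refine (hfar x hx hxC).trans (Real.exp_le_exp.2 (neg_le_neg ?_))
      rw [← hdd]
      gcongr
  -- the sum
  have hsn : ∑ j, ‖b j‖ ≤ 3 * d := by
    have h1 := h.sum_norm_le
    rw [hNd] at h1
    have h2 : (C + 1) * ∑ j, ‖b j‖ ≤ (C + 1) * (3 * d) := by linarith
    exact le_of_mul_le_mul_left h2 (by linarith)
  have hv2 : ‖∑ j, b j‖ ≤ 3 * d := (norm_sum_le _ _).trans hsn
  have hv1 : η * d ≤ ‖∑ j, b j‖ :=
    hR.trans ((le_abs_self _).trans (Complex.abs_re_le_norm _))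
  have hv0 : 0 < ‖∑ j, b j‖ := lt_of_lt_of_le (by positivity) hv1
  have hV0 : (∑ j, b j) ≠ 0 := norm_pos_iff.1 hv0
  have hLL : ∀ x : ℝ, 0 ≤ x → x ≤ x₃ → ‖∑ j, b j‖ / 2 ≤ ‖BV.LL b (x : ℂ)‖ := by
    intro x hx0 hx
    have h1 := an7_norm_LL h.le_one hx0 (hx.trans h3c)
    have h2 : 2 * x * ∑ j, ‖b j‖ ≤ ‖∑ j, b j‖ / 2 := by
      calc 2 * x * ∑ j, ‖b j‖ ≤ 2 * (η / 12) * (3 * d) := by
            gcongr
            exact hx.trans h3b
        _ = η * d / 2 := by ring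
        _ ≤ ‖∑ j, b j‖ / 2 := by linarith
    have h3 : ‖∑ j, b j‖ - ‖BV.LL b (x : ℂ) + ∑ j, b j‖ ≤ ‖BV.LL b (x : ℂ)‖ := by
      have := norm_sub_norm_le (∑ j, b j) (BV.LL b (x : ℂ) + ∑ j, b j)
      have e1 : (∑ j, b j) - (BV.LL b (x : ℂ) + ∑ j, b j) = -BV.LL b (x : ℂ) := by ring
      rw [e1, norm_neg] at this
      exact this
    linarith
  have hII := h.norm_II_sub_le h3a.le h3c hV0 hLL
  rw [← hdd] at hII
  -- integrals
  have hcont : Continuous fun x => ‖gg b x‖ := (continuous_gg b).norm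
  have hcexp : Continuous fun x : ℝ => Real.exp (-(g * d * x)) := by fun_prop
  have hgd : 0 < g * d := by positivity
  have hI1 : ∫ x in (0 : ℝ)..x₃, ‖gg b x‖ ≤ 1 / (g * d) := by
    calc ∫ x in (0 : ℝ)..x₃, ‖gg b x‖ ≤ ∫ x in (0 : ℝ)..x₃, Real.exp (-(g * d * x)) := by
          refine intervalIntegral.integral_mono_on h3a.le (hcont.intervalIntegrable _ _)
            (hcexp.intervalIntegrable _ _) fun x hx => hdec x hx.1 (hx.2.trans ?_)
          linarith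
      _ ≤ Real.exp (-(g * d * 0)) / (g * d) := an7_int_exp hgd
      _ = 1 / (g * d) := by rw [mul_zero, neg_zero, Real.exp_zero]
  have hyx : x₃ ≤ C - lam := by linarith
  have hI2 : ‖∫ x in x₃..(C - lam), gg b x‖ ≤ Real.exp (-(g * d * x₃)) / (g * d) := by
    calc ‖∫ x in x₃..(C - lam), gg b x‖ ≤ ∫ x in x₃..(C - lam), ‖gg b x‖ :=
          intervalIntegral.norm_integral_le_integral_norm hyx
      _ ≤ ∫ x in x₃..(C - lam), Real.exp (-(g * d * x)) := by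
          refine intervalIntegral.integral_mono_on hyx (hcont.intervalIntegrable _ _)
            (hcexp.intervalIntegrable _ _) fun x hx => hdec x (h3a.le.trans hx.1) hx.2
      _ ≤ _ := an7_int_exp hgd
  have hsplit : II b (C - lam) = II b x₃ + ∫ x in x₃..(C - lam), gg b x := by
    unfold II
    exact (intervalIntegral.integral_add_adjacent_intervals
      ((continuous_gg b).intervalIntegrable _ _) ((continuous_gg b).intervalIntegrable _ _)).symm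
  have hg3 : ‖gg b x₃‖ ≤ Real.exp (-(g * d * x₃)) := hdec x₃ h3a.le hyx
  have hE : Real.exp (-(g * d * x₃)) ≤ 1 / (g * d * x₃) := an7_exp_le (by positivity)
  refine an7_arith (v := ‖∑ j, b j‖) (B₁ := ‖II b x₃ - (∑ j, b j)⁻¹‖)
    (B₂ := ‖∫ x in x₃..(C - lam), gg b x‖) hη hg0 h3a hd0 hd hv1 hv2 hE ?_ hI2 ?_ ?_
  · refine hII.trans (add_le_add ?_ ?_)
    · gcongr
    · gcongr
  · rw [← norm_inv]
    have e1 : (∑ j, b j)⁻¹ = II b (C - lam) + -(II b x₃ - (∑ j, b j)⁻¹) +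
        -(∫ x in x₃..(C - lam), gg b x) := by
      rw [hsplit]
      ring
    calc ‖(∑ j, b j)⁻¹‖ = ‖II b (C - lam) + -(II b x₃ - (∑ j, b j)⁻¹) +
          -(∫ x in x₃..(C - lam), gg b x)‖ := by rw [← e1]
      _ ≤ ‖II b (C - lam)‖ + ‖-(II b x₃ - (∑ j, b j)⁻¹)‖ +
          ‖-(∫ x in x₃..(C - lam), gg b x)‖ := norm_add₃_le
      _ = _ := by rw [norm_neg, norm_neg]
  · rw [hNd]
    have : d * 1 ≤ d * (C + 1) := mul_le_mul_of_nonneg_left (by linarith) hd0.le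
    linarith

end Pool.MP_c113aa_an.B1
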