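import Pool.Agent.Lib.c113aaP.Cp3

/-!
# Borcea's inequality for the exponent 1: Case A
-/

set_option autoImplicit false

namespace Pool.MP_c113aa_an.B1

open Finset Pool.MP_c113aa_an.BV

/-- AM-GM for the distances. -/
theorem Cf.prod_t_le {N : ℕ} {z w : Fin N → ℂ} {c : ℂ} (h : Cf N z w c) :
    ‖c‖ * ∏ k, ‖z k - c‖ ≤ 1 := by
  rcases eq_or_lt_of_le (norm_nonneg c) with hc | hc
  · rw [← hc, zero_mul]
    exact zero_le_one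
  by_cases hz : ∃ k, ‖z k - c‖ = 0
  · obtain ⟨k, hk⟩ := hz
    rw [Finset.prod_eq_zero (Finset.mem_univ k) hk, mul_zero]
    exact zero_le_one
  push Not at hz
  have hz' : ∀ k, 0 < ‖z k - c‖ := fun k => lt_of_le_of_ne (norm_nonneg _) (hz k).symm
  have hP : 0 < ∏ k, ‖z k - c‖ := Finset.prod_pos fun k _ => hz' k
  have hlog : ∀ t : ℝ, 0 < t → 1 + Real.log t ≤ t := by
    intro t ht
    have h1 := Real.log_le_sub_one_of_pos ht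
    linarith
  have h1 := hlog _ hc
  have h2 : ∑ k, (1 + Real.log ‖z k - c‖) ≤ ∑ k, ‖z k - c‖ :=
    Finset.sum_le_sum fun k _ => hlog _ (hz' k)
  rw [Finset.sum_add_distrib, Finset.sum_const,
    Finset.card_univ, Fintype.card_fin, nsmul_eq_mul, mul_one,
    ← Real.log_prod fun k _ => hz k] at h2
  have h3 := h.sum_le
  have h4 : Real.log (‖c‖ * ∏ k, ‖z k - c‖) ≤ 0 := by
    rw [Real.log_mul hc.ne' hP.ne']
    linarith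
  rwa [Real.log_nonpos_iff (by positivity)] at h4

theorem abs_sub_inv_le_one {t : ℝ} (ht : 0 < t) (h : |Real.sqrt t - 1| ≤ 1 / 2) :
    |t - t⁻¹| ≤ 8 * |Real.sqrt t - 1| := by
  have hs : 0 < Real.sqrt t := Real.sqrt_pos.mpr ht
  have h2 : Real.sqrt t ^ 2 = t := Real.sq_sqrt ht.le
  obtain ⟨s, hsdef⟩ : ∃ s : ℝ, s = Real.sqrt t := ⟨_, rfl⟩
  rw [← hsdef] at h hs h2 ⊢
  rw [abs_le] at h
  have e : t - t⁻¹ = (s - 1) * ((s + 1) * (s ^ 2 + 1) / s ^ 2) := by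
    rw [← h2]
    field_simp
    ring
  rw [e, abs_mul]
  have h3 : (s + 1) * (s ^ 2 + 1) / s ^ 2 ≤ 8 := by
    rw [div_le_iff₀ (by positivity)]
    nlinarith [mul_nonneg (by linarith : (0:ℝ) ≤ s - 1 / 2) (by linarith : (0:ℝ) ≤ 3 / 2 - s), mul_nonneg (mul_nonneg (by linarith : (0:ℝ) ≤ s - 1 / 2) (by linarith : (0:ℝ) ≤ 3 / 2 - s)) hs.le]
  have h4 : 0 ≤ (s + 1) * (s ^ 2 + 1) / s ^ 2 := by positivity
  rw [abs_of_nonneg h4, mul_comm]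
  exact mul_le_mul_of_nonneg_right h3 (abs_nonneg _)

/-- (A2): in case A with |c| <= 3, put u = mean of 1/w_j, η = 1 - |u|, τ = |1 - c u|; for large N
one has η <= 4 τ^n and n |c| |J| >= 1 - 2 τ^n.
Proof.  a_j = c/w_j, mean A = c u, ‖1 - A‖ = τ <= 1-δ so A ≠ 0, c ≠ 0, u ≠ 0.  By (A0)
∑ ‖a_j - A‖^2 <= 9 * 2 N η = N M with M = 18 η <= 18.  norm_JJ_sub_le_two:
3 n ‖J - J0‖ <= 3 n η (192*18/(δ^3 N^2) + (144/δ^2) N^2 exp(-δ^2 (N-2)/152)) <= η/2 for N large.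
n ‖c‖ ‖J0‖ = ‖1 - (1-A)^n‖/‖u‖ >= (1 - τ^n)/(1-η) >= (1-τ^n)(1+η) >= 1 + η - 2 τ^n.
So n ‖c‖ ‖J‖ >= 1 + η/2 - 2 τ^n (>= 1 - 2 τ^n).  By prod_t_eq, prod_t_le and one_le_prod,
n‖c‖‖J‖ <= 1, hence η <= 4 τ^n. -/
theorem caseA2_one {δ : ℝ} (hδ0 : 0 < δ) (hδ1 : δ < 1) :
    ∃ N₀ : ℕ, ∀ N : ℕ, N₀ ≤ N → ∀ (z w : Fin N → ℂ) (c : ℂ), Cf N z w c →
      ∑ j, ‖1 - c * (w j)⁻¹‖ ≤ (1 - δ) * N → ‖c‖ ≤ 3 →
      1 - ‖(∑ j, (w j)⁻¹) / N‖ ≤ 4 * ‖1 - c * ((∑ j, (w j)⁻¹) / N)‖ ^ (N + 1) ∧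
      1 - 2 * ‖1 - c * ((∑ j, (w j)⁻¹) / N)‖ ^ (N + 1)
        ≤ ((N : ℝ) + 1) * ‖c‖ * ‖JJ (fun j => c * (w j)⁻¹)‖ := by
  obtain ⟨N₀, hN₀⟩ := caseA2_eventually hδ0
  refine ⟨N₀, fun N hNN z w c h hA hc3 => ?_⟩
  obtain ⟨hN2, hE⟩ := hN₀ N hNN
  have hN0 : (0 : ℝ) < N := by exact_mod_cast (show 0 < N by omega)
  have hN2' : (2 : ℝ) ≤ N := by exact_mod_cast hN2
  have hN0' : (N : ℂ) ≠ 0 := by exact_mod_cast (show N ≠ 0 by omega)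
  have hN1' : ((N : ℂ) + 1) ≠ 0 := by exact_mod_cast (show N + 1 ≠ 0 by omega)
  set u : ℂ := (∑ j, (w j)⁻¹) / N with hu
  have hA0 := sum_sub_mean_sq_le (show 1 ≤ N by omega) (fun j => (w j)⁻¹) h.norm_inv_le
  rw [← hu] at hA0
  have hmean : (∑ j, c * (w j)⁻¹) / N = c * u := by
    rw [← Finset.mul_sum, hu, mul_div_assoc]
  have hτ1 : ‖1 - c * u‖ ≤ 1 - δ := by
    rw [← hmean]
    exact norm_one_sub_mean_le (show 1 ≤ N by omega) _ hA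
  have hcu : c * u ≠ 0 := by
    intro h0
    rw [h0] at hτ1
    norm_num at hτ1
    linarith
  have hc0 : c ≠ 0 := left_ne_zero_of_mul hcu
  have hu0 : u ≠ 0 := right_ne_zero_of_mul hcu
  have hun : ‖u‖ ≤ 1 := by
    rw [hu, norm_div, Complex.norm_natCast, div_le_one hN0]
    calc ‖∑ i, (w i)⁻¹‖ ≤ ∑ i, ‖(w i)⁻¹‖ := norm_sum_le _ _
      _ ≤ ∑ _i : Fin N, (1 : ℝ) := Finset.sum_le_sum fun i _ => h.norm_inv_le i
      _ = N := by simp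
  have hupos : 0 < ‖u‖ := norm_pos_iff.mpr hu0
  have hcpos : 0 < ‖c‖ := norm_pos_iff.mpr hc0
  set η : ℝ := 1 - ‖u‖ with hη
  have hη0 : 0 ≤ η := by rw [hη]; linarith
  have hη1 : η ≤ 1 := by rw [hη]; linarith
  set τ : ℝ := ‖1 - c * u‖ with hτ
  have hτ0 : 0 ≤ τ := norm_nonneg _
  have hM2 : ∑ j, ‖c * (w j)⁻¹ - (∑ i, c * (w i)⁻¹) / N‖ ^ 2 ≤ N * (18 * η) := by
    rw [hmean]
    have e : ∀ j, ‖c * (w j)⁻¹ - c * u‖ ^ 2 = ‖c‖ ^ 2 * ‖(w j)⁻¹ - u‖ ^ 2 := by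
      intro j
      rw [← mul_sub, norm_mul, mul_pow]
    simp_rw [e]
    rw [← Finset.mul_sum]
    have hc9 : ‖c‖ ^ 2 ≤ 9 := by nlinarith
    have hnn : 0 ≤ ∑ j, ‖(w j)⁻¹ - u‖ ^ 2 := Finset.sum_nonneg fun _ _ => by positivity
    calc ‖c‖ ^ 2 * ∑ j, ‖(w j)⁻¹ - u‖ ^ 2 ≤ 9 * ∑ j, ‖(w j)⁻¹ - u‖ ^ 2 :=
          mul_le_mul_of_nonneg_right hc9 hnn
      _ ≤ 9 * (2 * N * η) := by linarith
      _ = N * (18 * η) := by ring
  have hJ := norm_JJ_sub_le_two hN2 (fun j => c * (w j)⁻¹) hδ0 hδ1.le (M := 18 * η)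
    (by positivity) hA hM2
  rw [hmean, integral_one_sub_pow N (c * u) hcu] at hJ
  set J : ℂ := JJ (fun j => c * (w j)⁻¹) with hJdef
  set J0 : ℂ := (1 - (1 - c * u) ^ (N + 1)) / (((N : ℂ) + 1) * (c * u)) with hJ0
  have hexp : Real.exp (-(δ ^ 2 * (N - 2) / (8 * (18 * η + 1))))
      ≤ Real.exp (-(δ ^ 2 * (N - 2) / 152)) := by
    apply Real.exp_le_exp.mpr
    apply neg_le_neg
    apply div_le_div_of_nonneg_left
    · have : (0 : ℝ) ≤ N - 2 := by linarith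
      positivity
    · positivity
    · linarith
  have hJ2 : ‖J - J0‖ ≤ η * (3456 / (δ ^ 3 * N ^ 2)
        + 144 / δ ^ 2 * N ^ 2 * Real.exp (-(δ ^ 2 * (N - 2) / 152))) := by
    refine hJ.trans ?_
    have h1 : 8 / δ ^ 2 * N ^ 2 * (18 * η) * Real.exp (-(δ ^ 2 * (N - 2) / (8 * (18 * η + 1))))
        ≤ 8 / δ ^ 2 * N ^ 2 * (18 * η) * Real.exp (-(δ ^ 2 * (N - 2) / 152)) :=
      mul_le_mul_of_nonneg_left hexp (by positivity)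
    refine (add_le_add_right h1 _).trans (le_of_eq ?_)
    ring
  have hJ3 : ((N : ℝ) + 1) * ‖c‖ * ‖J - J0‖ ≤ η / 2 := by
    set E : ℝ := 3456 / (δ ^ 3 * N ^ 2)
        + 144 / δ ^ 2 * N ^ 2 * Real.exp (-(δ ^ 2 * (N - 2) / 152)) with hEdef
    have hE0 : 0 ≤ E := by positivity
    calc ((N : ℝ) + 1) * ‖c‖ * ‖J - J0‖ ≤ ((N : ℝ) + 1) * 3 * (η * E) := by
          apply mul_le_mul _ hJ2 (norm_nonneg _) (by positivity)
          exact mul_le_mul_of_nonneg_left hc3 (by positivity)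
      _ = η * (3 * ((N : ℝ) + 1) * E) := by ring
      _ ≤ η * (1 / 2) := mul_le_mul_of_nonneg_left hE hη0
      _ = η / 2 := by ring
  have hJ4 : ((N : ℝ) + 1) * ‖c‖ * ‖J0‖ = ‖1 - (1 - c * u) ^ (N + 1)‖ / ‖u‖ := by
    have hn : ‖(N : ℂ) + 1‖ = (N : ℝ) + 1 := by
      have : (N : ℂ) + 1 = ((N + 1 : ℕ) : ℂ) := by push_cast; ring
      rw [this, Complex.norm_natCast]
      push_cast; ring
    rw [hJ0, norm_div, norm_mul, norm_mul, hn]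
    field_simp
  have hJ5 : 1 - τ ^ (N + 1) ≤ ‖1 - (1 - c * u) ^ (N + 1)‖ := by
    have := norm_sub_norm_le (1 : ℂ) ((1 - c * u) ^ (N + 1))
    rw [norm_one, norm_pow, ← hτ] at this
    exact this
  have hτ' : τ ^ (N + 1) ≤ 1 := pow_le_one₀ hτ0 (by linarith)
  have hτ'' : 0 ≤ τ ^ (N + 1) := pow_nonneg hτ0 _
  have hJ6 : 1 + η - 2 * τ ^ (N + 1) ≤ ((N : ℝ) + 1) * ‖c‖ * ‖J0‖ := by
    rw [hJ4, le_div_iff₀ hupos]
    have hu' : ‖u‖ = 1 - η := by rw [hη]; ring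
    rw [hu']
    refine le_trans ?_ hJ5
    have h1 : 0 ≤ τ ^ (N + 1) * (1 - η) * (1 - η) := by
      have : 0 ≤ 1 - η := by linarith
      positivity
    have h2 : (1 + η - 2 * τ ^ (N + 1)) * (1 - η)
        = (1 - τ ^ (N + 1)) - η ^ 2 - τ ^ (N + 1) * (1 - 2 * η) := by ring
    rcases le_total (1 + η - 2 * τ ^ (N + 1)) 0 with h3 | h3
    · have : (1 + η - 2 * τ ^ (N + 1)) * (1 - η) ≤ 0 :=
        mul_nonpos_of_nonpos_of_nonneg h3 (by linarith)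
      linarith
    · -- 1 + η - 2 t <= (1 + η)(1 - t)
      have h4 : 1 + η - 2 * τ ^ (N + 1) ≤ (1 + η) * (1 - τ ^ (N + 1)) := by nlinarith
      calc (1 + η - 2 * τ ^ (N + 1)) * (1 - η) ≤ ((1 + η) * (1 - τ ^ (N + 1))) * (1 - η) :=
            mul_le_mul_of_nonneg_right h4 (by linarith)
        _ = (1 - τ ^ (N + 1)) * (1 - η ^ 2) := by ring
        _ ≤ (1 - τ ^ (N + 1)) * 1 := by
            apply mul_le_mul_of_nonneg_left _ (by linarith)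
            nlinarith
        _ = 1 - τ ^ (N + 1) := by ring
  have hJ7 : ((N : ℝ) + 1) * ‖c‖ * ‖J0‖
      ≤ ((N : ℝ) + 1) * ‖c‖ * ‖J‖ + ((N : ℝ) + 1) * ‖c‖ * ‖J - J0‖ := by
    rw [← mul_add]
    apply mul_le_mul_of_nonneg_left _ (by positivity)
    have := norm_sub_norm_le J0 J
    rw [norm_sub_rev] at this
    linarith
  have hJ8 : ((N : ℝ) + 1) * ‖c‖ * ‖J‖ ≤ 1 := by
    have h1 := h.prod_t_eq hc0
    have h2 := h.prod_t_le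
    have h3 := h.one_le_prod
    rw [h1, ← hJdef] at h2
    refine le_trans ?_ h2
    have : 0 ≤ ((N : ℝ) + 1) * ‖c‖ * ‖J‖ := by positivity
    nlinarith
  constructor
  · linarith
  · linarith

/-- (A3), rigidity.  Proof: by hτ, hη: ‖u‖ >= 1, so by (A0) all v_j = u; c u = 1, hence w_j = c. -/
theorem caseA_eq_one {N : ℕ} (hN : 1 ≤ N) {z w : Fin N → ℂ} {c : ℂ} (h : Cf N z w c)
    (hτ : 1 - c * ((∑ j, (w j)⁻¹) / N) = 0)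
    (hη : 1 - ‖(∑ j, (w j)⁻¹) / N‖ ≤ 4 * ‖1 - c * ((∑ j, (w j)⁻¹) / N)‖ ^ (N + 1)) :
    ∀ j, w j = c := by
  have hN0 : (0 : ℝ) < N := by exact_mod_cast hN
  set u : ℂ := (∑ j, (w j)⁻¹) / N with hu
  have hA0 := sum_sub_mean_sq_le hN (fun j => (w j)⁻¹) h.norm_inv_le
  rw [← hu] at hA0
  rw [hτ, norm_zero, zero_pow (by omega), mul_zero] at hη
  have h1 : ∑ j, ‖(w j)⁻¹ - u‖ ^ 2 ≤ 0 := by
    refine hA0.trans ?_
    exact mul_nonpos_of_nonneg_of_nonpos (by positivity) hη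
  have h2 : ∑ j, ‖(w j)⁻¹ - u‖ ^ 2 = 0 :=
    le_antisymm h1 (Finset.sum_nonneg fun _ _ => by positivity)
  have h3 := (Finset.sum_eq_zero_iff_of_nonneg (fun _ _ => by positivity)).mp h2
  intro j
  have h4 : (w j)⁻¹ = u := by
    have := h3 j (Finset.mem_univ j)
    have h5 : ‖(w j)⁻¹ - u‖ = 0 := by
      simpa using this
    exact sub_eq_zero.mp (norm_eq_zero.mp h5)
  have hw := h.w_ne j
  rw [← h4] at hτ
  have h6 : c * (w j)⁻¹ = 1 := (sub_eq_zero.mp hτ).symm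
  field_simp at h6
  exact h6.symm

/-- sum of the squares of the deviations of the distances -/
lemma a3_sumsq_one {N : ℕ} {z w : Fin N → ℂ} {c : ℂ} (h : Cf N z w c)
    {x : ℝ} (hx0 : 0 ≤ x) (hx : x ≤ 1 / 2) (hc : 0 < ‖c‖)
    (ht : ∀ k, 0 < ‖z k - c‖) (hPi : 1 - x ≤ ‖c‖ * ∏ k, ‖z k - c‖) :
    (Real.sqrt ‖c‖ - 1) ^ 2 + ∑ k, (Real.sqrt ‖z k - c‖ - 1) ^ 2 ≤ 4 * x := by
  have h1 := sqrt_sub_sq_le hc
  have h2 : ∑ k, (Real.sqrt ‖z k - c‖ - 1) ^ 2 ≤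
      ∑ k, (‖z k - c‖ - 1 - Real.log ‖z k - c‖) :=
    Finset.sum_le_sum fun k _ => sqrt_sub_sq_le (ht k)
  have h3 : ∑ k, (‖z k - c‖ - 1 - Real.log ‖z k - c‖) =
      ∑ k, ‖z k - c‖ - N - ∑ k, Real.log ‖z k - c‖ := by
    rw [Finset.sum_sub_distrib, Finset.sum_sub_distrib]
    simp
  have hpos : 0 < ∏ k, ‖z k - c‖ := Finset.prod_pos fun k _ => ht k
  have h4 : Real.log (‖c‖ * ∏ k, ‖z k - c‖) = Real.log ‖c‖ + ∑ k, Real.log ‖z k - c‖ := by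
    rw [Real.log_mul hc.ne' hpos.ne', Real.log_prod fun k _ => (ht k).ne']
  have h5 := h.sum_le
  have h6 : Real.log (1 - x) ≤ Real.log (‖c‖ * ∏ k, ‖z k - c‖) :=
    Real.log_le_log (by linarith) hPi
  -- log (1 - x) ≥ - 2 x
  have h7 : -(2 * x) ≤ Real.log (1 - x) := by
    have h8 := Real.one_sub_inv_le_log_of_pos (x := 1 - x) (by linarith)
    have h9 : (1 - x)⁻¹ ≤ 1 + 2 * x := by
      rw [inv_le_iff_one_le_mul₀ (by linarith)]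
      nlinarith
    linarith
  have h10 : -(Real.log ‖c‖ + ∑ k, Real.log ‖z k - c‖) ≤ 4 * x := by
    rw [← h4]
    linarith
  rw [h3] at h2
  linarith

/-- sum of |t - 1/t| over all zeros -/
lemma a3_suminv_one {N : ℕ} {z w : Fin N → ℂ} {c : ℂ} (h : Cf N z w c) {x : ℝ} (hx0 : 0 ≤ x) (hx : x ≤ 1 / 16) (hc : 0 < ‖c‖)
    (ht : ∀ k, 0 < ‖z k - c‖) (hPi : 1 - x ≤ ‖c‖ * ∏ k, ‖z k - c‖) :
    (|‖c‖ - ‖c‖⁻¹| + ∑ k, |‖z k - c‖ - ‖z k - c‖⁻¹|) ^ 2 ≤ 256 * ((N : ℝ) + 1) * x := by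
  have hs := a3_sumsq_one h hx0 (by linarith) hc ht hPi
  have hsq : 0 ≤ ∑ k, (Real.sqrt ‖z k - c‖ - 1) ^ 2 := Finset.sum_nonneg fun k _ => sq_nonneg _
  have e0 : |Real.sqrt ‖c‖ - 1| ≤ 1 / 2 := by
    apply abs_le_of_sq_le_sq _ (by norm_num)
    nlinarith [sq_nonneg (Real.sqrt ‖c‖ - 1)]
  have ek : ∀ k, |Real.sqrt ‖z k - c‖ - 1| ≤ 1 / 2 := by
    intro k
    apply abs_le_of_sq_le_sq _ (by norm_num)
    have := Finset.single_le_sum (f := fun k => (Real.sqrt ‖z k - c‖ - 1) ^ 2)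
      (fun k _ => sq_nonneg _) (Finset.mem_univ k)
    nlinarith [sq_nonneg (Real.sqrt ‖c‖ - 1)]
  have b0 := abs_sub_inv_le_one hc e0
  have bk : ∑ k, |‖z k - c‖ - ‖z k - c‖⁻¹| ≤ ∑ k, 8 * |Real.sqrt ‖z k - c‖ - 1| :=
    Finset.sum_le_sum fun k _ => abs_sub_inv_le_one (ht k) (ek k)
  rw [← Finset.mul_sum] at bk
  have hcs := a3_cs |Real.sqrt ‖c‖ - 1| (fun k => |Real.sqrt ‖z k - c‖ - 1|)
  simp only [sq_abs] at hcs
  have hA : 0 ≤ |‖c‖ - ‖c‖⁻¹| + ∑ k, |‖z k - c‖ - ‖z k - c‖⁻¹| :=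
    add_nonneg (abs_nonneg _) (Finset.sum_nonneg fun k _ => abs_nonneg _)
  have hB : |‖c‖ - ‖c‖⁻¹| + ∑ k, |‖z k - c‖ - ‖z k - c‖⁻¹| ≤
      8 * (|Real.sqrt ‖c‖ - 1| + ∑ k, |Real.sqrt ‖z k - c‖ - 1|) := by linarith
  calc (|‖c‖ - ‖c‖⁻¹| + ∑ k, |‖z k - c‖ - ‖z k - c‖⁻¹|) ^ 2
      ≤ (8 * (|Real.sqrt ‖c‖ - 1| + ∑ k, |Real.sqrt ‖z k - c‖ - 1|)) ^ 2 :=
        pow_le_pow_left₀ hA hB 2
    _ = 64 * (|Real.sqrt ‖c‖ - 1| + ∑ k, |Real.sqrt ‖z k - c‖ - 1|) ^ 2 := by ring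
    _ ≤ 64 * (((N : ℝ) + 1) * (4 * x)) := by
        have hN : (0 : ℝ) ≤ (N : ℝ) + 1 := by positivity
        have := mul_le_mul_of_nonneg_left hs hN
        linarith
    _ = 256 * ((N : ℝ) + 1) * x := by ring

/-- the sum of the deviations of the zeros -/
lemma a3_sumdev_one {N : ℕ} {z w : Fin N → ℂ} {c : ℂ} (h : Cf N z w c) (hc : c ≠ 0)
    (ht : ∀ k, z k - c ≠ 0) {X : ℝ} (hX : |‖c‖ - ‖c‖⁻¹| + ∑ k, |‖z k - c‖ - ‖z k - c‖⁻¹| ≤ X) :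
    ((N : ℝ) + 1) * ‖∑ j, (w j - c)‖ ≤ N * (‖c⁻¹ + ∑ k, (c - z k)⁻¹‖ + X) := by
  have h1 : ((N : ℂ) + 1) * ∑ j, (w j - c) = N * ((0 - c) + ∑ k, (z k - c)) := by
    have := h.mean_eq
    simp only [Finset.sum_sub_distrib, Finset.sum_const, Finset.card_univ, Fintype.card_fin,
      nsmul_eq_mul]
    linear_combination this
  have h2 : ((N : ℝ) + 1) * ‖∑ j, (w j - c)‖ = N * ‖(0 - c) + ∑ k, (z k - c)‖ := by
    have h3 := congrArg norm h1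
    rw [norm_mul, norm_mul] at h3
    have h4 : ‖(N : ℂ) + 1‖ = (N : ℝ) + 1 := by
      have : ((N : ℂ) + 1) = ((N + 1 : ℕ) : ℂ) := by push_cast; rfl
      rw [this, Complex.norm_natCast]
      push_cast
      rfl
    rw [h4, Complex.norm_natCast] at h3
    exact h3
  rw [h2]
  apply mul_le_mul_of_nonneg_left _ (Nat.cast_nonneg N)
  have h5 : ‖(0 - c) + ∑ k, (z k - c)‖ =
      ‖(starRingEnd ℂ) (0 - c) + ∑ k, (starRingEnd ℂ) (z k - c)‖ := by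
    rw [← map_sum, ← map_add, RCLike.norm_conj]
  have h6 : (starRingEnd ℂ) (0 - c) + ∑ k, (starRingEnd ℂ) (z k - c) =
      -(c⁻¹ + ∑ k, (c - z k)⁻¹) + (((starRingEnd ℂ) (0 - c) - (0 - c)⁻¹) +
        ∑ k, ((starRingEnd ℂ) (z k - c) - (z k - c)⁻¹)) := by
    have e1 : ∀ k, (c - z k)⁻¹ = -(z k - c)⁻¹ := fun k => by
      rw [← neg_sub (z k) c, inv_neg]
    simp only [e1, Finset.sum_neg_distrib, Finset.sum_sub_distrib]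
    rw [show (0 - c)⁻¹ = -c⁻¹ by rw [zero_sub, inv_neg]]
    ring
  rw [h5, h6]
  refine (norm_add_le _ _).trans ?_
  rw [norm_neg]
  apply add_le_add_right
  refine le_trans ((norm_add_le _ _).trans (add_le_add_right (norm_sum_le _ _) _)) (le_trans ?_ hX)
  have e2 : ‖(starRingEnd ℂ) (0 - c) - (0 - c)⁻¹‖ = |‖c‖ - ‖c‖⁻¹| := by
    rw [a3_conj _ (by simpa using hc), zero_sub, norm_neg]
  rw [e2]
  apply le_of_eq
  congr 1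
  exact Finset.sum_congr rfl fun k _ => a3_conj _ (ht k)

/-- lower bound for the sum of the deviations of the critical points -/
lemma a3_lower_one {N : ℕ} {z w : Fin N → ℂ} {c : ℂ} (h : Cf N z w c) (hN : 12 ≤ N)
    {u : ℂ} {S τ : ℝ} (hτ : τ = ‖1 - c * u‖) (hS0 : 0 ≤ S) (hS : 9 * N * S ≤ 1) (hτ1 : τ ≤ 1)
    (hu1 : ‖u‖ ≤ 1) (hu2 : 3 / 4 ≤ ‖u‖)
    (hv : ∑ j, ‖(w j)⁻¹ - u‖ ^ 2 ≤ 8 * N * (τ * S) ^ 2) :
    N * τ / 2 ≤ ‖∑ j, (w j - c)‖ := by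
  have hτ0 : 0 ≤ τ := by rw [hτ]; exact norm_nonneg _
  have hN0 : (12 : ℝ) ≤ N := by exact_mod_cast hN
  have hu0 : u ≠ 0 := by
    intro h0
    rw [h0, norm_zero] at hu2
    norm_num at hu2
  -- each deviation is small
  have h1 : ∀ j, ‖(w j)⁻¹ - u‖ ≤ τ / 9 := by
    intro j
    have h2 : ‖(w j)⁻¹ - u‖ ^ 2 ≤ 8 * N * (τ * S) ^ 2 :=
      (Finset.single_le_sum (f := fun j => ‖(w j)⁻¹ - u‖ ^ 2) (fun k _ => sq_nonneg _)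
        (Finset.mem_univ j)).trans hv
    apply le_of_sq_le_sq _ (by positivity)
    refine h2.trans ?_
    have h3 : (9 * N * S) ^ 2 ≤ 1 := by
      have := pow_le_pow_left₀ (by positivity) hS 2
      simpa using this
    have h4 : 8 * (N : ℝ) * S ^ 2 ≤ 1 / 81 := by
      have h5 : 0 ≤ (N : ℝ) * S ^ 2 := by positivity
      nlinarith
    have h6 : 8 * (N : ℝ) * (τ * S) ^ 2 = τ ^ 2 * (8 * N * S ^ 2) := by ring
    rw [h6]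
    have := mul_le_mul_of_nonneg_left h4 (sq_nonneg τ)
    calc τ ^ 2 * (8 * N * S ^ 2) ≤ τ ^ 2 * (1 / 81) := this
      _ = (τ / 9) ^ 2 := by ring
  have h2 : ∀ j, 1 / 2 ≤ ‖(w j)⁻¹‖ := by
    intro j
    have h3 := norm_sub_norm_le u (w j)⁻¹
    rw [← norm_neg (u - (w j)⁻¹), neg_sub] at h3
    have := h1 j
    linarith
  have h3 : ∀ j, ‖w j - u⁻¹‖ ≤ τ / 3 := by
    intro j
    have hw := h.w_ne j
    have e : w j - u⁻¹ = -((w j)⁻¹ - u) * (w j * u⁻¹) := by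
      field_simp
      ring
    rw [e, norm_mul, norm_neg, norm_mul, norm_inv]
    have h4 : ‖w j‖ ≤ 2 := by
      have h5 := h2 j
      rw [norm_inv] at h5
      have h6 : 0 < ‖w j‖ := norm_pos_iff.2 hw
      rw [le_inv_comm₀ (by norm_num) h6] at h5
      linarith
    have h7 : ‖u‖⁻¹ ≤ 4 / 3 := by
      rw [inv_le_comm₀ (by linarith) (by norm_num)]
      linarith
    calc ‖(w j)⁻¹ - u‖ * (‖w j‖ * ‖u‖⁻¹) ≤ τ / 9 * (2 * (4 / 3)) := by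
          apply mul_le_mul (h1 j) _ (by positivity) (by positivity)
          exact mul_le_mul h4 h7 (by positivity) (by norm_num)
      _ ≤ τ / 3 := by linarith
  have h4 : τ ≤ ‖u⁻¹ - c‖ := by
    have e : u⁻¹ - c = (1 - c * u) * u⁻¹ := by
      field_simp
    rw [e, norm_mul, ← hτ, norm_inv]
    have : 1 ≤ ‖u‖⁻¹ := (one_le_inv₀ (norm_pos_iff.2 hu0)).2 hu1
    nlinarith
  have e : (N : ℂ) * (u⁻¹ - c) = ∑ j, (w j - c) - ∑ j, (w j - u⁻¹) := by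
    rw [← Finset.sum_sub_distrib]
    simp only [sub_sub_sub_cancel_left]
    simp
    ring
  have h5 : (N : ℝ) * ‖u⁻¹ - c‖ ≤ ‖∑ j, (w j - c)‖ + ∑ j, ‖w j - u⁻¹‖ := by
    have h6 := congrArg norm e
    rw [norm_mul, Complex.norm_natCast] at h6
    rw [h6]
    exact (norm_sub_le _ _).trans (add_le_add_right (norm_sum_le _ _) _)
  have h6 : ∑ j, ‖w j - u⁻¹‖ ≤ N * (τ / 3) := by
    calc ∑ j, ‖w j - u⁻¹‖ ≤ ∑ _j : Fin N, τ / 3 := Finset.sum_le_sum fun j _ => h3 j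
      _ = N * (τ / 3) := by simp
  have h7 := mul_le_mul_of_nonneg_left h4 (by linarith : (0 : ℝ) ≤ N)
  have h8 : 0 ≤ (N : ℝ) * τ := by positivity
  linarith

lemma a3_core_one {N : ℕ} (hN : 12 ≤ N)
    {z w : Fin N → ℂ} {c : ℂ} (h : Cf N z w c) {u : ℂ} (hu : u = (∑ j, (w j)⁻¹) / N)
    {τ S : ℝ} (hτ : τ = ‖1 - c * u‖) (hτ0 : 0 < τ) (hτ1 : τ ≤ 1) (hc3 : ‖c‖ ≤ 3)
    (hS0 : 0 ≤ S) (hS2 : S ^ 2 = τ ^ (N - 1)) (hS : 9 * N * S ≤ 1)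
    (hη : 1 - ‖u‖ ≤ 4 * τ ^ (N + 1))
    (hJ : 1 - 2 * τ ^ (N + 1) ≤ ((N : ℝ) + 1) * ‖c‖ * ‖JJ (fun j => c * (w j)⁻¹)‖) : False := by
  have hN0 : (12 : ℝ) ≤ N := by exact_mod_cast hN
  have hSs : S ≤ 1 / 108 := by
    have h1 : 9 * 12 * S ≤ 9 * N * S := by nlinarith
    linarith
  have hpow : τ ^ (N + 1) = (τ * S) ^ 2 := by
    rw [mul_pow, hS2, ← pow_add]
    congr 1
    omega
  have hpow2 : τ ^ N = τ * S ^ 2 := by
    rw [hS2, ← pow_succ']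
    congr 1
    omega
  rw [hpow] at hη hJ
  have hT : (τ * S) ^ 2 ≤ 1 / 10000 := by
    have h1 : τ * S ≤ 1 / 100 := by nlinarith
    have h2 : 0 ≤ τ * S := by positivity
    nlinarith
  have hT0 : 0 ≤ (τ * S) ^ 2 := sq_nonneg _
  -- c ≠ 0
  have hc0 : c ≠ 0 := by
    rintro rfl
    rw [norm_zero, mul_zero, zero_mul] at hJ
    linarith
  have hcn : 0 < ‖c‖ := norm_pos_iff.2 hc0
  -- u
  have hu1 : ‖u‖ ≤ 1 := by
    rw [hu, norm_div, Complex.norm_natCast, div_le_one (by linarith)]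
    calc ‖∑ j, (w j)⁻¹‖ ≤ ∑ j, ‖(w j)⁻¹‖ := norm_sum_le _ _
      _ ≤ ∑ _j : Fin N, (1 : ℝ) := Finset.sum_le_sum fun j _ => h.norm_inv_le j
      _ = N := by simp
  have hu2 : 3 / 4 ≤ ‖u‖ := by linarith
  have hv : ∑ j, ‖(w j)⁻¹ - u‖ ^ 2 ≤ 8 * N * (τ * S) ^ 2 := by
    have h1 := sum_sub_mean_sq_le (by omega) (fun j => (w j)⁻¹) (fun j => h.norm_inv_le j)
    rw [← hu] at h1
    have h2 : 2 * (N : ℝ) * (1 - ‖u‖) ≤ 2 * N * (4 * (τ * S) ^ 2) :=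
      mul_le_mul_of_nonneg_left hη (by linarith)
    linarith
  -- product of the distances
  have hPi : 1 - 2 * (τ * S) ^ 2 ≤ ‖c‖ * ∏ k, ‖z k - c‖ := by
    rw [h.prod_t_eq hc0]
    have h1 := h.one_le_prod
    have h2 : 0 ≤ ((N : ℝ) + 1) * ‖c‖ * ‖JJ (fun j => c * (w j)⁻¹)‖ := by positivity
    nlinarith
  have ht : ∀ k, 0 < ‖z k - c‖ := by
    intro k
    apply lt_of_le_of_ne (norm_nonneg _)
    intro h0
    have : ∏ k, ‖z k - c‖ = 0 := Finset.prod_eq_zero (Finset.mem_univ k) h0.symm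
    rw [this, mul_zero] at hPi
    linarith
  have htz : ∀ k, z k - c ≠ 0 := fun k => norm_pos_iff.1 (ht k)
  have hX2 := a3_suminv_one h (x := 2 * (τ * S) ^ 2) (by linarith) (by linarith) hcn ht hPi
  set X : ℝ := |‖c‖ - ‖c‖⁻¹| + ∑ k, |‖z k - c‖ - ‖z k - c‖⁻¹| with hX
  have hX0 : 0 ≤ X := add_nonneg (abs_nonneg _) (Finset.sum_nonneg fun k _ => abs_nonneg _)
  -- X ≤ 23 (N+1) τ S / 3 (as sqrt (N+1) ≥ 3)
  have hXle : X ≤ 8 * ((N : ℝ) + 1) * (τ * S) := by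
    apply le_of_sq_le_sq _ (by positivity)
    refine hX2.trans ?_
    have h1 : 0 ≤ ((N : ℝ) + 1) * (τ * S) ^ 2 := by positivity
    have h2 : 512 * (((N : ℝ) + 1) * (τ * S) ^ 2) ≤
        (64 * ((N : ℝ) + 1)) * (((N : ℝ) + 1) * (τ * S) ^ 2) :=
      mul_le_mul_of_nonneg_right (by linarith) h1
    calc 256 * ((N : ℝ) + 1) * (2 * (τ * S) ^ 2) = 512 * (((N : ℝ) + 1) * (τ * S) ^ 2) := by ring
      _ ≤ _ := h2
      _ = _ := by ring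
  have hdev := a3_sumdev_one h hc0 htz (le_of_eq hX.symm)
  -- the logarithmic derivative
  have hlog : ‖c⁻¹ + ∑ k, (c - z k)⁻¹‖ ≤ 6 * ((N : ℝ) + 1) * τ ^ N := by
    have hcz : ∀ k, c ≠ z k := fun k hk => htz k (by rw [hk, sub_self])
    have h1 := h.deriv_eq c hc0 hcz
    rw [h.prod_eq_JJ hc0] at h1
    have h2 := congrArg norm h1
    rw [norm_mul, norm_mul, norm_prod] at h2
    have h3 := a3_prod (by omega) hτ hc3 hS0 hS hv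
    rw [h2] at h3
    have h4 : 1 / 2 ≤ ((N : ℝ) + 1) * (‖c‖ * ‖JJ (fun j => c * (w j)⁻¹)‖) := by
      rw [← mul_assoc]; linarith
    set q := ‖c‖ * ‖JJ (fun j => c * (w j)⁻¹)‖ with hq
    set ℓ := ‖c⁻¹ + ∑ k, (c - z k)⁻¹‖ with hℓ
    have hℓ0 : 0 ≤ ℓ := norm_nonneg _
    have h5 : 1 / 2 * ℓ ≤ ((N : ℝ) + 1) * q * ℓ := mul_le_mul_of_nonneg_right h4 hℓ0
    have h6 : ((N : ℝ) + 1) * (q * ℓ) ≤ ((N : ℝ) + 1) * (τ ^ N * 3) :=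
      mul_le_mul_of_nonneg_left h3 (by linarith)
    linarith
  have hlow := a3_lower_one h hN hτ hS0 hS hτ1 hu1 hu2 hv
  -- final contradiction
  have h1 : ((N : ℝ) + 1) * (N * τ / 2) ≤
      N * (6 * ((N : ℝ) + 1) * (τ * S ^ 2) + 8 * ((N : ℝ) + 1) * (τ * S)) := by
    calc ((N : ℝ) + 1) * (N * τ / 2) ≤ ((N : ℝ) + 1) * ‖∑ j, (w j - c)‖ :=
          mul_le_mul_of_nonneg_left hlow (by linarith)
      _ ≤ N * (‖c⁻¹ + ∑ k, (c - z k)⁻¹‖ + X) := hdev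
      _ ≤ _ := by
          apply mul_le_mul_of_nonneg_left _ (by linarith)
          rw [← hpow2]
          exact add_le_add hlog hXle
  have hq : 0 < ((N : ℝ) + 1) * (N * τ) := by positivity
  have h2 : ((N : ℝ) + 1) * (N * τ) * (1 / 2) ≤
      ((N : ℝ) + 1) * (N * τ) * (6 * S ^ 2 + 8 * S) := by
    calc ((N : ℝ) + 1) * (N * τ) * (1 / 2) = ((N : ℝ) + 1) * (N * τ / 2) := by ring
      _ ≤ _ := h1
      _ = _ := by ring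
  have h3 := le_of_mul_le_mul_left h2 hq
  nlinarith

/-- (A4): the case τ > 0 is impossible for large N.
Proof.  n = N+1, u = mean of v_j = 1/w_j, η = 1-‖u‖ <= 4 τ^n, τ = ‖1 - c u‖ in (0, 1-δ] (mean of
‖1-a_j‖ <= 1-δ), t_0 = ‖c‖, t_k = ‖z_k - c‖.  All N large conditions are of the form
(polynomial in N) * (1-δ)^((N-1)/2) small.  Write T = sqrt(τ^n); T = τ sqrt(τ^(N-1)).
(1) ∑ ‖v_j - u‖^2 <= 2 N η <= 8 N τ^n (sum_sub_mean_sq_le), so ‖v_j - u‖ <= sqrt(8N) T <= 1/4.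
(2) 2 τ^n <= 1/2, n‖c‖‖J‖ >= 1 - 2τ^n >= 1/2; the product Π of all t is n‖c‖‖J‖ ∏‖w‖ >= 1-2τ^n >= 1/2
(prod_t_eq), in particular all t > 0.  -log Π <= 4 τ^n.  By sqrt_sub_sq_le with T_k = t_k^p:
∑ (t^(p/2)-1)^2 <= ∑ (t^qq - p log t) <= -p log Π <= 8 τ^n (sum over all N+1 zeros, h.sum_le).
(3) each |t^(p/2)-1| <= 1/2, so by abs_sub_inv_le and Cauchy-Schwarz ∑ |t - 1/t| <= 8 sqrt(n) sqrt(8) T.
(4) ‖∑ over all zeros 1/(c - zero)‖ = ‖f'(c)/f(c)‖ by deriv_eq at x = c (c ≠ 0, c ≠ z_k as t > 0)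
= ∏‖1-a_j‖/(‖c‖‖J‖) (prod_eq_JJ) <= 2 n ∏ ‖1-a_j‖; mean ‖1-a_j‖ <= τ + 3 mean‖v_j-u‖ <= τ + 3 sqrt(8) T
= τ (1 + 3 sqrt 8 sqrt(τ^(N-1))), so ∏ ‖1-a_j‖ <= τ^N exp(9 N sqrt(τ^(N-1))) <= e τ^N.
(5) for y ≠ 0, ‖conj y - 1/y‖ = |‖y‖ - 1/‖y‖|.  So ‖∑ over all zeros (zero - c)‖ <= 2 e n τ^N
+ 8 sqrt(8) sqrt(n) T.  By mean_eq this norm is (n/N) ‖∑ (w_j - c)‖.
(6) ‖w_j - 1/u‖ = ‖v_j - u‖/(‖v_j‖‖u‖) <= 3 sqrt(8N) T <= τ/2 (‖u‖ >= 3/4, ‖v_j‖ >= 1/2) and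
‖1/u - c‖ = τ/‖u‖ >= τ, so ‖∑ (w_j - c)‖ >= N τ/2.
(7) n τ/2 <= 2 e n τ^N + 23 sqrt(n) T: divide by n τ: 1/2 <= 2 e τ^(N-1) + 23 sqrt(τ^(N-1)), false for
N large since τ <= 1-δ. -/
theorem caseA3_one {δ : ℝ} (hδ0 : 0 < δ) (hδ1 : δ < 1) :
    ∃ N₀ : ℕ, ∀ N : ℕ, N₀ ≤ N → ∀ (z w : Fin N → ℂ) (c : ℂ), Cf N z w c →
      ∑ j, ‖1 - c * (w j)⁻¹‖ ≤ (1 - δ) * N → ‖c‖ ≤ 3 →
      1 - c * ((∑ j, (w j)⁻¹) / N) ≠ 0 →
      1 - ‖(∑ j, (w j)⁻¹) / N‖ ≤ 4 * ‖1 - c * ((∑ j, (w j)⁻¹) / N)‖ ^ (N + 1) →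
      1 - 2 * ‖1 - c * ((∑ j, (w j)⁻¹) / N)‖ ^ (N + 1)
        ≤ ((N : ℝ) + 1) * ‖c‖ * ‖JJ (fun j => c * (w j)⁻¹)‖ → False := by
  set r : ℝ := Real.sqrt (1 - δ) with hr
  have hr0 : 0 ≤ r := Real.sqrt_nonneg _
  have hr1 : r < 1 := by
    rw [hr, Real.sqrt_lt' one_pos]
    linarith
  have ht : Filter.Tendsto (fun M : ℕ => (M : ℝ) * r ^ M + r ^ M) Filter.atTop (nhds (0 + 0)) :=
    (tendsto_self_mul_const_pow_of_lt_one hr0 hr1).add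
      (tendsto_pow_atTop_nhds_zero_of_lt_one hr0 hr1)
  rw [add_zero] at ht
  obtain ⟨M₀, hM₀⟩ := (ht.eventually (gt_mem_nhds (by norm_num : (0 : ℝ) < 1 / 9))).exists_forall_of_atTop
  refine ⟨max 12 (M₀ + 1), fun N hN z w c h hsum hc3 hne hη hJ => ?_⟩
  have hN12 : 12 ≤ N := (le_max_left _ _).trans hN
  have hNM : M₀ + 1 ≤ N := (le_max_right _ _).trans hN
  have hN0 : (12 : ℝ) ≤ N := by exact_mod_cast hN12
  set u : ℂ := (∑ j, (w j)⁻¹) / N with hu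
  set τ : ℝ := ‖1 - c * u‖ with hτ
  have hτ0 : 0 < τ := norm_pos_iff.2 hne
  have hτδ : τ ≤ 1 - δ := by
    have e : 1 - c * u = (∑ j, (1 - c * (w j)⁻¹)) / N := by
      rw [hu, Finset.sum_sub_distrib, ← Finset.mul_sum]
      simp only [Finset.sum_const, Finset.card_univ, Fintype.card_fin, nsmul_eq_mul, mul_one]
      have hNc : (N : ℂ) ≠ 0 := by
        have : (N : ℂ) = ((N : ℝ) : ℂ) := by push_cast; rfl
        rw [this]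
        exact_mod_cast (by linarith : (N : ℝ) ≠ 0)
      field_simp
    rw [hτ, e, norm_div, Complex.norm_natCast, div_le_iff₀ (by linarith)]
    exact (norm_sum_le _ _).trans hsum
  refine a3_core_one hN12 h hu hτ hτ0 (by linarith) hc3 (S := Real.sqrt τ ^ (N - 1))
    (by positivity) ?_ ?_ hη hJ
  · rw [← pow_mul, mul_comm, pow_mul, Real.sq_sqrt hτ0.le]
  · have h1 : Real.sqrt τ ^ (N - 1) ≤ r ^ (N - 1) :=
      pow_le_pow_left₀ (Real.sqrt_nonneg _) (Real.sqrt_le_sqrt hτδ) _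
    have h2 := hM₀ (N - 1) (by omega)
    have h3 : ((N - 1 : ℕ) : ℝ) = (N : ℝ) - 1 := by
      rw [Nat.cast_sub (by omega)]
      simp
    rw [h3] at h2
    have h4 : (N : ℝ) * Real.sqrt τ ^ (N - 1) ≤ N * r ^ (N - 1) :=
      mul_le_mul_of_nonneg_left h1 (by linarith)
    nlinarith

/-- Case A: if `‖c‖ ≤ 3` and the mean of `|1 - c / w_j|` is at most `1 - δ` then, for large `N`, all
critical points are equal to `c`. -/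
theorem caseA_one {δ : ℝ} (hδ0 : 0 < δ) (hδ1 : δ < 1) :
    ∃ N₀ : ℕ, ∀ N : ℕ, N₀ ≤ N → ∀ (z w : Fin N → ℂ) (c : ℂ), Cf N z w c →
      ∑ j, ‖1 - c * (w j)⁻¹‖ ≤ (1 - δ) * N → ‖c‖ ≤ 3 → ∀ j, w j = c := by
  obtain ⟨N₂, h₂⟩ := caseA2_one hδ0 hδ1
  obtain ⟨N₃, h₃⟩ := caseA3_one hδ0 hδ1
  refine ⟨max 1 (max N₂ N₃), fun N hN z w c h hA hc3 => ?_⟩
  have hN1 : 1 ≤ N := le_trans (le_max_left _ _) hN
  have hN'' : max N₂ N₃ ≤ N := le_trans (le_max_right _ _) hN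
  have hNb : N₂ ≤ N := le_trans (le_max_left _ _) hN''
  have hNc : N₃ ≤ N := le_trans (le_max_right _ _) hN''
  obtain ⟨hη, hJ⟩ := h₂ N hNb z w c h hA hc3
  have hτ : 1 - c * ((∑ j, (w j)⁻¹) / N) = 0 := by
    by_contra hcon
    exact h₃ N hNc z w c h hA hc3 hcon hη hJ
  exact caseA_eq_one hN1 h hτ hη

end Pool.MP_c113aa_an.B1
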