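import Pool.Agent.Lib.c113aaP.Defs

set_option autoImplicit false

namespace Pool.MP_c113aa_an.B1

open Finset

variable {N : ℕ} {z w : Fin N → ℂ} {c : ℂ}

/-- the derivative of `x ∏ (1 - x/z_k)` by the product rule -/
private theorem Far_deriv (h : Cf N z w c) (x : ℂ) (hxz : ∀ k, x ≠ z k) :
    ∏ j, (1 - x / w j) = (∏ k, (1 - x / z k)) * (1 - x * ∑ k, (z k - x)⁻¹) := by
  have hf : ∀ k, HasDerivAt (fun y : ℂ => 1 - y / z k) (-(1 / z k)) x := by
    intro k
    have := ((hasDerivAt_id x).div_const (z k)).const_sub 1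
    simpa using this
  have h1 := HasDerivAt.fun_finsetProd (u := (Finset.univ : Finset (Fin N)))
    (f := fun k (y : ℂ) => 1 - y / z k) (f' := fun k => -(1 / z k)) (x := x)
    (fun k _ => hf k)
  have h2 := (hasDerivAt_id x).mul h1
  have h3 := (h.der x).unique h2
  rw [h3]
  have h5 : ∀ k ∈ (Finset.univ : Finset (Fin N)),
      (∏ j ∈ (Finset.univ : Finset (Fin N)).erase k, (1 - x / z j)) • (-(1 / z k))
        = -((∏ j, (1 - x / z j)) * (z k - x)⁻¹) := by
    intro k hk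
    rw [← Finset.mul_prod_erase _ _ hk, smul_eq_mul]
    have hz := h.z_ne k
    have hxk : z k - x ≠ 0 := sub_ne_zero.mpr (hxz k).symm
    have h6 : (1 - x / z k) * (z k - x)⁻¹ = 1 / z k := by
      field_simp
    calc (∏ j ∈ (Finset.univ : Finset (Fin N)).erase k, (1 - x / z j)) * (-(1 / z k))
        = -((∏ j ∈ (Finset.univ : Finset (Fin N)).erase k, (1 - x / z j)) * (1 / z k)) := by ring
      _ = -((∏ j ∈ (Finset.univ : Finset (Fin N)).erase k, (1 - x / z j))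
          * ((1 - x / z k) * (z k - x)⁻¹)) := by rw [h6]
      _ = _ := by ring
  rw [Finset.sum_congr rfl h5, Finset.sum_neg_distrib, ← Finset.mul_sum]
  simp only [id]
  ring

/-- If `‖c‖ ≥ (N+6)/2` then all other zeros are equal to `c`.  `n = N+1`, `t_k = ‖z_k - c‖`,
`s = n - ‖c‖ ≤ (N-4)/2`, `∑ t_k ≤ s` (`sum_le`).  If `s ≤ 0` all `t_k = 0`.  Let `s > 0`.  `‖c‖ - s - 1 ≥ 4`.
For `‖x‖ ≤ 1`: `‖z_k - x‖ ≥ ‖c‖ - s - 1 ≥ 4` and `‖c - x‖ ≥ ‖c‖ - 1 > 0`.
`∏ (1 - x/w_j) = ∏ (1 - x/z_k) (1 - x ∑ 1/(z_k - x))` (product rule; compare `BV.Cfg.deriv_eq`), nonzero for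
`‖x‖ < 1` (as `‖w_j‖ ≥ 1`), and `1/(z_k - x) = (1/(c - x)) (1 - (z_k - c)/(z_k - x))`, so with
`E(x) = ∑ (z_k - c)/(z_k - x)`, `‖E(x)‖ ≤ s/(‖c‖ - s - 1) ≤ s/4`:
`(c - x) (1 - x ∑ 1/(z_k - x)) = c - x (n - E(x)) =: H(x)`, so `H ≠ 0` for `‖x‖ < 1`; for `‖x‖ = 1`,
`‖H(x)‖ ≥ ‖c - n x‖ - ‖E(x)‖ ≥ (n - ‖c‖) - s/4 = 3 s/4 > 0`.  `Ψ(x) = x E(x)/H(x) = 1 - (c - n x)/H(x)` is
analytic near the closed unit disc, `‖Ψ‖ ≤ (s/4)/(3 s/4) = 1/3` on the unit circle, but `Ψ(c/n) = 1` with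
`‖c/n‖ < 1`: contradiction to the maximum principle
(`Complex.norm_le_of_forall_mem_frontier_norm_le`; compare `BV.not_small_on_circle`). -/
theorem Cf.far (h : Cf N z w c) (hc : ((N : ℝ) + 6) / 2 ≤ ‖c‖) : ∀ k, z k = c := by
  set s : ℝ := (N : ℝ) + 1 - ‖c‖ with hs
  have hsum : ∑ k, ‖z k - c‖ ≤ s := by
    have := h.sum_le
    linarith
  have ht : ∀ k, ‖z k - c‖ ≤ s := fun k =>
    (Finset.single_le_sum (f := fun k => ‖z k - c‖) (fun _ _ => norm_nonneg _)
      (Finset.mem_univ k)).trans hsum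
  rcases le_or_gt s 0 with hs0 | hs0
  · intro k
    have h1 : ‖z k - c‖ ≤ 0 := (ht k).trans hs0
    exact sub_eq_zero.1 (norm_le_zero_iff.1 h1)
  exfalso
  have hN0 : (0 : ℝ) ≤ N := Nat.cast_nonneg N
  have h4 : 4 ≤ ‖c‖ - s - 1 := by
    rw [hs]
    linarith
  have hzx : ∀ k, ∀ x : ℂ, ‖x‖ ≤ 1 → 4 ≤ ‖z k - x‖ := by
    intro k x hx
    have h1 : ‖c‖ ≤ ‖z k - x‖ + ‖z k - c‖ + ‖x‖ := by
      calc ‖c‖ = ‖(z k - x) - (z k - c) + x‖ := by ring_nf
        _ ≤ ‖(z k - x) - (z k - c)‖ + ‖x‖ := norm_add_le _ _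
        _ ≤ ‖z k - x‖ + ‖z k - c‖ + ‖x‖ := by
          have := norm_sub_le (z k - x) (z k - c)
          linarith
    have h2 := ht k
    linarith
  have hzx0 : ∀ k, ∀ x : ℂ, ‖x‖ ≤ 1 → z k - x ≠ 0 := by
    intro k x hx h0
    have h1 := hzx k x hx
    rw [h0, norm_zero] at h1
    linarith
  have hcx0 : ∀ x : ℂ, ‖x‖ ≤ 1 → c - x ≠ 0 := by
    intro x hx h0
    rw [sub_eq_zero.1 h0] at h4
    linarith
  set E : ℂ → ℂ := fun x => ∑ k, (z k - c) / (z k - x) with hE
  set H : ℂ → ℂ := fun x => c - x * (((N : ℂ) + 1) - E x) with hH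
  have hEb : ∀ x : ℂ, ‖x‖ ≤ 1 → ‖E x‖ ≤ s / 4 := by
    intro x hx
    calc ‖E x‖ ≤ ∑ k, ‖(z k - c) / (z k - x)‖ := norm_sum_le _ _
      _ ≤ ∑ k, ‖z k - c‖ / 4 := by
          refine Finset.sum_le_sum fun k _ => ?_
          rw [norm_div]
          exact div_le_div_of_nonneg_left (norm_nonneg _) (by norm_num) (hzx k x hx)
      _ = (∑ k, ‖z k - c‖) / 4 := by rw [Finset.sum_div]
      _ ≤ s / 4 := by linarith
  have hHin : ∀ x : ℂ, ‖x‖ < 1 → H x ≠ 0 := by
    intro x hx h0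
    have hx1 := hx.le
    have h1 := Far_deriv h x (fun k hk => hzx0 k x hx1 (by rw [← hk]; ring))
    have h2 : ∏ j, (1 - x / w j) ≠ 0 := by
      refine Finset.prod_ne_zero_iff.2 fun j _ hj => ?_
      have hw := h.one_le j
      have hwj : w j ≠ 0 := by
        intro h3
        rw [h3, norm_zero] at hw
        linarith
      have h3 : x = w j := by
        have h5 : x / w j = 1 := (sub_eq_zero.1 hj).symm
        rwa [div_eq_one_iff_eq hwj] at h5
      rw [h3] at hx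
      linarith
    rw [h1] at h2
    have h3 : (c - x) * (1 - x * ∑ k, (z k - x)⁻¹) = H x := by
      have h5 : (c - x) * ∑ k, (z k - x)⁻¹ = (N : ℂ) - E x := by
        rw [Finset.mul_sum]
        have h6 : ∀ k ∈ (Finset.univ : Finset (Fin N)), (c - x) * (z k - x)⁻¹ =
            1 - (z k - c) / (z k - x) := by
          intro k _
          have := hzx0 k x hx1
          field_simp
          ring
        rw [Finset.sum_congr rfl h6, Finset.sum_sub_distrib]
        simp [hE]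
      calc (c - x) * (1 - x * ∑ k, (z k - x)⁻¹) =
            (c - x) - x * ((c - x) * ∑ k, (z k - x)⁻¹) := by ring
        _ = H x := by
            rw [h5, hH]
            ring
    apply h2
    have h7 : 1 - x * ∑ k, (z k - x)⁻¹ = 0 := by
      rw [h0] at h3
      exact (mul_eq_zero.1 h3).resolve_left (hcx0 x hx1)
    rw [h7, mul_zero]
  have hHon : ∀ x : ℂ, ‖x‖ = 1 → 3 * s / 4 ≤ ‖H x‖ := by
    intro x hx
    have h1 : H x = c - ((N : ℂ) + 1) * x + x * E x := by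
      rw [hH]
      ring
    have h2 : ‖((N : ℂ) + 1) * x‖ = (N : ℝ) + 1 := by
      rw [norm_mul, hx, mul_one]
      have : ((N : ℂ) + 1) = (((N : ℝ) + 1 : ℝ) : ℂ) := by push_cast; ring
      rw [this, Complex.norm_real, Real.norm_eq_abs, abs_of_nonneg (by linarith)]
    have h3 : ‖x * E x‖ ≤ s / 4 := by
      rw [norm_mul, hx, one_mul]
      exact hEb x hx.le
    have h5 : ‖((N : ℂ) + 1) * x‖ ≤ ‖H x‖ + ‖c‖ + ‖x * E x‖ := by
      calc ‖((N : ℂ) + 1) * x‖ = ‖c + x * E x - H x‖ := by rw [h1]; ring_nf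
        _ ≤ ‖c + x * E x‖ + ‖H x‖ := norm_sub_le _ _
        _ ≤ _ := by
          have := norm_add_le c (x * E x)
          linarith
    rw [h2] at h5
    linarith
  have hH0 : ∀ x : ℂ, ‖x‖ ≤ 1 → H x ≠ 0 := by
    intro x hx
    rcases lt_or_eq_of_le hx with h1 | h1
    · exact hHin x h1
    · intro h0
      have := hHon x h1
      rw [h0, norm_zero] at this
      linarith
  have hEd : ∀ x : ℂ, ‖x‖ ≤ 1 → DifferentiableAt ℂ E x := by
    intro x hx
    rw [hE]
    refine DifferentiableAt.fun_sum fun k _ => ?_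
    exact (differentiableAt_const _).div ((differentiableAt_const _).sub differentiableAt_id)
      (hzx0 k x hx)
  have hd : DiffContOnCl ℂ (fun x : ℂ => x * E x / H x) (Metric.ball (0 : ℂ) 1) := by
    apply DifferentiableOn.diffContOnCl
    rw [closure_ball (0 : ℂ) one_ne_zero]
    intro x hx
    rw [Metric.mem_closedBall, dist_zero_right] at hx
    have hHd : DifferentiableAt ℂ H x := by
      rw [hH]
      exact (differentiableAt_const _).sub (differentiableAt_id.mul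
        ((differentiableAt_const _).sub (hEd x hx)))
    exact ((differentiableAt_id.mul (hEd x hx)).div hHd (hH0 x hx)).differentiableWithinAt
  have hn0 : ((N : ℂ) + 1) ≠ 0 := by
    have : ((N : ℂ) + 1) = ((N + 1 : ℕ) : ℂ) := by push_cast; ring
    rw [this]
    exact Nat.cast_ne_zero.2 (Nat.succ_ne_zero N)
  set x₀ : ℂ := c / ((N : ℂ) + 1) with hx₀
  have hx₀1 : ‖x₀‖ < 1 := by
    have h2 : ‖((N : ℂ) + 1)‖ = (N : ℝ) + 1 := by
      have : ((N : ℂ) + 1) = (((N : ℝ) + 1 : ℝ) : ℂ) := by push_cast; ring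
      rw [this, Complex.norm_real, Real.norm_eq_abs, abs_of_nonneg (by linarith)]
    rw [hx₀, norm_div, h2, div_lt_one (by linarith)]
    linarith
  have hΨ : x₀ * E x₀ / H x₀ = 1 := by
    have h1 : H x₀ = x₀ * E x₀ := by
      have h2 : x₀ * ((N : ℂ) + 1) = c := by
        rw [hx₀]
        field_simp
      have h3 : H x₀ = c - x₀ * ((N : ℂ) + 1) + x₀ * E x₀ := by
        rw [hH]
        ring
      rw [h3, h2]
      ring
    rw [← h1, div_self (hH0 x₀ hx₀1.le)]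
  have hfin := Complex.norm_le_of_forall_mem_frontier_norm_le Metric.isBounded_ball hd
    (C := 1 / 3) (fun x hx => by
      rw [frontier_ball (0 : ℂ) one_ne_zero, mem_sphere_zero_iff_norm] at hx
      have h1 := hHon x hx
      have h2 := hEb x hx.le
      rw [norm_div, norm_mul, hx, one_mul, div_le_iff₀ (by linarith)]
      linarith) (z := x₀) (subset_closure (by
        rw [Metric.mem_ball, dist_zero_right]
        exact hx₀1))
  have hfin' : ‖x₀ * E x₀ / H x₀‖ ≤ 1 / 3 := hfin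
  rw [hΨ, norm_one] at hfin'
  norm_num at hfin'

end Pool.MP_c113aa_an.B1
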