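import Pool.Agent.Lib.c113aaP.Defs

set_option autoImplicit false

namespace Pool.MP_c113aa_an.B1

open Finset

variable {N : ℕ} {z w : Fin N → ℂ} {c : ℂ}

theorem lk_w_ne (h : Cf N z w c) (j : Fin N) : w j ≠ 0 := by
  intro h0
  have h1 := h.one_le j
  rw [h0, norm_zero] at h1
  linarith

theorem lk_unit {c : ℂ} (hc : c ≠ 0) : ‖c / (‖c‖ : ℂ)‖ = 1 := by
  rw [norm_div, Complex.norm_real, norm_norm, div_self (norm_ne_zero_iff.2 hc)]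

/-- `∑ ‖w j - c‖ ≤ N` from `sumw_le` and `sum_le`. -/
theorem Cf.sum_x_le (h : Cf N z w c) : ∑ j, ‖w j - c‖ ≤ N := by
  have h1 := h.sumw_le
  have h2 : (N : ℝ) * (‖c‖ + ∑ k, ‖z k - c‖) ≤ N * ((N : ℝ) + 1) :=
    mul_le_mul_of_nonneg_left h.sum_le (Nat.cast_nonneg N)
  have h3 : (0 : ℝ) < (N : ℝ) + 1 := by positivity
  have h4 : ((N : ℝ) + 1) * ∑ j, ‖w j - c‖ ≤ ((N : ℝ) + 1) * N := by linarith
  exact le_of_mul_le_mul_left h4 h3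

/-- `b j = (c/‖c‖)/w j`; `‖(b j)⁻¹ - ‖c‖‖ = ‖w j - c‖`. -/
theorem Cf.dat (h : Cf N z w c) (hc : c ≠ 0) :
    Dat N (fun j => (c / (‖c‖ : ℂ)) * (w j)⁻¹) ‖c‖ := by
  have hu := lk_unit hc
  have hu0 : c / (‖c‖ : ℂ) ≠ 0 := by
    intro h0
    rw [h0, norm_zero] at hu
    exact zero_ne_one hu
  have hn : (‖c‖ : ℂ) ≠ 0 := by
    exact_mod_cast norm_ne_zero_iff.2 hc
  refine ⟨norm_pos_iff.2 hc, fun j => mul_ne_zero hu0 (inv_ne_zero (lk_w_ne h j)), fun j => ?_, ?_⟩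
  · rw [norm_mul, hu, one_mul, norm_inv]
    exact inv_le_one_of_one_le₀ (h.one_le j)
  · refine le_trans (le_of_eq (Finset.sum_congr rfl fun j _ => ?_)) h.sum_x_le
    have h1 : ((c / (‖c‖ : ℂ)) * (w j)⁻¹)⁻¹ - ((‖c‖ : ℝ) : ℂ) =
        (w j - c) / (c / (‖c‖ : ℂ)) := by
      have hw := lk_w_ne h j
      field_simp
    rw [h1, norm_div, hu, div_one]

/-- `f(y ĉ) = y ĉ ∏ (1 - y ĉ/z_k)`, `ĉ = c/‖c‖`, and by `h.der` and the fundamental theorem of calculus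
`f(y ĉ) = ĉ ∫_0^y ∏ (1 - x b_j) dx = ĉ II b y`; `‖z_k - y ĉ‖ = ‖z_k‖ ‖1 - y ĉ/z_k‖` and `h.prod`
(compare `BV.Cfg.prod_eq_JJ` and `BV.Cfg.prod_t_eq` in `MP_c113aa_an/Crit1.lean`). -/
theorem Cf.prod_dist (h : Cf N z w c) (hc : c ≠ 0) {y : ℝ} (hy : 0 ≤ y) :
    y * ∏ k, ‖z k - (y : ℂ) * (c / (‖c‖ : ℂ))‖
      = ((N : ℝ) + 1) * ‖II (fun j => (c / (‖c‖ : ℂ)) * (w j)⁻¹) y‖ * ∏ j, ‖w j‖ := by
  have hu := lk_unit hc
  obtain ⟨u, hu'⟩ : ∃ u, u = c / (‖c‖ : ℂ) := ⟨_, rfl⟩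
  rw [← hu'] at hu ⊢
  have hder : ∀ x : ℝ, HasDerivAt (fun x : ℝ => ((x : ℂ) * u) * ∏ k, (1 - ((x : ℂ) * u) / z k))
      (u * gg (fun j => u * (w j)⁻¹) x) x := by
    intro x
    have h1 : HasDerivAt (fun x : ℝ => (x : ℂ) * u) (1 * u) x :=
      (Complex.ofRealCLM.hasDerivAt (x := x)).mul_const u
    have h2 := HasDerivAt.comp x (h.der ((x : ℂ) * u)) h1
    have h3 : (∏ j, (1 - ((x : ℂ) * u) / w j)) * (1 * u) = u * gg (fun j => u * (w j)⁻¹) x := by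
      rw [one_mul, mul_comm, gg]
      congr 1
      refine Finset.prod_congr rfl fun j _ => ?_
      rw [div_eq_mul_inv, mul_assoc]
    rw [← h3]
    exact h2
  have hint := intervalIntegral.integral_eq_sub_of_hasDerivAt (fun x _ => hder x)
    ((continuous_const.mul (continuous_gg _)).intervalIntegrable 0 y)
  rw [intervalIntegral.integral_const_mul] at hint
  have h4 : u * II (fun j => u * (w j)⁻¹) y = ((y : ℂ) * u) * ∏ k, (1 - ((y : ℂ) * u) / z k) := by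
    rw [II, hint]
    simp
  have h5 : ‖II (fun j => u * (w j)⁻¹) y‖ = y * ∏ k, ‖1 - ((y : ℂ) * u) / z k‖ := by
    have h6 := congrArg norm h4
    rw [norm_mul, hu, one_mul, norm_mul, norm_mul, hu, mul_one, Complex.norm_real,
      Real.norm_of_nonneg hy, norm_prod] at h6
    exact h6
  rw [h5, show ((N : ℝ) + 1) * (y * (∏ k, ‖1 - ((y : ℂ) * u) / z k‖)) * ∏ j, ‖w j‖ =
    y * (((N : ℝ) + 1) * (∏ j, ‖w j‖) * ∏ k, ‖1 - ((y : ℂ) * u) / z k‖) by ring]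
  rw [← h.prod, ← Finset.prod_mul_distrib]
  congr 1
  refine Finset.prod_congr rfl fun k _ => ?_
  rw [← norm_mul, mul_sub, mul_one, mul_div_cancel₀ _ (h.z_ne k)]

end Pool.MP_c113aa_an.B1
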