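import Pool.Agent.Lib.c113aaP.Ek

set_option autoImplicit false

namespace Pool.MP_c113aa_an.B1

open Finset

private theorem cpt_continuous_SS (m : ℕ) : Continuous (SS m) := by
  unfold SS
  fun_prop

/-- one degree `m ≥ 2` -/
private theorem cpt_exists_one {m : ℕ} (hm : 2 ≤ m) :
    ∃ τ η : ℝ, 0 < τ ∧ 0 < η ∧ η ≤ 1 / 10 ∧ ∀ lam : ℝ, 19 / 10 ≤ lam →
      (1 - η) * m ≤ lam → ∀ t : ℂ, ‖t‖ ≤ 1 → τ ≤ ‖SS m (t / lam)‖ := by
  have hm0 : (0 : ℝ) < m := by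
    have : (2 : ℝ) ≤ m := by exact_mod_cast hm
    linarith
  obtain ⟨ω0, hω0, hmin⟩ := (isCompact_closedBall (0 : ℂ) (1 / (m : ℝ))).exists_isMinOn
    ⟨0, Metric.mem_closedBall_self (by positivity)⟩ (cpt_continuous_SS m).norm.continuousOn
  have hω0' : (m : ℝ) * ‖ω0‖ ≤ 1 := by
    rw [mem_closedBall_zero_iff, le_div_iff₀ hm0] at hω0
    linarith
  have hpos : 0 < ‖SS m ω0‖ := norm_pos_iff.2 (SS_ne_zero hm ω0 hω0')
  have huc := (isCompact_closedBall (0 : ℂ) 1).uniformContinuousOn_of_continuous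
    (cpt_continuous_SS m).continuousOn
  rw [Metric.uniformContinuousOn_iff] at huc
  obtain ⟨δ, hδ, huc⟩ := huc (‖SS m ω0‖ / 2) (by positivity)
  refine ⟨‖SS m ω0‖ / 2, min (δ / 2) (1 / 10), by positivity, by positivity, min_le_right _ _, ?_⟩
  intro lam hlam hml t ht
  set η : ℝ := min (δ / 2) (1 / 10) with hη
  have hη0 : 0 < η := by positivity
  have hη1 : η ≤ 1 / 10 := min_le_right _ _
  have hη2 : η ≤ δ / 2 := min_le_left _ _
  have hlam0 : 0 < lam := by linarith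
  have hn : ‖t / (lam : ℂ)‖ = ‖t‖ / lam := by
    rw [norm_div, Complex.norm_real, Real.norm_of_nonneg hlam0.le]
  have hn1 : ‖t / (lam : ℂ)‖ ≤ 1 := by
    rw [hn, div_le_one hlam0]
    linarith
  have hn2 : ‖((1 - η : ℝ) : ℂ) * (t / (lam : ℂ))‖ = (1 - η) * (‖t‖ / lam) := by
    rw [norm_mul, hn, Complex.norm_real, Real.norm_of_nonneg (by linarith)]
  have hn3 : ‖((1 - η : ℝ) : ℂ) * (t / (lam : ℂ))‖ ≤ 1 / (m : ℝ) := by
    rw [hn2, le_div_iff₀ hm0, ← mul_div_assoc, div_mul_eq_mul_div, div_le_one hlam0]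
    have h1 : (1 - η) * ‖t‖ * m = ((1 - η) * m) * ‖t‖ := by ring
    rw [h1]
    have h2 : 0 ≤ (1 - η) * (m : ℝ) := mul_nonneg (by linarith) hm0.le
    calc (1 - η) * (m : ℝ) * ‖t‖ ≤ (1 - η) * (m : ℝ) * 1 := mul_le_mul_of_nonneg_left ht h2
      _ ≤ lam := by linarith
  have hn4 : ‖((1 - η : ℝ) : ℂ) * (t / (lam : ℂ))‖ ≤ 1 := by
    refine hn3.trans ?_
    rw [div_le_one hm0]
    have : (2 : ℝ) ≤ m := by exact_mod_cast hm
    linarith
  have hd : dist (t / (lam : ℂ)) (((1 - η : ℝ) : ℂ) * (t / (lam : ℂ))) < δ := by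
    rw [dist_eq_norm]
    have h1 : t / (lam : ℂ) - ((1 - η : ℝ) : ℂ) * (t / (lam : ℂ)) = (η : ℂ) * (t / (lam : ℂ)) := by
      push_cast
      ring
    rw [h1, norm_mul, Complex.norm_real, Real.norm_of_nonneg hη0.le]
    calc η * ‖t / (lam : ℂ)‖ ≤ η * 1 := mul_le_mul_of_nonneg_left hn1 hη0.le
      _ < δ := by linarith
  have h5 := huc _ (mem_closedBall_zero_iff.2 hn1) _ (mem_closedBall_zero_iff.2 hn4) hd
  rw [dist_eq_norm] at h5
  have h6 : ‖SS m ω0‖ ≤ ‖SS m (((1 - η : ℝ) : ℂ) * (t / (lam : ℂ)))‖ :=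
    hmin (mem_closedBall_zero_iff.2 hn3)
  have h7 := norm_sub_norm_le (SS m (((1 - η : ℝ) : ℂ) * (t / (lam : ℂ)))) (SS m (t / (lam : ℂ)))
  rw [norm_sub_rev] at h7
  linarith

/-- every degree -/
private theorem cpt_exists_all (m : ℕ) :
    ∃ τ η : ℝ, 0 < τ ∧ 0 < η ∧ η ≤ 1 / 10 ∧ ∀ lam : ℝ, 19 / 10 ≤ lam →
      (1 - η) * m ≤ lam → ∀ t : ℂ, ‖t‖ ≤ 1 → τ ≤ ‖SS m (t / lam)‖ := by
  rcases Nat.lt_or_ge m 2 with hm | hm
  · refine ⟨1 / 3, 1 / 10, by norm_num, by norm_num, le_rfl, ?_⟩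
    intro lam hlam _ t ht
    have hlam0 : 0 < lam := by linarith
    interval_cases m
    · have h0 : SS 0 (t / (lam : ℂ)) = 1 := by simp [SS]
      rw [h0, norm_one]
      norm_num
    · have h1 : SS 1 (t / (lam : ℂ)) = 1 - t / (lam : ℂ) := by
        simp [SS, sum_range_succ]
        ring
      rw [h1]
      have hn : ‖t / (lam : ℂ)‖ = ‖t‖ / lam := by
        rw [norm_div, Complex.norm_real, Real.norm_of_nonneg hlam0.le]
      have hn1 : ‖t / (lam : ℂ)‖ ≤ 2 / 3 := by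
        rw [hn, div_le_iff₀ hlam0]
        linarith
      have h2 := norm_sub_norm_le (1 : ℂ) (t / (lam : ℂ))
      rw [norm_one] at h2
      linarith
  · exact cpt_exists_one hm

/-- Compactness.  `m = 0`: `SS 0 = 1`.  `m = 1`: `SS 1 ω = 1 - ω`, `‖t/lam‖ ≤ 10/19`.  `2 ≤ m ≤ D`: `SS m` is
continuous and nonzero on the compact disc `‖ω‖ ≤ 1/m` (`SS_ne_zero`), hence there are `ε_m, τ_m > 0` with
`‖SS m ω‖ ≥ τ_m` for `‖ω‖ ≤ (1 + ε_m)/m`; choose `η` with `1/(1-η) ≤ 1 + ε_m` for all these `m`. -/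
theorem exists_tau (D : ℕ) :
    ∃ τ η : ℝ, 0 < τ ∧ 0 < η ∧ η ≤ 1 / 10 ∧ ∀ m : ℕ, m ≤ D → ∀ lam : ℝ, 19 / 10 ≤ lam →
      (1 - η) * m ≤ lam → ∀ t : ℂ, ‖t‖ ≤ 1 → τ ≤ ‖SS m (t / lam)‖ := by
  induction D with
  | zero =>
    obtain ⟨τ, η, h1, h2, h3, h4⟩ := cpt_exists_all 0
    refine ⟨τ, η, h1, h2, h3, ?_⟩
    intro m hm
    obtain rfl : m = 0 := by omega
    exact h4
  | succ D ih =>
    obtain ⟨τ, η, h1, h2, h3, h4⟩ := cpt_exists_all (D + 1)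
    obtain ⟨τ', η', h1', h2', h3', h4'⟩ := ih
    refine ⟨min τ τ', min η η', lt_min h1 h1', lt_min h2 h2', (min_le_left _ _).trans h3, ?_⟩
    intro m hm lam hlam hml t ht
    have hm0 : (0 : ℝ) ≤ m := Nat.cast_nonneg m
    rcases Nat.lt_or_ge D m with hDm | hDm
    · obtain rfl : m = D + 1 := by omega
      refine (min_le_left _ _).trans (h4 lam hlam ?_ t ht)
      refine le_trans (mul_le_mul_of_nonneg_right ?_ hm0) hml
      linarith [min_le_left η η']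
    · refine (min_le_right _ _).trans (h4' m hDm lam hlam ?_ t ht)
      refine le_trans (mul_le_mul_of_nonneg_right ?_ hm0) hml
      linarith [min_le_right η η']

end Pool.MP_c113aa_an.B1
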