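import Pool.Agent.Lib.c113aaP.Defs

set_option autoImplicit false

namespace Pool.MP_c113aa_an.B1

open Finset

/-- `exp (- lam x) * momQ lam t m x` is minus a primitive of `(1 - t x) ^ m * exp (- lam x)`. -/
private noncomputable def momQ (lam : ℝ) (t : ℂ) : ℕ → ℝ → ℂ
  | 0, _ => 1 / (lam : ℂ)
  | m + 1, x => ((1 - t * (x : ℂ)) ^ (m + 1) - ((m : ℂ) + 1) * t * momQ lam t m x) / (lam : ℂ)

/-- Bounds for `momQ`. -/
private noncomputable def momB : ℕ → ℝ
  | 0 => 1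
  | m + 1 => 1 + ((m : ℝ) + 1) * momB m

private theorem momB_nonneg (m : ℕ) : 0 ≤ momB m := by
  induction m with
  | zero => simp [momB]
  | succ m ih =>
    rw [momB]
    positivity

private theorem momQ_deriv {lam : ℝ} (hl : lam ≠ 0) (t : ℂ) (m : ℕ) (x : ℝ) :
    HasDerivAt (fun y : ℝ => momQ lam t m y)
      ((lam : ℂ) * momQ lam t m x - (1 - t * (x : ℂ)) ^ m) x := by
  have hl' : (lam : ℂ) ≠ 0 := by exact_mod_cast hl
  induction m with
  | zero =>
    have h1 : HasDerivAt (fun _ : ℝ => 1 / (lam : ℂ)) 0 x := hasDerivAt_const _ _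
    have h2 : (lam : ℂ) * momQ lam t 0 x - (1 - t * (x : ℂ)) ^ 0 = 0 := by
      show (lam : ℂ) * (1 / (lam : ℂ)) - _ = 0
      rw [mul_one_div_cancel hl', pow_zero, sub_self]
    rw [h2]
    exact h1
  | succ m ih =>
    have h1 : HasDerivAt (fun y : ℝ => (1 - t * (y : ℂ))) (-t) x := by
      have h0 : HasDerivAt (fun y : ℝ => (y : ℂ)) 1 x := Complex.ofRealCLM.hasDerivAt
      have := (h0.const_mul t).const_sub 1
      simpa using this
    have h2 := h1.pow (m + 1)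
    have h3 := (h2.sub (ih.const_mul (((m : ℂ) + 1) * t))).div_const (lam : ℂ)
    have e : (((m + 1 : ℕ) : ℂ) * (1 - t * (x : ℂ)) ^ (m + 1 - 1) * -t -
        ((m : ℂ) + 1) * t * ((lam : ℂ) * momQ lam t m x - (1 - t * (x : ℂ)) ^ m)) / (lam : ℂ) =
        (lam : ℂ) * momQ lam t (m + 1) x - (1 - t * (x : ℂ)) ^ (m + 1) := by
      show _ = (lam : ℂ) * (((1 - t * (x : ℂ)) ^ (m + 1) -
        ((m : ℂ) + 1) * t * momQ lam t m x) / (lam : ℂ)) - (1 - t * (x : ℂ)) ^ (m + 1)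
      rw [mul_div_cancel₀ _ hl', Nat.add_sub_cancel]
      push_cast
      field_simp
      ring
    rw [← e]
    exact h3

private theorem momQ_zero {lam : ℝ} (t : ℂ) (m : ℕ) :
    momQ lam t m 0 = SS m (t / lam) / lam := by
  have hSS : ∀ (m : ℕ) (s : ℂ), SS (m + 1) s = 1 - ((m : ℂ) + 1) * s * SS m s := by
    intro m s
    unfold SS
    rw [Finset.sum_range_succ', Finset.mul_sum]
    have h1 : ∀ k ∈ range (m + 1), (((m + 1).choose (k + 1) : ℕ) : ℂ) *
        ((k + 1).factorial : ℂ) * (-s) ^ (k + 1) =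
        -(((m : ℂ) + 1) * s * ((m.choose k : ℂ) * (k.factorial : ℂ) * (-s) ^ k)) := by
      intro k _
      have h2 : (m + 1) * m.choose k = (m + 1).choose (k + 1) * (k + 1) :=
        Nat.add_one_mul_choose_eq m k
      have h3 : (((m : ℂ) + 1) * (m.choose k : ℂ)) =
          ((m + 1).choose (k + 1) : ℂ) * ((k : ℂ) + 1) := by exact_mod_cast h2
      rw [Nat.factorial_succ]
      push_cast
      rw [pow_succ]
      linear_combination (s * (k.factorial : ℂ) * (-s) ^ k) * h3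
    rw [Finset.sum_congr rfl h1, Finset.sum_neg_distrib]
    simp
    ring
  induction m with
  | zero =>
    show 1 / (lam : ℂ) = SS 0 _ / lam
    simp [SS]
  | succ m ih =>
    show ((1 - t * ((0 : ℝ) : ℂ)) ^ (m + 1) - ((m : ℂ) + 1) * t * momQ lam t m 0) / (lam : ℂ) = _
    rw [hSS, ih]
    simp only [Complex.ofReal_zero, mul_zero, sub_zero, one_pow]
    congr 1
    ring

private theorem momQ_norm {lam : ℝ} (hl : 1 ≤ lam) {t : ℂ} (ht : ‖t‖ ≤ 1) (m : ℕ) {x : ℝ}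
    (hx : 0 ≤ x) : ‖momQ lam t m x‖ ≤ momB m * (1 + x) ^ m := by
  have hln : ‖(lam : ℂ)‖ = lam := by
    rw [Complex.norm_real, Real.norm_of_nonneg (by linarith)]
  induction m with
  | zero =>
    show ‖1 / (lam : ℂ)‖ ≤ 1 * (1 + x) ^ 0
    rw [norm_div, hln, norm_one, pow_zero, mul_one]
    exact (div_le_one (by linarith)).2 hl
  | succ m ih =>
    show ‖((1 - t * (x : ℂ)) ^ (m + 1) - ((m : ℂ) + 1) * t * momQ lam t m x) / (lam : ℂ)‖ ≤
      (1 + ((m : ℝ) + 1) * momB m) * (1 + x) ^ (m + 1)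
    have h1 : ‖1 - t * (x : ℂ)‖ ≤ 1 + x := by
      refine (norm_sub_le _ _).trans ?_
      rw [norm_one, norm_mul, Complex.norm_real, Real.norm_of_nonneg hx]
      have : ‖t‖ * x ≤ 1 * x := mul_le_mul_of_nonneg_right ht hx
      linarith
    have h2 : ‖(1 - t * (x : ℂ)) ^ (m + 1)‖ ≤ (1 + x) ^ (m + 1) := by
      rw [norm_pow]
      exact pow_le_pow_left₀ (norm_nonneg _) h1 _
    have h3 : ‖((m : ℂ) + 1) * t * momQ lam t m x‖ ≤ ((m : ℝ) + 1) * (momB m * (1 + x) ^ m) := by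
      rw [norm_mul, norm_mul]
      have h4 : ‖(m : ℂ) + 1‖ = (m : ℝ) + 1 := by
        have : (m : ℂ) + 1 = ((m + 1 : ℕ) : ℂ) := by push_cast; ring
        rw [this, Complex.norm_natCast]
        push_cast
        ring
      rw [h4]
      have h5 : ((m : ℝ) + 1) * ‖t‖ ≤ ((m : ℝ) + 1) * 1 :=
        mul_le_mul_of_nonneg_left ht (by positivity)
      have h6 : 0 ≤ momB m * (1 + x) ^ m := mul_nonneg (momB_nonneg m) (by positivity)
      calc ((m : ℝ) + 1) * ‖t‖ * ‖momQ lam t m x‖ ≤ ((m : ℝ) + 1) * 1 * (momB m * (1 + x) ^ m) :=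
            mul_le_mul h5 ih (norm_nonneg _) (by positivity)
        _ = _ := by ring
    have h7 : (1 + x) ^ m ≤ (1 + x) ^ (m + 1) := pow_le_pow_right₀ (by linarith) (by omega)
    have h8 : ‖(1 - t * (x : ℂ)) ^ (m + 1) - ((m : ℂ) + 1) * t * momQ lam t m x‖ ≤
        (1 + ((m : ℝ) + 1) * momB m) * (1 + x) ^ (m + 1) := by
      refine (norm_sub_le _ _).trans ?_
      have h9 : ((m : ℝ) + 1) * (momB m * (1 + x) ^ m) ≤
          ((m : ℝ) + 1) * (momB m * (1 + x) ^ (m + 1)) :=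
        mul_le_mul_of_nonneg_left (mul_le_mul_of_nonneg_left h7 (momB_nonneg m)) (by positivity)
      linarith
    rw [norm_div, hln]
    exact (div_le_self (norm_nonneg _) hl).trans h8

private theorem mom_integral {lam : ℝ} (hl : lam ≠ 0) (t : ℂ) (m : ℕ) (X : ℝ) :
    (∫ x in (0 : ℝ)..X, (1 - t * (x : ℂ)) ^ m * Complex.exp (-((lam : ℂ) * x))) -
      SS m (t / lam) / lam = -(Complex.exp (-((lam : ℂ) * X)) * momQ lam t m X) := by
  have hd : ∀ x ∈ Set.uIcc (0 : ℝ) X,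
      HasDerivAt (fun y : ℝ => -(Complex.exp (-((lam : ℂ) * y)) * momQ lam t m y))
        ((1 - t * (x : ℂ)) ^ m * Complex.exp (-((lam : ℂ) * x))) x := by
    intro x _
    have h0 : HasDerivAt (fun y : ℝ => (y : ℂ)) 1 x := Complex.ofRealCLM.hasDerivAt
    have h1 : HasDerivAt (fun y : ℝ => Complex.exp (-((lam : ℂ) * y)))
        (Complex.exp (-((lam : ℂ) * x)) * (-((lam : ℂ) * 1))) x :=
      (h0.const_mul (lam : ℂ)).neg.cexp
    have h2 := (h1.mul (momQ_deriv hl t m x)).neg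
    have e : -(Complex.exp (-((lam : ℂ) * x)) * (-((lam : ℂ) * 1)) * momQ lam t m x +
        Complex.exp (-((lam : ℂ) * x)) * ((lam : ℂ) * momQ lam t m x - (1 - t * (x : ℂ)) ^ m)) =
        (1 - t * (x : ℂ)) ^ m * Complex.exp (-((lam : ℂ) * x)) := by ring
    rw [← e]
    exact h2
  have hint : IntervalIntegrable
      (fun x : ℝ => (1 - t * (x : ℂ)) ^ m * Complex.exp (-((lam : ℂ) * x)))
      MeasureTheory.volume 0 X := by
    apply Continuous.intervalIntegrable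
    fun_prop
  rw [intervalIntegral.integral_eq_sub_of_hasDerivAt hd hint, momQ_zero]
  simp

/-- `∫_0^∞ x^k exp(- lam x) dx = k!/lam^(k+1)`, so `∫_0^∞ (1 - t x)^m exp(- lam x) dx = SS m (t/lam)/lam`, and
the tail over `[X, ∞)` is at most `∫_X^∞ (1+x)^D exp(-(19/10) x) dx`, which tends to 0.  (One may also
prove `∫_0^X x^k exp(- lam x) dx = k!/lam^(k+1) - exp(- lam X) ∑_{i ≤ k} k!/(i!) X^i/lam^(k+1-i)` by
induction.) -/
theorem exists_X (D : ℕ) {ε : ℝ} (hε : 0 < ε) :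
    ∃ X₀ : ℝ, 3 ≤ X₀ ∧ ∀ X : ℝ, X₀ ≤ X → ∀ m : ℕ, m ≤ D → ∀ lam : ℝ, 19 / 10 ≤ lam →
      ∀ t : ℂ, ‖t‖ ≤ 1 →
      ‖(∫ x in (0 : ℝ)..X, (1 - t * (x : ℂ)) ^ m * Complex.exp (-((lam : ℂ) * x)))
        - SS m (t / lam) / lam‖ ≤ ε := by
  set B : ℝ := ∑ m ∈ range (D + 1), momB m with hB
  have hB0 : 0 ≤ B := Finset.sum_nonneg fun m _ => momB_nonneg m
  have hpos : 0 < ε / ((B + 1) * Real.exp 1) := by positivity
  have hlim := Real.tendsto_pow_mul_exp_neg_atTop_nhds_zero D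
  have hev := (hlim.eventually (gt_mem_nhds hpos))
  obtain ⟨Y, hY⟩ := Filter.eventually_atTop.1 hev
  refine ⟨max 3 Y, le_max_left _ _, ?_⟩
  intro X hX m hm lam hlam t ht
  have hX3 : 3 ≤ X := (le_max_left _ _).trans hX
  have hXY : Y ≤ 1 + X := by
    have := (le_max_right 3 Y).trans hX
    linarith
  have h1 := hY (1 + X) hXY
  rw [mom_integral (by linarith), norm_neg, norm_mul, Complex.norm_exp]
  have h2 : (-((lam : ℂ) * X)).re = -(lam * X) := by simp
  rw [h2]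
  have h3 := momQ_norm (show (1 : ℝ) ≤ lam by linarith) ht m (show (0 : ℝ) ≤ X by linarith)
  have h4 : momB m ≤ B := Finset.single_le_sum (f := momB) (fun i _ => momB_nonneg i)
    (Finset.mem_range.2 (by omega))
  have h5 : (1 + X) ^ m ≤ (1 + X) ^ D := pow_le_pow_right₀ (by linarith) hm
  have h6 : ‖momQ lam t m X‖ ≤ B * (1 + X) ^ D :=
    h3.trans (mul_le_mul h4 h5 (by positivity) hB0)
  have h7 : Real.exp (-(lam * X)) ≤ Real.exp (-(1 + X)) * Real.exp 1 := by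
    rw [← Real.exp_add]
    apply Real.exp_le_exp.2
    nlinarith
  have h8 : (1 + X) ^ D * Real.exp (-(1 + X)) * ((B + 1) * Real.exp 1) ≤ ε := by
    have := h1.le
    rwa [le_div_iff₀ (by positivity)] at this
  calc Real.exp (-(lam * X)) * ‖momQ lam t m X‖
      ≤ (Real.exp (-(1 + X)) * Real.exp 1) * (B * (1 + X) ^ D) :=
        mul_le_mul h7 h6 (norm_nonneg _) (by positivity)
    _ ≤ (Real.exp (-(1 + X)) * Real.exp 1) * ((B + 1) * (1 + X) ^ D) := by
        apply mul_le_mul_of_nonneg_left _ (by positivity)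
        apply mul_le_mul_of_nonneg_right (by linarith) (by positivity)
    _ = (1 + X) ^ D * Real.exp (-(1 + X)) * ((B + 1) * Real.exp 1) := by ring
    _ ≤ ε := h8

end Pool.MP_c113aa_an.B1
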