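import Pool.Agent.Lib.c113aaP.An0

set_option autoImplicit false

namespace Pool.MP_c113aa_an.B1

open Finset

/-- The set of indices with `|w_j| ≤ η C`. -/
noncomputable def UU {N : ℕ} (b : Fin N → ℂ) (C η : ℝ) : Finset (Fin N) :=
  univ.filter (fun j => ‖(b j)⁻¹‖ ≤ η * C)

/-- For `j ∈ U`: `X_j = ‖(b j)⁻¹ - C‖ ≥ (1 - η) C`; sum. -/
theorem Dat.card_UU_le {N : ℕ} {b : Fin N → ℂ} {C η : ℝ} (h : Dat N b C) :
    (1 - η) * C * (UU b C η).card ≤ ∑ j ∈ UU b C η, ‖(b j)⁻¹ - (C : ℂ)‖ := by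
  have h1 : ∑ _j ∈ UU b C η, ((1 - η) * C) ≤ ∑ j ∈ UU b C η, ‖(b j)⁻¹ - (C : ℂ)‖ := by
    refine Finset.sum_le_sum fun j hj => ?_
    have h2 : ‖(b j)⁻¹‖ ≤ η * C := (Finset.mem_filter.1 hj).2
    have h3 : ‖(C : ℂ)‖ = C := by
      rw [Complex.norm_real, Real.norm_eq_abs, abs_of_pos h.C_pos]
    have h4 : ‖(C : ℂ)‖ - ‖(b j)⁻¹‖ ≤ ‖(C : ℂ) - (b j)⁻¹‖ := norm_sub_norm_le _ _
    rw [norm_sub_rev] at h4
    rw [h3] at h4
    linarith
  rw [Finset.sum_const, nsmul_eq_mul] at h1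
  linarith

/-- Outside `UU` the numbers `b j` are small. -/
private theorem wes_norm_le {N : ℕ} {b : Fin N → ℂ} {C η : ℝ} (h : Dat N b C) (hη : 0 < η)
    {j : Fin N} (hj : j ∈ (UU b C η)ᶜ) : ‖b j‖ ≤ 1 / (η * C) := by
  have hC := h.C_pos
  have h1 : ¬ ‖(b j)⁻¹‖ ≤ η * C := by
    intro h2
    exact (Finset.mem_compl.1 hj) (Finset.mem_filter.2 ⟨Finset.mem_univ _, h2⟩)
  rw [not_le, norm_inv] at h1
  have h2 : 0 < ‖b j‖ := norm_pos_iff.2 (h.ne j)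
  have h3 : 0 < η * C := mul_pos hη hC
  rw [le_div_iff₀ h3]
  have h4 : η * C * ‖b j‖ ≤ ‖b j‖⁻¹ * ‖b j‖ := mul_le_mul_of_nonneg_right h1.le h2.le
  rw [inv_mul_cancel₀ h2.ne'] at h4
  linarith

/-- The distance of `b j` to `1 / C`. -/
private theorem wes_norm_sub_le {N : ℕ} {b : Fin N → ℂ} {C η : ℝ} (h : Dat N b C) (hη : 0 < η)
    {j : Fin N} (hj : j ∈ (UU b C η)ᶜ) :
    ‖b j - ((1 / C : ℝ) : ℂ)‖ ≤ ‖(b j)⁻¹ - (C : ℂ)‖ * (1 / (η * C ^ 2)) := by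
  have hC := h.C_pos
  have hC' : (C : ℂ) ≠ 0 := by exact_mod_cast hC.ne'
  have hb := h.ne j
  have h1 : b j - ((1 / C : ℝ) : ℂ) = -(((b j)⁻¹ - (C : ℂ)) * (b j * (C : ℂ)⁻¹)) := by
    push_cast
    field_simp
    ring
  have h2 : ‖(C : ℂ)⁻¹‖ = 1 / C := by
    rw [norm_inv, Complex.norm_real, Real.norm_eq_abs, abs_of_pos hC, one_div]
  rw [h1, norm_neg, norm_mul, norm_mul, h2]
  refine mul_le_mul_of_nonneg_left ?_ (norm_nonneg _)
  have h3 : ‖b j‖ * (1 / C) ≤ 1 / (η * C) * (1 / C) :=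
    mul_le_mul_of_nonneg_right (wes_norm_le h hη hj) (by positivity)
  refine h3.trans (le_of_eq ?_)
  field_simp

/-- For `j ∉ U`: `‖b j‖ ≤ 1/(η C)`, `‖b j - 1/C‖ = X_j ‖b j‖/C ≤ X_j/(η C^2)`, sum `≤ N/(η C^2) ≤ D^2/(η N)`;
`|U| ≤ N/((1-η) C) ≤ 2 D` (`card_UU_le`).  With `δ_j = - x b_j`, `P = ∑_{j ∉ U} ‖δ_j‖^2 ≤ X₀^2 N/(η C)^2
≤ X₀^2 D^2/(η^2 N)`, `BV.norm_prod_mul_exp_sub_one_le` gives
`‖∏ (1 - x b_j) exp(x b_j) - 1‖ ≤ 3 P exp(P/2)`, and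
`‖x ∑_{j ∉ U} b_j - (N/C) x‖ ≤ x |U|/C + x D^2/(η N) ≤ X₀ (2 D^2 + D^2/η)/N`.  Everything tends to 0 as
`N → ∞`, and `‖exp(-(N/C) x)‖ ≤ 1`. -/
theorem exists_N_W {D X₀ η ε : ℝ} (hD : 0 < D) (hX : 0 < X₀) (hη : 0 < η) (hη1 : η ≤ 1 / 10)
    (hε : 0 < ε) :
    ∃ N₀ : ℕ, ∀ N : ℕ, N₀ ≤ N → ∀ (b : Fin N → ℂ) (C : ℝ), Dat N b C → (N : ℝ) ≤ D * C →
      ∀ x : ℝ, 0 ≤ x → x ≤ X₀ →
      ‖(∏ j ∈ (UU b C η)ᶜ, (1 - (x : ℂ) * b j)) - Complex.exp (-(((N / C : ℝ) : ℂ) * x))‖ ≤ ε := by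
  obtain ⟨A, hA⟩ : ∃ A : ℝ, A = X₀ ^ 2 * D ^ 2 / η ^ 2 := ⟨_, rfl⟩
  obtain ⟨B, hB⟩ : ∃ B : ℝ, B = X₀ * (D ^ 2 / η + 2 * D ^ 2) := ⟨_, rfl⟩
  have hA0 : 0 < A := by rw [hA]; positivity
  have hB0 : 0 < B := by rw [hB]; positivity
  refine ⟨⌈(A + B) * (36 / ε + 1)⌉₊ + 1, fun N hN b C h hNC x hx0 hx => ?_⟩
  have hC := h.C_pos
  have hN1 : (A + B) * (36 / ε + 1) ≤ (N : ℝ) := by
    refine (Nat.le_ceil _).trans ?_
    exact_mod_cast (Nat.le_succ _).trans hN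
  have hN0 : (0 : ℝ) < N := lt_of_lt_of_le (by positivity) hN1
  -- the two small numbers
  have hs1 : (A + B) / N ≤ 1 := by
    rw [div_le_one hN0]
    refine le_trans ?_ hN1
    have : 0 ≤ (A + B) * (36 / ε) := by positivity
    linarith
  have hs2 : (A + B) / N ≤ ε / 36 := by
    rw [div_le_iff₀ hN0]
    have h1 : ε / 36 * ((A + B) * (36 / ε + 1)) ≤ ε / 36 * N :=
      mul_le_mul_of_nonneg_left hN1 (by positivity)
    have h2 : ε / 36 * ((A + B) * (36 / ε + 1)) = (A + B) + ε / 36 * (A + B) := by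
      field_simp
    have h3 : 0 ≤ ε / 36 * (A + B) := by positivity
    linarith
  have hAN : A / N ≤ (A + B) / N := by
    apply div_le_div_of_nonneg_right _ hN0.le
    linarith
  have hBN : B / N ≤ (A + B) / N := by
    apply div_le_div_of_nonneg_right _ hN0.le
    linarith
  -- the size of C
  have hCN : (N : ℝ) / D ≤ C := by
    rw [div_le_iff₀ hD]
    linarith
  have hNC' : (N : ℝ) / C ≤ D := by
    rw [div_le_iff₀ hC]
    exact hNC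
  have h1C : 1 / C ≤ D / N := by
    rw [div_le_div_iff₀ hC hN0]
    linarith
  have h1C0 : 0 ≤ 1 / C := by positivity
  -- the cardinality of U
  have hU : ((UU b C η).card : ℝ) ≤ 2 * D := by
    have h1 := h.card_UU_le (η := η)
    have h2 : ∑ j ∈ UU b C η, ‖(b j)⁻¹ - (C : ℂ)‖ ≤ ∑ j, ‖(b j)⁻¹ - (C : ℂ)‖ :=
      Finset.sum_le_sum_of_subset_of_nonneg (Finset.subset_univ _) fun _ _ _ => norm_nonneg _
    have h3 : (1 - η) * C * (UU b C η).card ≤ D * C := (h1.trans h2).trans (h.sum_le.trans hNC)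
    have h4 : (1 - η) * (UU b C η).card ≤ D := by
      have h5 : C * ((1 - η) * (UU b C η).card) ≤ C * D := by linarith
      exact le_of_mul_le_mul_left h5 hC
    have h5 : (1 / 2 : ℝ) * (UU b C η).card ≤ (1 - η) * (UU b C η).card :=
      mul_le_mul_of_nonneg_right (by linarith) (Nat.cast_nonneg _)
    linarith
  -- the sum of the squares
  obtain ⟨P, hP⟩ : ∃ P : ℝ, P = ∑ j ∈ (UU b C η)ᶜ, ‖-((x : ℂ) * b j)‖ ^ 2 := ⟨_, rfl⟩
  have hP0 : 0 ≤ P := by rw [hP]; positivity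
  have hP1 : P ≤ A / N := by
    have h1 : ∀ j ∈ (UU b C η)ᶜ, ‖-((x : ℂ) * b j)‖ ^ 2 ≤ (X₀ * (1 / (η * C))) ^ 2 := by
      intro j hj
      have h2 : ‖-((x : ℂ) * b j)‖ ≤ X₀ * (1 / (η * C)) := by
        rw [norm_neg, norm_mul, Complex.norm_real, Real.norm_eq_abs, abs_of_nonneg hx0]
        exact mul_le_mul hx (wes_norm_le h hη hj) (norm_nonneg _) hX.le
      exact pow_le_pow_left₀ (norm_nonneg _) h2 2
    have h2 : P ≤ ∑ _j ∈ (UU b C η)ᶜ, (X₀ * (1 / (η * C))) ^ 2 := by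
      rw [hP]
      exact Finset.sum_le_sum h1
    have h3 : ∑ _j ∈ (UU b C η)ᶜ, (X₀ * (1 / (η * C))) ^ 2 ≤ N * (X₀ * (1 / (η * C))) ^ 2 := by
      rw [Finset.sum_const, nsmul_eq_mul]
      refine mul_le_mul_of_nonneg_right ?_ (by positivity)
      have h4 : ((UU b C η)ᶜ).card ≤ N := by
        have := Finset.card_le_univ ((UU b C η)ᶜ)
        rwa [Fintype.card_fin] at this
      exact_mod_cast h4
    have h5 : (1 / C) ^ 2 ≤ (D / N) ^ 2 := pow_le_pow_left₀ h1C0 h1C 2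
    have h6 : N * (X₀ * (1 / (η * C))) ^ 2 = N * (X₀ ^ 2 / η ^ 2) * (1 / C) ^ 2 := by
      field_simp
    have h7 : N * (X₀ ^ 2 / η ^ 2) * (1 / C) ^ 2 ≤ N * (X₀ ^ 2 / η ^ 2) * (D / N) ^ 2 :=
      mul_le_mul_of_nonneg_left h5 (by positivity)
    have h8 : N * (X₀ ^ 2 / η ^ 2) * (D / N) ^ 2 = A / N := by
      rw [hA]
      field_simp
    linarith
  -- the sum of the numbers b j
  obtain ⟨z, hz⟩ : ∃ z : ℂ, z = ∑ j ∈ (UU b C η)ᶜ, (-((x : ℂ) * b j)) + ((N / C : ℝ) : ℂ) * x :=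
    ⟨_, rfl⟩
  have hz1 : ‖z‖ ≤ B / N := by
    have hcard : ((UU b C η)ᶜ.card : ℂ) = (N : ℂ) - ((UU b C η).card : ℂ) := by
      have h1 : (UU b C η).card + ((UU b C η)ᶜ).card = N := by
        rw [Finset.card_add_card_compl, Fintype.card_fin]
      have h2 : ((UU b C η).card : ℂ) + (((UU b C η)ᶜ).card : ℂ) = (N : ℂ) := by
        exact_mod_cast congrArg (Nat.cast : ℕ → ℂ) h1
      rw [← h2]
      ring
    have h1 : z = -(x : ℂ) * (∑ j ∈ (UU b C η)ᶜ, (b j - ((1 / C : ℝ) : ℂ)))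
        + (x : ℂ) * (((UU b C η).card : ℂ) * ((1 / C : ℝ) : ℂ)) := by
      rw [hz, Finset.sum_sub_distrib, Finset.sum_const, nsmul_eq_mul, hcard,
        Finset.sum_neg_distrib, ← Finset.mul_sum]
      push_cast
      ring
    have h2 : ‖∑ j ∈ (UU b C η)ᶜ, (b j - ((1 / C : ℝ) : ℂ))‖ ≤ N * (1 / (η * C ^ 2)) := by
      refine (norm_sum_le _ _).trans ?_
      refine (Finset.sum_le_sum fun j hj => wes_norm_sub_le h hη hj).trans ?_
      rw [← Finset.sum_mul]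
      refine mul_le_mul_of_nonneg_right ?_ (by positivity)
      refine le_trans ?_ h.sum_le
      exact Finset.sum_le_sum_of_subset_of_nonneg (Finset.subset_univ _)
        fun _ _ _ => norm_nonneg _
    have h5 : (1 / C) ^ 2 ≤ (D / N) ^ 2 := pow_le_pow_left₀ h1C0 h1C 2
    have h6 : N * (1 / (η * C ^ 2)) = N * (1 / η) * (1 / C) ^ 2 := by
      field_simp
    have h7 : N * (1 / η) * (1 / C) ^ 2 ≤ N * (1 / η) * (D / N) ^ 2 :=
      mul_le_mul_of_nonneg_left h5 (by positivity)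
    have h8 : N * (1 / η) * (D / N) ^ 2 = D ^ 2 / η / N := by
      field_simp
    have h9 : ((UU b C η).card : ℝ) * (1 / C) ≤ 2 * D * (D / N) :=
      mul_le_mul hU h1C h1C0 (by positivity)
    have h10 : ‖z‖ ≤ x * (N * (1 / (η * C ^ 2))) + x * (((UU b C η).card : ℝ) * (1 / C)) := by
      rw [h1]
      refine (norm_add_le _ _).trans (add_le_add ?_ (le_of_eq ?_))
      · rw [norm_mul, norm_neg, Complex.norm_real, Real.norm_eq_abs, abs_of_nonneg hx0]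
        exact mul_le_mul_of_nonneg_left h2 hx0
      · rw [norm_mul, norm_mul, Complex.norm_real, Complex.norm_real, Complex.norm_natCast,
          Real.norm_eq_abs, Real.norm_eq_abs, abs_of_nonneg hx0, abs_of_nonneg h1C0]
    have h11 : x * (N * (1 / (η * C ^ 2))) ≤ X₀ * (D ^ 2 / η / N) := by
      refine mul_le_mul hx ?_ (by positivity) hX.le
      linarith
    have h12 : x * (((UU b C η).card : ℝ) * (1 / C)) ≤ X₀ * (2 * D * (D / N)) :=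
      mul_le_mul hx h9 (by positivity) hX.le
    have h13 : X₀ * (D ^ 2 / η / N) + X₀ * (2 * D * (D / N)) = B / N := by
      rw [hB]
      field_simp
    linarith
  -- the product
  obtain ⟨Q, hQ⟩ : ∃ Q : ℂ, Q = ∏ j ∈ (UU b C η)ᶜ,
      ((1 + -((x : ℂ) * b j)) * Complex.exp (-(-((x : ℂ) * b j)))) := ⟨_, rfl⟩
  have hQ1 : ‖Q - 1‖ ≤ 3 * P * Real.exp (P / 2) := by
    rw [hQ, hP]
    exact BV.norm_prod_mul_exp_sub_one_le (UU b C η)ᶜ fun j => -((x : ℂ) * b j)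
  have hprod : ∏ j ∈ (UU b C η)ᶜ, (1 - (x : ℂ) * b j) =
      Q * Complex.exp (∑ j ∈ (UU b C η)ᶜ, (-((x : ℂ) * b j))) := by
    rw [hQ, Complex.exp_sum, ← Finset.prod_mul_distrib]
    refine Finset.prod_congr rfl fun j _ => ?_
    rw [mul_assoc, ← Complex.exp_add, neg_add_cancel, Complex.exp_zero, mul_one]
    ring
  have hfac : (∏ j ∈ (UU b C η)ᶜ, (1 - (x : ℂ) * b j)) - Complex.exp (-(((N / C : ℝ) : ℂ) * x)) =
      Complex.exp (-(((N / C : ℝ) : ℂ) * x)) * ((Q - 1) * Complex.exp z + (Complex.exp z - 1)) := by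
    have h1 : Complex.exp (∑ j ∈ (UU b C η)ᶜ, (-((x : ℂ) * b j))) =
        Complex.exp (-(((N / C : ℝ) : ℂ) * x)) * Complex.exp z := by
      rw [← Complex.exp_add]
      congr 1
      rw [hz]
      ring
    rw [hprod, h1]
    ring
  have hT : ‖Complex.exp (-(((N / C : ℝ) : ℂ) * x))‖ ≤ 1 := by
    rw [Complex.norm_exp]
    have h1 : (-(((N / C : ℝ) : ℂ) * x)).re = -(N / C * x) := by
      rw [← Complex.ofReal_mul, Complex.neg_re, Complex.ofReal_re]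
    rw [h1, Real.exp_le_one_iff]
    have h2 : 0 ≤ N / C * x := by positivity
    linarith
  have hz2 : ‖z‖ ≤ 1 := hz1.trans (hBN.trans hs1)
  have he1 : ‖Complex.exp z‖ ≤ 3 := by
    rw [Complex.norm_exp]
    have h1 : z.re ≤ 1 := (Complex.re_le_norm z).trans hz2
    have h2 : Real.exp z.re ≤ Real.exp 1 := Real.exp_le_exp.2 h1
    have h3 := Real.exp_one_lt_d9
    linarith
  have he2 : ‖Complex.exp z - 1‖ ≤ 2 * ‖z‖ := Complex.norm_exp_sub_one_le hz2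
  have hQ2 : ‖Q - 1‖ ≤ 6 * P := by
    have h1 : P / 2 ≤ 1 / 2 := by
      have := hP1.trans (hAN.trans hs1)
      linarith
    have h2 : Real.exp (P / 2) ≤ 2 := by
      have h3 : Real.exp (P / 2) ≤ Real.exp (1 / 2) := Real.exp_le_exp.2 h1
      have h4 : Real.exp (1 / 2) * Real.exp (1 / 2) = Real.exp 1 := by
        rw [← Real.exp_add]
        norm_num
      have h5 := Real.exp_one_lt_d9
      have h6 : 0 < Real.exp (1 / 2) := Real.exp_pos _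
      nlinarith
    have h3 : 3 * P * Real.exp (P / 2) ≤ 3 * P * 2 :=
      mul_le_mul_of_nonneg_left h2 (by linarith)
    linarith
  have hfin : ‖(Q - 1) * Complex.exp z + (Complex.exp z - 1)‖ ≤ ε := by
    have h1 : ‖(Q - 1) * Complex.exp z‖ ≤ 6 * P * 3 := by
      rw [norm_mul]
      exact mul_le_mul hQ2 he1 (norm_nonneg _) (by linarith)
    have h2 := norm_add_le ((Q - 1) * Complex.exp z) (Complex.exp z - 1)
    have h3 : P ≤ ε / 36 := hP1.trans (hAN.trans hs2)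
    have h4 : ‖z‖ ≤ ε / 36 := hz1.trans (hBN.trans hs2)
    linarith
  rw [hfac, norm_mul]
  calc _ ≤ 1 * ε := mul_le_mul hT hfin (norm_nonneg _) zero_le_one
    _ = ε := one_mul ε

end Pool.MP_c113aa_an.B1
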