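import Pool.Agent.Lib.c113aaP.Wal
import Pool.Agent.Lib.c113aaP.Wes

set_option autoImplicit false

namespace Pool.MP_c113aa_an.B1

open Finset

private theorem u2w_cont {N : ℕ} (b : Fin N → ℂ) (s : Finset (Fin N)) (P : Polynomial ℂ) :
    Continuous fun x : ℝ => P.eval (x : ℂ) * ∏ j ∈ s, (1 - (x : ℂ) * b j) := by
  refine (P.continuous.comp Complex.continuous_ofReal).mul ?_
  fun_prop

/-- the functional `P ↦ ∫_0^Y P(x) W(x) dx` -/
private noncomputable def u2wLam {N : ℕ} (b : Fin N → ℂ) (s : Finset (Fin N)) (Y : ℝ) :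
    Polynomial ℂ →ₗ[ℂ] ℂ where
  toFun P := ∫ x in (0 : ℝ)..Y, P.eval (x : ℂ) * ∏ j ∈ s, (1 - (x : ℂ) * b j)
  map_add' P Q := by
    rw [← intervalIntegral.integral_add ((u2w_cont b s P).intervalIntegrable _ _)
      ((u2w_cont b s Q).intervalIntegrable _ _)]
    congr 1
    funext x
    rw [Polynomial.eval_add, add_mul]
  map_smul' r P := by
    rw [RingHom.id_apply, smul_eq_mul, ← intervalIntegral.integral_const_mul]
    congr 1
    funext x
    rw [Polynomial.eval_smul, smul_eq_mul, mul_assoc]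

/-- The Walsh theorem applied to the functional `Λ P = ∫_0^Y P(x) W(x) dx`,
`W(x) = ∏_{j ∉ U} (1 - x b_j)` (linear in `P`; continuous integrands): `Λ (∏_{j ∈ U} (1 - C (b j) X)) = II b Y`
because `gg b x` is the product over `U` times the product over the complement. -/
theorem Dat.exists_walsh {N : ℕ} {b : Fin N → ℂ} {C : ℝ} (h : Dat N b C) (η Y : ℝ) :
    ∃ t : ℂ, ‖t‖ ≤ 1 ∧ II b Y = ∫ x in (0 : ℝ)..Y,
      (1 - t * (x : ℂ)) ^ (UU b C η).card * ∏ j ∈ (UU b C η)ᶜ, (1 - (x : ℂ) * b j) := by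
  obtain ⟨t, ht, he⟩ := walsh (u2wLam b (UU b C η)ᶜ Y) (UU b C η) b zero_le_one
    (fun j _ => h.le_one j)
  refine ⟨t, ht, ?_⟩
  have h1 : u2wLam b (UU b C η)ᶜ Y (∏ j ∈ UU b C η, (1 - Polynomial.C (b j) * Polynomial.X))
      = II b Y := by
    show (∫ x in (0 : ℝ)..Y, (∏ j ∈ UU b C η, (1 - Polynomial.C (b j) * Polynomial.X)).eval (x : ℂ)
      * ∏ j ∈ (UU b C η)ᶜ, (1 - (x : ℂ) * b j)) = ∫ x in (0 : ℝ)..Y, gg b x
    congr 1
    funext x
    rw [Polynomial.eval_prod]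
    have h2 : ∀ j ∈ UU b C η, (1 - Polynomial.C (b j) * Polynomial.X : Polynomial ℂ).eval (x : ℂ)
        = 1 - (x : ℂ) * b j := by
      intro j _
      rw [Polynomial.eval_sub, Polynomial.eval_one, Polynomial.eval_mul, Polynomial.eval_C,
        Polynomial.eval_X, mul_comm]
    rw [Finset.prod_congr rfl h2]
    exact Finset.prod_mul_prod_compl (UU b C η) (fun j => 1 - (x : ℂ) * b j)
  rw [← h1, he]
  show (∫ x in (0 : ℝ)..Y, ((1 - Polynomial.C t * Polynomial.X) ^ (UU b C η).card :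
      Polynomial ℂ).eval (x : ℂ) * ∏ j ∈ (UU b C η)ᶜ, (1 - (x : ℂ) * b j)) = _
  congr 1
  funext x
  simp

end Pool.MP_c113aa_an.B1
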