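import Pool.Agent.Lib.c113aaP.U2t
import Pool.Agent.Lib.c113aaP.U2w
import Pool.Agent.Lib.c113aaP.Cpt
import Pool.Agent.Lib.c113aaP.Mom

set_option autoImplicit false

namespace Pool.MP_c113aa_an.B1

open Finset

/-- The tail of the exponential. -/
private theorem U2_exp_tail {a b : ℝ} :
    ∫ x in a..b, Real.exp (-(x / 8)) = 8 * Real.exp (-(a / 8)) - 8 * Real.exp (-(b / 8)) := by
  have h : ∀ x ∈ Set.uIcc a b, HasDerivAt (fun x : ℝ => -8 * Real.exp (-(x / 8)))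
      (Real.exp (-(x / 8))) x := by
    intro x _
    have h1 : HasDerivAt (fun x : ℝ => -(x / 8)) (-(1 / 8)) x :=
      ((hasDerivAt_id' x).div_const 8).neg
    exact ((h1.exp).const_mul (-8)).congr_deriv (by ring)
  rw [intervalIntegral.integral_eq_sub_of_hasDerivAt h
    (Continuous.intervalIntegrable (by fun_prop) _ _)]
  ring

/-- A bound for the integral over `[X, Y]`. -/
private theorem U2_norm_tail {X Y : ℝ} (hXY : X ≤ Y) {F : ℝ → ℂ}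
    (hF : ∀ x, X ≤ x → x ≤ Y → ‖F x‖ ≤ Real.exp (-(x / 8))) :
    ‖∫ x in X..Y, F x‖ ≤ 8 * Real.exp (-(X / 8)) := by
  have h1 : ‖∫ x in X..Y, F x‖ ≤ ∫ x in X..Y, Real.exp (-(x / 8)) := by
    refine intervalIntegral.norm_integral_le_of_norm_le hXY ?_
      (Continuous.intervalIntegrable (by fun_prop) _ _)
    exact Filter.Eventually.of_forall fun x hx => hF x hx.1.le hx.2
  rw [U2_exp_tail] at h1
  have h2 := Real.exp_pos (-(Y / 8))
  linarith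

/-- A bound for the integral over `[0, X]`. -/
private theorem U2_norm_head {X ε : ℝ} {m D' : ℕ} (hX : 0 ≤ X) (_hε : 0 ≤ ε) (hm : m ≤ D')
    {t : ℂ} (ht : ‖t‖ ≤ 1) {G : ℝ → ℂ} (hG : ∀ x, 0 ≤ x → x ≤ X → ‖G x‖ ≤ ε) :
    ‖∫ x in (0 : ℝ)..X, (1 - t * (x : ℂ)) ^ m * G x‖ ≤ (1 + X) ^ D' * ε * X := by
  have h1 : ∀ x ∈ Set.uIoc 0 X, ‖(1 - t * (x : ℂ)) ^ m * G x‖ ≤ (1 + X) ^ D' * ε := by
    intro x hx
    rw [Set.uIoc_of_le hX] at hx
    obtain ⟨hx0, hxX⟩ := hx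
    have h2 : ‖1 - t * (x : ℂ)‖ ≤ 1 + X := by
      calc ‖1 - t * (x : ℂ)‖ ≤ ‖(1 : ℂ)‖ + ‖t * (x : ℂ)‖ := norm_sub_le _ _
        _ = 1 + ‖t‖ * x := by
          rw [norm_one, norm_mul, Complex.norm_real, Real.norm_eq_abs, abs_of_pos hx0]
        _ ≤ 1 + 1 * X := by gcongr
        _ = 1 + X := by rw [one_mul]
    have h3 : ‖1 - t * (x : ℂ)‖ ^ m ≤ (1 + X) ^ D' :=
      (pow_le_pow_left₀ (norm_nonneg _) h2 m).trans (pow_le_pow_right₀ (by linarith) hm)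
    rw [norm_mul, norm_pow]
    exact mul_le_mul h3 (hG x hx0.le hxX) (norm_nonneg _) (by positivity)
  have h4 := intervalIntegral.norm_integral_le_of_norm_le_const h1
  rwa [sub_zero, abs_of_nonneg hX] at h4

/-- Bounded `d`.  Let `D' = ⌈2 D⌉₊`, `τ, η` from `exists_tau D'`; `X₀` from `exists_X D'` with
`ε = τ/(8 D)`, enlarged so that `8 exp(- X₀/8) ≤ τ/(8 D)`; `N₀` from `exists_N_W` with
`ε' = τ/(8 D X₀ (1+X₀)^{D'})`.  `λ₀ = N/C ≥ 2 N/(N+6) ≥ 19/10` for `N ≥ 114`, `λ₀ ≤ D`.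
`m = |U|`: `(1-η) C m ≤ N` (`card_UU_le`, `h.sum_le`), so `(1-η) m ≤ λ₀ ≤ D`, `m ≤ 2 D ≤ D'`.
`Y = C - lam ≥ X₀` for large `N` (`C ≥ N/D`).  By `exists_walsh`
`II b Y = ∫_0^Y (1 - t x)^m W(x) dx`; the part over `[X₀, Y]` is at most `∫_{X₀}^∞ exp(-x/8) ≤ τ/(8D)`
(`tail_le`), on `[0, X₀]` replacing `W` by `exp(-λ₀ x)` costs at most `X₀ (1+X₀)^m ε' ≤ τ/(8D)`, and
`exists_X` compares with `SS m (t/λ₀)/λ₀`, of norm `≥ τ/λ₀ ≥ τ/D`.  Total `≥ (5/8) τ/D ≥ 1/(6N)` for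
large `N`. -/
theorem small_d {D lam : ℝ} (hD : 2 ≤ D) (hlam : 0 < lam) (hlam1 : lam ≤ 1) :
    ∃ N₀ : ℕ, ∀ N : ℕ, N₀ ≤ N → ∀ (b : Fin N → ℂ) (C : ℝ), Dat N b C → (N : ℝ) ≤ D * C →
      C ≤ ((N : ℝ) + 6) / 2 → 1 / (6 * (N : ℝ)) ≤ ‖II b (C - lam)‖ := by
  obtain ⟨τ, η, hτ, hη, hη1, Hτ⟩ := exists_tau ⌈2 * D⌉₊
  set D' : ℕ := ⌈2 * D⌉₊ with hD'
  have hDD : 2 * D ≤ D' := Nat.le_ceil _
  have hD0 : 0 < D := by linarith
  obtain ⟨ε, hε⟩ : ∃ ε : ℝ, ε = τ / (8 * D) := ⟨_, rfl⟩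
  have hε0 : 0 < ε := by rw [hε]; positivity
  obtain ⟨X₁, hX₁, HX⟩ := exists_X D' hε0
  obtain ⟨X₀, hX₀⟩ : ∃ X₀ : ℝ, X₀ = max X₁ (-(8 * Real.log (ε / 8))) := ⟨_, rfl⟩
  have hX01 : X₁ ≤ X₀ := by rw [hX₀]; exact le_max_left _ _
  have hX02 : -(8 * Real.log (ε / 8)) ≤ X₀ := by rw [hX₀]; exact le_max_right _ _
  have hX03 : 3 ≤ X₀ := hX₁.trans hX01
  have hX0 : 0 < X₀ := by linarith
  have hexp : 8 * Real.exp (-(X₀ / 8)) ≤ ε := by
    have h1 : -(X₀ / 8) ≤ Real.log (ε / 8) := by linarith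
    have h2 := Real.exp_le_exp.2 h1
    rw [Real.exp_log (by positivity)] at h2
    linarith
  obtain ⟨ε', hε'⟩ : ∃ ε' : ℝ, ε' = ε / ((1 + X₀) ^ D' * X₀) := ⟨_, rfl⟩
  have hpos : 0 < (1 + X₀) ^ D' * X₀ := by positivity
  have hε'0 : 0 < ε' := by rw [hε']; positivity
  obtain ⟨N₁, HN⟩ := exists_N_W hD0 hX0 hη hη1 hε'0
  refine ⟨max N₁ (max 114 (max ⌈D * (X₀ + 1)⌉₊ (max ⌈10 * D⌉₊ ⌈D / τ⌉₊))), ?_⟩
  intro N hN b C h hNC hCN
  have g1 : N₁ ≤ N := (le_max_left _ _).trans hN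
  have hN2 := (le_max_right N₁ _).trans hN
  have g2 : 114 ≤ N := (le_max_left _ _).trans hN2
  have hN3 := (le_max_right 114 _).trans hN2
  have g3 : ⌈D * (X₀ + 1)⌉₊ ≤ N := (le_max_left _ _).trans hN3
  have hN4 := (le_max_right ⌈D * (X₀ + 1)⌉₊ _).trans hN3
  have g4 : ⌈10 * D⌉₊ ≤ N := (le_max_left _ _).trans hN4
  have g5 : ⌈D / τ⌉₊ ≤ N := (le_max_right _ _).trans hN4
  have k2 : (114 : ℝ) ≤ N := by exact_mod_cast g2
  have k3 : D * (X₀ + 1) ≤ N := (Nat.le_ceil _).trans (by exact_mod_cast g3)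
  have k4 : 10 * D ≤ N := (Nat.le_ceil _).trans (by exact_mod_cast g4)
  have k5 : D / τ ≤ N := (Nat.le_ceil _).trans (by exact_mod_cast g5)
  have hC0 := h.C_pos
  have hCX : X₀ + 1 ≤ C := by
    have : D * (X₀ + 1) ≤ D * C := k3.trans hNC
    exact le_of_mul_le_mul_left this hD0
  have hC10 : 10 ≤ C := by
    have : D * 10 ≤ D * C := by linarith
    exact le_of_mul_le_mul_left this hD0
  have hN19 : 19 / 10 * C ≤ N := by linarith
  have hN0 : (0 : ℝ) < N := by linarith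
  obtain ⟨L, hL⟩ : ∃ L : ℝ, L = N / C := ⟨_, rfl⟩
  have hL19 : 19 / 10 ≤ L := by rw [hL, le_div_iff₀ hC0]; exact hN19
  have hLD : L ≤ D := by rw [hL, div_le_iff₀ hC0]; exact hNC
  have hL0 : 0 < L := by linarith
  set m := (UU b C η).card with hm
  have hsum : (1 - η) * C * m ≤ N := by
    refine h.card_UU_le.trans (le_trans ?_ h.sum_le)
    exact sum_le_sum_of_subset_of_nonneg (subset_univ _) fun _ _ _ => norm_nonneg _
  have hmL : (1 - η) * m ≤ L := by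
    rw [hL, le_div_iff₀ hC0]
    calc (1 - η) * m * C = (1 - η) * C * m := by ring
      _ ≤ N := hsum
  have hmD : m ≤ D' := by
    have h1 : 9 / 10 * (m : ℝ) ≤ (1 - η) * m :=
      mul_le_mul_of_nonneg_right (by linarith) (Nat.cast_nonneg m)
    have h2 : (m : ℝ) ≤ D' := by linarith
    exact_mod_cast h2
  obtain ⟨t, ht, hII⟩ := h.exists_walsh η (C - lam)
  rw [← hm] at hII
  obtain ⟨W, hW⟩ : ∃ W : ℝ → ℂ, W = fun x : ℝ => ∏ j ∈ (UU b C η)ᶜ, (1 - (x : ℂ) * b j) :=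
    ⟨_, rfl⟩
  have hWc : Continuous W := by rw [hW]; fun_prop
  have hWx : ∀ x : ℝ, W x = ∏ j ∈ (UU b C η)ᶜ, (1 - (x : ℂ) * b j) := fun x => by rw [hW]
  have hII' : II b (C - lam) = ∫ x in (0 : ℝ)..(C - lam), (1 - t * (x : ℂ)) ^ m * W x := by
    rw [hII, hW]
  have hFc : Continuous fun x : ℝ => (1 - t * (x : ℂ)) ^ m * W x := by fun_prop
  have hEc : Continuous fun x : ℝ => (1 - t * (x : ℂ)) ^ m * Complex.exp (-((L : ℂ) * x)) := by
    fun_prop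
  have hXY : X₀ ≤ C - lam := by linarith
  -- the three pieces
  have p1 : ‖∫ x in X₀..(C - lam), (1 - t * (x : ℂ)) ^ m * W x‖ ≤ ε := by
    refine (U2_norm_tail hXY fun x hx1 hx2 => ?_).trans hexp
    rw [hWx, hm]
    exact h.tail_le hη1 hC10 hN19 (by linarith) (by linarith) t ht
  have p2 : ‖∫ x in (0 : ℝ)..X₀, (1 - t * (x : ℂ)) ^ m * (W x - Complex.exp (-((L : ℂ) * x)))‖
      ≤ ε := by
    refine (U2_norm_head (D' := D') hX0.le hε'0.le hmD ht fun x hx1 hx2 => ?_).trans ?_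
    · have := HN N g1 b C h hNC x hx1 hx2
      rw [hWx, hL]
      exact this
    · rw [hε']
      refine le_of_eq ?_
      field_simp
  have p3 := HX X₀ hX01 m hmD L hL19 t ht
  have p4 : τ ≤ ‖SS m (t / L)‖ := Hτ m hmD L hL19 hmL t ht
  have p5 : τ / D ≤ ‖SS m (t / L) / L‖ := by
    rw [norm_div, Complex.norm_real, Real.norm_eq_abs, abs_of_pos hL0]
    exact div_le_div₀ (norm_nonneg _) p4 hL0 hLD
  have e1 : II b (C - lam) = (∫ x in X₀..(C - lam), (1 - t * (x : ℂ)) ^ m * W x) +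
      (∫ x in (0 : ℝ)..X₀, (1 - t * (x : ℂ)) ^ m * (W x - Complex.exp (-((L : ℂ) * x)))) +
      ((∫ x in (0 : ℝ)..X₀, (1 - t * (x : ℂ)) ^ m * Complex.exp (-((L : ℂ) * x)))
        - SS m (t / L) / L) + SS m (t / L) / L := by
    have e2 : (∫ x in (0 : ℝ)..X₀, (1 - t * (x : ℂ)) ^ m *
        (W x - Complex.exp (-((L : ℂ) * x)))) =
        (∫ x in (0 : ℝ)..X₀, (1 - t * (x : ℂ)) ^ m * W x) -
        ∫ x in (0 : ℝ)..X₀, (1 - t * (x : ℂ)) ^ m * Complex.exp (-((L : ℂ) * x)) := by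
      rw [← intervalIntegral.integral_sub (hFc.intervalIntegrable _ _)
        (hEc.intervalIntegrable _ _)]
      refine intervalIntegral.integral_congr fun x _ => ?_
      show _ = _
      ring
    rw [hII', e2, ← intervalIntegral.integral_add_adjacent_intervals
      (hFc.intervalIntegrable 0 X₀) (hFc.intervalIntegrable X₀ (C - lam))]
    ring
  have e3 : ‖SS m (t / L) / L‖ ≤ ‖II b (C - lam)‖ + ε + ε + ε := by
    have e4 : SS m (t / L) / L = II b (C - lam) -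
        (∫ x in X₀..(C - lam), (1 - t * (x : ℂ)) ^ m * W x) -
        (∫ x in (0 : ℝ)..X₀, (1 - t * (x : ℂ)) ^ m * (W x - Complex.exp (-((L : ℂ) * x)))) -
        ((∫ x in (0 : ℝ)..X₀, (1 - t * (x : ℂ)) ^ m * Complex.exp (-((L : ℂ) * x)))
          - SS m (t / L) / L) := by
      rw [e1]
      ring
    rw [e4]
    refine (norm_sub_le _ _).trans (add_le_add ((norm_sub_le _ _).trans
      (add_le_add ((norm_sub_le _ _).trans (add_le_add le_rfl p1)) p2)) ?_)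
    exact p3
  have e5 : 1 / (6 * (N : ℝ)) ≤ τ / D - 3 * ε := by
    have h1 : τ / D - 3 * ε = 5 / 8 * (τ / D) := by
      rw [hε]
      field_simp
      ring
    have h2 : 1 / (N : ℝ) ≤ τ / D := by
      rw [div_le_div_iff₀ hN0 hD0]
      rw [div_le_iff₀ hτ] at k5
      linarith
    rw [h1]
    have h3 : 1 / (6 * (N : ℝ)) = 1 / 6 * (1 / N) := by
      field_simp
    rw [h3]
    have h4 : 0 < τ / D := by positivity
    linarith
  linarith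

end Pool.MP_c113aa_an.B1
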