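import Pool.Agent.Lib.c113aaP.An11
import Pool.Agent.Lib.c113aaP.U2

set_option autoImplicit false

namespace Pool.MP_c113aa_an.B1

open Finset

/-- `large_d` if `N/(C+1) ≥ d₀`; otherwise `N < d₀ (C+1)`, so `N ≤ 2 d₀ C` for `N ≥ 2 d₀`, and `small_d` with
`D = max 2 (2 d₀)`. -/
theorem II_lower {κ lam : ℝ} (hlam : 0 < lam) (hκ : lam < κ) (hlam1 : lam ≤ 1) :
    ∃ N₀ : ℕ, ∀ N : ℕ, N₀ ≤ N → ∀ (b : Fin N → ℂ) (C : ℝ), Dat N b C → κ ≤ C →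
      C ≤ ((N : ℝ) + 6) / 2 → 1 / (6 * (N : ℝ)) ≤ ‖II b (C - lam)‖ := by
  obtain ⟨d₀, hd₀, hL⟩ := large_d hlam hκ
  obtain ⟨N₁, hS⟩ := small_d (D := max 2 (2 * d₀)) (le_max_left _ _) hlam hlam1
  refine ⟨max N₁ ⌈2 * d₀⌉₊, fun N hN b C h hκC hC => ?_⟩
  rcases le_or_gt d₀ (N / (C + 1)) with hd | hd
  · exact hL N b C h hκC hd
  · have hC0 := h.C_pos
    have h1 : (N : ℝ) < d₀ * (C + 1) := by
      rwa [div_lt_iff₀ (by linarith)] at hd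
    have h2 : 2 * d₀ ≤ N :=
      (Nat.le_ceil _).trans (by exact_mod_cast (le_max_right _ _).trans hN)
    have h3 : (N : ℝ) ≤ 2 * d₀ * C := by nlinarith
    have h4 : 2 * d₀ * C ≤ max 2 (2 * d₀) * C :=
      mul_le_mul_of_nonneg_right (le_max_right _ _) hC0.le
    exact hS N ((le_max_left _ _).trans hN) b C h (h3.trans h4) hC

end Pool.MP_c113aa_an.B1
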