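import Pool.Agent.Lib.c113aaP.Cp3
import Pool.Agent.Lib.c113aaP.Uall
import Pool.Agent.Lib.c113aaP.Lk

set_option autoImplicit false

namespace Pool.MP_c113aa_an.B1

open Finset

/-- `3 ≤ ‖c‖ ≤ (N+6)/2` is impossible for large `N`.  `II_lower` with `κ = 3`, `lam = 1/10` for `h.dat`,
`y = ‖c‖ - 1/10`, `h.prod_dist`: `(‖c‖ + lam) ∏ (‖z_k - c‖ + lam) ≥ y ∏ ‖z_k - y ĉ‖ ≥ (1/6) ∏ ‖w_j‖`
(`‖z_k - y ĉ‖ ≤ ‖z_k - c‖ + lam` because `c = ‖c‖ ĉ`).  AM-GM (`∑ t ≤ N+1`, e.g.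
`(t+lam)/(1+lam) ≤ exp((t+lam)/(1+lam) - 1)`): the left side is at most `(1+lam)^(N+1) = 1.1^(N+1)`.
`‖w_j‖ (1 + x_j) ≥ ‖w_j‖ + x_j ≥ ‖c‖ ≥ 3` (`‖w_j‖ ≥ 1`, `x_j = ‖w_j - c‖`) and
`∏ (1 + x_j) ≤ 2^N` (`BV.prod_le_pow`, `h.sum_x_le`), so `∏ ‖w_j‖ ≥ (3/2)^N`.  `1.1^(N+1) ≥ (1/6) 1.5^N` is
false for large `N`. -/
theorem mid : ∃ N₀ : ℕ, ∀ N : ℕ, N₀ ≤ N → ∀ (z w : Fin N → ℂ) (c : ℂ), Cf N z w c →
    3 ≤ ‖c‖ → ‖c‖ ≤ ((N : ℝ) + 6) / 2 → False := by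
  obtain ⟨N₀, hII⟩ := II_lower (κ := 3) (lam := 1 / 10) (by norm_num) (by norm_num) (by norm_num)
  refine ⟨max N₀ 7, fun N hN z w c h h3 hC => ?_⟩
  have hN0 : N₀ ≤ N := (le_max_left _ _).trans hN
  have hN7 : 7 ≤ N := (le_max_right _ _).trans hN
  have hNr : (7 : ℝ) ≤ N := by exact_mod_cast hN7
  have hcpos : 0 < ‖c‖ := by linarith
  have hc : c ≠ 0 := norm_pos_iff.1 hcpos
  have hlow := hII N hN0 _ ‖c‖ (h.dat hc) h3 hC
  have hy : 0 ≤ ‖c‖ - 1 / 10 := by linarith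
  have hpd := h.prod_dist hc hy
  obtain ⟨P, hP⟩ : ∃ P : ℝ, P = ∏ j, ‖w j‖ := ⟨_, rfl⟩
  have hP0 : 0 ≤ P := by
    rw [hP]
    exact Finset.prod_nonneg fun j _ => norm_nonneg _
  rw [← hP] at hpd
  -- lower bound for the product of the `w j`
  have hw : (3 / 2 : ℝ) ^ N ≤ P := by
    have e1 : (3 : ℝ) ^ N ≤ P * ∏ j, (1 + ‖w j - c‖) := by
      rw [hP, ← Finset.prod_mul_distrib]
      calc (3 : ℝ) ^ N = ∏ _j : Fin N, (3 : ℝ) := by simp
        _ ≤ ∏ j, ‖w j‖ * (1 + ‖w j - c‖) := by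
          refine Finset.prod_le_prod (fun _ _ => by norm_num) fun j _ => ?_
          have e2 := h.one_le j
          have e3 : ‖c‖ ≤ ‖w j‖ + ‖w j - c‖ := by
            have e4 := norm_sub_le (w j) (w j - c)
            rwa [sub_sub_cancel] at e4
          have e5 := norm_nonneg (w j - c)
          nlinarith
    have e2 : ∏ j, (1 + ‖w j - c‖) ≤ 2 ^ N := by
      refine BV.prod_le_pow _ (fun j => by positivity) ?_
      rw [Finset.sum_add_distrib]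
      simp only [Finset.sum_const, Finset.card_univ, Fintype.card_fin, nsmul_eq_mul, mul_one]
      have := h.sum_x_le
      linarith
    have e3 : (3 : ℝ) ^ N ≤ P * 2 ^ N := e1.trans (mul_le_mul_of_nonneg_left e2 hP0)
    rw [div_pow, div_le_iff₀ (by positivity)]
    exact e3
  -- upper bound for the left side
  have hup : (‖c‖ - 1 / 10) * ∏ k, ‖z k - ((‖c‖ - 1 / 10 : ℝ) : ℂ) * (c / (‖c‖ : ℂ))‖ ≤
      (11 / 10 : ℝ) ^ (N + 1) := by
    have e1 : ∀ k, ‖z k - ((‖c‖ - 1 / 10 : ℝ) : ℂ) * (c / (‖c‖ : ℂ))‖ ≤ ‖z k - c‖ + 1 / 10 := by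
      intro k
      have hn : (‖c‖ : ℂ) ≠ 0 := by exact_mod_cast hcpos.ne'
      have e2 : z k - ((‖c‖ - 1 / 10 : ℝ) : ℂ) * (c / (‖c‖ : ℂ)) =
          (z k - c) + ((1 / 10 : ℝ) : ℂ) * (c / (‖c‖ : ℂ)) := by
        push_cast
        field_simp
        ring
      rw [e2]
      refine (norm_add_le _ _).trans (le_of_eq ?_)
      rw [norm_mul, lk_unit hc, Complex.norm_real, Real.norm_of_nonneg (by norm_num), mul_one]
    have e3 : (‖c‖ - 1 / 10) * ∏ k, ‖z k - ((‖c‖ - 1 / 10 : ℝ) : ℂ) * (c / (‖c‖ : ℂ))‖ ≤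
        (‖c‖ + 1 / 10) * ∏ k, (‖z k - c‖ + 1 / 10) := by
      refine mul_le_mul (by linarith) ?_ (Finset.prod_nonneg fun k _ => norm_nonneg _)
        (by linarith)
      exact Finset.prod_le_prod (fun k _ => norm_nonneg _) fun k _ => e1 k
    refine e3.trans ?_
    have e4 := BV.prod_le_pow (N := N + 1) (Fin.cons (‖c‖ + 1 / 10) fun k => ‖z k - c‖ + 1 / 10)
      (fun j => by
        refine Fin.cases ?_ (fun k => ?_) j
        · rw [Fin.cons_zero]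
          positivity
        · rw [Fin.cons_succ]
          positivity) (m := 11 / 10) (by
        rw [Fin.sum_univ_succ]
        simp only [Fin.cons_zero, Fin.cons_succ]
        rw [Finset.sum_add_distrib]
        simp only [Finset.sum_const, Finset.card_univ, Fintype.card_fin, nsmul_eq_mul]
        have := h.sum_le
        push_cast
        linarith)
    rw [Fin.prod_univ_succ] at e4
    simp only [Fin.cons_zero, Fin.cons_succ] at e4
    exact e4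
  rw [hpd] at hup
  have hmain : 1 / 6 * (3 / 2 : ℝ) ^ N ≤ (11 / 10 : ℝ) ^ (N + 1) := by
    refine le_trans ?_ hup
    have e1 : 1 / 6 ≤ ((N : ℝ) + 1) *
        ‖II (fun j => (c / (‖c‖ : ℂ)) * (w j)⁻¹) (‖c‖ - 1 / 10)‖ := by
      have e2 : ((N : ℝ) + 1) * (1 / (6 * (N : ℝ))) ≤ ((N : ℝ) + 1) *
        ‖II (fun j => (c / (‖c‖ : ℂ)) * (w j)⁻¹) (‖c‖ - 1 / 10)‖ :=
        mul_le_mul_of_nonneg_left hlow (by positivity)
      refine le_trans ?_ e2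
      rw [mul_one_div, div_le_div_iff₀ (by norm_num) (by positivity)]
      linarith
    exact mul_le_mul e1 hw (by positivity) (by positivity)
  have e1 : (15 / 11 : ℝ) ^ 7 ≤ (15 / 11 : ℝ) ^ N := pow_le_pow_right₀ (by norm_num) hN7
  have e2 : (3 / 2 : ℝ) ^ N = (11 / 10) ^ N * (15 / 11) ^ N := by
    rw [← mul_pow]
    norm_num
  have e3 : 0 < (11 / 10 : ℝ) ^ N := by positivity
  rw [e2, pow_succ] at hmain
  have e4 : (15 / 11 : ℝ) ^ 7 > 33 / 5 := by norm_num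
  have e5 : (11 / 10 : ℝ) ^ N * (33 / 5) < (11 / 10) ^ N * (15 / 11) ^ N :=
    mul_lt_mul_of_pos_left (lt_of_lt_of_le e4 e1) e3
  nlinarith

end Pool.MP_c113aa_an.B1
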