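import Mathlib

set_option autoImplicit false

namespace Pool.MP_c113aa_an.B1

open Finset

/-- A minimiser exists: the function is continuous and tends to infinity (compare
`BV.exists_minimizer` in `MP_c113aa_an/S3O3.lean`). -/
theorem exists_minimizer_one {m : ℕ} (Z : Fin (m + 1) → ℂ) :
    ∃ c : ℂ, ∀ c' : ℂ, ∑ k, ‖Z k - c‖ ≤ ∑ k, ‖Z k - c'‖ := by
  have hcont : Continuous fun c : ℂ => ∑ k, ‖Z k - c‖ := by fun_prop
  refine hcont.exists_forall_le ?_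
  have h1 : Filter.Tendsto (fun c : ℂ => ‖c‖ - ‖Z 0‖) (Filter.cocompact ℂ) Filter.atTop :=
    Filter.tendsto_atTop_add_const_right _ (-‖Z 0‖) tendsto_norm_cocompact_atTop
  refine Filter.tendsto_atTop_mono (fun c => ?_) h1
  have h2 : ‖Z 0 - c‖ ≤ ∑ k, ‖Z k - c‖ :=
    Finset.single_le_sum (f := fun k => ‖Z k - c‖) (fun k _ => norm_nonneg _) (Finset.mem_univ 0)
  refine le_trans ?_ h2
  have h3 := norm_sub_norm_le c (Z 0)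
  rwa [norm_sub_rev] at h3

private theorem Mini_norm_sub_le (y h : ℂ) (hy : y ≠ 0) :
    ‖y - h‖ ≤ ‖y‖ - ‖y‖⁻¹ * inner ℝ y h + ‖h‖ ^ 2 / (2 * ‖y‖) := by
  have hN : 0 < ‖y‖ := norm_pos_iff.mpr hy
  have hr : inner ℝ y h ≤ ‖y‖ * ‖h‖ := real_inner_le_norm y h
  set N := ‖y‖ with hNdef
  set r : ℝ := inner ℝ y h with hrdef
  have hr' : N⁻¹ * r ≤ ‖h‖ := by
    rw [inv_mul_le_iff₀ hN]
    exact hr
  have hpos : 0 ≤ N - N⁻¹ * r + ‖h‖ ^ 2 / (2 * N) := by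
    have h1 : 0 ≤ N - ‖h‖ + ‖h‖ ^ 2 / (2 * N) := by
      have h2 : N - ‖h‖ + ‖h‖ ^ 2 / (2 * N) = ((N - ‖h‖) ^ 2 + N ^ 2) / (2 * N) := by
        field_simp
        ring
      rw [h2]
      positivity
    linarith
  have hsq : ‖y - h‖ ^ 2 ≤ (N - N⁻¹ * r + ‖h‖ ^ 2 / (2 * N)) ^ 2 := by
    rw [norm_sub_sq_real, ← hNdef, ← hrdef]
    have h3 : (N - N⁻¹ * r + ‖h‖ ^ 2 / (2 * N)) ^ 2 =
        N ^ 2 - 2 * r + ‖h‖ ^ 2 + (-(N⁻¹ * r) + ‖h‖ ^ 2 / (2 * N)) ^ 2 := by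
      field_simp
      ring
    rw [h3]
    nlinarith [sq_nonneg (-(N⁻¹ * r) + ‖h‖ ^ 2 / (2 * N))]
  exact (pow_le_pow_iff_left₀ (norm_nonneg _) hpos two_ne_zero).mp hsq

private theorem Mini_term (y S : ℂ) (t : ℝ) (ht : 0 ≤ t) :
    ‖y - t • S‖ - ‖y‖ ≤ -(t * inner ℝ (‖y‖⁻¹ • y) S) + t ^ 2 * (‖S‖ ^ 2 / (2 * ‖y‖)) +
      (if y = 0 then (1 : ℝ) else 0) * (t * ‖S‖) := by
  by_cases hy : y = 0
  · subst hy
    simp [abs_of_nonneg ht]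
  · rw [if_neg hy, zero_mul, add_zero]
    have h1 := Mini_norm_sub_le y (t • S) hy
    rw [real_inner_smul_right, norm_smul, Real.norm_eq_abs, abs_of_nonneg ht] at h1
    rw [real_inner_smul_left]
    have h2 : (t * ‖S‖) ^ 2 / (2 * ‖y‖) = t ^ 2 * (‖S‖ ^ 2 / (2 * ‖y‖)) := by ring
    rw [h2] at h1
    linarith

/-- First order condition with kinks.  Let `y_k = Z k - c`, `S = ∑_{y_k ≠ 0} y_k/‖y_k‖`, `m₀` the number of `k`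
with `y_k = 0`.  For `y ≠ 0`: `‖y - h‖ ≤ ‖y‖ - Re(conj(y) h)/‖y‖ + ‖h‖^2/(2‖y‖)` (square root is concave), so
for `h = t S`, `t > 0`: `0 ≤ ∑ (‖y_k - h‖ - ‖y_k‖) ≤ - t ‖S‖^2 + t^2 A + m₀ t ‖S‖`; let `t → 0`: `‖S‖ ≤ m₀`.
Then `∑ y_k = ∑_{y_k ≠ 0} y_k (1 - 1/‖y_k‖) + S`, so `‖∑ y_k‖ ≤ ∑_{y_k ≠ 0} |‖y_k‖ - 1| + m₀ = ∑ |‖y_k‖ - 1|`. -/
theorem foc_one {m : ℕ} (Z : Fin (m + 1) → ℂ) (c : ℂ)
    (hc : ∀ c' : ℂ, ∑ k, ‖Z k - c‖ ≤ ∑ k, ‖Z k - c'‖) :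
    ‖∑ k, (Z k - c)‖ ≤ ∑ k, |‖Z k - c‖ - 1| := by
  classical
  set y : Fin (m + 1) → ℂ := fun k => Z k - c with hy
  set S : ℂ := ∑ k, ‖y k‖⁻¹ • y k with hS
  set m₀ : ℝ := ∑ k, (if y k = 0 then (1 : ℝ) else 0) with hm₀
  set A : ℝ := ∑ k, ‖S‖ ^ 2 / (2 * ‖y k‖) with hA
  have hm₀' : 0 ≤ m₀ := Finset.sum_nonneg fun k _ => by split_ifs <;> norm_num
  have hA' : 0 ≤ A := Finset.sum_nonneg fun k _ => by positivity
  have key : ∀ t : ℝ, 0 < t → ‖S‖ ^ 2 ≤ t * A + m₀ * ‖S‖ := by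
    intro t ht
    have h1 := hc (c + t • S)
    have h2 : ∀ k, Z k - (c + t • S) = y k - t • S := fun k => by rw [hy]; ring
    simp only [h2] at h1
    have h3 : ∑ k, (‖y k - t • S‖ - ‖y k‖) ≤ ∑ k, (-(t * inner ℝ (‖y k‖⁻¹ • y k) S) +
        t ^ 2 * (‖S‖ ^ 2 / (2 * ‖y k‖)) + (if y k = 0 then (1 : ℝ) else 0) * (t * ‖S‖)) :=
      Finset.sum_le_sum fun k _ => Mini_term (y k) S t ht.le
    rw [Finset.sum_sub_distrib, Finset.sum_add_distrib, Finset.sum_add_distrib,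
      Finset.sum_neg_distrib, ← Finset.mul_sum, ← Finset.mul_sum, ← Finset.sum_mul,
      ← sum_inner, ← hS, real_inner_self_eq_norm_sq, ← hA, ← hm₀] at h3
    have h4 : 0 ≤ ∑ k, ‖y k - t • S‖ - ∑ k, ‖y k‖ := sub_nonneg.mpr h1
    have h5 : t * ‖S‖ ^ 2 ≤ t * (t * A + m₀ * ‖S‖) := by nlinarith
    exact le_of_mul_le_mul_left h5 ht
  have hle : ‖S‖ ^ 2 ≤ m₀ * ‖S‖ := by
    have hlim : Filter.Tendsto (fun t : ℝ => t * A + m₀ * ‖S‖) (nhdsWithin 0 (Set.Ioi 0))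
        (nhds (m₀ * ‖S‖)) := by
      refine tendsto_nhdsWithin_of_tendsto_nhds ?_
      refine Continuous.tendsto' (by fun_prop) _ _ (by simp)
    refine ge_of_tendsto hlim ?_
    filter_upwards [self_mem_nhdsWithin] with t ht
    exact key t ht
  have hSm : ‖S‖ ≤ m₀ := by
    rcases (norm_nonneg S).eq_or_lt with h0 | h0
    · rw [← h0]; exact hm₀'
    · have : ‖S‖ * ‖S‖ ≤ m₀ * ‖S‖ := by rw [← sq]; exact hle
      exact le_of_mul_le_mul_right this h0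
  have hsum : ∑ k, y k = ∑ k, (y k - ‖y k‖⁻¹ • y k) + S := by
    rw [hS, ← Finset.sum_add_distrib]
    exact Finset.sum_congr rfl fun k _ => (sub_add_cancel _ _).symm
  have hterm : ∀ k, ‖y k - ‖y k‖⁻¹ • y k‖ + (if y k = 0 then (1 : ℝ) else 0) = |‖y k‖ - 1| := by
    intro k
    by_cases h : y k = 0
    · rw [if_pos h, h]; simp
    · rw [if_neg h, add_zero]
      have hN : 0 < ‖y k‖ := norm_pos_iff.mpr h
      have h1 : y k - ‖y k‖⁻¹ • y k = (1 - ‖y k‖⁻¹) • y k := by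
        rw [sub_smul, one_smul]
      rw [h1, norm_smul, Real.norm_eq_abs]
      have h2 : |1 - ‖y k‖⁻¹| * ‖y k‖ = |(1 - ‖y k‖⁻¹) * ‖y k‖| := by
        rw [abs_mul, abs_of_pos hN]
      rw [h2]
      congr 1
      field_simp
  calc ‖∑ k, y k‖ = ‖∑ k, (y k - ‖y k‖⁻¹ • y k) + S‖ := by rw [← hsum]
    _ ≤ ‖∑ k, (y k - ‖y k‖⁻¹ • y k)‖ + ‖S‖ := norm_add_le _ _
    _ ≤ ∑ k, ‖y k - ‖y k‖⁻¹ • y k‖ + m₀ := add_le_add (norm_sum_le _ _) hSm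
    _ = ∑ k, |‖y k‖ - 1| := by
      rw [hm₀, ← Finset.sum_add_distrib]
      exact Finset.sum_congr rfl fun k _ => hterm k

end Pool.MP_c113aa_an.B1
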