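import Pool.Agent.Lib.c113aaP.Cp8
import Pool.Agent.Lib.c113aaP.Uall
import Pool.Agent.Lib.c113aaP.Lk

set_option autoImplicit false

namespace Pool.MP_c113aa_an.B1

open Finset

/-- Cauchy-Schwarz. -/
private theorem nearB_cs {ι : Type*} [Fintype ι] (T : ι → ℝ) (hT : ∀ i, 0 < T i) {n lam : ℝ}
    (hlam : 0 < lam) (hlam1 : lam ≤ 1) (hn : (Fintype.card ι : ℝ) = n) (hn2 : 2 ≤ n * lam)
    (hs : ∑ i, T i ≤ n * (1 + lam)) (hl : -2 ≤ ∑ i, Real.log (T i)) :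
    ∑ i, |T i - 1| ≤ n * Real.sqrt (12 * lam) := by
  have hn0 : 0 < n := by
    by_contra hlt
    have : n * lam ≤ 0 := mul_nonpos_of_nonpos_of_nonneg (not_lt.1 hlt) hlam.le
    linarith
  have hcard : ∑ _i : ι, (1 : ℝ) = n := by
    rw [Finset.sum_const, Finset.card_univ, nsmul_eq_mul, mul_one, hn]
  have h1 : ∑ i, (Real.sqrt (T i) - 1) ^ 2 ≤ 2 * n * lam := by
    calc ∑ i, (Real.sqrt (T i) - 1) ^ 2 ≤ ∑ i, (T i - 1 - Real.log (T i)) :=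
          Finset.sum_le_sum fun i _ => BV.sqrt_sub_sq_le (hT i)
      _ = ∑ i, T i - n - ∑ i, Real.log (T i) := by
          rw [Finset.sum_sub_distrib, Finset.sum_sub_distrib, hcard]
      _ ≤ 2 * n * lam := by nlinarith
  have h2 : ∑ i, (Real.sqrt (T i) + 1) ^ 2 ≤ 6 * n := by
    calc ∑ i, (Real.sqrt (T i) + 1) ^ 2 ≤ ∑ i, (2 * T i + 2 * 1) := by
          refine Finset.sum_le_sum fun i _ => ?_
          have h3 := Real.sq_sqrt (hT i).le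
          nlinarith [sq_nonneg (Real.sqrt (T i) - 1)]
      _ = 2 * ∑ i, T i + 2 * n := by
          rw [Finset.sum_add_distrib, ← Finset.mul_sum, ← Finset.mul_sum, hcard]
      _ ≤ 6 * n := by nlinarith
  have h3 : ∑ i, |T i - 1| = ∑ i, |Real.sqrt (T i) - 1| * (Real.sqrt (T i) + 1) := by
    refine Finset.sum_congr rfl fun i _ => ?_
    have h4 := Real.sq_sqrt (hT i).le
    have h5 : 0 ≤ Real.sqrt (T i) + 1 := by positivity
    have h6 : T i - 1 = (Real.sqrt (T i) - 1) * (Real.sqrt (T i) + 1) := by nlinarith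
    calc |T i - 1| = |(Real.sqrt (T i) - 1) * (Real.sqrt (T i) + 1)| := congrArg _ h6
      _ = |Real.sqrt (T i) - 1| * |Real.sqrt (T i) + 1| := abs_mul _ _
      _ = _ := by rw [abs_of_nonneg h5]
  have h4 : (∑ i, |T i - 1|) ^ 2 ≤ 2 * n * lam * (6 * n) := by
    rw [h3]
    refine (Finset.sum_mul_sq_le_sq_mul_sq _ _ _).trans ?_
    refine mul_le_mul ?_ h2 (Finset.sum_nonneg fun i _ => sq_nonneg _) (by positivity)
    refine le_trans (le_of_eq (Finset.sum_congr rfl fun i _ => ?_)) h1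
    exact sq_abs _
  have h5 : 0 ≤ n * Real.sqrt (12 * lam) := by positivity
  refine abs_le_of_sq_le_sq' ?_ h5 |>.2
  rw [mul_pow, Real.sq_sqrt (by positivity)]
  linarith [h4]

/-- `κ ≤ ‖c‖ ≤ 3` and mean of `‖1 - c/w_j‖` greater than `1 - δ` is impossible.  `t` runs over the `N+1`
distances `‖c‖, ‖z_k - c‖`, `x_j = ‖w_j - c‖`.  Choose `ε = min (1/16) (κ^2/28)`, `lam ≤ min (κ/2) 1` so small
that `ε₁ := √(12 lam) + lam ≤ ε/4`, `δ = ε/4`.  `N ≥ N₀`: `II_lower` (κ, lam) applies to `h.dat`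
(`‖c‖ ≤ 3 ≤ (N+6)/2`), `y = ‖c‖ - lam > 0`, and `h.prod_dist` with `∏ ‖w_j‖ ≥ 1` (`h.one_le_prod` in Cp1):
`y ∏ ‖z_k - y ĉ‖ ≥ (N+1)/(6N) ≥ 1/6`; `‖z_k - y ĉ‖ ≤ ‖z_k - c‖ + lam` (`c = ‖c‖ ĉ`), `y ≤ ‖c‖ + lam`.  So
`∑ log(t + lam) ≥ - log 6 ≥ -2` and, as `∑ t ≤ N+1`, `∑ (t + lam - 1 - log(t+lam)) ≤ (N+1) lam + 2`.
`BV.sqrt_sub_sq_le`: `∑ (√(t+lam) - 1)^2 ≤ (N+1) lam + 2 ≤ 2 (N+1) lam` (N large).  Cauchy-Schwarz with
`|r - 1| = |√r - 1| (√r + 1)`, `(√r + 1)^2 ≤ 2 (r + 1)`, `∑ 2 (t + lam + 1) ≤ 6 (N+1)`: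
`∑ |t + lam - 1| ≤ (N+1) √(12 lam)`, so `∑ |t - 1| ≤ ε₁ (N+1)`.  `h.sumwp_le`:
`∑ max (x_j - 1) 0 ≤ ε₁ N`; `∑ x_j ≥ ∑ ‖1 - c/w_j‖ > (1-δ) N` (`h.one_sub_div`, `h.norm_inv_le`), so
`∑ |x_j - 1| = 2 ∑ max (x_j - 1) 0 - ∑ (x_j - 1) ≤ (2 ε₁ + δ) N ≤ ε N`;
`∑ x_j (1 - ‖w_j⁻¹‖) = ∑ x_j - ∑ ‖1 - c/w_j‖ ≤ δ N` (`h.sum_x_le`).  `norm_c_sq_le_one` gives
`κ^2 ≤ ‖c‖^2 ≤ 27 ε ≤ (27/28) κ^2`, a contradiction. -/
theorem nearB {κ : ℝ} (hκ : 0 < κ) :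
    ∃ δ : ℝ, 0 < δ ∧ δ < 1 ∧ ∃ N₀ : ℕ, ∀ N : ℕ, N₀ ≤ N → ∀ (z w : Fin N → ℂ) (c : ℂ),
      Cf N z w c → κ ≤ ‖c‖ → ‖c‖ ≤ 3 → (1 - δ) * N < ∑ j, ‖1 - c * (w j)⁻¹‖ → False := by
  obtain ⟨ε, hε⟩ : ∃ ε, ε = min (1 / 16) (κ ^ 2 / 28) := ⟨_, rfl⟩
  have hε0 : 0 < ε := by
    rw [hε]
    exact lt_min (by norm_num) (by positivity)
  have hε1 : ε ≤ 1 / 16 := by rw [hε]; exact min_le_left _ _
  have hε2 : ε ≤ κ ^ 2 / 28 := by rw [hε]; exact min_le_right _ _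
  obtain ⟨lam, hlam⟩ : ∃ lam, lam = min (κ / 2) (ε ^ 2 / 1000) := ⟨_, rfl⟩
  have hlam0 : 0 < lam := by
    rw [hlam]
    exact lt_min (by positivity) (by positivity)
  have hlamκ : lam ≤ κ / 2 := by rw [hlam]; exact min_le_left _ _
  have hlamε : lam ≤ ε ^ 2 / 1000 := by rw [hlam]; exact min_le_right _ _
  have hlamε' : lam ≤ ε / 16 := by nlinarith
  have hlam1 : lam ≤ 1 := by linarith
  have hsq : Real.sqrt (12 * lam) ≤ ε / 8 := by
    rw [show ε / 8 = Real.sqrt ((ε / 8) ^ 2) from (Real.sqrt_sq (by positivity)).symm]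
    refine Real.sqrt_le_sqrt ?_
    nlinarith
  obtain ⟨ε₁, hε₁⟩ : ∃ ε₁, ε₁ = Real.sqrt (12 * lam) + lam := ⟨_, rfl⟩
  have hε₁4 : ε₁ ≤ ε / 4 := by rw [hε₁]; linarith
  obtain ⟨N₁, hII⟩ := II_lower hlam0 (show lam < κ by linarith) hlam1
  refine ⟨ε / 4, by positivity, by linarith, max (max N₁ 1) ⌈2 / lam⌉₊,
    fun N hN z w c h hκc hc3 hmean => ?_⟩
  have hN1 : N₁ ≤ N := ((le_max_left _ _).trans (le_max_left _ _)).trans hN
  have hN2 : 1 ≤ N := ((le_max_right _ _).trans (le_max_left _ _)).trans hN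
  have hN3 : 2 / lam ≤ N := (Nat.le_ceil _).trans (by exact_mod_cast (le_max_right _ _).trans hN)
  have hNp : (0 : ℝ) < N := by exact_mod_cast hN2
  have hN4 : 2 ≤ ((N : ℝ) + 1) * lam := by
    rw [div_le_iff₀ hlam0] at hN3
    nlinarith
  have hc0 : 0 < ‖c‖ := lt_of_lt_of_le hκ hκc
  have hc : c ≠ 0 := norm_pos_iff.1 hc0
  have hcC : (‖c‖ : ℂ) ≠ 0 := by exact_mod_cast hc0.ne'
  have hdat := hII N hN1 _ _ (h.dat hc) hκc (by linarith)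
  have hy : 0 ≤ ‖c‖ - lam := by linarith
  have hpd := h.prod_dist hc hy
  -- the lower bound for the product
  have hlow : 1 / 6 ≤ (‖c‖ - lam) * ∏ k, ‖z k - ((‖c‖ - lam : ℝ) : ℂ) * (c / (‖c‖ : ℂ))‖ := by
    rw [hpd]
    have h1 : 1 / 6 ≤ ((N : ℝ) + 1) * (1 / (6 * N)) := by
      rw [mul_one_div, div_le_div_iff₀ (by norm_num) (by positivity)]
      linarith
    calc 1 / 6 ≤ ((N : ℝ) + 1) * (1 / (6 * N)) := h1
      _ ≤ ((N : ℝ) + 1) * ‖II (fun j => (c / (‖c‖ : ℂ)) * (w j)⁻¹) (‖c‖ - lam)‖ := by gcongr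
      _ ≤ _ := le_mul_of_one_le_right (by positivity) h.one_le_prod
  -- the distances
  let T : Option (Fin N) → ℝ := fun o => o.elim (‖c‖ + lam) fun k => ‖z k - c‖ + lam
  have hT0 : ∀ o, 0 < T o := by
    rintro (_ | k)
    · exact add_pos hc0 hlam0
    · exact add_pos_of_nonneg_of_pos (norm_nonneg _) hlam0
  have hprod : 1 / 6 ≤ ∏ o, T o := by
    rw [Fintype.prod_option]
    refine hlow.trans ?_
    refine mul_le_mul (show ‖c‖ - lam ≤ ‖c‖ + lam by linarith) ?_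
      (Finset.prod_nonneg fun k _ => norm_nonneg _)
      (add_pos hc0 hlam0).le
    refine Finset.prod_le_prod (fun k _ => norm_nonneg _) fun k _ => ?_
    have h1 : z k - ((‖c‖ - lam : ℝ) : ℂ) * (c / (‖c‖ : ℂ)) =
        (z k - c) + (lam : ℂ) * (c / (‖c‖ : ℂ)) := by
      push_cast
      field_simp
      ring
    rw [h1]
    refine (norm_add_le _ _).trans (le_of_eq ?_)
    rw [norm_mul, lk_unit hc, mul_one, Complex.norm_real, Real.norm_of_nonneg hlam0.le]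
    rfl
  have hlog : -2 ≤ ∑ o, Real.log (T o) := by
    rw [← Real.log_prod (fun o _ => (hT0 o).ne')]
    have h1 : Real.log (1 / 6) ≤ Real.log (∏ o, T o) := Real.log_le_log (by norm_num) hprod
    refine le_trans ?_ h1
    rw [Real.le_log_iff_exp_le (by norm_num)]
    have h2 : Real.exp (-2) = (Real.exp 1 * Real.exp 1)⁻¹ := by
      rw [← Real.exp_add, ← Real.exp_neg]
      norm_num
    rw [h2, one_div]
    have h3 := Real.exp_one_gt_d9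
    gcongr
    nlinarith
  have hsum : ∑ o, T o ≤ ((N : ℝ) + 1) * (1 + lam) := by
    rw [Fintype.sum_option]
    show (‖c‖ + lam) + ∑ k, (‖z k - c‖ + lam) ≤ _
    rw [Finset.sum_add_distrib, Finset.sum_const, Finset.card_univ, Fintype.card_fin,
      nsmul_eq_mul]
    have := h.sum_le
    linarith
  have hcs := nearB_cs T hT0 hlam0 hlam1 (n := (N : ℝ) + 1) (by simp) hN4 hsum hlog
  have ht : |‖c‖ - 1| + ∑ k, |‖z k - c‖ - 1| ≤ ε₁ * ((N : ℝ) + 1) := by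
    have h1 : ∀ a : ℝ, |a - 1| ≤ |a + lam - 1| + lam := by
      intro a
      have e1 : a - 1 = (a + lam - 1) - lam := by ring
      rw [e1]
      refine (abs_sub _ _).trans ?_
      rw [abs_of_pos hlam0]
    rw [Fintype.sum_option] at hcs
    have hcs' : |‖c‖ + lam - 1| + ∑ k, |‖z k - c‖ + lam - 1| ≤
        ((N : ℝ) + 1) * Real.sqrt (12 * lam) := hcs
    have h2 : ∑ k, |‖z k - c‖ - 1| ≤ ∑ k, (|‖z k - c‖ + lam - 1| + lam) :=
      Finset.sum_le_sum fun k _ => h1 _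
    rw [Finset.sum_add_distrib, Finset.sum_const, Finset.card_univ, Fintype.card_fin,
      nsmul_eq_mul] at h2
    have h3 := h1 ‖c‖
    rw [hε₁]
    linarith
  have hmaxabs : ∀ a : ℝ, max (a - 1) 0 ≤ |a - 1| := fun a =>
    max_le (le_abs_self _) (abs_nonneg _)
  have hwp : ∑ j, max (‖w j - c‖ - 1) 0 ≤ ε₁ * N := by
    have h1 := h.sumwp_le
    have h2 : max (‖c‖ - 1) 0 + ∑ k, max (‖z k - c‖ - 1) 0 ≤ ε₁ * ((N : ℝ) + 1) :=
      (add_le_add (hmaxabs _) (Finset.sum_le_sum fun k _ => hmaxabs _)).trans ht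
    have h3 : ((N : ℝ) + 1) * ∑ j, max (‖w j - c‖ - 1) 0 ≤ ((N : ℝ) + 1) * (ε₁ * N) := by
      refine h1.trans ((mul_le_mul_of_nonneg_left h2 hNp.le).trans (le_of_eq ?_))
      ring
    exact le_of_mul_le_mul_left h3 (by positivity)
  have hxx : ∑ j, ‖1 - c * (w j)⁻¹‖ ≤ ∑ j, ‖w j - c‖ := by
    refine Finset.sum_le_sum fun j _ => ?_
    rw [h.one_sub_div]
    exact mul_le_of_le_one_right (norm_nonneg _) (h.norm_inv_le j)
  have h1 : ∑ j, |‖w j - c‖ - 1| ≤ ε * N := by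
    have e1 : ∀ a : ℝ, |a - 1| = 2 * max (a - 1) 0 - (a - 1) := by
      intro a
      rcases le_total 1 a with ha | ha
      · rw [abs_of_nonneg (by linarith), max_eq_left (by linarith)]
        ring
      · rw [abs_of_nonpos (by linarith), max_eq_right (by linarith)]
        ring
    rw [Finset.sum_congr rfl fun j _ => e1 _, Finset.sum_sub_distrib, ← Finset.mul_sum,
      Finset.sum_sub_distrib, Finset.sum_const, Finset.card_univ, Fintype.card_fin, nsmul_eq_mul]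
    have e2 : ε₁ * N ≤ ε / 4 * N := mul_le_mul_of_nonneg_right hε₁4 hNp.le
    have e3 : 0 ≤ ε * N := by positivity
    linarith
  have h3 : ∑ j, ‖w j - c‖ * (1 - ‖(w j)⁻¹‖) ≤ ε * N := by
    have e1 : ∑ j, ‖w j - c‖ * (1 - ‖(w j)⁻¹‖) = ∑ j, ‖w j - c‖ - ∑ j, ‖1 - c * (w j)⁻¹‖ := by
      rw [← Finset.sum_sub_distrib]
      refine Finset.sum_congr rfl fun j _ => ?_
      rw [h.one_sub_div]
      ring
    rw [e1]
    have e2 := h.sum_x_le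
    have e3 : 0 ≤ ε * N := by positivity
    linarith
  have h2 : |‖c‖ - 1| + ∑ k, |‖z k - c‖ - 1| ≤ ε * (N + 1) := by
    refine ht.trans (mul_le_mul_of_nonneg_right ?_ (by positivity))
    linarith
  have hfin := norm_c_sq_le_one hN2 h hε1 h1 h2 h3
  have h5 : κ ^ 2 ≤ ‖c‖ ^ 2 := pow_le_pow_left₀ hκ.le hκc 2
  have h6 : 0 < κ ^ 2 := by positivity
  linarith

end Pool.MP_c113aa_an.B1
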