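import Pool.Agent.Lib.c113aaP.Cp6
import Pool.Agent.Lib.c113aaP.Cp7
import Pool.Agent.Lib.c113aaP.NearB
import Pool.Agent.Lib.c113aaP.Mid
import Pool.Agent.Lib.c113aaP.Far
import Pool.Agent.Lib.c113aaP.Mini

/-!
# Borcea's inequality for the exponent 1: the normalised theorem and its version for critical points
-/

set_option autoImplicit false

namespace Pool.MP_c113aa_an.B1

open Finset Pool.MP_c113aa_an.BV Polynomial

/-- The normalised theorem. -/
theorem core_one :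
    ∃ N₀ : ℕ, ∀ N : ℕ, N₀ ≤ N → ∀ (z w : Fin N → ℂ) (c : ℂ), Cf N z w c →
      (∀ j, w j = c) ∨ (∀ k, z k = c) := by
  obtain ⟨κ, hκ, N₁, h₁⟩ := step3_one
  obtain ⟨δ, hδ0, hδ1, N₂, h₂⟩ := nearB hκ
  obtain ⟨N₃, h₃⟩ := caseA_one hδ0 hδ1
  obtain ⟨N₄, h₄⟩ := mid
  refine ⟨max (max N₁ N₂) (max N₃ N₄), fun N hN z w c h => ?_⟩
  have e1 : N₁ ≤ N := (le_max_left _ _).trans ((le_max_left _ _).trans hN)
  have e2 : N₂ ≤ N := (le_max_right _ _).trans ((le_max_left _ _).trans hN)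
  have e3 : N₃ ≤ N := (le_max_left _ _).trans ((le_max_right _ _).trans hN)
  have e4 : N₄ ≤ N := (le_max_right _ _).trans ((le_max_right _ _).trans hN)
  rcases le_total ‖c‖ κ with hc | hc
  · exact (h₁ N e1 z w c h hc).elim
  · rcases le_total ‖c‖ 3 with hc3 | hc3
    · rcases le_or_gt (∑ j, ‖1 - c * (w j)⁻¹‖) ((1 - δ) * N) with hA | hB
      · exact Or.inl (h₃ N e3 z w c h hA hc3)
      · exact (h₂ N e2 z w c h hc hc3 hB).elim
    · rcases le_total ‖c‖ (((N : ℝ) + 6) / 2) with hc4 | hc4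
      · exact (h₄ N e4 z w c h hc3 hc4).elim
      · exact Or.inr (h.far hc4)

/-- construction of a normalised configuration -/
theorem cf_of_crit {N : ℕ} {Z : Fin (N + 1) → ℂ} {w : Fin N → ℂ} (h : CritOf Z w)
    (h0 : Z 0 = 0) (hw : ∀ j, 1 ≤ ‖w j‖) (c : ℂ)
    (hc : ∀ c' : ℂ, ∑ k, ‖Z k - c‖ ≤ ∑ k, ‖Z k - c'‖)
    (hs : ∑ k, ‖Z k - c‖ ≤ (N : ℝ) + 1) : Cf N (fun k => Z k.succ) w c := by
  have hN : (0 : ℝ) < (N : ℝ) + 1 := by positivity
  have hNc : ((N : ℂ) + 1) ≠ 0 := by exact_mod_cast hN.ne'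
  have hw0 : ∀ j, w j ≠ 0 := by
    intro j hj
    have := hw j
    rw [hj, norm_zero] at this
    linarith
  -- derivative at zero
  have hd0 : ∏ k : Fin N, (0 - Z k.succ) = ((N : ℂ) + 1) * ∏ j, (0 - w j) := by
    have h1 := h 0
    have h2 : HasDerivAt (fun y : ℂ => y * ∏ k : Fin N, (y - Z k.succ))
        (1 * ∏ k : Fin N, (0 - Z k.succ) + 0 * deriv (fun y : ℂ => ∏ k : Fin N, (y - Z k.succ)) 0)
        0 := by
      refine (hasDerivAt_id (0 : ℂ)).mul ?_
      refine DifferentiableAt.hasDerivAt ?_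
      fun_prop
    have h3 : (fun y : ℂ => ∏ k, (y - Z k)) = fun y : ℂ => y * ∏ k : Fin N, (y - Z k.succ) := by
      funext y
      rw [Fin.prod_univ_succ, h0, sub_zero]
    rw [h3] at h1
    have h4 := h2.unique h1
    rw [one_mul, zero_mul, add_zero] at h4
    exact h4
  have hne : ∏ k : Fin N, (0 - Z k.succ) ≠ 0 := by
    rw [hd0]
    refine mul_ne_zero hNc (Finset.prod_ne_zero_iff.2 fun j _ => ?_)
    rw [zero_sub]
    exact neg_ne_zero.2 (hw0 j)
  have hz : ∀ k : Fin N, Z k.succ ≠ 0 := by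
    intro k hk
    apply hne
    refine Finset.prod_eq_zero (Finset.mem_univ k) ?_
    rw [hk, sub_zero]
  have hS : ∀ c₁ : ℂ, ∑ k, ‖Z k - c₁‖ = ‖c₁‖ + ∑ k : Fin N, ‖Z k.succ - c₁‖ := by
    intro c₁
    rw [Fin.sum_univ_succ, h0, zero_sub, norm_neg]
  refine ⟨hz, hw, ?_, ?_, ?_, ?_, ?_, ?_, ?_⟩
  · intro x
    have h1 := (h x).div_const (∏ k : Fin N, (0 - Z k.succ))
    have e1 : (fun y : ℂ => (∏ k, (y - Z k)) / ∏ k : Fin N, (0 - Z k.succ))
        = fun y : ℂ => y * ∏ k : Fin N, (1 - y / Z k.succ) := by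
      funext y
      rw [Fin.prod_univ_succ, h0, sub_zero, mul_div_assoc, ← Finset.prod_div_distrib]
      congr 1
      refine Finset.prod_congr rfl fun k _ => ?_
      have := hz k
      field_simp
      ring
    have e2 : ((N : ℂ) + 1) * (∏ j, (x - w j)) / (∏ k : Fin N, (0 - Z k.succ))
        = ∏ j, (1 - x / w j) := by
      rw [hd0, mul_div_mul_left _ _ hNc, ← Finset.prod_div_distrib]
      refine Finset.prod_congr rfl fun j _ => ?_
      have := hw0 j
      field_simp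
      ring
    rw [e1, e2] at h1
    exact h1
  · have h1 := congrArg norm hd0
    rw [norm_mul, norm_prod, norm_prod] at h1
    simp only [zero_sub, norm_neg] at h1
    rw [h1]
    congr 1
    have : ((N : ℂ) + 1) = (((N : ℝ) + 1 : ℝ) : ℂ) := by push_cast; rfl
    rw [this, Complex.norm_real, Real.norm_eq_abs, abs_of_pos hN]
  · rw [← hS]
    exact hs
  · have h1 := dbs h _ (convexOn_norm_sub c)
    rw [Fin.sum_univ_succ, h0, zero_sub, norm_neg] at h1
    exact h1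
  · have hcv : ConvexOn ℝ Set.univ (fun y : ℂ => max (‖y - c‖ - 1) 0) := by
      have h2 := ((convexOn_norm_sub c).add (convexOn_const (-1) convex_univ)).sup
        (convexOn_const (0 : ℝ) convex_univ)
      refine h2.congr ?_
      intro y _
      simp only [Pi.sup_apply, Pi.add_apply]
      rw [← sub_eq_add_neg (‖y - c‖) 1]
    have h1 := dbs h _ hcv
    rw [Fin.sum_univ_succ, h0, zero_sub, norm_neg] at h1
    exact h1
  · have h1 := h.mean
    rw [Fin.sum_univ_succ, h0, zero_add] at h1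
    exact h1
  · have h1 := foc_one Z c hc
    have h2 : ((N : ℂ) + 1) * ∑ j, (w j - c) = N * ∑ k, (Z k - c) := by
      have h3 := h.mean
      simp only [Finset.sum_sub_distrib, Finset.sum_const, Finset.card_univ, Fintype.card_fin,
        nsmul_eq_mul]
      push_cast
      linear_combination h3
    have h4 : ((N : ℝ) + 1) * ‖∑ j, (w j - c)‖ = N * ‖∑ k, (Z k - c)‖ := by
      have h5 := congrArg norm h2
      rw [norm_mul, norm_mul, Complex.norm_natCast] at h5
      have h6 : ‖(N : ℂ) + 1‖ = (N : ℝ) + 1 := by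
        have h7 : (N : ℂ) + 1 = ((N + 1 : ℕ) : ℂ) := by push_cast; ring
        rw [h7, Complex.norm_natCast]
        push_cast
        ring
      rwa [h6] at h5
    rw [h4]
    refine mul_le_mul_of_nonneg_left ?_ (Nat.cast_nonneg N)
    rw [Fin.sum_univ_succ (fun k => |‖Z k - c‖ - 1|), h0, zero_sub, norm_neg] at h1
    exact h1

/-- The theorem for zeros and critical points. -/
theorem crit_main_one :
    ∃ N₀ : ℕ, ∀ N : ℕ, N₀ ≤ N → ∀ (Z : Fin (N + 1) → ℂ) (w : Fin N → ℂ), CritOf Z w →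
      ∀ (k₀ : Fin (N + 1)) (D : ℝ) (c : ℂ), 0 < D → (∀ j, D ≤ ‖Z k₀ - w j‖) →
      ∑ k, ‖Z k - c‖ ≤ ((N : ℝ) + 1) * D →
      (∃ c' : ℂ, ∀ j, w j = c') ∨ (∃ c' : ℂ, ∀ k, k ≠ k₀ → Z k = c') := by
  obtain ⟨N₀, hN₀⟩ := core_one
  refine ⟨N₀, fun N hN Z w h k₀ D c hD hk hs => ?_⟩
  have hDc : (D : ℂ) ≠ 0 := by exact_mod_cast hD.ne'
  obtain ⟨c₁, hc₁⟩ := exists_minimizer_one (fun k => (Z (Equiv.swap 0 k₀ k) - Z k₀) / (D : ℂ))
  have hcr := (h.perm (Equiv.swap 0 k₀)).affine (Z k₀) D hDc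
  have hcfg : Cf N (fun k => (Z (Equiv.swap 0 k₀ k.succ) - Z k₀) / (D : ℂ))
      (fun j => (w j - Z k₀) / (D : ℂ)) c₁ := by
    refine cf_of_crit hcr ?_ ?_ c₁ hc₁ ?_
    · simp
    · intro j
      rw [norm_div, Complex.norm_real, Real.norm_eq_abs, abs_of_pos hD, le_div_iff₀ hD, one_mul,
        norm_sub_rev]
      exact hk j
    · refine (hc₁ ((c - Z k₀) / D)).trans ?_
      have e : ∀ k, ‖(Z (Equiv.swap 0 k₀ k) - Z k₀) / (D : ℂ) - (c - Z k₀) / D‖
          = ‖Z (Equiv.swap 0 k₀ k) - c‖ / D := by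
        intro k
        rw [← sub_div, norm_div, Complex.norm_real, Real.norm_eq_abs, abs_of_pos hD]
        congr 2
        ring
      rw [Finset.sum_congr rfl fun k _ => e k, ← Finset.sum_div]
      rw [Equiv.sum_comp (Equiv.swap 0 k₀) (fun k => ‖Z k - c‖)]
      rw [div_le_iff₀ hD]
      exact hs
  rcases hN₀ N hN _ _ c₁ hcfg with hcase | hcase
  · left
    refine ⟨D * c₁ + Z k₀, fun j => ?_⟩
    have hj := hcase j
    rw [div_eq_iff hDc] at hj
    linear_combination hj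
  · right
    refine ⟨D * c₁ + Z k₀, fun k hkk => ?_⟩
    have hex : ∃ i : Fin N, Equiv.swap 0 k₀ i.succ = k := by
      have h1 : Equiv.swap 0 k₀ k ≠ 0 := by
        intro h2
        apply hkk
        apply (Equiv.swap 0 k₀).injective
        rw [h2, Equiv.swap_apply_right]
      obtain ⟨i, hi⟩ := Fin.exists_succ_eq.2 h1
      exact ⟨i, by rw [hi]; simp⟩
    obtain ⟨i, hi⟩ := hex
    have hj := hcase i
    simp only [hi] at hj
    rw [div_eq_iff hDc] at hj
    linear_combination hj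

end Pool.MP_c113aa_an.B1
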