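import Pool.Agent.Lib.c113aaP.Defs

/-!
# Borcea's inequality for the exponent 1: copies of lemmas which do not depend on the exponent
-/

set_option autoImplicit false

namespace Pool.MP_c113aa_an.B1

open Finset Pool.MP_c113aa_an.BV

variable {N : ℕ} {z w : Fin N → ℂ} {c : ℂ}

/-- (C1) -/
theorem Cf.w_ne (h : Cf N z w c) (j : Fin N) : w j ≠ 0 := by
  intro h0
  have := h.one_le j
  rw [h0, norm_zero] at this
  linarith

theorem Cf.norm_inv_le (h : Cf N z w c) (j : Fin N) : ‖(w j)⁻¹‖ ≤ 1 := by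
  rw [norm_inv]
  exact inv_le_one_of_one_le₀ (h.one_le j)

theorem Cf.one_le_prod (h : Cf N z w c) : 1 ≤ ∏ j, ‖w j‖ := by
  have := Finset.prod_le_prod (s := Finset.univ) (f := fun _ : Fin N => (1 : ℝ))
    (g := fun j => ‖w j‖) (fun _ _ => zero_le_one) (fun j _ => h.one_le j)
  simpa using this

/-- (C5) -/
theorem Cf.one_sub_div (h : Cf N z w c) (j : Fin N) :
    ‖1 - c * (w j)⁻¹‖ = ‖w j - c‖ * ‖(w j)⁻¹‖ := by
  have hw := h.w_ne j
  rw [← norm_mul]
  congr 1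
  field_simp

/-- (C6) the value of f/c at c as an integral.  Proof: f(y) = y ∏ (1 - y/z_k), by der and the
fundamental theorem of calculus for s ↦ f(s c) on [0,1] (derivative c ∏ (1 - s c/w_j)):
f(c) - f(0) = c * JJ(...), f(c) = c ∏ (1-c/z_k); cancel c. -/
theorem Cf.prod_eq_JJ (h : Cf N z w c) (hc : c ≠ 0) :
    ∏ k, (1 - c / z k) = JJ (fun j => c * (w j)⁻¹) := by
  have hder : ∀ s ∈ Set.uIcc (0 : ℝ) 1,
      HasDerivAt (fun s : ℝ => ((s : ℂ) * c) * ∏ k, (1 - ((s : ℂ) * c) / z k))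
        ((∏ j, (1 - ((s : ℂ) * c) / w j)) * c) s := by
    intro s _
    have h1 : HasDerivAt (fun y : ℂ => y * c) c (s : ℂ) := by
      simpa using (hasDerivAt_id (s : ℂ)).mul_const c
    have h2 := (h.der ((s : ℂ) * c)).comp (s : ℂ) h1
    exact h2.comp_ofReal
  have hcont : Continuous (fun s : ℝ => (∏ j, (1 - ((s : ℂ) * c) / w j)) * c) := by
    fun_prop
  have hint := intervalIntegral.integral_eq_sub_of_hasDerivAt hder
    (hcont.intervalIntegrable 0 1)
  have hJ : ∫ s in (0 : ℝ)..1, (∏ j, (1 - ((s : ℂ) * c) / w j)) * c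
      = JJ (fun j => c * (w j)⁻¹) * c := by
    rw [intervalIntegral.integral_mul_const]
    unfold JJ
    congr 1
    refine intervalIntegral.integral_congr (fun s _ => ?_)
    refine Finset.prod_congr rfl (fun j _ => ?_)
    rw [div_eq_mul_inv, mul_assoc]
  rw [hJ] at hint
  simp only [Complex.ofReal_one, one_mul, Complex.ofReal_zero, zero_mul, sub_zero] at hint
  have h3 : c * ∏ k, (1 - c / z k) = c * JJ (fun j => c * (w j)⁻¹) := by
    rw [← hint]
    ring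
  exact mul_left_cancel₀ hc h3

/-- (C7) the product of the distances from c to the zeros.  Proof:
‖z_k - c‖ = ‖z_k‖ ‖1 - c/z_k‖, prod, (C6). -/
theorem Cf.prod_t_eq (h : Cf N z w c) (hc : c ≠ 0) :
    ‖c‖ * ∏ k, ‖z k - c‖
      = ((N : ℝ) + 1) * ‖c‖ * ‖JJ (fun j => c * (w j)⁻¹)‖ * ∏ j, ‖w j‖ := by
  have h1 : ∀ k, ‖z k - c‖ = ‖z k‖ * ‖1 - c / z k‖ := by
    intro k
    rw [← norm_mul]
    congr 1
    have := h.z_ne k
    field_simp
  rw [← h.prod_eq_JJ hc, Finset.prod_congr rfl (fun k _ => h1 k), Finset.prod_mul_distrib, h.prod,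
    norm_prod]
  ring

/-- (C9) the derivative of f via the zeros.  Proof: uniqueness of the derivative (h.der x) and the
product rule; (-1/z_k)/(1 - x/z_k) = 1/(x - z_k). -/
theorem Cf.deriv_eq (h : Cf N z w c) (x : ℂ) (hx : x ≠ 0) (hxz : ∀ k, x ≠ z k) :
    ∏ j, (1 - x * (w j)⁻¹)
      = (x * ∏ k, (1 - x / z k)) * (x⁻¹ + ∑ k, (x - z k)⁻¹) := by
  have hf : ∀ k, HasDerivAt (fun y : ℂ => 1 - y / z k) (-(1 / z k)) x := by
    intro k
    have := ((hasDerivAt_id x).div_const (z k)).const_sub 1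
    simpa using this
  have h1 := HasDerivAt.fun_finsetProd (u := (Finset.univ : Finset (Fin N)))
    (f := fun k (y : ℂ) => 1 - y / z k) (f' := fun k => -(1 / z k)) (x := x)
    (fun k _ => hf k)
  have h2 := (hasDerivAt_id x).mul h1
  have h3 := (h.der x).unique h2
  have h4 : ∏ j, (1 - x * (w j)⁻¹) = ∏ j, (1 - x / w j) := by
    refine Finset.prod_congr rfl (fun j _ => ?_)
    rw [div_eq_mul_inv]
  rw [h4, h3]
  have h5 : ∀ k ∈ (Finset.univ : Finset (Fin N)),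
      (∏ j ∈ (Finset.univ : Finset (Fin N)).erase k, (1 - x / z j)) • (-(1 / z k))
        = (∏ j, (1 - x / z j)) * (x - z k)⁻¹ := by
    intro k hk
    rw [← Finset.mul_prod_erase _ _ hk, smul_eq_mul]
    have hz := h.z_ne k
    have hxk : x - z k ≠ 0 := sub_ne_zero.mpr (hxz k)
    have h6 : (1 - x / z k) * (x - z k)⁻¹ = -(1 / z k) := by
      field_simp
      ring
    calc (∏ j ∈ (Finset.univ : Finset (Fin N)).erase k, (1 - x / z j)) * (-(1 / z k))
        = (∏ j ∈ (Finset.univ : Finset (Fin N)).erase k, (1 - x / z j))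
          * ((1 - x / z k) * (x - z k)⁻¹) := by rw [h6]
      _ = _ := by ring
  rw [Finset.sum_congr rfl h5, ← Finset.mul_sum]
  simp only [id]
  field_simp

/-- (3c) upper bound for f/y on a disk.  Proof: x = 0 trivial.  x ≠ 0: f(x) = x ∏(1-x/z_k),
mean value inequality on the segment [0,x] with h.der: ‖f(x)‖ <= ‖x‖ sup_{0<=s<=1} ‖∏(1 - s x/w_j)‖ and
(E8) norm_prod_one_sub_le (v_j = 1/w_j; 1 - y/w_j = 1 - y * (w j)⁻¹). -/
theorem Cf.norm_q_le (h : Cf N z w c) (x : ℂ) :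
    ‖∏ k, (1 - x / z k)‖ ≤ Real.exp (‖x‖ * ‖∑ j, (w j)⁻¹‖ + N * ‖x‖ ^ 2 / 2) := by
  by_cases hx : x = 0
  · subst hx
    simp
  have hxn : 0 < ‖x‖ := norm_pos_iff.mpr hx
  set C : ℝ := Real.exp (‖x‖ * ‖∑ j, (w j)⁻¹‖ + N * ‖x‖ ^ 2 / 2) with hC
  have bound : ∀ y ∈ Metric.closedBall (0 : ℂ) ‖x‖, ‖∏ j, (1 - y / w j)‖ ≤ C := by
    intro y hy
    have hy' : ‖y‖ ≤ ‖x‖ := by simpa using hy
    have h1 := norm_prod_one_sub_le (fun j => (w j)⁻¹) h.norm_inv_le y
    have h2 : ∏ j, (1 - y / w j) = ∏ j, (1 - y * (w j)⁻¹) := by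
      refine Finset.prod_congr rfl (fun j _ => ?_)
      rw [div_eq_mul_inv]
    rw [h2]
    refine h1.trans (Real.exp_le_exp.mpr ?_)
    have h3 : ‖y‖ * ‖∑ j, (w j)⁻¹‖ ≤ ‖x‖ * ‖∑ j, (w j)⁻¹‖ :=
      mul_le_mul_of_nonneg_right hy' (norm_nonneg _)
    have h4 : ‖y‖ ^ 2 ≤ ‖x‖ ^ 2 := pow_le_pow_left₀ (norm_nonneg _) hy' 2
    have h5 : (N : ℝ) * ‖y‖ ^ 2 / 2 ≤ N * ‖x‖ ^ 2 / 2 := by
      have : (0 : ℝ) ≤ N := Nat.cast_nonneg N
      have := mul_le_mul_of_nonneg_left h4 this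
      linarith
    linarith
  have hmv := (convex_closedBall (0 : ℂ) ‖x‖).norm_image_sub_le_of_norm_hasDerivWithin_le
    (f := fun y : ℂ => y * ∏ k, (1 - y / z k)) (f' := fun y => ∏ j, (1 - y / w j)) (C := C)
    (x := 0) (y := x) (fun y _ => (h.der y).hasDerivWithinAt) bound
    (by simp) (by simp)
  simp only [zero_mul, sub_zero, norm_mul] at hmv
  rw [mul_comm C] at hmv
  exact le_of_mul_le_mul_left hmv hxn

/-- (3c') upper bound for the zero free part.  Proof: maximum modulus on the closed ball of radius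
2ρ (Complex.norm_le_of_forall_mem_frontier_norm_le).  For ‖x‖ = 2ρ the factors with ‖z_k‖ < ρ have
‖1-x/z_k‖ >= ‖x‖/‖z_k‖ - 1 >= 1, so the filtered product has norm <= the norm of the full product;
then (3c). -/
theorem Cf.norm_E_le (h : Cf N z w c) {ρ : ℝ} (hρ : 0 < ρ) (x : ℂ) (hx : ‖x‖ ≤ 2 * ρ) :
    ‖∏ k ∈ univ.filter (fun k => ρ ≤ ‖z k‖), (1 - x / z k)‖
      ≤ Real.exp (2 * ρ * ‖∑ j, (w j)⁻¹‖ + 2 * N * ρ ^ 2) := by
  have h2ρ : (0 : ℝ) < 2 * ρ := by positivity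
  have hdiff : Differentiable ℂ
      (fun y : ℂ => ∏ k ∈ univ.filter (fun k => ρ ≤ ‖z k‖), (1 - y / z k)) := by
    fun_prop
  refine Complex.norm_le_of_forall_mem_frontier_norm_le (U := Metric.ball (0 : ℂ) (2 * ρ))
    Metric.isBounded_ball (hdiff.diffContOnCl) ?_ ?_
  · intro y hy
    rw [frontier_ball (0 : ℂ) h2ρ.ne'] at hy
    have hy' : ‖y‖ = 2 * ρ := by simpa using hy
    have hq := h.norm_q_le y
    have hsplit : (∏ k, (1 - y / z k))
        = (∏ k ∈ univ.filter (fun k => ρ ≤ ‖z k‖), (1 - y / z k))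
          * ∏ k ∈ univ.filter (fun k => ¬ (ρ ≤ ‖z k‖)), (1 - y / z k) :=
      (Finset.prod_filter_mul_prod_filter_not _ _ _).symm
    have hone : (1 : ℝ) ≤ ‖∏ k ∈ univ.filter (fun k => ¬ (ρ ≤ ‖z k‖)), (1 - y / z k)‖ := by
      rw [norm_prod]
      have := Finset.prod_le_prod (s := univ.filter (fun k => ¬ (ρ ≤ ‖z k‖)))
        (f := fun _ => (1 : ℝ)) (g := fun k => ‖1 - y / z k‖) (fun _ _ => zero_le_one) ?_
      · simpa using this
      · intro k hk
        have hk' : ‖z k‖ < ρ := by simpa using hk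
        have hz : 0 < ‖z k‖ := norm_pos_iff.mpr (h.z_ne k)
        have h1 : ‖y / z k‖ ≤ ‖1 - y / z k‖ + 1 := by
          have := norm_sub_le (1 : ℂ) (1 - y / z k)
          simp only [sub_sub_cancel, norm_one] at this
          linarith
        have h2 : 2 ≤ ‖y / z k‖ := by
          rw [norm_div, hy', le_div_iff₀ hz]
          linarith
        show (1 : ℝ) ≤ ‖1 - y / z k‖
        linarith
    have h3 : ‖∏ k ∈ univ.filter (fun k => ρ ≤ ‖z k‖), (1 - y / z k)‖ ≤ ‖∏ k, (1 - y / z k)‖ := by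
      rw [hsplit, norm_mul]
      exact le_mul_of_one_le_right (norm_nonneg _) hone
    refine h3.trans (hq.trans (Real.exp_le_exp.mpr ?_))
    rw [hy']
    apply le_of_eq
    ring
  · rw [closure_ball (0 : ℂ) h2ρ.ne']
    simpa using hx

end Pool.MP_c113aa_an.B1
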