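import Pool.Agent.Lib.c113aaP.Cp1

/-!
# Borcea's inequality for the exponent 1: copies of lemmas which do not depend on the exponent
-/

set_option autoImplicit false

namespace Pool.MP_c113aa_an.B1

open Finset Pool.MP_c113aa_an.BV

variable {N : ℕ} {z w : Fin N → ℂ} {c : ℂ}

/-- (Y2) bound for f'/E on the disk of radius R/2.  Proof: s = {k : ‖z_k‖ < R}, ν = card s,
B(x) = ∏_s (1-x/z_k), E(x) = ∏_{R <= ‖z_k‖} (1-x/z_k), f = x B E.  By uniqueness of the derivative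
(h.der x): f'(x) = E(x) * [ B(x) + x B'(x) + x B(x) ∑_{R<=‖z_k‖} 1/(x - z_k) ], where
B'(x) = ∑_{k∈s} (-1/z_k) ∏_{l∈s, l≠k} (1-x/z_l).  For ‖x‖ <= R/2 and k in s: ‖1-x/z_k‖ <= 1+R/(2‖z_k‖)
<= (3/2) R/‖z_k‖ and ‖x/z_k‖ <= (3/2) R/‖z_k‖; put Π = ∏_s (3/2)(R/‖z_k‖) (= exp(ν log(3/2) + S)).
So ‖B‖ <= Π, ‖x B'‖ <= ν Π, and ‖x B ∑ 1/(x-z_k)‖ <= (R/2) Π N (2/R) = N Π (‖x - z_k‖ >= R/2).
Total <= (1 + ν + N) Π ‖E‖ <= 2(N+1) Π ‖E‖. -/
theorem Cf.norm_Q_le (h : Cf N z w c) {R : ℝ} (hR : 0 < R) (hR1 : R ≤ 1) (x : ℂ)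
    (hx : ‖x‖ ≤ R / 2) :
    ‖∏ j, (1 - x * (w j)⁻¹)‖
      ≤ Real.exp (Real.log (2 * ((N : ℝ) + 1))
          + (univ.filter (fun k => ‖z k‖ < R)).card * Real.log (3 / 2)
          + ∑ k ∈ univ.filter (fun k => ‖z k‖ < R), Real.log (R / ‖z k‖))
        * ‖∏ k ∈ univ.filter (fun k => R ≤ ‖z k‖), (1 - x / z k)‖ := by
  set s := univ.filter (fun k => ‖z k‖ < R) with hs
  set t := univ.filter (fun k => R ≤ ‖z k‖) with ht
  have hzpos : ∀ k, 0 < ‖z k‖ := fun k => norm_pos_iff.mpr (h.z_ne k)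
  have hsplit : ∀ y : ℂ, ∏ k, (1 - y / z k) = (∏ k ∈ s, (1 - y / z k)) * ∏ k ∈ t, (1 - y / z k) := by
    intro y
    have := Finset.prod_filter_mul_prod_filter_not (univ : Finset (Fin N)) (fun k => ‖z k‖ < R)
      (fun k => 1 - y / z k)
    rw [← this]
    congr 1
    simp only [ht, not_lt]
  set B := ∏ k ∈ s, (1 - x / z k) with hB
  set E := ∏ k ∈ t, (1 - x / z k) with hE
  set B' := ∑ k ∈ s, (∏ l ∈ s.erase k, (1 - x / z l)) * (-(1 / z k)) with hB'
  set E' := ∑ k ∈ t, (∏ l ∈ t.erase k, (1 - x / z l)) * (-(1 / z k)) with hE'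
  have hd1 := Y2_hasDerivAt_prod s z x
  have hd2 := Y2_hasDerivAt_prod t z x
  have hd : HasDerivAt (fun y : ℂ => y * ∏ k, (1 - y / z k))
      (1 * (B * E) + x * (B' * E + B * E')) x := by
    have h3 := (hasDerivAt_id x).mul (hd1.mul hd2)
    refine h3.congr_of_eventuallyEq ?_
    filter_upwards with y
    simp [hsplit y]
  have hval : ∏ j, (1 - x * (w j)⁻¹) = B * E + x * B' * E + x * B * E' := by
    have h4 := (h.der x).unique hd
    simp only [← div_eq_mul_inv]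
    rw [h4]; ring
  -- bounds
  set P := ∏ k ∈ s, (3 / 2 * (R / ‖z k‖)) with hP
  have hPnn : 0 ≤ P := Finset.prod_nonneg fun k _ => by positivity
  have hRz : ∀ k ∈ s, 1 ≤ R / ‖z k‖ := by
    intro k hk
    rw [one_le_div (hzpos k)]
    exact (Finset.mem_filter.mp hk).2.le
  have hfac : ∀ k ∈ s, ‖1 - x / z k‖ ≤ 3 / 2 * (R / ‖z k‖) := by
    intro k hk
    have h1 := hRz k hk
    have h2 : ‖x / z k‖ ≤ 1 / 2 * (R / ‖z k‖) := by
      rw [norm_div]
      calc ‖x‖ / ‖z k‖ ≤ (R / 2) / ‖z k‖ := div_le_div_of_nonneg_right hx (hzpos k).le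
        _ = 1 / 2 * (R / ‖z k‖) := by ring
    have h3 : ‖1 - x / z k‖ ≤ 1 + ‖x / z k‖ := by
      have := norm_sub_le (1 : ℂ) (x / z k)
      simpa using this
    linarith
  have hfac2 : ∀ k ∈ s, ‖x * (-(1 / z k))‖ ≤ 3 / 2 * (R / ‖z k‖) := by
    intro k hk
    have h1 := hRz k hk
    have h2 : ‖x * (-(1 / z k))‖ = ‖x‖ / ‖z k‖ := by
      rw [norm_mul, norm_neg, norm_div, norm_one]; ring
    rw [h2]
    have h3 : ‖x‖ / ‖z k‖ ≤ (R / 2) / ‖z k‖ := div_le_div_of_nonneg_right hx (hzpos k).le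
    have h4 : (R / 2) / ‖z k‖ = 1 / 2 * (R / ‖z k‖) := by ring
    linarith
  have hBle : ‖B‖ ≤ P := by
    rw [hB, norm_prod]
    exact Finset.prod_le_prod (fun k _ => norm_nonneg _) hfac
  have hxB' : ‖x * B'‖ ≤ s.card * P := by
    rw [hB', Finset.mul_sum]
    refine (norm_sum_le _ _).trans ?_
    have : ∀ k ∈ s, ‖x * ((∏ l ∈ s.erase k, (1 - x / z l)) * (-(1 / z k)))‖ ≤ P := by
      intro k hk
      have e : x * ((∏ l ∈ s.erase k, (1 - x / z l)) * (-(1 / z k)))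
          = (x * (-(1 / z k))) * ∏ l ∈ s.erase k, (1 - x / z l) := by ring
      rw [e, norm_mul, norm_prod, hP, ← Finset.mul_prod_erase s _ hk]
      refine mul_le_mul (hfac2 k hk) ?_ (Finset.prod_nonneg fun _ _ => norm_nonneg _) (by positivity)
      exact Finset.prod_le_prod (fun l _ => norm_nonneg _)
        (fun l hl => hfac l (Finset.mem_of_mem_erase hl))
    calc ∑ k ∈ s, ‖x * ((∏ l ∈ s.erase k, (1 - x / z l)) * (-(1 / z k)))‖ ≤ ∑ _k ∈ s, P :=
          Finset.sum_le_sum this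
      _ = s.card * P := by simp
  have hxR : ∀ k ∈ t, R / 2 ≤ ‖z k - x‖ := by
    intro k hk
    have h1 : R ≤ ‖z k‖ := (Finset.mem_filter.mp hk).2
    have h2 := norm_sub_norm_le (z k) x
    linarith
  have hE'le : ‖E'‖ ≤ N * (2 / R) * ‖E‖ := by
    have e1 : ∀ k ∈ t, (∏ l ∈ t.erase k, (1 - x / z l)) * (-(1 / z k)) = -(E / (z k - x)) := by
      intro k hk
      have hne : z k - x ≠ 0 := by
        intro h0
        have := hxR k hk
        rw [h0, norm_zero] at this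
        linarith
      have hz := h.z_ne k
      rw [hE, ← Finset.mul_prod_erase t _ hk]
      have e2 : 1 - x / z k = (z k - x) / z k := by field_simp
      rw [e2]
      field_simp
    rw [hE', Finset.sum_congr rfl e1]
    refine (norm_sum_le _ _).trans ?_
    have : ∀ k ∈ t, ‖-(E / (z k - x))‖ ≤ (2 / R) * ‖E‖ := by
      intro k hk
      rw [norm_neg, norm_div]
      have h1 := hxR k hk
      calc ‖E‖ / ‖z k - x‖ ≤ ‖E‖ / (R / 2) :=
            div_le_div_of_nonneg_left (norm_nonneg _) (by linarith) h1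
        _ = (2 / R) * ‖E‖ := by field_simp
    calc ∑ k ∈ t, ‖-(E / (z k - x))‖ ≤ ∑ _k ∈ t, (2 / R) * ‖E‖ := Finset.sum_le_sum this
      _ = t.card * ((2 / R) * ‖E‖) := by simp
      _ ≤ N * ((2 / R) * ‖E‖) := by
          refine mul_le_mul_of_nonneg_right ?_ (by positivity)
          have := Finset.card_filter_le (univ : Finset (Fin N)) (fun k => R ≤ ‖z k‖)
          rw [Finset.card_univ, Fintype.card_fin] at this
          exact_mod_cast this
      _ = N * (2 / R) * ‖E‖ := by ring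
  have hscard : (s.card : ℝ) ≤ N := by
    have := Finset.card_filter_le (univ : Finset (Fin N)) (fun k => ‖z k‖ < R)
    rw [Finset.card_univ, Fintype.card_fin] at this
    exact_mod_cast this
  have htot : ‖B * E + x * B' * E + x * B * E'‖ ≤ 2 * ((N : ℝ) + 1) * P * ‖E‖ := by
    have a1 : ‖B * E‖ ≤ P * ‖E‖ := by
      rw [norm_mul]; exact mul_le_mul_of_nonneg_right hBle (norm_nonneg _)
    have a2 : ‖x * B' * E‖ ≤ N * P * ‖E‖ := by
      rw [norm_mul]
      refine mul_le_mul_of_nonneg_right (hxB'.trans ?_) (norm_nonneg _)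
      exact mul_le_mul_of_nonneg_right hscard hPnn
    have a3 : ‖x * B * E'‖ ≤ N * P * ‖E‖ := by
      rw [norm_mul, norm_mul]
      calc ‖x‖ * ‖B‖ * ‖E'‖ ≤ (R / 2 * P) * (N * (2 / R) * ‖E‖) :=
            mul_le_mul (mul_le_mul hx hBle (norm_nonneg _) (by positivity)) hE'le
              (norm_nonneg _) (by positivity)
        _ = N * P * ‖E‖ := by field_simp
    have a4 := norm_add₃_le (a := B * E) (b := x * B' * E) (c := x * B * E')
    have a5 : 0 ≤ P * ‖E‖ := by positivity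
    nlinarith
  have hexp : Real.exp (Real.log (2 * ((N : ℝ) + 1)) + (s.card : ℝ) * Real.log (3 / 2)
      + ∑ k ∈ s, Real.log (R / ‖z k‖)) = 2 * ((N : ℝ) + 1) * P := by
    rw [Real.exp_add, Real.exp_add, Real.exp_log (by positivity), Real.exp_sum, hP,
      Finset.prod_mul_distrib, Finset.prod_const, mul_assoc]
    congr 2
    · rw [mul_comm, Real.exp_mul, Real.exp_log (by norm_num), Real.rpow_natCast]
    · refine Finset.prod_congr rfl fun k _ => ?_
      rw [Real.exp_log (div_pos hR (hzpos k))]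
  rw [hval, hexp]
  exact htot

/-- (Y1) Jensen's inequality for the zeros in a disk.  Proof: the circle average over |x| = r of
log ‖1 - x/z_k‖ equals max 0 (log (r/‖z_k‖)) (circleAverage_log_norm_sub_const_eq_log_radius_add_posLog
after factoring out -1/z_k, or posLog), so the left side is the circle average of
log ‖∏ (1 - x/z_k)‖, and by (3c) (Cfg.norm_q_le) the integrand is <= r‖V1‖ + N r^2/2 (where the
product vanishes, log 0 = 0 is also <=).  Alternative without integrals: maximum modulus for the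
product of (1 - x/z_k) (r^2 - conj(z_k) x)/(r (z_k - x)) * z_k/... (Blaschke factors). -/
theorem Cf.jensen (h : Cf N z w c) {r : ℝ} (hr : 0 < r) :
    ∑ k, max 0 (Real.log (r / ‖z k‖)) ≤ r * ‖∑ j, (w j)⁻¹‖ + N * r ^ 2 / 2 := by
  classical
  -- the integrable sum
  have hI : ∀ k, CircleIntegrable (fun x : ℂ => Real.log ‖x - z k‖ - Real.log ‖z k‖) 0 r := by
    intro k
    have h1 : CircleIntegrable (fun x : ℂ => Real.log ‖x - z k‖) 0 r :=
      circleIntegrable_log_norm_sub_const (a := z k) (c := 0) r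
    exact h1.sub (circleIntegrable_const _ _ _)
  have hI2 : CircleIntegrable (fun x : ℂ => ∑ k, (Real.log ‖x - z k‖ - Real.log ‖z k‖)) 0 r := by
    apply CircleIntegrable.fun_sum
    intro k _
    exact hI k
  have hav : Real.circleAverage (fun x : ℂ => ∑ k, (Real.log ‖x - z k‖ - Real.log ‖z k‖)) 0 r
      = ∑ k, max 0 (Real.log (r / ‖z k‖)) := by
    rw [Real.circleAverage_fun_sum (fun k _ => hI k)]
    apply Finset.sum_congr rfl
    intro k _
    have h1 : CircleIntegrable (fun x : ℂ => Real.log ‖x - z k‖) 0 r :=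
      circleIntegrable_log_norm_sub_const (a := z k) (c := 0) r
    rw [Real.circleAverage_fun_sub h1 (circleIntegrable_const _ _ _),
      Real.circleAverage_const]
    have h2 := circleAverage_log_norm_sub_const_eq_log_radius_add_posLog (a := z k) (c := 0)
      hr.ne'
    rw [h2, Real.posLog]
    have hz : 0 < ‖z k‖ := norm_pos_iff.2 (h.z_ne k)
    have e1 : Real.log (r⁻¹ * ‖0 - z k‖) = Real.log ‖z k‖ - Real.log r := by
      rw [zero_sub, norm_neg, Real.log_mul (inv_ne_zero hr.ne') hz.ne', Real.log_inv]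
      ring
    have e2 : Real.log (r / ‖z k‖) = Real.log r - Real.log ‖z k‖ := by
      rw [Real.log_div hr.ne' hz.ne']
    rw [e1, e2]
    rcases le_total (Real.log ‖z k‖) (Real.log r) with hle | hle
    · rw [max_eq_left (by linarith), max_eq_right (by linarith)]
      ring
    · rw [max_eq_right (by linarith), max_eq_left (by linarith)]
      ring
  -- the product
  have hco : (fun x : ℂ => ∑ k, (Real.log ‖x - z k‖ - Real.log ‖z k‖))
      =ᶠ[Filter.codiscreteWithin (Metric.sphere (0 : ℂ) |r|)]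
      (fun x : ℂ => Real.log ‖∏ k, (1 - x / z k)‖) := by
    have hset : {x : ℂ | ∀ k, x ≠ z k} ∈ Filter.codiscreteWithin (Metric.sphere (0 : ℂ) |r|) := by
      apply codiscreteWithin_iff_locallyFiniteComplementWithin.2
      intro x _
      refine ⟨Set.univ, Filter.univ_mem, ?_⟩
      apply Set.Finite.subset (Set.finite_range z)
      rintro y ⟨_, _, hy⟩
      simp only [Set.mem_ofPred_eq, not_forall, not_not] at hy
      obtain ⟨k, hk⟩ := hy
      exact ⟨k, hk.symm⟩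
    filter_upwards [hset] with x hx
    rw [norm_prod, Real.log_prod]
    · apply Finset.sum_congr rfl
      intro k _
      have hz : 0 < ‖z k‖ := norm_pos_iff.2 (h.z_ne k)
      have e3 : ‖1 - x / z k‖ = ‖x - z k‖ / ‖z k‖ := by
        rw [← norm_div, ← norm_neg]
        congr 1
        field_simp [h.z_ne k]
        ring
      rw [e3, Real.log_div (norm_ne_zero_iff.2 (sub_ne_zero.2 (hx k))) hz.ne']
    · intro k _ h0
      rw [norm_eq_zero] at h0
      apply hx k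
      have hz := h.z_ne k
      have h1 := (sub_eq_zero.1 h0).symm
      rwa [div_eq_one_iff_eq hz] at h1
  have hI3 : CircleIntegrable (fun x : ℂ => Real.log ‖∏ k, (1 - x / z k)‖) 0 r :=
    CircleIntegrable.congr_codiscreteWithin hco hI2
  rw [← hav, Real.circleAverage_congr_codiscreteWithin hco hr.ne']
  apply Real.circleAverage_mono_on_of_le_circle hI3
  intro x hx
  have hxr : ‖x‖ = r := by
    rw [abs_of_pos hr] at hx
    simpa using hx
  have hb := h.norm_q_le x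
  rw [hxr] at hb
  have hnn : 0 ≤ r * ‖∑ j, (w j)⁻¹‖ + N * r ^ 2 / 2 := by positivity
  rcases eq_or_ne (∏ k, (1 - x / z k)) 0 with h0 | h0
  · show Real.log ‖∏ k, (1 - x / z k)‖ ≤ _
    rw [h0, norm_zero, Real.log_zero]
    exact hnn
  · show Real.log ‖∏ k, (1 - x / z k)‖ ≤ _
    rw [Real.log_le_iff_le_exp (norm_pos_iff.2 h0)]
    exact hb

/-- (3c'') lower bound for the zero free part.  Proof: N = 0: the product is empty.  N >= 1:
norm_log_quot_ge with s = the filter, α_k = 1/z_k, t = ∅, r = ρ, A = 2ρ‖V1‖ + 2Nρ^2 > 0 (Cfg.norm_E_le),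
x = c: 2A‖c‖/(ρ-‖c‖) <= 4A‖c‖/ρ = 8‖c‖‖V1‖ + 8N‖c‖ρ. -/
theorem Cf.norm_E_ge (h : Cf N z w c) {ρ : ℝ} (hρ : 0 < ρ) (hc : 2 * ‖c‖ ≤ ρ) :
    Real.exp (-(8 * ‖c‖ * ‖∑ j, (w j)⁻¹‖ + 8 * N * ‖c‖ * ρ))
      ≤ ‖∏ k ∈ univ.filter (fun k => ρ ≤ ‖z k‖), (1 - c / z k)‖ := by
  rcases Nat.eq_zero_or_pos N with hN | hN
  · subst hN
    simp
  have hNr : (1 : ℝ) ≤ N := by exact_mod_cast hN
  have hcρ : ‖c‖ < ρ := by
    have := norm_nonneg c
    rcases eq_or_lt_of_le this with h0 | h0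
    · rw [← h0]; exact hρ
    · linarith
  set V : ℝ := ‖∑ j, (w j)⁻¹‖ with hV
  have hV0 : 0 ≤ V := norm_nonneg _
  have hA : 0 < 2 * ρ * V + 2 * N * ρ ^ 2 := by
    have h1 : 0 ≤ 2 * ρ * V := by positivity
    have h2 : 0 < 2 * (N : ℝ) * ρ ^ 2 := by positivity
    linarith
  have key := norm_log_quot_ge (univ.filter (fun k => ρ ≤ ‖z k‖)) (∅ : Finset (Fin N))
    (fun k => (z k)⁻¹) (fun _ => 0) hρ hA
    (fun i hi => by
      have hi' := (Finset.mem_filter.1 hi).2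
      have h1 : 0 < ‖z i‖ := lt_of_lt_of_le hρ hi'
      rw [norm_inv, ← div_eq_mul_inv, div_le_one h1]
      exact hi')
    (fun i hi => absurd hi (Finset.notMem_empty i))
    (fun x hx => by
      rw [Finset.prod_empty, norm_one, mul_one]
      have h1 := h.norm_E_le hρ x (by linarith [norm_nonneg x])
      simpa only [div_eq_mul_inv] using h1)
    c hcρ
  rw [Finset.prod_empty, norm_one, mul_one] at key
  have h2 : ‖∏ k ∈ univ.filter (fun k => ρ ≤ ‖z k‖), (1 - c / z k)‖ =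
      ‖∏ k ∈ univ.filter (fun k => ρ ≤ ‖z k‖), (1 - c * (z k)⁻¹)‖ := by
    simp only [div_eq_mul_inv]
  rw [h2]
  refine le_trans (Real.exp_le_exp.2 (neg_le_neg ?_)) key
  have h3 : ρ / 2 ≤ ρ - ‖c‖ := by linarith
  have h4 : 0 < ρ - ‖c‖ := by linarith
  rw [div_le_iff₀ h4]
  have h5 : (8 * ‖c‖ * V + 8 * N * ‖c‖ * ρ) * (ρ / 2) ≤
      (8 * ‖c‖ * V + 8 * N * ‖c‖ * ρ) * (ρ - ‖c‖) :=
    mul_le_mul_of_nonneg_left h3 (by positivity)
  refine le_trans (le_of_eq ?_) h5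
  ring

/-- (Y3) bound for y = f/f' on the disk of radius R/4.  Proof: A = log(2(N+1)) + ν log(3/2) + S > 0
(all terms >= 0, the first >= log 2 > 0).  norm_log_quot_ge with numerator ∏_j (1 - x (w_j)⁻¹)
(s = univ, α_j = (w j)⁻¹, r = R/2 <= 1), denominator the filtered product (β_k = 1/z_k), bound A by
norm_Q_le; for ‖x‖ <= R/4: 2A‖x‖/(R/2-‖x‖) <= 2A, so ‖f'(x)‖ >= exp(-2A) ‖E(x)‖.  And
‖x ∏ (1-x/z_k)‖ = ‖x‖ ‖B(x)‖ ‖E(x)‖ with ‖x‖ <= 1 and ‖B(x)‖ <= ∏_s (3/2)(R/‖z_k‖) <= exp A. -/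
theorem Cf.norm_f_le (h : Cf N z w c) {R : ℝ} (hR : 0 < R) (hR1 : R ≤ 1) (x : ℂ)
    (hx : ‖x‖ ≤ R / 4) :
    ‖x * ∏ k, (1 - x / z k)‖
      ≤ Real.exp (3 * (Real.log (2 * ((N : ℝ) + 1))
          + (univ.filter (fun k => ‖z k‖ < R)).card * Real.log (3 / 2)
          + ∑ k ∈ univ.filter (fun k => ‖z k‖ < R), Real.log (R / ‖z k‖)))
        * ‖∏ j, (1 - x * (w j)⁻¹)‖ := by
  classical
  set s : Finset (Fin N) := univ.filter (fun k => ‖z k‖ < R) with hs
  set t : Finset (Fin N) := univ.filter (fun k => R ≤ ‖z k‖) with ht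
  have hz : ∀ k, 0 < ‖z k‖ := fun k => norm_pos_iff.2 (h.z_ne k)
  set S : ℝ := ∑ k ∈ s, Real.log (R / ‖z k‖) with hS
  have hS0 : 0 ≤ S := by
    apply Finset.sum_nonneg
    intro k hk
    rw [hs, Finset.mem_filter] at hk
    exact Real.log_nonneg ((one_le_div (hz k)).2 hk.2.le)
  have hν0 : 0 ≤ (s.card : ℝ) * Real.log (3 / 2) :=
    mul_nonneg (Nat.cast_nonneg _) (Real.log_nonneg (by norm_num))
  have hlog : 0 < Real.log (2 * ((N : ℝ) + 1)) := by
    apply Real.log_pos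
    have : (0 : ℝ) ≤ N := Nat.cast_nonneg _
    linarith
  set A : ℝ := Real.log (2 * ((N : ℝ) + 1)) + s.card * Real.log (3 / 2) + S with hAdef
  have hA : 0 < A := by rw [hAdef]; linarith
  -- the lower bound for the derivative
  have hxR : ‖x‖ < R / 2 := lt_of_le_of_lt hx (by linarith)
  have key := norm_log_quot_ge (univ : Finset (Fin N)) t (fun j => (w j)⁻¹) (fun k => (z k)⁻¹)
    (r := R / 2) (A := A) (by linarith) hA
    (by
      intro j _
      have h1 : ‖(w j)⁻¹‖ ≤ 1 := by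
        rw [norm_inv]; exact inv_le_one_of_one_le₀ (h.one_le j)
      calc R / 2 * ‖(w j)⁻¹‖ ≤ R / 2 * 1 := mul_le_mul_of_nonneg_left h1 (by linarith)
        _ ≤ 1 := by linarith)
    (by
      intro k hk
      rw [ht, Finset.mem_filter] at hk
      rw [norm_inv]
      have h1 : ‖z k‖⁻¹ ≤ R⁻¹ := inv_anti₀ hR hk.2
      calc R / 2 * ‖z k‖⁻¹ ≤ R / 2 * R⁻¹ := mul_le_mul_of_nonneg_left h1 (by linarith)
        _ = 1 / 2 := by field_simp
        _ ≤ 1 := by norm_num)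
    (by
      intro y hy
      have h1 := h.norm_Q_le hR hR1 y hy.le
      have h2 : (∏ k ∈ t, (1 - y / z k)) = ∏ k ∈ t, (1 - y * (z k)⁻¹) := by
        apply Finset.prod_congr rfl
        intro k _
        rw [div_eq_mul_inv]
      rw [← h2]
      exact h1)
    x hxR
  have h3 : 2 * A * ‖x‖ / (R / 2 - ‖x‖) ≤ 2 * A := by
    rw [div_le_iff₀ (by linarith)]
    apply mul_le_mul_of_nonneg_left _ (by linarith)
    linarith
  have h4 : ‖∏ k ∈ t, (1 - x * (z k)⁻¹)‖
      ≤ Real.exp (2 * A) * ‖∏ j, (1 - x * (w j)⁻¹)‖ := by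
    have h5 : Real.exp (-(2 * A)) * ‖∏ k ∈ t, (1 - x * (z k)⁻¹)‖
        ≤ ‖∏ j, (1 - x * (w j)⁻¹)‖ := by
      refine le_trans (mul_le_mul_of_nonneg_right ?_ (norm_nonneg _)) key
      exact Real.exp_le_exp.2 (by linarith)
    calc ‖∏ k ∈ t, (1 - x * (z k)⁻¹)‖
        = Real.exp (2 * A) * (Real.exp (-(2 * A)) * ‖∏ k ∈ t, (1 - x * (z k)⁻¹)‖) := by
          rw [← mul_assoc, ← Real.exp_add, add_neg_cancel, Real.exp_zero, one_mul]
      _ ≤ _ := mul_le_mul_of_nonneg_left h5 (Real.exp_pos _).le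
  -- the small zeros
  have h6 : ‖∏ k ∈ s, (1 - x / z k)‖ ≤ Real.exp A := by
    rw [norm_prod]
    have h7 : ∏ k ∈ s, ‖1 - x / z k‖ ≤ ∏ k ∈ s, (3 / 2 * (R / ‖z k‖)) := by
      apply Finset.prod_le_prod (fun k _ => norm_nonneg _)
      intro k hk
      rw [hs, Finset.mem_filter] at hk
      have h8 : 1 ≤ R / ‖z k‖ := (one_le_div (hz k)).2 hk.2.le
      have h9 : ‖x‖ / ‖z k‖ ≤ 1 / 4 * (R / ‖z k‖) := by
        rw [← mul_div_assoc]
        apply div_le_div_of_nonneg_right _ (hz k).le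
        linarith
      calc ‖1 - x / z k‖ ≤ ‖(1 : ℂ)‖ + ‖x / z k‖ := norm_sub_le _ _
        _ = 1 + ‖x‖ / ‖z k‖ := by rw [norm_one, norm_div]
        _ ≤ 3 / 2 * (R / ‖z k‖) := by linarith
    have h10 : ∏ k ∈ s, (3 / 2 * (R / ‖z k‖))
        = Real.exp (s.card * Real.log (3 / 2) + S) := by
      rw [Finset.prod_mul_distrib, Finset.prod_const, Real.exp_add, hS, Real.exp_sum,
        Real.exp_nat_mul, Real.exp_log (by norm_num)]
      congr 1
      apply Finset.prod_congr rfl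
      intro k _
      rw [Real.exp_log (div_pos hR (hz k))]
    rw [h10] at h7
    refine h7.trans (Real.exp_le_exp.2 ?_)
    rw [hAdef]; linarith
  have h11 : (∏ k, (1 - x / z k))
      = (∏ k ∈ s, (1 - x / z k)) * ∏ k ∈ t, (1 - x * (z k)⁻¹) := by
    rw [← Finset.prod_filter_mul_prod_filter_not univ (fun k => ‖z k‖ < R)]
    congr 1
    have h12 : (univ.filter (fun k => ¬ ‖z k‖ < R)) = t := by
      rw [ht]
      apply Finset.filter_congr
      intro k _
      exact not_lt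
    rw [h12]
    apply Finset.prod_congr rfl
    intro k _
    rw [div_eq_mul_inv]
  have hx1 : ‖x‖ ≤ 1 := by linarith
  calc ‖x * ∏ k, (1 - x / z k)‖
      = ‖x‖ * (‖∏ k ∈ s, (1 - x / z k)‖ * ‖∏ k ∈ t, (1 - x * (z k)⁻¹)‖) := by
        rw [h11, norm_mul, norm_mul]
    _ ≤ 1 * (Real.exp A * (Real.exp (2 * A) * ‖∏ j, (1 - x * (w j)⁻¹)‖)) := by
        apply mul_le_mul hx1 _ (mul_nonneg (norm_nonneg _) (norm_nonneg _)) zero_le_one
        exact mul_le_mul h6 h4 (norm_nonneg _) (Real.exp_pos _).le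
    _ = Real.exp (3 * A) * ‖∏ j, (1 - x * (w j)⁻¹)‖ := by
        rw [one_mul, ← mul_assoc, ← Real.exp_add]
        congr 2
        ring

end Pool.MP_c113aa_an.B1
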