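import Pool.Agent.Lib.c113aaP.Cp2
import Pool.Agent.Lib.c113aaP.Lk

/-!
# Borcea's inequality for the exponent 1: the gain function
-/

set_option autoImplicit false

namespace Pool.MP_c113aa_an.B1

open Finset Pool.MP_c113aa_an.BV

variable {N : ℕ} {z w : Fin N → ℂ} {c : ℂ}

/-- The constant which plays the role of `p - 1`. -/
noncomputable def qq : ℝ := Real.sqrt (1 / 2)

theorem qq_sq : qq ^ 2 = 1 / 2 := by
  unfold qq
  rw [Real.sq_sqrt (by norm_num)]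

theorem qq_pos : 0 < qq := by
  unfold qq
  positivity

theorem qq_le_one : qq ≤ 1 := by
  have h1 := qq_sq
  have h2 := qq_pos
  nlinarith

/-- The gain function for the exponent 1. -/
noncomputable def gain1 (ρ t : ℝ) : ℝ := t - 1 - Real.log (max t ρ)

/-- `t - 1 - log t ≥ (√t - 1)^2 = (t-1)^2/(√t+1)^2 ≥ (t-1)^2/(2(1+t))`. -/
theorem gain1_ge {ρ t : ℝ} (hρ : 0 < ρ) (hρ8 : ρ ≤ 1 / 8) (ht : 0 ≤ t) :
    qq ^ 2 * (t - 1) ^ 2 / (1 + t) ≤ gain1 ρ t := by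
  rw [qq_sq]
  unfold gain1
  rcases le_or_gt ρ t with h | h
  · rw [max_eq_left h]
    have ht0 : 0 < t := lt_of_lt_of_le hρ h
    have h1 := sqrt_sub_sq_le ht0
    have hs : 0 < Real.sqrt t := Real.sqrt_pos.mpr ht0
    have h2 : Real.sqrt t ^ 2 = t := Real.sq_sqrt ht0.le
    refine le_trans ?_ h1
    set s := Real.sqrt t with hs'
    rw [← h2, div_le_iff₀ (by positivity)]
    have e1 : (s ^ 2 - 1) ^ 2 = (s - 1) ^ 2 * (s + 1) ^ 2 := by ring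
    rw [e1]
    have e2 : (s + 1) ^ 2 ≤ 2 * (1 + s ^ 2) := by nlinarith [sq_nonneg (s - 1)]
    have e3 : 0 ≤ (s - 1) ^ 2 := sq_nonneg _
    nlinarith [mul_le_mul_of_nonneg_left e2 e3]
  · rw [max_eq_right h.le]
    have h1 : Real.log ρ ≤ Real.log (1 / 8) := Real.log_le_log hρ hρ8
    have h2 : Real.log (1 / 8) = -(3 * Real.log 2) := by
      rw [one_div, Real.log_inv]
      have : (8 : ℝ) = 2 ^ 3 := by norm_num
      rw [this, Real.log_pow]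
      norm_num
    have h3 := Real.log_two_gt_d9
    have h4 : Real.log ρ ≤ -2 := by linarith
    have h7 : 1 / 2 * (t - 1) ^ 2 / (1 + t) ≤ 1 / 2 := by
      rw [div_le_iff₀ (by linarith)]
      have h9 : (t - 1) ^ 2 ≤ 1 := by nlinarith
      nlinarith
    linarith

/-- The total gain. -/
noncomputable def G1 {N : ℕ} (z : Fin N → ℂ) (c : ℂ) (ρ : ℝ) : ℝ :=
  gain1 ρ ‖c‖ + ∑ k, gain1 ρ ‖z k - c‖

theorem gain1_nonneg {ρ t : ℝ} (hρ : 0 < ρ) (hρ8 : ρ ≤ 1 / 8) (ht : 0 ≤ t) :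
    0 ≤ gain1 ρ t :=
  le_trans (by positivity) (gain1_ge hρ hρ8 ht)

theorem G1_nonneg {N : ℕ} (z : Fin N → ℂ) (c : ℂ) {ρ : ℝ} (hρ : 0 < ρ) (hρ8 : ρ ≤ 1 / 8) :
    0 ≤ G1 z c ρ :=
  add_nonneg (gain1_nonneg hρ hρ8 (norm_nonneg _))
    (Finset.sum_nonneg fun _ _ => gain1_nonneg hρ hρ8 (norm_nonneg _))

theorem Cf.sum_t_le (h : Cf N z w c) : ‖c‖ + ∑ k, ‖z k - c‖ ≤ (N : ℝ) + 1 := h.sum_le

theorem Cf.norm_sum_sub_le (h : Cf N z w c) :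
    ((N : ℝ) + 1) * ‖∑ j, (w j - c)‖ ≤ N * (|‖c‖ - 1| + ∑ k, |‖z k - c‖ - 1|) := h.foc

/-- (3b) the truncated logarithmic sum.  Proof: for every t >= 0, t^p = 1 + p log(max t ρ) + gain.
Sum over the N+1 distances and use sum_le:
p (log max(‖c‖,ρ) + ∑ log max(‖z_k-c‖,ρ)) + GG <= 0.  Now log max(‖c‖,ρ) >= log ρ; if ρ <= ‖z_k‖:
log max(‖z_k-c‖,ρ) >= log ‖z_k - c‖ = log ‖z_k‖ + log ‖1-c/z_k‖ (‖c‖ < ‖z_k‖, so z_k - c ≠ 0); if
‖z_k‖ < ρ: log max(..,ρ) >= log ρ >= log ‖z_k‖.  So the sum of logs is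
>= log ρ + ∑ log ‖z_k‖ + log ‖∏_{ρ <= ‖z_k‖} (1-c/z_k)‖ and ∑ log‖z_k‖ = log (N+1) + ∑ log ‖w_j‖
>= log (N+1) by h.prod. -/
theorem Cf.log_ineq (h : Cf N z w c) {ρ : ℝ} (hρ : 0 < ρ)
    (hρ8 : ρ ≤ 1 / 8) (hc : 2 * ‖c‖ ≤ ρ) :
    (Real.log (((N : ℝ) + 1) * ρ)
      + Real.log ‖∏ k ∈ univ.filter (fun k => ρ ≤ ‖z k‖), (1 - c / z k)‖) + G1 z c ρ ≤ 0 := by
  have hρc : ‖c‖ ≤ ρ := by
    have := norm_nonneg c
    linarith
  -- the identity for the sums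
  have hid : ∀ t : ℝ, t = 1 + Real.log (max t ρ) + gain1 ρ t := by
    intro t
    unfold gain1
    ring
  have hsum : ‖c‖ + ∑ k, ‖z k - c‖
      = ((N : ℝ) + 1) + (Real.log (max ‖c‖ ρ) + ∑ k, Real.log (max ‖z k - c‖ ρ))
        + G1 z c ρ := by
    have h1 : ∑ k, ‖z k - c‖
        = (N : ℝ) + ∑ k, Real.log (max ‖z k - c‖ ρ) + ∑ k, gain1 ρ ‖z k - c‖ := by
      have e0 : ∑ k, ‖z k - c‖
          = ∑ k, (1 + Real.log (max ‖z k - c‖ ρ) + gain1 ρ ‖z k - c‖) :=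
        Finset.sum_congr rfl (fun k _ => hid ‖z k - c‖)
      rw [e0, Finset.sum_add_distrib, Finset.sum_add_distrib]
      simp
    have h2 := hid ‖c‖
    unfold G1
    linarith
  have hle := h.sum_le
  rw [hsum] at hle
  -- lower bound for the sum of logarithms
  have hlog0 : Real.log ρ ≤ Real.log (max ‖c‖ ρ) :=
    Real.log_le_log hρ (le_max_right _ _)
  have hterm : ∀ k, Real.log ‖z k‖ + (if ρ ≤ ‖z k‖ then Real.log ‖1 - c / z k‖ else 0)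
      ≤ Real.log (max ‖z k - c‖ ρ) := by
    intro k
    have hzpos : 0 < ‖z k‖ := norm_pos_iff.mpr (h.z_ne k)
    split_ifs with hk
    · have hne : z k - c ≠ 0 := by
        intro h0
        have h1 : z k = c := sub_eq_zero.mp h0
        rw [h1] at hk hzpos
        linarith
      have hpos : 0 < ‖z k - c‖ := norm_pos_iff.mpr hne
      have h2 : z k - c = z k * (1 - c / z k) := by
        have := h.z_ne k
        field_simp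
      have h3 : 1 - c / z k ≠ 0 := by
        intro h0
        rw [h0, mul_zero] at h2
        exact hne h2
      have h4 : Real.log ‖z k‖ + Real.log ‖1 - c / z k‖ = Real.log ‖z k - c‖ := by
        rw [h2, norm_mul, Real.log_mul hzpos.ne' (norm_ne_zero_iff.mpr h3)]
      rw [h4]
      exact Real.log_le_log hpos (le_max_left _ _)
    · rw [add_zero]
      exact Real.log_le_log hzpos ((not_le.mp hk).le.trans (le_max_right _ _))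
  have hsum2 := Finset.sum_le_sum (s := (Finset.univ : Finset (Fin N))) (fun k _ => hterm k)
  rw [Finset.sum_add_distrib] at hsum2
  have hprodne : ∀ k ∈ univ.filter (fun k => ρ ≤ ‖z k‖), ‖1 - c / z k‖ ≠ 0 := by
    intro k hk
    have hk' : ρ ≤ ‖z k‖ := by simpa using hk
    rw [norm_ne_zero_iff]
    intro h0
    have hz := h.z_ne k
    have h1 : z k = c := by
      have h2 : c / z k = 1 := (sub_eq_zero.mp h0).symm
      rw [div_eq_one_iff_eq hz] at h2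
      exact h2.symm
    have hzpos : 0 < ‖z k‖ := norm_pos_iff.mpr hz
    rw [h1] at hk' hzpos
    linarith
  have hlog1 : ∑ k, (if ρ ≤ ‖z k‖ then Real.log ‖1 - c / z k‖ else 0)
      = Real.log ‖∏ k ∈ univ.filter (fun k => ρ ≤ ‖z k‖), (1 - c / z k)‖ := by
    rw [norm_prod, Real.log_prod hprodne, Finset.sum_filter]
  have hlog2 : Real.log ((N : ℝ) + 1) ≤ ∑ k, Real.log ‖z k‖ := by
    rw [← Real.log_prod (fun k _ => norm_ne_zero_iff.mpr (h.z_ne k)), h.prod]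
    have hN : (0 : ℝ) < (N : ℝ) + 1 := by positivity
    exact Real.log_le_log hN (le_mul_of_one_le_right hN.le h.one_le_prod)
  have hlog3 : Real.log (((N : ℝ) + 1) * ρ) = Real.log ((N : ℝ) + 1) + Real.log ρ := by
    rw [Real.log_mul (by positivity) hρ.ne']
  rw [hlog1] at hsum2
  have hfin : Real.log (((N : ℝ) + 1) * ρ)
      + Real.log ‖∏ k ∈ univ.filter (fun k => ρ ≤ ‖z k‖), (1 - c / z k)‖
      ≤ Real.log (max ‖c‖ ρ) + ∑ k, Real.log (max ‖z k - c‖ ρ) := by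
    rw [hlog3]
    linarith
  linarith

/-- (3d) upper bound for V1.  Proof: for ‖w‖ >= 1: ‖1/w - conj w‖ = ‖w‖ - 1/‖w‖ <= 2(‖w‖-1), and
∑ (‖w_j‖-1) <= ∑ (‖w_j-c‖ + ‖c‖ - 1) <= N‖c‖ (sum_x_le).  So ‖∑ 1/w_j‖ <= ‖∑ w_j‖ + 2N‖c‖
<= ‖∑ (w_j-c)‖ + 3N‖c‖.  By norm_sum_sub_le (N+1)‖∑(w_j-c)‖ <= N D, D = the sum of |t-1| over the
N+1 distances; Cauchy-Schwarz D^2 <= ∑(1+t) ∑ (t-1)^2/(1+t) <= 2(N+1) GG/(p-1)^2 (sum_t_le, gain_ge). -/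
theorem Cf.V1_upper (h : Cf N z w c) {ρ : ℝ} (hρ : 0 < ρ)
    (hρ8 : ρ ≤ 1 / 8) :
    ‖∑ j, (w j)⁻¹‖
      ≤ N * (3 * ‖c‖ + Real.sqrt (2 * G1 z c ρ / (qq ^ 2 * ((N : ℝ) + 1)))) := by
  have hp0 : 0 < qq := qq_pos
  have hN0 : (0 : ℝ) ≤ N := Nat.cast_nonneg N
  have hN1 : (0 : ℝ) < (N : ℝ) + 1 := by linarith
  -- step 1
  have h1 : ∀ j, ‖(w j)⁻¹ - (starRingEnd ℂ) (w j)‖ ≤ 2 * (‖w j‖ - 1) := by
    intro j
    have hw := h.one_le j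
    have hw0 : 0 < ‖w j‖ := by linarith
    have e1 : (w j)⁻¹ - (starRingEnd ℂ) (w j) =
        (starRingEnd ℂ) (w j) * (((‖w j‖ ^ 2)⁻¹ - 1 : ℝ) : ℂ) := by
      rw [Complex.inv_def, Complex.normSq_eq_norm_sq]
      push_cast
      ring
    have e2 : (‖w j‖ ^ 2)⁻¹ ≤ 1 := inv_le_one_of_one_le₀ (by nlinarith)
    rw [e1, norm_mul, RCLike.norm_conj, Complex.norm_real, Real.norm_eq_abs,
      abs_of_nonpos (by linarith)]
    have e3 : ‖w j‖ * -((‖w j‖ ^ 2)⁻¹ - 1) = ‖w j‖ - ‖w j‖⁻¹ := by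
      field_simp
      ring
    rw [e3]
    have e4 : 2 ≤ ‖w j‖ + ‖w j‖⁻¹ := by
      have e5 : ‖w j‖ + ‖w j‖⁻¹ - 2 = (‖w j‖ - 1) ^ 2 * ‖w j‖⁻¹ := by
        field_simp
        ring
      have e6 : 0 ≤ (‖w j‖ - 1) ^ 2 * ‖w j‖⁻¹ := by positivity
      linarith
    linarith
  have h2 : ∑ j, (‖w j‖ - 1) ≤ N * ‖c‖ := by
    have e1 : ∀ j, ‖w j‖ - 1 ≤ ‖w j - c‖ + (‖c‖ - 1) := by
      intro j
      have := norm_add_le (w j - c) c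
      rw [sub_add_cancel] at this
      linarith
    have e2 := Finset.sum_le_sum fun (j : Fin N) (_ : j ∈ univ) => e1 j
    rw [Finset.sum_add_distrib, Finset.sum_const, Finset.card_univ, Fintype.card_fin,
      nsmul_eq_mul] at e2
    have e3 := h.sum_x_le
    linarith
  have h3 : ‖∑ j, (w j)⁻¹‖ ≤ ‖∑ j, (w j - c)‖ + 3 * (N * ‖c‖) := by
    have e1 : ∑ j, (w j)⁻¹ = ∑ j, ((w j)⁻¹ - (starRingEnd ℂ) (w j)) +
        (starRingEnd ℂ) (∑ j, w j) := by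
      rw [Finset.sum_sub_distrib, map_sum]
      ring
    have e2 : ‖∑ j, ((w j)⁻¹ - (starRingEnd ℂ) (w j))‖ ≤ 2 * (N * ‖c‖) := by
      refine (norm_sum_le _ _).trans ((Finset.sum_le_sum fun j _ => h1 j).trans ?_)
      rw [← Finset.mul_sum]
      linarith
    have e3 : ‖(starRingEnd ℂ) (∑ j, w j)‖ ≤ ‖∑ j, (w j - c)‖ + N * ‖c‖ := by
      rw [RCLike.norm_conj]
      have e4 : ∑ j, w j = ∑ j, (w j - c) + (N : ℂ) * c := by
        rw [Finset.sum_sub_distrib, Finset.sum_const, Finset.card_univ, Fintype.card_fin,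
          nsmul_eq_mul]
        ring
      rw [e4]
      refine (norm_add_le _ _).trans (le_of_eq ?_)
      rw [norm_mul, Complex.norm_natCast]
    rw [e1]
    refine (norm_add_le _ _).trans ?_
    linarith
  -- step 2
  set t : Fin (N + 1) → ℝ := Fin.cons ‖c‖ (fun k => ‖z k - c‖) with ht
  have ht0 : ∀ i, 0 ≤ t i := by
    intro i
    refine Fin.cases ?_ (fun k => ?_) i
    · rw [ht, Fin.cons_zero]; exact norm_nonneg _
    · rw [ht, Fin.cons_succ]; exact norm_nonneg _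
  set D : ℝ := |‖c‖ - 1| + ∑ k, |‖z k - c‖ - 1| with hD
  have hD0 : 0 ≤ D := by
    have : 0 ≤ ∑ k, |‖z k - c‖ - 1| := Finset.sum_nonneg fun k _ => abs_nonneg _
    have := abs_nonneg (‖c‖ - 1)
    linarith
  have hDt : D = ∑ i, |t i - 1| := by
    rw [Fin.sum_univ_succ, ht]
    simp only [Fin.cons_zero, Fin.cons_succ]
    rfl
  have hcs : D ^ 2 ≤ (∑ i, (1 + t i)) * ∑ i, (t i - 1) ^ 2 / (1 + t i) := by
    rw [hDt]
    refine Finset.sum_sq_le_sum_mul_sum_of_sq_le_mul _ (fun i _ => by linarith [ht0 i])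
      (fun i _ => div_nonneg (sq_nonneg _) (by linarith [ht0 i])) (fun i _ => ?_)
    have := ht0 i
    rw [sq_abs]
    refine le_of_eq ?_
    field_simp
  have hs1 : ∑ i, (1 + t i) ≤ 2 * ((N : ℝ) + 1) := by
    have e1 : ∑ i, t i = ‖c‖ + ∑ k, ‖z k - c‖ := by
      rw [Fin.sum_univ_succ, ht]
      simp only [Fin.cons_zero, Fin.cons_succ]
    have e2 := h.sum_t_le
    rw [Finset.sum_add_distrib, Finset.sum_const, Finset.card_univ, Fintype.card_fin,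
      nsmul_eq_mul, e1]
    push_cast
    linarith
  have hs2 : qq ^ 2 * ∑ i, (t i - 1) ^ 2 / (1 + t i) ≤ G1 z c ρ := by
    have e1 : G1 z c ρ = ∑ i, gain1 ρ (t i) := by
      rw [Fin.sum_univ_succ, ht]
      simp only [Fin.cons_zero, Fin.cons_succ]
      rfl
    rw [e1, Finset.mul_sum]
    refine Finset.sum_le_sum fun i _ => ?_
    rw [← mul_div_assoc]
    exact gain1_ge hρ hρ8 (ht0 i)
  have hs3 : 0 ≤ ∑ i, (t i - 1) ^ 2 / (1 + t i) :=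
    Finset.sum_nonneg fun i _ => div_nonneg (sq_nonneg _) (by linarith [ht0 i])
  have hD2 : D ^ 2 ≤ 2 * ((N : ℝ) + 1) * (G1 z c ρ / qq ^ 2) := by
    refine hcs.trans (mul_le_mul hs1 ?_ hs3 (by positivity))
    rw [le_div_iff₀ (by positivity), mul_comm]
    exact hs2
  have hG0 : 0 ≤ G1 z c ρ := by
    have : 0 ≤ qq ^ 2 * ∑ i, (t i - 1) ^ 2 / (1 + t i) := by positivity
    linarith
  have hD3 : D / ((N : ℝ) + 1) ≤
      Real.sqrt (2 * G1 z c ρ / (qq ^ 2 * ((N : ℝ) + 1))) := by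
    apply Real.le_sqrt_of_sq_le
    rw [div_pow, div_le_div_iff₀ (by positivity) (by positivity)]
    have e1 : 2 * ((N : ℝ) + 1) * (G1 z c ρ / qq ^ 2) * (qq ^ 2) =
        2 * ((N : ℝ) + 1) * G1 z c ρ := by
      field_simp
    have e2 : D ^ 2 * qq ^ 2 ≤ 2 * ((N : ℝ) + 1) * G1 z c ρ := by
      rw [← e1]
      exact mul_le_mul_of_nonneg_right hD2 (by positivity)
    have e3 := mul_le_mul_of_nonneg_right e2 hN1.le
    calc D ^ 2 * (qq ^ 2 * ((N : ℝ) + 1)) = D ^ 2 * qq ^ 2 * ((N : ℝ) + 1) := by ring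
      _ ≤ 2 * ((N : ℝ) + 1) * G1 z c ρ * ((N : ℝ) + 1) := e3
      _ = _ := by ring
  have h4 := h.norm_sum_sub_le
  have h5 : ‖∑ j, (w j - c)‖ ≤ N * (D / ((N : ℝ) + 1)) := by
    rw [← mul_div_assoc, le_div_iff₀ hN1, mul_comm]
    exact h4
  have h6 : (N : ℝ) * (D / ((N : ℝ) + 1)) ≤
      N * Real.sqrt (2 * G1 z c ρ / (qq ^ 2 * ((N : ℝ) + 1))) :=
    mul_le_mul_of_nonneg_left hD3 hN0
  rw [mul_add]
  linarith

/-- (3e) the main inequality.  Proof: q = p-1, n = N+1, G = GG >= 0 (gain_ge).  From log_ineq and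
norm_E_ge: log(nρ) + G/p <= 8‖c‖‖V1‖ + 8N‖c‖ρ; V1_upper: 8‖c‖‖V1‖ <= 24 n‖c‖^2
+ 8 n ‖c‖ sqrt(2G/(q^2 n)), and 8n‖c‖ sqrt(2G/(q^2 n)) <= G/(2p) + (p/2) 128 n‖c‖^2/q^2
<= G/(2p) + (128/q^2) n‖c‖^2 (since (n‖c‖ sqrt(2G/(q^2 n)))^2 = 2 n ‖c‖^2 G/q^2).  Finally
G/4 <= G/(2p), 24 <= 24/q^2. -/
theorem Cf.main_ineq (h : Cf N z w c) {ρ : ℝ} (hρ : 0 < ρ)
    (hρ8 : ρ ≤ 1 / 8) (hc : 2 * ‖c‖ ≤ ρ) :
    Real.log (((N : ℝ) + 1) * ρ) + G1 z c ρ / 4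
      ≤ 152 / qq ^ 2 * (((N : ℝ) + 1) * ‖c‖ ^ 2) + 8 * ((N : ℝ) + 1) * ‖c‖ * ρ := by
  have hq : 0 < qq := qq_pos
  have hq1 : qq ≤ 1 := qq_le_one
  have hn : (0 : ℝ) < (N : ℝ) + 1 := by positivity
  have hN : (0 : ℝ) ≤ (N : ℝ) := Nat.cast_nonneg _
  have hG : 0 ≤ G1 z c ρ := G1_nonneg z c hρ hρ8
  have hL := h.log_ineq hρ hρ8 hc
  have hE := h.norm_E_ge hρ hc
  have hV := h.V1_upper hρ hρ8
  set E : ℝ := ‖∏ k ∈ univ.filter (fun k => ρ ≤ ‖z k‖), (1 - c / z k)‖ with hEdef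
  set V : ℝ := ‖∑ j, (w j)⁻¹‖ with hVdef
  set G : ℝ := G1 z c ρ with hGdef
  set S : ℝ := Real.sqrt (2 * G / (qq ^ 2 * ((N : ℝ) + 1))) with hSdef
  have hS0 : 0 ≤ S := Real.sqrt_nonneg _
  have hS2 : S ^ 2 = 2 * G / (qq ^ 2 * ((N : ℝ) + 1)) := Real.sq_sqrt (by positivity)
  have hS3 : S ^ 2 * qq ^ 2 * ((N : ℝ) + 1) = 2 * G := by
    rw [hS2]; field_simp
  have hlogE : -(8 * ‖c‖ * V + 8 * N * ‖c‖ * ρ) ≤ Real.log E := by
    have := Real.log_le_log (Real.exp_pos _) hE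
    rwa [Real.log_exp] at this
  have hc0 : 0 ≤ ‖c‖ := norm_nonneg c
  have h1 : Real.log (((N : ℝ) + 1) * ρ) + G ≤ 8 * ‖c‖ * V + 8 * N * ‖c‖ * ρ := by
    linarith
  have h2 : G / 2 ≤ G := by linarith
  have h3 : 8 * ‖c‖ * V ≤ 24 * ((N : ℝ) + 1) * ‖c‖ ^ 2 + 8 * ((N : ℝ) + 1) * ‖c‖ * S := by
    have h4 : 8 * ‖c‖ * V ≤ 8 * ‖c‖ * (N * (3 * ‖c‖ + S)) :=
      mul_le_mul_of_nonneg_left hV (by positivity)
    have h5 : 8 * ‖c‖ * (N * (3 * ‖c‖ + S)) ≤ 8 * ‖c‖ * (((N : ℝ) + 1) * (3 * ‖c‖ + S)) := by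
      apply mul_le_mul_of_nonneg_left _ (by positivity)
      apply mul_le_mul_of_nonneg_right _ (by positivity)
      linarith
    calc 8 * ‖c‖ * V ≤ 8 * ‖c‖ * (((N : ℝ) + 1) * (3 * ‖c‖ + S)) := h4.trans h5
      _ = 24 * ((N : ℝ) + 1) * ‖c‖ ^ 2 + 8 * ((N : ℝ) + 1) * ‖c‖ * S := by ring
  have h4 : 8 * ((N : ℝ) + 1) * ‖c‖ * S
      ≤ G / 4 + 128 / qq ^ 2 * (((N : ℝ) + 1) * ‖c‖ ^ 2) := by
    have h5 : 0 ≤ ((N : ℝ) + 1) / 8 * (qq ^ 2 * S - 32 * ‖c‖) ^ 2 := by positivity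
    have h6 : qq ^ 2 * (8 * ((N : ℝ) + 1) * ‖c‖ * S)
        ≤ qq ^ 2 * (G / 4) + 128 * (((N : ℝ) + 1) * ‖c‖ ^ 2) := by
      have h7 : ((N : ℝ) + 1) / 8 * (qq ^ 2 * S - 32 * ‖c‖) ^ 2
          = qq ^ 2 * (S ^ 2 * qq ^ 2 * ((N : ℝ) + 1)) / 8
            - qq ^ 2 * (8 * ((N : ℝ) + 1) * ‖c‖ * S)
            + 128 * (((N : ℝ) + 1) * ‖c‖ ^ 2) := by ring
      rw [h7, hS3] at h5
      linarith
    have h8 : 8 * ((N : ℝ) + 1) * ‖c‖ * S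
        = (qq ^ 2 * (8 * ((N : ℝ) + 1) * ‖c‖ * S)) / qq ^ 2 := by
      field_simp
    have h9 : G / 4 + 128 / qq ^ 2 * (((N : ℝ) + 1) * ‖c‖ ^ 2)
        = (qq ^ 2 * (G / 4) + 128 * (((N : ℝ) + 1) * ‖c‖ ^ 2)) / qq ^ 2 := by
      field_simp
    rw [h8, h9]
    exact div_le_div_of_nonneg_right h6 (by positivity)
  have h5 : 24 * ((N : ℝ) + 1) * ‖c‖ ^ 2 ≤ 24 / qq ^ 2 * (((N : ℝ) + 1) * ‖c‖ ^ 2) := by
    have h6 : (24 : ℝ) ≤ 24 / qq ^ 2 := by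
      rw [le_div_iff₀ (by positivity)]
      nlinarith
    calc 24 * ((N : ℝ) + 1) * ‖c‖ ^ 2 = 24 * (((N : ℝ) + 1) * ‖c‖ ^ 2) := by ring
      _ ≤ 24 / qq ^ 2 * (((N : ℝ) + 1) * ‖c‖ ^ 2) :=
        mul_le_mul_of_nonneg_right h6 (by positivity)
  have h6 : 8 * (N : ℝ) * ‖c‖ * ρ ≤ 8 * ((N : ℝ) + 1) * ‖c‖ * ρ := by
    have : 0 ≤ ‖c‖ * ρ := by positivity
    nlinarith
  have h7 : 152 / qq ^ 2 * (((N : ℝ) + 1) * ‖c‖ ^ 2)
      = 24 / qq ^ 2 * (((N : ℝ) + 1) * ‖c‖ ^ 2)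
        + 128 / qq ^ 2 * (((N : ℝ) + 1) * ‖c‖ ^ 2) := by ring
  linarith

end Pool.MP_c113aa_an.B1
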