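import Pool.Agent.Lib.c113aaP.Cp3

/-!
# Borcea's inequality for the exponent 1: consequences of the main inequality
-/

set_option autoImplicit false

namespace Pool.MP_c113aa_an.B1

open Finset Pool.MP_c113aa_an.BV

/-- (3e') consequences of the main inequality.  Proof: q = p-1, n = N+1, X = n‖c‖^2,
e = q^2/2500.  (i) Suppose X < e log n.  Take ρ = 2 sqrt(log n/n) (<= 1/8 for n large); 2‖c‖ <= ρ.
log(nρ) = log 2 + (log n)/2 + (log log n)/2 >= (log n)/2 (log n >= 1), n‖c‖ρ = 2 sqrt(X log n)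
<= 2 sqrt(e) log n, G >= 0: (1/2) log n <= (152/2500) log n + 16 (q/50) log n <= 0.39 log n, false.
(ii) so c ≠ 0; ρ = 2‖c‖ <= 1/8; n ρ = 2X/‖c‖ >= 32 e log n >= 1 for n large, so the log term is >= 0 and
G := G1 z c (2‖c‖) <= 4(152/q^2 + 16) X <= (672/q^2) X.
(iii) V1_upper with this ρ: sqrt(2G/(q^2 n)) <= sqrt(1344) ‖c‖/q^2 <= 37‖c‖/q^2, so
‖V1‖ <= n‖c‖(3+37/q^2) <= (40/q^2) n‖c‖.
(iv) ‖z_k‖ < 1/4 implies t = ‖z_k-c‖ <= 1/2, gain >= q^2 (t-1)^2/(1+t) >= q^2/6, so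
card * q^2/6 <= G (all gains >= 0) and card <= 6*672/q^4 X = (4032/q^4) X. -/
theorem consequences1 :
    ∃ N₀ : ℕ, ∀ N : ℕ, N₀ ≤ N → ∀ (z w : Fin N → ℂ) (c : ℂ), Cf N z w c →
      ‖c‖ ≤ 1 / 16 →
      qq ^ 2 / 2500 * Real.log ((N : ℝ) + 1) ≤ ((N : ℝ) + 1) * ‖c‖ ^ 2 ∧
      ‖∑ j, (w j)⁻¹‖ ≤ 40 / qq ^ 2 * (((N : ℝ) + 1) * ‖c‖) ∧
      ((univ.filter (fun k => ‖z k‖ < 1 / 4)).card : ℝ)
        ≤ 4032 / qq ^ 4 * (((N : ℝ) + 1) * ‖c‖ ^ 2) := by
  have hq : 0 < qq := qq_pos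
  have hq1 : qq ≤ 1 := qq_le_one
  have hq2 : qq ^ 2 ≤ 1 := by nlinarith
  obtain ⟨N₀, hN₀⟩ := s3e_threshold (2500 / (32 * qq ^ 2))
  refine ⟨N₀, fun N hN z w c h hc16 => ?_⟩
  obtain ⟨hK, hL1, hLn⟩ := hN₀ N hN
  have hn : (0 : ℝ) < (N : ℝ) + 1 := by positivity
  have hN0 : (0 : ℝ) ≤ (N : ℝ) := Nat.cast_nonneg _
  have hc0 : 0 ≤ ‖c‖ := norm_nonneg c
  set n : ℝ := (N : ℝ) + 1 with hndef
  set L : ℝ := Real.log n with hLdef
  -- (i)
  have hi : qq ^ 2 / 2500 * L ≤ n * ‖c‖ ^ 2 := by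
    by_contra hcon
    push Not at hcon
    have hs0 : 0 ≤ Real.sqrt (L / n) := Real.sqrt_nonneg _
    have hs2 : Real.sqrt (L / n) ^ 2 = L / n := Real.sq_sqrt (by positivity)
    have hs3 : Real.sqrt (L / n) ^ 2 * n = L := by rw [hs2]; field_simp
    set s : ℝ := Real.sqrt (L / n) with hsdef
    have hspos : 0 < s := Real.sqrt_pos.2 (by positivity)
    have hs16 : s ≤ 1 / 16 := by
      have : s ^ 2 ≤ (1 / 16) ^ 2 := by rw [hs2]; norm_num; linarith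
      exact le_of_sq_le_sq this (by norm_num)
    have hX : n * ‖c‖ ^ 2 < qq ^ 2 / 2500 * (s ^ 2 * n) := by rw [hs3]; exact hcon
    have hcs : ‖c‖ ^ 2 < (qq / 50 * s) ^ 2 := by
      have h1 : n * ‖c‖ ^ 2 < n * (qq / 50 * s) ^ 2 := by
        calc n * ‖c‖ ^ 2 < qq ^ 2 / 2500 * (s ^ 2 * n) := hX
          _ = n * (qq / 50 * s) ^ 2 := by ring
      exact lt_of_mul_lt_mul_left h1 hn.le
    have hcs' : ‖c‖ < qq / 50 * s := lt_of_pow_lt_pow_left₀ 2 (by positivity) hcs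
    have hcs'' : ‖c‖ ≤ s := by
      have : qq / 50 * s ≤ 1 * s := by
        apply mul_le_mul_of_nonneg_right _ hs0
        linarith
      linarith
    have hmain := h.main_ineq (ρ := 2 * s) (by positivity) (by linarith) (by linarith)
    have hG := G1_nonneg z c (ρ := 2 * s) (by positivity) (by linarith)
    rw [← hndef] at hmain
    -- n * (2 s) >= sqrt n
    have hns : Real.sqrt n ≤ n * (2 * s) := by
      have h1 : Real.sqrt n ^ 2 = n := Real.sq_sqrt hn.le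
      have h2 : (n * (2 * s)) ^ 2 = 4 * n * L := by
        calc (n * (2 * s)) ^ 2 = 4 * n * (s ^ 2 * n) := by ring
          _ = 4 * n * L := by rw [hs3]
      have h3 : Real.sqrt n ^ 2 ≤ (n * (2 * s)) ^ 2 := by
        rw [h1, h2]
        nlinarith
      exact le_of_sq_le_sq h3 (by positivity)
    have hlog : L / 2 ≤ Real.log (n * (2 * s)) := by
      have h1 := Real.log_le_log (Real.sqrt_pos.2 hn) hns
      rwa [Real.log_sqrt hn.le] at h1
    have hcr : n * ‖c‖ * (2 * s) ≤ L / 25 := by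
      have h1 : n * ‖c‖ * (2 * s) ≤ n * (qq / 50 * s) * (2 * s) := by
        apply mul_le_mul_of_nonneg_right _ (by positivity)
        exact mul_le_mul_of_nonneg_left hcs'.le hn.le
      have h2 : n * (qq / 50 * s) * (2 * s) = qq * (s ^ 2 * n) / 25 := by ring
      rw [h2, hs3] at h1
      have h3 : qq * L ≤ 1 * L := mul_le_mul_of_nonneg_right hq1 (by linarith)
      linarith
    have hX2 : 152 / qq ^ 2 * (n * ‖c‖ ^ 2) ≤ 152 / 2500 * L := by
      calc 152 / qq ^ 2 * (n * ‖c‖ ^ 2)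
          ≤ 152 / qq ^ 2 * (qq ^ 2 / 2500 * L) :=
            mul_le_mul_of_nonneg_left hcon.le (by positivity)
        _ = 152 / 2500 * L := by field_simp
    have h8 : 8 * n * ‖c‖ * (2 * s) = 8 * (n * ‖c‖ * (2 * s)) := by ring
    rw [h8] at hmain
    linarith
  have hXpos : 0 < n * ‖c‖ ^ 2 := lt_of_lt_of_le (by positivity) hi
  have hcpos : 0 < ‖c‖ := by
    rcases hc0.eq_or_lt with h0 | h0
    · rw [← h0] at hXpos; simp at hXpos
    · exact h0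
  -- (ii)
  have hmain := h.main_ineq (ρ := 2 * ‖c‖) (by positivity) (by linarith) le_rfl
  rw [← hndef] at hmain
  have hG0 := G1_nonneg z c (ρ := 2 * ‖c‖) (by positivity) (by linarith)
  set G : ℝ := G1 z c (2 * ‖c‖) with hGdef
  have hlog0 : 0 ≤ Real.log (n * (2 * ‖c‖)) := by
    apply Real.log_nonneg
    have h1 : 2500 / (32 * qq ^ 2) ≤ L := hK
    have h2 : 1 ≤ 32 * (qq ^ 2 / 2500 * L) := by
      calc (1 : ℝ) = 32 * (qq ^ 2 / 2500 * (2500 / (32 * qq ^ 2))) := by field_simp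
        _ ≤ 32 * (qq ^ 2 / 2500 * L) := by gcongr
    have h3 : 1 ≤ 32 * (n * ‖c‖ ^ 2) := by linarith
    have h4 : 32 * (n * ‖c‖ ^ 2) ≤ n * (2 * ‖c‖) := by
      have h5 : n * ‖c‖ * ‖c‖ ≤ n * ‖c‖ * (1 / 16) :=
        mul_le_mul_of_nonneg_left hc16 (by positivity)
      nlinarith
    linarith
  have hGle : G ≤ 672 / qq ^ 2 * (n * ‖c‖ ^ 2) := by
    have h1 : G / 4 ≤ 152 / qq ^ 2 * (n * ‖c‖ ^ 2) + 16 * (n * ‖c‖ ^ 2) := by
      have h8 : 8 * n * ‖c‖ * (2 * ‖c‖) = 16 * (n * ‖c‖ ^ 2) := by ring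
      rw [h8] at hmain
      linarith
    have h2 : 16 * (n * ‖c‖ ^ 2) ≤ 16 / qq ^ 2 * (n * ‖c‖ ^ 2) := by
      apply mul_le_mul_of_nonneg_right _ hXpos.le
      rw [le_div_iff₀ (by positivity)]
      linarith
    have h3 : 672 / qq ^ 2 * (n * ‖c‖ ^ 2)
        = 4 * (152 / qq ^ 2 * (n * ‖c‖ ^ 2) + 16 / qq ^ 2 * (n * ‖c‖ ^ 2)) := by ring
    linarith
  refine ⟨hi, ?_, ?_⟩
  · -- (iii)
    have hV := h.V1_upper (ρ := 2 * ‖c‖) (by positivity) (by linarith)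
    rw [← hndef, ← hGdef] at hV
    have hS : Real.sqrt (2 * G / (qq ^ 2 * n)) ≤ 37 * ‖c‖ / qq ^ 2 := by
      rw [Real.sqrt_le_left (by positivity)]
      have h1 : 2 * G / (qq ^ 2 * n)
          ≤ 2 * (672 / qq ^ 2 * (n * ‖c‖ ^ 2)) / (qq ^ 2 * n) := by
        apply div_le_div_of_nonneg_right _ (by positivity)
        linarith
      have h2 : 2 * (672 / qq ^ 2 * (n * ‖c‖ ^ 2)) / (qq ^ 2 * n)
          = 1344 * (‖c‖ / qq ^ 2) ^ 2 := by
        field_simp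
        ring
      have h3 : (37 * ‖c‖ / qq ^ 2) ^ 2 = 1369 * (‖c‖ / qq ^ 2) ^ 2 := by ring
      rw [h3]
      have h4 : 0 ≤ (‖c‖ / qq ^ 2) ^ 2 := by positivity
      linarith
    calc ‖∑ j, (w j)⁻¹‖ ≤ N * (3 * ‖c‖ + Real.sqrt (2 * G / (qq ^ 2 * n))) := hV
      _ ≤ n * (3 * ‖c‖ + 37 * ‖c‖ / qq ^ 2) := by
        apply mul_le_mul (by linarith) (by linarith) (by positivity) hn.le
      _ ≤ n * (3 * ‖c‖ / qq ^ 2 + 37 * ‖c‖ / qq ^ 2) := by
        apply mul_le_mul_of_nonneg_left _ hn.le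
        have : 3 * ‖c‖ ≤ 3 * ‖c‖ / qq ^ 2 := by
          rw [le_div_iff₀ (by positivity)]
          have : 3 * ‖c‖ * qq ^ 2 ≤ 3 * ‖c‖ * 1 :=
            mul_le_mul_of_nonneg_left hq2 (by positivity)
          linarith
        linarith
      _ = 40 / qq ^ 2 * (n * ‖c‖) := by ring
  · -- (iv)
    have hcard : ((univ.filter (fun k => ‖z k‖ < 1 / 4)).card : ℝ) * (qq ^ 2 / 6) ≤ G := by
      have h1 : ((univ.filter (fun k => ‖z k‖ < 1 / 4)).card : ℝ) * (qq ^ 2 / 6)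
          ≤ ∑ k ∈ univ.filter (fun k => ‖z k‖ < 1 / 4), gain1 (2 * ‖c‖) ‖z k - c‖ := by
        rw [← nsmul_eq_mul]
        apply Finset.card_nsmul_le_sum
        intro k hk
        have hk' : ‖z k‖ < 1 / 4 := (Finset.mem_filter.1 hk).2
        have ht : ‖z k - c‖ ≤ 1 / 2 := by
          have := norm_sub_le (z k) c
          linarith
        have ht0 : 0 ≤ ‖z k - c‖ := norm_nonneg _
        have hg := gain1_ge (ρ := 2 * ‖c‖) (by positivity) (by linarith) ht0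
        refine le_trans ?_ hg
        rw [div_le_div_iff₀ (by norm_num) (by linarith)]
        have h5 : (1 / 2 : ℝ) ^ 2 ≤ (‖z k - c‖ - 1) ^ 2 := by nlinarith
        have h6 : 0 < qq ^ 2 := by positivity
        have h7 : (1 + ‖z k - c‖) ≤ (‖z k - c‖ - 1) ^ 2 * 6 := by nlinarith
        calc qq ^ 2 * (1 + ‖z k - c‖) ≤ qq ^ 2 * ((‖z k - c‖ - 1) ^ 2 * 6) :=
              mul_le_mul_of_nonneg_left h7 h6.le
          _ = qq ^ 2 * (‖z k - c‖ - 1) ^ 2 * 6 := by ring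
      have h2 : ∑ k ∈ univ.filter (fun k => ‖z k‖ < 1 / 4), gain1 (2 * ‖c‖) ‖z k - c‖
          ≤ ∑ k, gain1 (2 * ‖c‖) ‖z k - c‖ := by
        apply Finset.sum_le_sum_of_subset_of_nonneg (Finset.filter_subset _ _)
        intro k _ _
        exact gain1_nonneg (by positivity) (by linarith) (norm_nonneg _)
      have h3 : 0 ≤ gain1 (2 * ‖c‖) ‖c‖ :=
        gain1_nonneg (by positivity) (by linarith) (norm_nonneg _)
      rw [hGdef]
      unfold G1
      linarith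
    have h1 : ((univ.filter (fun k => ‖z k‖ < 1 / 4)).card : ℝ) ≤ 6 / qq ^ 2 * G := by
      have h2 : ((univ.filter (fun k => ‖z k‖ < 1 / 4)).card : ℝ)
          = 6 / qq ^ 2
            * (((univ.filter (fun k => ‖z k‖ < 1 / 4)).card : ℝ) * (qq ^ 2 / 6)) := by
        generalize ((univ.filter (fun k => ‖z k‖ < 1 / 4)).card : ℝ) = m
        field_simp
      rw [h2]
      exact mul_le_mul_of_nonneg_left hcard (by positivity)
    calc ((univ.filter (fun k => ‖z k‖ < 1 / 4)).card : ℝ) ≤ 6 / qq ^ 2 * G := h1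
      _ ≤ 6 / qq ^ 2 * (672 / qq ^ 2 * (n * ‖c‖ ^ 2)) :=
        mul_le_mul_of_nonneg_left hGle (by positivity)
      _ = 4032 / qq ^ 4 * (n * ‖c‖ ^ 2) := by
        field_simp
        norm_num

end Pool.MP_c113aa_an.B1
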