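import Pool.Agent.Lib.c113aaP.Cp4

/-!
# Borcea's inequality for the exponent 1: the circle, with one of two lower bounds
-/

set_option autoImplicit false

namespace Pool.MP_c113aa_an.B1

open Finset Pool.MP_c113aa_an.BV

/-- (L5), auxiliary: choice of the radius for the linear part. -/
theorem l5_radius1 {V1 V2 : ℂ} {b μ : ℝ} (hb : 0 < b) (hμ : 0 < μ)
    (hV : μ ≤ ‖V1‖ ∨ μ ≤ 8 * b * ‖V2‖) :
    ∃ r : ℝ, 0 < r ∧ r ≤ 2 * b ∧ ∀ x : ℂ, ‖x‖ = r →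
      μ / 16 ≤ ‖V1 + x * V2‖ ∧ ‖V2‖ * (b / 16) ≤ ‖V1 + x * V2‖ / 8 := by
  by_cases hc : 8 * b * ‖V2‖ ≤ ‖V1‖
  · replace hV : μ ≤ ‖V1‖ := hV.elim id fun h => h.trans hc
    refine ⟨b, hb, by linarith, fun x hx => ?_⟩
    have h1 : ‖V1‖ - ‖x * V2‖ ≤ ‖V1 + x * V2‖ := by
      have := norm_sub_norm_le V1 (-(x * V2))
      rwa [norm_neg, sub_neg_eq_add] at this
    rw [norm_mul, hx] at h1
    constructor
    · nlinarith [norm_nonneg V1, norm_nonneg V2]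
    · nlinarith [norm_nonneg V1, norm_nonneg V2]
  · push Not at hc
    replace hV : μ ≤ 8 * b * ‖V2‖ := hV.elim (fun h => h.trans hc.le) id
    have hV2 : V2 ≠ 0 := by
      rintro rfl
      rw [norm_zero, mul_zero] at hV
      linarith
    have hV2n : 0 < ‖V2‖ := norm_pos_iff.mpr hV2
    obtain ⟨r, hr0, hr2, hr⟩ : ∃ r : ℝ, 0 < r ∧ r ≤ 2 * b ∧ b / 2 ≤ |r - ‖V1 / V2‖| := by
      by_cases h : ‖V1 / V2‖ ≤ 3 * b / 2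
      · refine ⟨2 * b, by linarith, le_rfl, ?_⟩
        rw [abs_of_nonneg (by linarith)]
        linarith
      · push Not at h
        refine ⟨b, hb, by linarith, ?_⟩
        rw [abs_of_nonpos (by linarith)]
        linarith
    refine ⟨r, hr0, hr2, fun x hx => ?_⟩
    have h1 : V1 + x * V2 = V2 * (x + V1 / V2) := by
      field_simp
      ring
    have h2 : |‖x‖ - ‖V1 / V2‖| ≤ ‖x + V1 / V2‖ := by
      have := abs_norm_sub_norm_le x (-(V1 / V2))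
      rwa [norm_neg, sub_neg_eq_add] at this
    rw [hx] at h2
    have h3 : ‖V2‖ * (b / 2) ≤ ‖V1 + x * V2‖ := by
      rw [h1, norm_mul]
      exact mul_le_mul_of_nonneg_left (hr.trans h2) hV2n.le
    constructor
    · nlinarith
    · nlinarith

/-- (L5) choice of the circle.  Proof: V1 = ∑ v_j, V2 = ∑ v_j^2, Lam(x) = V1 + x V2,
rem = LL + Lam, ‖rem(x)‖ <= 2N‖x‖^2 (L1).  For ‖x‖ <= 4b (<= 1/4): ‖rem‖ <= 32 N b^2 <= μ/256.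
Case 1: 8b‖V2‖ <= ‖V1‖: take r = b (or 2b): for ‖x‖ <= 2b, ‖Lam(x)‖ >= (3/4)‖V1‖ and
‖V2‖ b/16 <= ‖V1‖/128 <= ‖Lam(x)‖/8.
Case 2: 8b‖V2‖ > ‖V1‖ (V2 ≠ 0): x0 = -V1/V2, choose r in {b,2b} with |r - ‖x0‖| >= b/2; for ‖x‖ = r,
‖Lam(x)‖ = ‖V2‖‖x-x0‖ >= ‖V2‖ b/2 > ‖V1‖/16 and ‖V2‖ b/16 <= ‖Lam(x)‖/8.
In both cases ‖Lam(x)‖ >= ‖V1‖/16 >= μ/16, ‖rem‖ <= μ/256 <= ‖Lam(x)‖/16, so
‖LL v x‖ >= (15/16)‖Lam(x)‖ >= (15/256) μ >= μ/18.  For ‖y-x‖ <= b/16 (then ‖y‖ <= 4b):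
‖LL y - LL x‖ <= ‖V2‖‖y-x‖ + ‖rem y‖ + ‖rem x‖ <= ‖Lam(x)‖/4 <= ‖LL v x‖/2. -/
theorem exists_circle1 {N : ℕ} (v : Fin N → ℂ) (hv : ∀ j, ‖v j‖ ≤ 1) {b μ : ℝ} (hb : 0 < b)
    (hb8 : b ≤ 1 / 16) (hμ : 0 < μ) (hV : μ ≤ ‖∑ j, v j‖ ∨ μ ≤ 8 * b * ‖∑ j, v j ^ 2‖) (hsmall : 8192 * N * b ^ 2 ≤ μ) :
    ∃ r : ℝ, 0 < r ∧ r ≤ 2 * b ∧ ∀ x : ℂ, ‖x‖ = r →
      μ / 18 ≤ ‖LL v x‖ ∧ ∀ y : ℂ, ‖y - x‖ ≤ b / 16 → ‖LL v y - LL v x‖ ≤ ‖LL v x‖ / 2 := by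
  obtain ⟨r, hr0, hr2, hr⟩ := l5_radius1 (V1 := ∑ j, v j) (V2 := ∑ j, v j ^ 2) hb hμ hV
  have hrem : ∀ x : ℂ, ‖x‖ ≤ 4 * b →
      ‖LL v x + ((∑ j, v j) + x * ∑ j, v j ^ 2)‖ ≤ μ / 256 := by
    intro x hx
    refine (norm_LL_add_le v hv x (by linarith)).trans ?_
    have h1 : ‖x‖ ^ 2 ≤ (4 * b) ^ 2 := pow_le_pow_left₀ (norm_nonneg _) hx 2
    have h2 : 2 * (N : ℝ) * ‖x‖ ^ 2 ≤ 2 * N * (4 * b) ^ 2 :=
      mul_le_mul_of_nonneg_left h1 (by positivity)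
    nlinarith
  refine ⟨r, hr0, hr2, fun x hx => ?_⟩
  obtain ⟨h1, h2⟩ := hr x hx
  have h3 := hrem x (by linarith)
  generalize hLam : (∑ j, v j) + x * ∑ j, v j ^ 2 = Lam at h1 h2 h3
  have h4 : ‖Lam‖ - ‖LL v x + Lam‖ ≤ ‖LL v x‖ := by
    have := norm_sub_norm_le Lam (LL v x + Lam)
    rwa [show Lam - (LL v x + Lam) = -LL v x by ring, norm_neg] at this
  refine ⟨by linarith, fun y hy => ?_⟩
  have h5 : ‖y‖ ≤ 4 * b := by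
    have : ‖y‖ ≤ ‖y - x‖ + ‖x‖ := by
      calc ‖y‖ = ‖(y - x) + x‖ := by rw [sub_add_cancel]
        _ ≤ _ := norm_add_le _ _
    linarith
  have h6 := hrem y h5
  have h7 : LL v y - LL v x = (LL v y + ((∑ j, v j) + y * ∑ j, v j ^ 2)) - (LL v x + Lam)
      - (y - x) * ∑ j, v j ^ 2 := by
    rw [← hLam]; ring
  have h8 : ‖(y - x) * ∑ j, v j ^ 2‖ ≤ ‖∑ j, v j ^ 2‖ * (b / 16) := by
    rw [norm_mul, mul_comm]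
    exact mul_le_mul_of_nonneg_left hy (norm_nonneg _)
  have h9 : ‖LL v y - LL v x‖ ≤ ‖LL v y + ((∑ j, v j) + y * ∑ j, v j ^ 2)‖ + ‖LL v x + Lam‖
      + ‖(y - x) * ∑ j, v j ^ 2‖ := by
    rw [h7]
    refine (norm_sub_le _ _).trans ?_
    gcongr
    exact norm_sub_le _ _
  linarith

end Pool.MP_c113aa_an.B1
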