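import Pool.Agent.Lib.c113aaP.Cp5

/-!
# Borcea's inequality for the exponent 1: small `c` is impossible
-/

set_option autoImplicit false

namespace Pool.MP_c113aa_an.B1

open Finset Pool.MP_c113aa_an.BV

variable {N : ℕ} {z w : Fin N → ℂ} {c : ℂ}

private theorem vd_point (a : ℂ) (ha : ‖a‖ ≤ 1 / 4) :
    1 - a.re + 3 / 8 * a.im ^ 2 ≤ ‖1 - a‖ := by
  have h1 : |a.re| ≤ 1 / 4 := (Complex.abs_re_le_norm a).trans ha
  have h2 : |a.im| ≤ 1 / 4 := (Complex.abs_im_le_norm a).trans ha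
  rw [abs_le] at h1 h2
  have h3 : ‖1 - a‖ ^ 2 = (1 - a.re) ^ 2 + a.im ^ 2 := by
    rw [← Complex.normSq_eq_norm_sq, Complex.normSq_apply]
    simp only [Complex.sub_re, Complex.one_re, Complex.sub_im, Complex.one_im]
    ring
  have h4 : 0 ≤ 1 - a.re + 3 / 8 * a.im ^ 2 := by nlinarith [sq_nonneg a.im]
  have h5 : (1 - a.re + 3 / 8 * a.im ^ 2) ^ 2 ≤ ‖1 - a‖ ^ 2 := by
    rw [h3]
    have h6 : a.im ^ 2 ≤ 1 / 16 := by nlinarith
    have h7 : 0 ≤ a.im ^ 2 := sq_nonneg _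
    nlinarith [mul_nonneg h7 (by linarith : (0:ℝ) ≤ 1/16 - a.im ^ 2),
      mul_nonneg h7 (by linarith : (0:ℝ) ≤ a.re + 1/4)]
  exact le_of_sq_le_sq h5 (norm_nonneg _)

/-- The dichotomy which replaces `V1_lower`. -/
theorem Cf.V_dich (h : Cf N z w c) (hc : ‖c‖ ≤ 1 / 4) (hc0 : 0 < ‖c‖) :
    1 / 40 * (N : ℝ) * ‖c‖ ≤ ‖∑ j, (w j)⁻¹‖ ∨ (N : ℝ) / 4 ≤ ‖∑ j, (w j)⁻¹ ^ 2‖ := by
  obtain ⟨a, hadef⟩ : ∃ a : Fin N → ℂ, a = fun j => c * (w j)⁻¹ := ⟨_, rfl⟩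
  have ha : ∀ j, ‖a j‖ ≤ 1 / 4 := by
    intro j
    rw [hadef]
    simp only [norm_mul]
    have h1 := h.norm_inv_le j
    have h2 : ‖c‖ * ‖(w j)⁻¹‖ ≤ ‖c‖ * 1 := mul_le_mul_of_nonneg_left h1 hc0.le
    linarith
  have hX : ∀ j, ‖1 - a j‖ = ‖w j - c‖ * ‖(w j)⁻¹‖ := by
    intro j
    rw [hadef]
    exact h.one_sub_div j
  have hX1 : ∀ j, ‖1 - a j‖ ≤ ‖w j - c‖ := by
    intro j
    rw [hX j]
    exact mul_le_of_le_one_right (norm_nonneg _) (h.norm_inv_le j)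
  have hXs := h.sum_x_le
  -- the real part
  have hre : 3 / 8 * ∑ j, (a j).im ^ 2 ≤ (∑ j, a j).re := by
    have h1 : ∑ j, (1 - (a j).re + 3 / 8 * (a j).im ^ 2) ≤ ∑ j, ‖w j - c‖ :=
      Finset.sum_le_sum fun j _ => (vd_point (a j) (ha j)).trans (hX1 j)
    rw [Finset.sum_add_distrib, Finset.sum_sub_distrib, Finset.sum_const, Finset.card_univ,
      Fintype.card_fin, nsmul_eq_mul, mul_one, ← Finset.mul_sum] at h1
    rw [Complex.re_sum]
    linarith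
  -- the squares
  have hsq : 9 / 16 * (N : ℝ) ≤ ∑ j, ‖(w j)⁻¹‖ ^ 2 := by
    have h1 : ∀ j, 9 / 16 * (3 - 2 * ‖w j - c‖) ≤ ‖(w j)⁻¹‖ ^ 2 := by
      intro j
      have h2 : 3 / 4 ≤ ‖w j - c‖ * ‖(w j)⁻¹‖ := by
        rw [← hX j]
        have h3 := norm_sub_norm_le (1 : ℂ) (a j)
        rw [norm_one] at h3
        have h4 := ha j
        linarith
      have hX0 : 0 ≤ ‖w j - c‖ := norm_nonneg _
      generalize ‖w j - c‖ = X at h2 hX0
      generalize ‖(w j)⁻¹‖ = v at h2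
      have hv0 : 0 ≤ v ^ 2 := sq_nonneg v
      · rcases le_total (3 - 2 * X) 0 with h5 | h5
        · nlinarith
        · have h6 : (3 / 4 : ℝ) ^ 2 ≤ (X * v) ^ 2 := pow_le_pow_left₀ (by norm_num) h2 2
          have h7 : (3 - 2 * X) * X ^ 2 ≤ 1 := by nlinarith [mul_nonneg (by linarith : (0:ℝ) ≤ 2 * X + 1) (sq_nonneg (X - 1))]
          have hXp : 0 < X := by
            rcases hX0.eq_or_lt with h8 | h8
            · rw [← h8] at h2; simp at h2; linarith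
            · exact h8
          have h9 : 9 / 16 * (3 - 2 * X) * X ^ 2 ≤ v ^ 2 * X ^ 2 := by nlinarith
          exact le_of_mul_le_mul_right h9 (by positivity)
    have h2 := Finset.sum_le_sum fun (j : Fin N) (_ : j ∈ univ) => h1 j
    rw [← Finset.mul_sum, Finset.sum_sub_distrib, Finset.sum_const, Finset.card_univ,
      Fintype.card_fin, nsmul_eq_mul, ← Finset.mul_sum] at h2
    linarith
  have hsum1 : ∑ j, a j = c * ∑ j, (w j)⁻¹ := by
    rw [hadef, Finset.mul_sum]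
  have hsum2 : ∑ j, a j ^ 2 = c ^ 2 * ∑ j, (w j)⁻¹ ^ 2 := by
    rw [hadef, Finset.mul_sum]
    refine Finset.sum_congr rfl fun j _ => ?_
    ring
  by_cases hcase : ‖c‖ ^ 2 * N / 10 ≤ ∑ j, (a j).im ^ 2
  · left
    have h1 : (∑ j, a j).re ≤ ‖c‖ * ‖∑ j, (w j)⁻¹‖ := by
      rw [← norm_mul, ← hsum1]
      exact Complex.re_le_norm _
    have h2 : ‖c‖ * (1 / 40 * (N : ℝ) * ‖c‖) ≤ ‖c‖ * ‖∑ j, (w j)⁻¹‖ := by
      have h3 : 0 ≤ ‖c‖ ^ 2 * N := by positivity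
      nlinarith
    exact le_of_mul_le_mul_left h2 hc0
  · right
    push Not at hcase
    have h1 : (∑ j, a j ^ 2).re ≤ ‖c‖ ^ 2 * ‖∑ j, (w j)⁻¹ ^ 2‖ := by
      rw [← norm_pow, ← norm_mul, ← hsum2]
      exact Complex.re_le_norm _
    have h2 : (∑ j, a j ^ 2).re = ∑ j, ‖a j‖ ^ 2 - 2 * ∑ j, (a j).im ^ 2 := by
      rw [Complex.re_sum, Finset.mul_sum, ← Finset.sum_sub_distrib]
      refine Finset.sum_congr rfl fun j _ => ?_
      rw [← Complex.normSq_eq_norm_sq, Complex.normSq_apply, pow_two, Complex.mul_re]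
      ring
    have h3 : ∑ j, ‖a j‖ ^ 2 = ‖c‖ ^ 2 * ∑ j, ‖(w j)⁻¹‖ ^ 2 := by
      rw [Finset.mul_sum]
      refine Finset.sum_congr rfl fun j _ => ?_
      rw [hadef]
      simp only [norm_mul]
      ring
    have h4 : ‖c‖ ^ 2 * (9 / 16 * (N : ℝ)) ≤ ∑ j, ‖a j‖ ^ 2 := by
      rw [h3]
      exact mul_le_mul_of_nonneg_left hsq (by positivity)
    have h5 : ‖c‖ ^ 2 * ((N : ℝ) / 4) ≤ ‖c‖ ^ 2 * ‖∑ j, (w j)⁻¹ ^ 2‖ := by
      have h6 : 0 ≤ ‖c‖ ^ 2 * N := by positivity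
      nlinarith
    exact le_of_mul_le_mul_left h5 (by positivity)

/-- Step 3: the case of small |c| is impossible for large N.
Proof: q = p-1, n = N+1, C = ‖c‖, X = n C^2, v_j = 1/w_j, e = q^2/2500, C3 = 4032/q^4, C4 = 40/q^2.
A_K := 2/e + C3/2 + C3 log(16K) + C4 + 1/2.  By exists_K choose K >= 1 with
q^2 K/23040 >= 1 + 2/e + 3 A_K (A_K <= const * (1 + log K)).  κ := min (1/(64K)) (q^2/(163840 K^2))
(and <= 1/16).  For N large, consequences gives X >= e log n (so c ≠ 0 and X is large),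
‖V1‖ <= C4 n C, ν := card{‖z_k‖<1/4} <= C3 X.  b := K C, R := 16 b <= 1/4, l := b/16,
μ := (q^2/20) N C <= ‖V1‖ by V1_lower (divide by C).  8192 N b^2 <= μ by the choice of κ.
exists_circle: r in (0,2b] with, for ‖x‖ = r, ‖L‖ := ‖LL v x‖ >= μ/18 >= (q^2/720) n C (N >= n/2).
Y := exp(3A), A = log(2n) + ν_R log(3/2) + S, where ν_R = card{‖z_k‖<R} <= ν <= C3 X and
S = ∑_{‖z_k‖<R} log(R/‖z_k‖) <= ν_R log(16K) + ∑ max 0 log(C/‖z_k‖) <= C3 X log(16K) + C‖V1‖ + N C^2/2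
(jensen with r = C), log(2n) <= 2 log n <= 2X/e; so A <= A_K X. -/
theorem step3_one :
    ∃ κ : ℝ, 0 < κ ∧ ∃ N₀ : ℕ, ∀ N : ℕ, N₀ ≤ N → ∀ (z w : Fin N → ℂ) (c : ℂ), Cf N z w c →
      ‖c‖ ≤ κ → False := by
  obtain ⟨q, hqdef⟩ : ∃ q : ℝ, q = qq := ⟨_, rfl⟩
  have hq : 0 < q := by rw [hqdef]; exact qq_pos
  have hq1 : q ≤ 1 := by rw [hqdef]; exact qq_le_one
  have hq2 : q ^ 2 = 1 / 2 := by rw [hqdef]; exact qq_sq
  obtain ⟨e, hedef⟩ : ∃ e : ℝ, e = q ^ 2 / 2500 := ⟨_, rfl⟩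
  have he : 0 < e := by rw [hedef]; positivity
  obtain ⟨C3, hC3def⟩ : ∃ C3 : ℝ, C3 = 4032 / q ^ 4 := ⟨_, rfl⟩
  have hC3 : 0 < C3 := by rw [hC3def]; positivity
  obtain ⟨C4, hC4def⟩ : ∃ C4 : ℝ, C4 = 40 / q ^ 2 := ⟨_, rfl⟩
  have hC4 : 0 < C4 := by rw [hC4def]; positivity
  obtain ⟨K, hK1, hK⟩ := exists_K (q ^ 2 / 23040)
    (1 + 2 / e + 3 * (2 / e + C3 / 2 + 3 * C3 + C4 + 1 / 2)) (by positivity)
  have hK0 : 0 < K := by linarith
  have hlogK : 0 ≤ Real.log K := Real.log_nonneg hK1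
  have hlog16 : Real.log 16 ≤ 3 := by
    have h1 : Real.log 16 = 4 * Real.log 2 := by
      rw [show (16 : ℝ) = 2 ^ 4 by norm_num, Real.log_pow]
      norm_num
    have h2 := Real.log_two_lt_d9
    rw [h1]
    linarith
  have hlog16K : Real.log (16 * K) = Real.log 16 + Real.log K :=
    Real.log_mul (by norm_num) hK0.ne'
  have hlog16K0 : 0 ≤ Real.log (16 * K) := Real.log_nonneg (by linarith)
  obtain ⟨AK, hAKdef⟩ : ∃ AK : ℝ, AK = 2 / e + C3 / 2 + C3 * Real.log (16 * K) + C4 + 1 / 2 :=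
    ⟨_, rfl⟩
  have h2e : 0 < 2 / e := by positivity
  have hAK0 : 0 ≤ AK := by rw [hAKdef]; positivity
  have hAKle : AK ≤ (2 / e + C3 / 2 + 3 * C3 + C4 + 1 / 2) * (1 + Real.log K) := by
    have h1 : C3 * Real.log (16 * K) ≤ 3 * C3 * (1 + Real.log K) := by
      rw [hlog16K]
      nlinarith
    have h2 : (2 / e + C3 / 2 + C4 + 1 / 2) ≤ (2 / e + C3 / 2 + C4 + 1 / 2) * (1 + Real.log K) := by
      have : 0 < 2 / e + C3 / 2 + C4 + 1 / 2 := by positivity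
      nlinarith
    rw [hAKdef]
    nlinarith
  have hKK : 1 + 2 / e + 3 * AK ≤ q ^ 2 * K / 23040 := by
    have h1 : (1 + 2 / e) ≤ (1 + 2 / e) * (1 + Real.log K) := by nlinarith
    have h2 : 1 + 2 / e + 3 * AK
        ≤ (1 + 2 / e + 3 * (2 / e + C3 / 2 + 3 * C3 + C4 + 1 / 2)) * (1 + Real.log K) := by
      nlinarith
    calc 1 + 2 / e + 3 * AK ≤ _ := h2
      _ ≤ q ^ 2 / 23040 * K := hK
      _ = q ^ 2 * K / 23040 := by ring
  obtain ⟨N₁, hN₁⟩ := consequences1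
  obtain ⟨X0, hX0def⟩ : ∃ X0 : ℝ, X0 = 33177600 / q ^ 4 := ⟨_, rfl⟩
  have hX0 : 11 ≤ X0 := by
    rw [hX0def, le_div_iff₀ (by positivity)]
    have : q ^ 4 ≤ 1 := pow_le_one₀ hq.le hq1
    linarith
  obtain ⟨N₂, hN₂⟩ := exists_nat_ge (Real.exp (X0 / e))
  refine ⟨min (1 / (64 * K)) (q ^ 2 / (163840 * K ^ 2)), by positivity,
    max 1 (max N₁ N₂), fun N hN z w c h hcκ => ?_⟩
  have hNge1 : 1 ≤ N := le_trans (le_max_left _ _) hN
  have hN' : max N₁ N₂ ≤ N := le_trans (le_max_right _ _) hN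
  have hNN1 : N₁ ≤ N := le_trans (le_max_left _ _) hN'
  have hNN2 : N₂ ≤ N := le_trans (le_max_right _ _) hN'
  have hN1R : (1 : ℝ) ≤ N := by exact_mod_cast hNge1
  obtain ⟨C, hCdef⟩ : ∃ C : ℝ, C = ‖c‖ := ⟨_, rfl⟩
  obtain ⟨n, hndef⟩ : ∃ n : ℝ, n = (N : ℝ) + 1 := ⟨_, rfl⟩
  have hn0 : 0 < n := by rw [hndef]; positivity
  have hn2 : 2 ≤ n := by rw [hndef]; linarith
  have hC1 : C ≤ 1 / (64 * K) := by rw [hCdef]; exact hcκ.trans (min_le_left _ _)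
  have hC2 : C ≤ q ^ 2 / (163840 * K ^ 2) := by rw [hCdef]; exact hcκ.trans (min_le_right _ _)
  have hCK : K * C ≤ 1 / 64 := by
    rw [le_div_iff₀ (by positivity)] at hC1
    linarith
  have hC0' : 0 ≤ C := by rw [hCdef]; exact norm_nonneg c
  have hC64 : C ≤ 1 / 64 := by nlinarith
  have hc16 : ‖c‖ ≤ 1 / 16 := by rw [← hCdef]; linarith
  obtain ⟨hX, hV1, hcard⟩ := hN₁ N hNN1 z w c h hc16
  rw [← hqdef, ← hndef, ← hCdef] at hX hcard
  rw [← hqdef, ← hndef, ← hCdef] at hV1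
  rw [← hedef] at hX
  rw [← hC4def] at hV1
  rw [← hC3def] at hcard
  obtain ⟨X, hXdef⟩ : ∃ X : ℝ, X = n * C ^ 2 := ⟨_, rfl⟩
  rw [← hXdef] at hX hcard
  have hlogn : X0 / e ≤ Real.log n := by
    rw [Real.le_log_iff_exp_le hn0]
    have : (N₂ : ℝ) ≤ N := by exact_mod_cast hNN2
    rw [hndef]
    linarith
  have hXX0 : X0 ≤ X := by
    rw [div_le_iff₀ he] at hlogn
    linarith
  have hXpos : 0 < X := by linarith
  have hC0 : 0 < C := by
    rcases hC0'.lt_or_eq with h0 | h0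
    · exact h0
    · rw [hXdef, ← h0] at hXpos
      simp at hXpos
  have hlogX : Real.log n ≤ X / e := by
    rw [le_div_iff₀ he]
    linarith
  have hlog2n : Real.log (2 * n) ≤ 2 / e * X := by
    rw [Real.log_mul (by norm_num) hn0.ne']
    have h1 : Real.log 2 ≤ Real.log n := Real.log_le_log (by norm_num) hn2
    have h2 : 2 / e * X = 2 * (X / e) := by ring
    rw [h2]
    linarith
  obtain ⟨v, hvdef⟩ : ∃ v : Fin N → ℂ, v = fun j => (w j)⁻¹ := ⟨_, rfl⟩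
  have hv1 : ∀ j, ‖v j‖ ≤ 1 := by
    intro j
    rw [hvdef]
    exact h.norm_inv_le j
  have hVsum : ∑ j, v j = ∑ j, (w j)⁻¹ := by rw [hvdef]
  -- b, R, mu
  obtain ⟨b, hbdef⟩ : ∃ b : ℝ, b = K * C := ⟨_, rfl⟩
  have hb0 : 0 < b := by rw [hbdef]; positivity
  have hb16 : b ≤ 1 / 16 := by rw [hbdef]; linarith
  obtain ⟨μ, hμdef⟩ : ∃ μ : ℝ, μ = q ^ 2 / 20 * N * C := ⟨_, rfl⟩
  have hμ0 : 0 < μ := by rw [hμdef]; positivity
  have hV1low : μ ≤ ‖∑ j, v j‖ ∨ μ ≤ 8 * b * ‖∑ j, v j ^ 2‖ := by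
    rcases h.V_dich (by rw [← hCdef]; linarith) (by rw [← hCdef]; exact hC0) with h1 | h1
    · left
      rw [hVsum, hμdef, hq2]
      rw [← hCdef] at h1
      linarith
    · right
      have hV2 : ∑ j, v j ^ 2 = ∑ j, (w j)⁻¹ ^ 2 := by rw [hvdef]
      rw [hV2, hμdef, hq2, hbdef]
      have h2 : 8 * (K * C) * ((N : ℝ) / 4) ≤ 8 * (K * C) * ‖∑ j, (w j)⁻¹ ^ 2‖ :=
        mul_le_mul_of_nonneg_left h1 (by positivity)
      have h3 : (N : ℝ) * C ≤ K * ((N : ℝ) * C) := by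
        have : 0 ≤ (N : ℝ) * C := by positivity
        nlinarith
      have h4 : 0 ≤ (N : ℝ) * C := by positivity
      nlinarith
  have hsmall : 8192 * N * b ^ 2 ≤ μ := by
    rw [hbdef, hμdef]
    rw [le_div_iff₀ (by positivity)] at hC2
    have h1 : 8192 * K ^ 2 * C ≤ q ^ 2 / 20 := by linarith
    have h2 : 0 ≤ (N : ℝ) * C := by positivity
    calc 8192 * N * (K * C) ^ 2 = (8192 * K ^ 2 * C) * (N * C) := by ring
      _ ≤ q ^ 2 / 20 * (N * C) := mul_le_mul_of_nonneg_right h1 h2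
      _ = q ^ 2 / 20 * N * C := by ring
  obtain ⟨r, hr0, hr2b, hcirc⟩ := exists_circle1 v hv1 hb0 hb16 hμ0 hV1low hsmall
  obtain ⟨R, hRdef⟩ : ∃ R : ℝ, R = 16 * b := ⟨_, rfl⟩
  have hR0 : 0 < R := by rw [hRdef]; positivity
  have hR14 : R ≤ 1 / 4 := by rw [hRdef, hbdef]; linarith
  obtain ⟨A, hAdef⟩ : ∃ A : ℝ, A = Real.log (2 * ((N : ℝ) + 1))
          + (univ.filter (fun k => ‖z k‖ < R)).card * Real.log (3 / 2)
          + ∑ k ∈ univ.filter (fun k => ‖z k‖ < R), Real.log (R / ‖z k‖) := ⟨_, rfl⟩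
  have hcardR : ((univ.filter (fun k => ‖z k‖ < R)).card : ℝ) ≤ C3 * X := by
    refine le_trans ?_ hcard
    have : (univ.filter (fun k => ‖z k‖ < R)).card ≤ (univ.filter (fun k => ‖z k‖ < 1 / 4)).card := by
      apply Finset.card_le_card
      intro k hk
      rw [Finset.mem_filter] at hk ⊢
      exact ⟨hk.1, lt_of_lt_of_le hk.2 hR14⟩
    exact_mod_cast this
  have hA : A ≤ AK * X := by
    have h1 : Real.log (3 / 2) ≤ 1 / 2 := by
      have := Real.log_le_sub_one_of_pos (show (0 : ℝ) < 3 / 2 by norm_num)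
      linarith
    have h1' : 0 ≤ Real.log (3 / 2) := Real.log_nonneg (by norm_num)
    have h2 : ((univ.filter (fun k => ‖z k‖ < R)).card : ℝ) * Real.log (3 / 2) ≤ C3 / 2 * X := by
      calc ((univ.filter (fun k => ‖z k‖ < R)).card : ℝ) * Real.log (3 / 2)
          ≤ (C3 * X) * (1 / 2) := mul_le_mul hcardR h1 h1' (by positivity)
        _ = C3 / 2 * X := by ring
    have h3 : ∑ k ∈ univ.filter (fun k => ‖z k‖ < R), Real.log (R / ‖z k‖)
        ≤ C3 * Real.log (16 * K) * X + C4 * X + 1 / 2 * X := by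
      have h4 : ∀ k ∈ univ.filter (fun k => ‖z k‖ < R), Real.log (R / ‖z k‖)
          ≤ Real.log (16 * K) + max 0 (Real.log (C / ‖z k‖)) := by
        intro k _
        have hzk : 0 < ‖z k‖ := norm_pos_iff.2 (h.z_ne k)
        have h5 : R / ‖z k‖ = (16 * K) * (C / ‖z k‖) := by
          rw [hRdef, hbdef]
          ring
        rw [h5, Real.log_mul (by positivity) (by positivity)]
        have := le_max_right 0 (Real.log (C / ‖z k‖))
        linarith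
      have h6 := Finset.sum_le_sum h4
      rw [Finset.sum_add_distrib, Finset.sum_const, nsmul_eq_mul] at h6
      have h7 : ∑ k ∈ univ.filter (fun k => ‖z k‖ < R), max 0 (Real.log (C / ‖z k‖))
          ≤ ∑ k, max 0 (Real.log (C / ‖z k‖)) :=
        Finset.sum_le_sum_of_subset_of_nonneg (Finset.filter_subset _ _)
          fun k _ _ => le_max_left _ _
      have h8 := h.jensen hC0
      have h9 : C * ‖∑ j, (w j)⁻¹‖ ≤ C4 * X := by
        calc C * ‖∑ j, (w j)⁻¹‖ ≤ C * (C4 * (n * C)) := mul_le_mul_of_nonneg_left hV1 hC0.le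
          _ = C4 * X := by rw [hXdef]; ring
      have h10 : (N : ℝ) * C ^ 2 / 2 ≤ 1 / 2 * X := by
        rw [hXdef, hndef]
        have : 0 ≤ C ^ 2 := by positivity
        nlinarith
      have h11 : ((univ.filter (fun k => ‖z k‖ < R)).card : ℝ) * Real.log (16 * K)
          ≤ C3 * Real.log (16 * K) * X := by
        calc _ ≤ (C3 * X) * Real.log (16 * K) := mul_le_mul_of_nonneg_right hcardR hlog16K0
          _ = _ := by ring
      linarith
    rw [hAdef, hAKdef, ← hndef]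
    have h12 : (2 / e + C3 / 2 + C3 * Real.log (16 * K) + C4 + 1 / 2) * X
        = 2 / e * X + C3 / 2 * X + (C3 * Real.log (16 * K) * X + C4 * X + 1 / 2 * X) := by ring
    rw [h12]
    linarith
  have hf : ∀ x : ℂ, HasDerivAt (fun y : ℂ => y * ∏ k, (1 - y / z k)) (∏ j, (1 - x * v j)) x := by
    intro x
    have := h.der x
    rw [hvdef]
    simpa only [div_eq_mul_inv] using this
  refine not_small_on_circle v hv1 (fun y : ℂ => y * ∏ k, (1 - y / z k)) hf (by simp) hr0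
    (by linarith) ?_
  intro x hx
  obtain ⟨hLx, hvar⟩ := hcirc x hx
  have hLpos : 0 < ‖LL v x‖ := lt_of_lt_of_le (by positivity) hLx
  have hLne : LL v x ≠ 0 := norm_pos_iff.1 hLpos
  have hl0 : (0 : ℝ) ≤ b / 16 := by positivity
  have hxl : ‖x‖ + b / 16 ≤ 1 / 4 := by rw [hx]; linarith
  have hY : ∀ y : ℂ, ‖y - x‖ ≤ b / 16 →
      ‖(fun y : ℂ => y * ∏ k, (1 - y / z k)) y‖ ≤ Real.exp (3 * A) * ‖∏ j, (1 - y * v j)‖ := by
    intro y hy
    have hyR : ‖y‖ ≤ R / 4 := by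
      have h1 : ‖y‖ ≤ ‖y - x‖ + ‖x‖ := by
        calc ‖y‖ = ‖(y - x) + x‖ := by rw [sub_add_cancel]
          _ ≤ _ := norm_add_le _ _
      rw [hx] at h1
      rw [hRdef]
      linarith
    have h2 := h.norm_f_le hR0 (by linarith) y hyR
    rw [← hAdef] at h2
    rw [hvdef]
    exact h2
  have hode := norm_ode_le v hv1 (fun y : ℂ => y * ∏ k, (1 - y / z k)) hf x hl0 hxl hLne hvar hY
  refine hode.trans ?_
  refine final_bound hq he hAK0 hKK hXdef (by rw [← hX0def]; exact hXX0) (by linarith)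
    (by linarith) hndef hN1R hC0 ?_ (by rw [hbdef]) ?_ rfl hA hlog2n hK1
  · rw [← hμdef]
    exact hLx
  · exact norm_LL_le v hv1 x (by rw [hx]; linarith)

end Pool.MP_c113aa_an.B1
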