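import Pool.Agent.Lib.c113aaP.Cp3

/-!
# Borcea's inequality for the exponent 1: `c` is small when all distances are close to 1
-/

set_option autoImplicit false

namespace Pool.MP_c113aa_an.B1

open Finset Pool.MP_c113aa_an.BV

/-- (B2) in case B, |c| is small.  Proof: C = ‖c‖, W = ‖w_j‖ >= 1, x = ‖w_j - c‖, |W - x| <= C.
(i) W - 1 <= (1+2C) x (1-1/W) + 2C|x-1|: if x >= 1/2, W - 1 = W(1-1/W) = x(1-1/W) + (W-x)(1-1/W)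
and 1-1/W <= 2x(1-1/W); if x < 1/2, W - 1 <= x + C - 1 <= C <= 2C|x-1|.
(ii) W^2 - x^2 <= |W-x|(W+x) <= |W-x| (2 + (W-1) + |x-1|) <= (2+C)((W-1)+|x-1|) using
|W-x| <= (W-1)+|x-1| for the factor 2 and |W-x| <= C for the rest.  Sum over j:
∑ (W^2-x^2) <= (2+C)((1+2C) ε N + 2 C ε N + ε N) = (2+C)(2+4C) ε N.
(iii) W^2 - x^2 = 2 Re(conj c (w_j - c)) + C^2, and ‖∑ (w_j - c)‖ <= ε N by norm_sum_sub_le and h2
(divide by N+1).  So N C^2 <= (2+C)(2+4C) ε N + 2 C ε N, i.e. C^2 <= (4 + 12 C + 4 C^2) ε.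
(iv) with 0 <= ε <= 1/16 (ε >= 0 follows from h2): 4C^2 ε <= C^2/4, 12 C ε <= C^2/4 + 144 ε^2
<= C^2/4 + 9 ε, so C^2/2 <= 13 ε. -/
theorem norm_c_sq_le_one {ε : ℝ} {N : ℕ} (hN : 1 ≤ N)
    {z w : Fin N → ℂ} {c : ℂ} (h : Cf N z w c) (hε : ε ≤ 1 / 16)
    (h1 : ∑ j, |‖w j - c‖ - 1| ≤ ε * N)
    (h2 : |‖c‖ - 1| + ∑ k, |‖z k - c‖ - 1| ≤ ε * (N + 1))
    (h3 : ∑ j, ‖w j - c‖ * (1 - ‖(w j)⁻¹‖) ≤ ε * N) : ‖c‖ ^ 2 ≤ 27 * ε := by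
  have hN0 : (0 : ℝ) < N := by exact_mod_cast hN
  have hC0 : 0 ≤ ‖c‖ := norm_nonneg c
  have hε0 : 0 ≤ ε := by
    have h4 : 0 ≤ |‖c‖ - 1| + ∑ k, |‖z k - c‖ - 1| :=
      add_nonneg (abs_nonneg _) (Finset.sum_nonneg (fun k _ => abs_nonneg _))
    have h5 : 0 ≤ ε * ((N : ℝ) + 1) := h4.trans h2
    exact nonneg_of_mul_nonneg_left h5 (by positivity)
  -- (i)
  have hi : ∀ j, ‖w j‖ - 1 ≤ (1 + 2 * ‖c‖) * (‖w j - c‖ * (1 - ‖(w j)⁻¹‖))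
      + 2 * ‖c‖ * |‖w j - c‖ - 1| := by
    intro j
    have hW := h.one_le j
    have hW0 : 0 < ‖w j‖ := lt_of_lt_of_le one_pos hW
    have hx0 : 0 ≤ ‖w j - c‖ := norm_nonneg _
    have hd : ‖w j‖ - ‖w j - c‖ ≤ ‖c‖ := by
      have := norm_sub_norm_le (w j) (w j - c)
      simpa using this
    have hu0 : 0 ≤ 1 - ‖(w j)⁻¹‖ := by
      have := h.norm_inv_le j
      linarith
    have hu1 : ‖w j‖ * (1 - ‖(w j)⁻¹‖) = ‖w j‖ - 1 := by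
      rw [norm_inv]
      field_simp
    rcases le_or_gt (1 / 2) ‖w j - c‖ with hx | hx
    · have ha : 0 ≤ 2 * ‖c‖ * |‖w j - c‖ - 1| := by positivity
      have hb : (‖w j‖ - ‖w j - c‖) * (1 - ‖(w j)⁻¹‖) ≤ ‖c‖ * (1 - ‖(w j)⁻¹‖) :=
        mul_le_mul_of_nonneg_right hd hu0
      have hc1 : 1 - ‖(w j)⁻¹‖ ≤ 2 * ‖w j - c‖ * (1 - ‖(w j)⁻¹‖) := by
        have := mul_le_mul_of_nonneg_right (show (1 : ℝ) ≤ 2 * ‖w j - c‖ by linarith) hu0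
        linarith
      have hd1 : ‖c‖ * (1 - ‖(w j)⁻¹‖) ≤ ‖c‖ * (2 * ‖w j - c‖ * (1 - ‖(w j)⁻¹‖)) :=
        mul_le_mul_of_nonneg_left hc1 hC0
      nlinarith [hu1, hb, hd1]
    · have ha : 0 ≤ (1 + 2 * ‖c‖) * (‖w j - c‖ * (1 - ‖(w j)⁻¹‖)) := by positivity
      have hb : 1 / 2 ≤ |‖w j - c‖ - 1| := by
        rw [abs_sub_comm]
        refine le_trans ?_ (le_abs_self _)
        linarith
      have hc1 : ‖c‖ * (1 / 2) ≤ ‖c‖ * |‖w j - c‖ - 1| := mul_le_mul_of_nonneg_left hb hC0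
      linarith
  -- (ii)
  have hii : ∀ j, ‖w j‖ ^ 2 - ‖w j - c‖ ^ 2 ≤ (2 + ‖c‖) * ((‖w j‖ - 1) + |‖w j - c‖ - 1|) := by
    intro j
    have hW := h.one_le j
    have hx0 : 0 ≤ ‖w j - c‖ := norm_nonneg _
    have hd : |‖w j‖ - ‖w j - c‖| ≤ ‖c‖ := by
      have := abs_norm_sub_norm_le (w j) (w j - c)
      simpa using this
    have hx1 : ‖w j - c‖ - 1 ≤ |‖w j - c‖ - 1| := le_abs_self _
    have hx2 : -(‖w j - c‖ - 1) ≤ |‖w j - c‖ - 1| := neg_le_abs _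
    have hd2 : |‖w j‖ - ‖w j - c‖| ≤ (‖w j‖ - 1) + |‖w j - c‖ - 1| := by
      rw [abs_le]
      constructor <;> linarith
    have hA0 : 0 ≤ |‖w j‖ - ‖w j - c‖| := abs_nonneg _
    have hE : 0 ≤ (‖w j‖ - 1) + |‖w j - c‖ - 1| := by positivity
    calc ‖w j‖ ^ 2 - ‖w j - c‖ ^ 2 = (‖w j‖ - ‖w j - c‖) * (‖w j‖ + ‖w j - c‖) := by ring
      _ ≤ |‖w j‖ - ‖w j - c‖| * (‖w j‖ + ‖w j - c‖) :=
          mul_le_mul_of_nonneg_right (le_abs_self _) (by positivity)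
      _ ≤ |‖w j‖ - ‖w j - c‖| * (2 + ((‖w j‖ - 1) + |‖w j - c‖ - 1|)) :=
          mul_le_mul_of_nonneg_left (by linarith) hA0
      _ = 2 * |‖w j‖ - ‖w j - c‖|
          + |‖w j‖ - ‖w j - c‖| * ((‖w j‖ - 1) + |‖w j - c‖ - 1|) := by ring
      _ ≤ 2 * ((‖w j‖ - 1) + |‖w j - c‖ - 1|)
          + ‖c‖ * ((‖w j‖ - 1) + |‖w j - c‖ - 1|) :=
          add_le_add (by linarith) (mul_le_mul_of_nonneg_right hd hE)
      _ = _ := by ring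
  have hsum1 : ∑ j, (‖w j‖ - 1) ≤ (1 + 2 * ‖c‖) * (ε * N) + 2 * ‖c‖ * (ε * N) := by
    calc ∑ j, (‖w j‖ - 1) ≤ ∑ j, ((1 + 2 * ‖c‖) * (‖w j - c‖ * (1 - ‖(w j)⁻¹‖))
          + 2 * ‖c‖ * |‖w j - c‖ - 1|) := Finset.sum_le_sum (fun j _ => hi j)
      _ = (1 + 2 * ‖c‖) * ∑ j, ‖w j - c‖ * (1 - ‖(w j)⁻¹‖)
          + 2 * ‖c‖ * ∑ j, |‖w j - c‖ - 1| := by
          rw [Finset.sum_add_distrib, ← Finset.mul_sum, ← Finset.mul_sum]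
      _ ≤ _ := add_le_add (mul_le_mul_of_nonneg_left h3 (by positivity))
          (mul_le_mul_of_nonneg_left h1 (by positivity))
  have hsum2 : ∑ j, (‖w j‖ ^ 2 - ‖w j - c‖ ^ 2)
      ≤ (2 + ‖c‖) * ((1 + 2 * ‖c‖) * (ε * N) + 2 * ‖c‖ * (ε * N) + ε * N) := by
    calc ∑ j, (‖w j‖ ^ 2 - ‖w j - c‖ ^ 2)
        ≤ ∑ j, (2 + ‖c‖) * ((‖w j‖ - 1) + |‖w j - c‖ - 1|) :=
          Finset.sum_le_sum (fun j _ => hii j)
      _ = (2 + ‖c‖) * (∑ j, (‖w j‖ - 1) + ∑ j, |‖w j - c‖ - 1|) := by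
          rw [← Finset.mul_sum, Finset.sum_add_distrib]
      _ ≤ _ := mul_le_mul_of_nonneg_left (add_le_add hsum1 h1) (by positivity)
  -- (iii)
  have hSn : ‖∑ j, (w j - c)‖ ≤ ε * N := by
    have h4 := h.norm_sum_sub_le
    have h5 : (N : ℝ) * (|‖c‖ - 1| + ∑ k, |‖z k - c‖ - 1|) ≤ N * (ε * (N + 1)) :=
      mul_le_mul_of_nonneg_left h2 hN0.le
    have h6 : ((N : ℝ) + 1) * ‖∑ j, (w j - c)‖ ≤ ((N : ℝ) + 1) * (ε * N) := by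
      calc ((N : ℝ) + 1) * ‖∑ j, (w j - c)‖ ≤ N * (ε * (N + 1)) := h4.trans h5
        _ = _ := by ring
    exact le_of_mul_le_mul_left h6 (by positivity)
  have hiii : ∀ j, ‖w j‖ ^ 2 - ‖w j - c‖ ^ 2
      = ‖c‖ ^ 2 + 2 * ((starRingEnd ℂ) c * (w j - c)).re := by
    intro j
    simp only [← Complex.normSq_eq_norm_sq, Complex.normSq_apply, Complex.sub_re, Complex.sub_im,
      Complex.mul_re, Complex.conj_re, Complex.conj_im]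
    ring
  have hsum3 : ∑ j, (‖w j‖ ^ 2 - ‖w j - c‖ ^ 2)
      = N * ‖c‖ ^ 2 + 2 * ((starRingEnd ℂ) c * ∑ j, (w j - c)).re := by
    rw [Finset.sum_congr rfl (fun j _ => hiii j), Finset.sum_add_distrib, ← Finset.mul_sum,
      ← Complex.re_sum, ← Finset.mul_sum]
    simp
  have hre : -(‖c‖ * (ε * N)) ≤ ((starRingEnd ℂ) c * ∑ j, (w j - c)).re := by
    have h4 : |((starRingEnd ℂ) c * ∑ j, (w j - c)).re| ≤ ‖c‖ * (ε * N) := by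
      refine (Complex.abs_re_le_norm _).trans ?_
      rw [norm_mul, Complex.norm_conj]
      exact mul_le_mul_of_nonneg_left hSn hC0
    exact (abs_le.mp h4).1
  have hmain : (N : ℝ) * ‖c‖ ^ 2 ≤ N * ((4 + 12 * ‖c‖ + 4 * ‖c‖ ^ 2) * ε) := by
    rw [hsum3] at hsum2
    have h5 : (2 + ‖c‖) * ((1 + 2 * ‖c‖) * (ε * N) + 2 * ‖c‖ * (ε * N) + ε * N)
        + 2 * (‖c‖ * (ε * N)) = N * ((4 + 12 * ‖c‖ + 4 * ‖c‖ ^ 2) * ε) := by ring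
    linarith
  have hfin : ‖c‖ ^ 2 ≤ (4 + 12 * ‖c‖ + 4 * ‖c‖ ^ 2) * ε := le_of_mul_le_mul_left hmain hN0
  have h5 : ‖c‖ ^ 2 * ε ≤ ‖c‖ ^ 2 * (1 / 16) := mul_le_mul_of_nonneg_left hε (by positivity)
  have h6 : ε * ε ≤ 1 / 16 * ε := mul_le_mul_of_nonneg_right hε hε0
  have h7 : 0 ≤ (‖c‖ / 2 - 12 * ε) ^ 2 := sq_nonneg _
  nlinarith [h5, h6, h7, hfin]

end Pool.MP_c113aa_an.B1
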