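import Pool.Agent.Lib.MP_c113aa_an.Final

/-!
# Borcea's inequality for the exponent 1: definitions

`Dat N b C` is the data for the analytic part: points `w_j` with `|w_j| ≥ 1` (here `b j = 1 / w_j`)
and `∑ |w_j - C| ≤ N` for a real number `C > 0`.  `gg b x = ∏ (1 - x b_j)`,
`II b y = ∫_0^y gg b`, `LL b x = - ∑ b_j / (1 - x b_j)` is the logarithmic derivative of `gg b`.
Throughout, `d = N / (C + 1)` and `R = (∑ b_j).re`.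
-/

set_option autoImplicit false

namespace Pool.MP_c113aa_an.B1

open Finset

/-- A normalised configuration for the exponent 1 (compare `BV.Cfg`). -/
structure Cf (N : ℕ) (z w : Fin N → ℂ) (c : ℂ) : Prop where
  z_ne : ∀ k, z k ≠ 0
  one_le : ∀ j, 1 ≤ ‖w j‖
  der : ∀ x : ℂ, HasDerivAt (fun y : ℂ => y * ∏ k, (1 - y / z k)) (∏ j, (1 - x / w j)) x
  prod : ∏ k, ‖z k‖ = ((N : ℝ) + 1) * ∏ j, ‖w j‖
  sum_le : ‖c‖ + ∑ k, ‖z k - c‖ ≤ (N : ℝ) + 1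
  sumw_le : ((N : ℝ) + 1) * ∑ j, ‖w j - c‖ ≤ N * (‖c‖ + ∑ k, ‖z k - c‖)
  sumwp_le : ((N : ℝ) + 1) * ∑ j, max (‖w j - c‖ - 1) 0
    ≤ N * (max (‖c‖ - 1) 0 + ∑ k, max (‖z k - c‖ - 1) 0)
  mean_eq : ((N : ℂ) + 1) * ∑ j, w j = N * ∑ k, z k
  foc : ((N : ℝ) + 1) * ‖∑ j, (w j - c)‖ ≤ N * (|‖c‖ - 1| + ∑ k, |‖z k - c‖ - 1|)

/-- The data for the analytic part. -/
structure Dat (N : ℕ) (b : Fin N → ℂ) (C : ℝ) : Prop where
  C_pos : 0 < C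
  ne : ∀ j, b j ≠ 0
  le_one : ∀ j, ‖b j‖ ≤ 1
  sum_le : ∑ j, ‖(b j)⁻¹ - (C : ℂ)‖ ≤ N

/-- The product `∏ (1 - x b_j)` on the real line. -/
noncomputable def gg {N : ℕ} (b : Fin N → ℂ) (x : ℝ) : ℂ := ∏ j, (1 - (x : ℂ) * b j)

/-- Its integral. -/
noncomputable def II {N : ℕ} (b : Fin N → ℂ) (y : ℝ) : ℂ := ∫ x in (0 : ℝ)..y, gg b x

/-- The Laplace transform `∫_0^∞ (1 - t x)^m e^{-x} dx` as a polynomial in `t`. -/
noncomputable def SS (m : ℕ) (t : ℂ) : ℂ :=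
  ∑ k ∈ range (m + 1), (m.choose k : ℂ) * (k.factorial : ℂ) * (-t) ^ k

theorem continuous_gg {N : ℕ} (b : Fin N → ℂ) : Continuous (gg b) := by
  unfold gg
  fun_prop

end Pool.MP_c113aa_an.B1
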