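import Pool.Agent.Lib.c113aaP.Defs

set_option autoImplicit false

namespace Pool.MP_c113aa_an.B1

open Finset

/-- The coefficients `β_k = (m choose k) k!/m^k`. -/
private noncomputable def ekb (m k : ℕ) : ℝ := (m.descFactorial k : ℝ) / (m : ℝ) ^ k

private theorem ekb_zero (m : ℕ) : ekb m 0 = 1 := by simp [ekb]

private theorem ekb_nonneg (m k : ℕ) : 0 ≤ ekb m k := by unfold ekb; positivity

private theorem ekb_last (m : ℕ) : ekb m (m + 1) = 0 := by
  unfold ekb
  rw [Nat.descFactorial_of_lt (Nat.lt_succ_self m)]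
  simp

private theorem ekb_succ {m k : ℕ} (hm : 2 ≤ m) (hk : k ≤ m) :
    ekb m (k + 1) = ekb m k * (1 - k / m) := by
  unfold ekb
  have hm0 : (m : ℝ) ≠ 0 := by positivity
  rw [Nat.descFactorial_succ, Nat.cast_mul, Nat.cast_sub hk]
  field_simp
  ring

private theorem ekb_tele (m : ℕ) (w : ℂ) (n : ℕ) :
    (1 - w) * ∑ k ∈ range n, (ekb m k : ℂ) * w ^ k =
      (ekb m 0 : ℂ) - ∑ k ∈ range n, ((ekb m k : ℂ) - (ekb m (k + 1) : ℂ)) * w ^ (k + 1)
        - (ekb m n : ℂ) * w ^ n := by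
  induction n with
  | zero => simp
  | succ n ih =>
    rw [sum_range_succ, sum_range_succ, mul_add, ih]
    ring

private theorem ekb_sum (m n : ℕ) :
    ∑ k ∈ range n, (ekb m k - ekb m (k + 1)) = ekb m 0 - ekb m n := by
  rw [Finset.sum_range_sub']

private theorem ek_re_eq_one {z : ℂ} (hz : ‖z‖ ≤ 1) (h : z.re = 1) : z = 1 := by
  have h1 : z.re ^ 2 + z.im ^ 2 ≤ 1 := by
    have := Complex.sq_norm z
    rw [Complex.normSq_apply] at this
    nlinarith [norm_nonneg z]
  rw [h] at h1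
  have h2 : z.im = 0 := by nlinarith [sq_nonneg z.im]
  exact Complex.ext h h2

/-- Eneström-Kakeya.  `ω = - m t`, `‖ω‖ ≤ 1`, `SS m t = ∑_{k ≤ m} β_k ω^k`, `β_k = (m choose k) k!/m^k
= ∏_{i<k} (1 - i/m)`; `β_0 = β_1 = 1`, nonincreasing, `β_m > 0`, put `β_{m+1} = 0`.  If the sum is 0 then
`0 = (1 - ω) ∑ β_k ω^k = 1 - ∑_{k=1}^{m+1} (β_{k-1} - β_k) ω^k`; the coefficients `β_{k-1} - β_k` are `≥ 0` with
sum 1, so all `ω^k` with positive coefficient are equal to 1 (equality in the triangle inequality); for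
`k = 2` it is `1/m > 0` and for `k = 3` it is `β_2 - β_3 > 0` (`β_2 = 1 - 1/m`, `β_3 = (1-1/m)(1-2/m)` for
`m ≥ 3`, and `β_3 = 0 < β_2` for `m = 2`), so `ω^2 = ω^3 = 1`, `ω = 1` and the sum is `∑ β_k ≥ 1 ≠ 0`. -/
theorem SS_ne_zero {m : ℕ} (hm : 2 ≤ m) (t : ℂ) (ht : (m : ℝ) * ‖t‖ ≤ 1) : SS m t ≠ 0 := by
  intro hS
  have hm0 : (m : ℂ) ≠ 0 := by
    have : m ≠ 0 := by omega
    exact_mod_cast this
  have hmR : (2 : ℝ) ≤ m := by exact_mod_cast hm
  obtain ⟨w, hw⟩ : ∃ w : ℂ, w = -((m : ℂ) * t) := ⟨_, rfl⟩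
  have hwn : ‖w‖ ≤ 1 := by
    rw [hw, norm_neg, norm_mul, Complex.norm_natCast]
    exact ht
  have hSS : ∑ k ∈ range (m + 1), (ekb m k : ℂ) * w ^ k = 0 := by
    rw [← hS]
    unfold SS
    refine sum_congr rfl fun k _ => ?_
    have h1 : w ^ k = (m : ℂ) ^ k * (-t) ^ k := by
      rw [hw, ← mul_pow]
      congr 1
      ring
    have h2 : (ekb m k : ℂ) = (m.choose k : ℂ) * (k.factorial : ℂ) / (m : ℂ) ^ k := by
      unfold ekb
      rw [Nat.descFactorial_eq_factorial_mul_choose]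
      push_cast
      ring
    rw [h1, h2]
    field_simp
  have htel := ekb_tele m w (m + 1)
  rw [hSS, mul_zero, ekb_last, ekb_zero] at htel
  have hanti : ∀ k, k ≤ m → ekb m (k + 1) ≤ ekb m k := by
    intro k hk
    rw [ekb_succ hm hk]
    have h1 : (0 : ℝ) ≤ k / m := by positivity
    nlinarith [ekb_nonneg m k]
  have hre : ∑ k ∈ range (m + 1), (ekb m k - ekb m (k + 1)) * (1 - (w ^ (k + 1)).re) = 0 := by
    have h1 := congrArg Complex.re htel
    simp only [Complex.sub_re, Complex.zero_re, Complex.ofReal_one, Complex.one_re,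
      Complex.ofReal_zero, zero_mul, sub_zero, Complex.re_sum] at h1
    have h2 : ∀ k, (((ekb m k : ℂ) - (ekb m (k + 1) : ℂ)) * w ^ (k + 1)).re =
        (ekb m k - ekb m (k + 1)) * (w ^ (k + 1)).re := by
      intro k
      rw [← Complex.ofReal_sub, Complex.re_ofReal_mul]
    simp only [h2] at h1
    have h3 := ekb_sum m (m + 1)
    rw [ekb_zero, ekb_last, sub_zero] at h3
    simp only [mul_sub, mul_one, sum_sub_distrib] at h3 ⊢
    linarith
  have hpw : ∀ k : ℕ, ‖w ^ k‖ ≤ 1 := by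
    intro k
    rw [norm_pow]
    exact pow_le_one₀ (norm_nonneg _) hwn
  have hterm : ∀ k ∈ range (m + 1), 0 ≤ (ekb m k - ekb m (k + 1)) * (1 - (w ^ (k + 1)).re) := by
    intro k hk
    have hk' : k ≤ m := by
      have := mem_range.1 hk
      omega
    refine mul_nonneg (sub_nonneg.2 (hanti k hk')) (sub_nonneg.2 ?_)
    exact (Complex.re_le_norm _).trans (hpw _)
  have hzero := (sum_eq_zero_iff_of_nonneg hterm).1 hre
  have hb1 : ekb m 1 = 1 := by
    have := ekb_succ hm (Nat.zero_le m)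
    rw [ekb_zero] at this
    simpa using this
  have hb2 : ekb m 2 = 1 - 1 / m := by
    have := ekb_succ (k := 1) hm (by omega)
    rw [hb1] at this
    simpa using this
  have hb3 : ekb m 3 = (1 - 1 / m) * (1 - 2 / m) := by
    have := ekb_succ (k := 2) hm hm
    rw [hb2] at this
    simpa using this
  have hmi : (0 : ℝ) < 1 / m := by positivity
  have hmi2 : (1 : ℝ) / m ≤ 1 / 2 := one_div_le_one_div_of_le (by norm_num) hmR
  have hw2 : w ^ 2 = 1 := by
    have h1 := hzero 1 (mem_range.2 (by omega))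
    have h2 : ekb m 1 - ekb m (1 + 1) ≠ 0 := by
      rw [hb1, show 1 + 1 = 2 from rfl, hb2]
      have : (1 : ℝ) - (1 - 1 / m) = 1 / m := by ring
      rw [this]
      exact hmi.ne'
    have h3 := (mul_eq_zero.1 h1).resolve_left h2
    exact ek_re_eq_one (hpw 2) (by linarith)
  have hw3 : w ^ 3 = 1 := by
    have h1 := hzero 2 (mem_range.2 (by omega))
    have h2 : ekb m 2 - ekb m (2 + 1) ≠ 0 := by
      rw [hb2, show 2 + 1 = 3 from rfl, hb3]
      have h4 : (1 : ℝ) - 1 / m - (1 - 1 / m) * (1 - 2 / m) = (1 - 1 / m) * (2 * (1 / m)) := by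
        ring
      rw [h4]
      have h5 : (0 : ℝ) < (1 - 1 / m) * (2 * (1 / m)) := by
        apply mul_pos
        · linarith
        · linarith
      exact h5.ne'
    have h3 := (mul_eq_zero.1 h1).resolve_left h2
    exact ek_re_eq_one (hpw 3) (by linarith)
  have hw1 : w = 1 := by
    have : w ^ 3 = w ^ 2 * w := by ring
    rw [hw2, hw3, one_mul] at this
    exact this.symm
  rw [hw1] at hSS
  simp only [one_pow, mul_one] at hSS
  have hsum : ∑ k ∈ range (m + 1), ekb m k = 0 := by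
    exact_mod_cast hSS
  have h1 : (1 : ℝ) ≤ ∑ k ∈ range (m + 1), ekb m k := by
    rw [← ekb_zero m]
    exact single_le_sum (fun k _ => ekb_nonneg m k) (mem_range.2 (Nat.succ_pos m))
  linarith

end Pool.MP_c113aa_an.B1
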