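import Pool.Agent.Lib.c113aaP.Mini
import Pool.Agent.Lib.MP_c113aa_an.Final

/-!
# Borcea's inequality for the exponent 1: the two extremal families
-/

set_option autoImplicit false

namespace Pool.MP_c113aa_an.B1

open Finset Pool.MP_c113aa_an.BV Polynomial

/-- A critical point of `(y - Z k₀) (y - c')^N`. -/
theorem fam_crit {N : ℕ} (hN : 1 ≤ N) {Z : Fin (N + 1) → ℂ} {w : Fin N → ℂ} (h : CritOf Z w)
    (k₀ : Fin (N + 1)) (c' : ℂ) (hZ : ∀ k, k ≠ k₀ → Z k = c') :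
    ∃ j, ((N : ℝ) + 1) * ‖Z k₀ - w j‖ = ‖Z k₀ - c'‖ := by
  have hn : ((N : ℂ) + 1) ≠ 0 := by
    have : ((N : ℂ) + 1) = ((N + 1 : ℕ) : ℂ) := by push_cast; rfl
    rw [this]
    exact_mod_cast Nat.succ_ne_zero N
  obtain ⟨y, hy⟩ : ∃ y : ℂ, y = (c' + N * Z k₀) / ((N : ℂ) + 1) := ⟨_, rfl⟩
  have hprod : (fun x : ℂ => ∏ k, (x - Z k)) = fun x : ℂ => (x - Z k₀) * (x - c') ^ N := by
    funext x
    rw [← Finset.mul_prod_erase _ _ (Finset.mem_univ k₀)]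
    congr 1
    have h1 : ∀ k ∈ Finset.univ.erase k₀, (x - Z k) = (x - c') := by
      intro k hk
      rw [hZ k (Finset.ne_of_mem_erase hk)]
    rw [Finset.prod_congr rfl h1, Finset.prod_const, Finset.card_erase_of_mem (Finset.mem_univ _),
      Finset.card_univ, Fintype.card_fin, Nat.add_sub_cancel]
  have hd1 := h y
  rw [hprod] at hd1
  have hd2 : HasDerivAt (fun x : ℂ => (x - Z k₀) * (x - c') ^ N)
      (1 * (y - c') ^ N + (y - Z k₀) * ((N : ℂ) * (y - c') ^ (N - 1) * 1)) y := by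
    refine ((hasDerivAt_id y).sub_const (Z k₀)).mul ?_
    exact ((hasDerivAt_id y).sub_const c').pow N
  have h3 := hd1.unique hd2
  have h4 : 1 * (y - c') ^ N + (y - Z k₀) * ((N : ℂ) * (y - c') ^ (N - 1) * 1) = 0 := by
    obtain ⟨M, rfl⟩ : ∃ M, N = M + 1 := ⟨N - 1, by omega⟩
    have h5 : (y - c') + ((M + 1 : ℕ) : ℂ) * (y - Z k₀) = 0 := by
      rw [hy]
      field_simp
      ring
    rw [Nat.add_sub_cancel, pow_succ]
    linear_combination (y - c') ^ M * h5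
  rw [h4] at h3
  have h5 : ∏ j, (y - w j) = 0 := (mul_eq_zero.1 h3).resolve_left hn
  obtain ⟨j, -, hj⟩ := Finset.prod_eq_zero_iff.1 h5
  refine ⟨j, ?_⟩
  have h6 : w j = y := (sub_eq_zero.1 hj).symm
  have h7 : ((N : ℂ) + 1) * (Z k₀ - w j) = Z k₀ - c' := by
    rw [h6, hy]
    field_simp
    ring
  have h8 := congrArg norm h7
  rw [norm_mul] at h8
  have h9 : ‖(N : ℂ) + 1‖ = (N : ℝ) + 1 := by
    have h7 : (N : ℂ) + 1 = ((N + 1 : ℕ) : ℂ) := by push_cast; ring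
    rw [h7, Complex.norm_natCast]
    push_cast
    ring
  rwa [h9] at h8

/-- The sum of the distances to the zeros of `(y - Z k₀) (y - c')^N`. -/
theorem fam_sum_ge {N : ℕ} (hN : 1 ≤ N) {Z : Fin (N + 1) → ℂ} (k₀ : Fin (N + 1)) (c' : ℂ)
    (hZ : ∀ k, k ≠ k₀ → Z k = c') (c : ℂ) :
    ‖Z k₀ - c'‖ + ((N : ℝ) - 1) * ‖c' - c‖ ≤ ∑ k, ‖Z k - c‖ := by
  have h1 : ∑ k, ‖Z k - c‖ = ‖Z k₀ - c‖ + N * ‖c' - c‖ := by
    rw [← Finset.add_sum_erase _ _ (Finset.mem_univ k₀)]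
    congr 1
    have h1 : ∀ k ∈ Finset.univ.erase k₀, ‖Z k - c‖ = ‖c' - c‖ := by
      intro k hk
      rw [hZ k (Finset.ne_of_mem_erase hk)]
    rw [Finset.sum_congr rfl h1, Finset.sum_const, Finset.card_erase_of_mem (Finset.mem_univ _),
      Finset.card_univ, Fintype.card_fin, Nat.add_sub_cancel, nsmul_eq_mul]
  rw [h1]
  have h2 : ‖Z k₀ - c'‖ ≤ ‖Z k₀ - c‖ + ‖c' - c‖ := by
    have h3 := norm_sub_le (Z k₀ - c) (c' - c)
    have h4 : Z k₀ - c - (c' - c) = Z k₀ - c' := by ring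
    rwa [h4] at h3
  linarith

/-- The special polynomials: lower bound for the sum of the distances. -/
theorem special_eq_one {N : ℕ} (hN : 1 ≤ N) {Z : Fin (N + 1) → ℂ} {c b : ℂ}
    (h : (∏ k, (X - C (Z k)) : ℂ[X]) = (X - C c) ^ (N + 1) - C b) :
    ∃ r : ℝ, 0 ≤ r ∧ (∀ k, ‖Z k - c‖ = r) ∧
      ∀ c' : ℂ, ((N : ℝ) + 1) * r ≤ ∑ k, ‖Z k - c'‖ := by
  have h1 : ∀ k, (Z k - c) ^ (N + 1) = b := by
    intro k
    have h2 := congrArg (Polynomial.eval (Z k)) h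
    rw [Polynomial.eval_prod, Finset.prod_eq_zero (Finset.mem_univ k) (by simp)] at h2
    simp only [eval_sub, eval_pow, eval_X, eval_C] at h2
    exact (sub_eq_zero.1 h2.symm)
  have hr : ∀ k, ‖Z k - c‖ = ‖Z 0 - c‖ := by
    intro k
    have h2 : ‖Z k - c‖ ^ (N + 1) = ‖Z 0 - c‖ ^ (N + 1) := by
      rw [← norm_pow, ← norm_pow, h1, h1]
    exact (pow_left_inj₀ (norm_nonneg _) (norm_nonneg _) (Nat.succ_ne_zero N)).1 h2
  have hsum : ∑ k, (Z k - c) = 0 := by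
    have h3 := congrArg (fun q : ℂ[X] => q.coeff N) h
    simp only [coeff_sub] at h3
    have h4 := Polynomial.prod_X_sub_C_coeff_card_pred (Finset.univ : Finset (Fin (N + 1))) Z
      (by simp)
    have h5 := Polynomial.prod_X_sub_C_coeff_card_pred (Finset.univ : Finset (Fin (N + 1)))
      (fun _ => c) (by simp)
    simp only [Finset.card_univ, Fintype.card_fin, Nat.add_sub_cancel, Finset.prod_const,
      Finset.sum_const] at h4 h5
    rw [h4, h5, coeff_C_of_ne_zero (by omega : N ≠ 0), sub_zero] at h3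
    rw [Finset.sum_sub_distrib, Finset.sum_const, Finset.card_univ, Fintype.card_fin, sub_eq_zero]
    exact neg_injective h3
  set r := ‖Z 0 - c‖ with hrdef
  refine ⟨r, norm_nonneg _, hr, fun c' => ?_⟩
  have hr0 : 0 ≤ r := norm_nonneg _
  rcases hr0.eq_or_lt with h0 | hpos
  · rw [← h0, mul_zero]
    exact Finset.sum_nonneg fun k _ => norm_nonneg _
  · have h6 : ∀ k, r ^ 2 + ((c - c') * (starRingEnd ℂ) (Z k - c)).re ≤ r * ‖Z k - c'‖ := by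
      intro k
      have h7 : ((Z k - c') * (starRingEnd ℂ) (Z k - c)).re ≤ ‖Z k - c'‖ * r := by
        refine (Complex.re_le_norm _).trans ?_
        rw [norm_mul, RCLike.norm_conj, hr k]
      have h8 : (Z k - c') * (starRingEnd ℂ) (Z k - c) =
          (Z k - c) * (starRingEnd ℂ) (Z k - c) + (c - c') * (starRingEnd ℂ) (Z k - c) := by ring
      rw [h8, Complex.add_re, Complex.mul_conj, Complex.normSq_eq_norm_sq, hr k,
        Complex.ofReal_re] at h7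
      linarith
    have h9 : ((N : ℝ) + 1) * r ^ 2 ≤ r * ∑ k, ‖Z k - c'‖ := by
      have h10 := Finset.sum_le_sum (s := Finset.univ) (fun k _ => h6 k)
      rw [Finset.sum_add_distrib, Finset.sum_const, Finset.card_univ, Fintype.card_fin,
        ← Finset.mul_sum, ← Complex.re_sum, ← Finset.mul_sum, ← map_sum, hsum, map_zero, mul_zero,
        Complex.zero_re, add_zero, nsmul_eq_mul] at h10
      push_cast at h10
      exact h10
    have h12 : r * (((N : ℝ) + 1) * r) ≤ r * ∑ k, ‖Z k - c'‖ := by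
      calc r * (((N : ℝ) + 1) * r) = ((N : ℝ) + 1) * r ^ 2 := by ring
        _ ≤ _ := h9
    exact le_of_mul_le_mul_left h12 hpos

/-- The minimum for all exponents `p ≥ 1` is attained (compare `BV.sigma_attained`). -/
theorem sigma_attained_ge {m : ℕ} (Z : Fin (m + 1) → ℂ) {p : ℝ} (hp : 1 ≤ p) :
    0 ≤ (⨅ c : ℂ, ((1 / ((m + 1 : ℕ) : ℝ)) * ∑ k, ‖Z k - c‖ ^ p) ^ (1 / p)) ∧
    (∃ c : ℂ, ∑ k, ‖Z k - c‖ ^ p = ((m : ℝ) + 1) *
      (⨅ c : ℂ, ((1 / ((m + 1 : ℕ) : ℝ)) * ∑ k, ‖Z k - c‖ ^ p) ^ (1 / p)) ^ p) ∧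
    (∀ c : ℂ, ((m : ℝ) + 1) *
      (⨅ c : ℂ, ((1 / ((m + 1 : ℕ) : ℝ)) * ∑ k, ‖Z k - c‖ ^ p) ^ (1 / p)) ^ p
        ≤ ∑ k, ‖Z k - c‖ ^ p) := by
  have hm : (0 : ℝ) < ((m + 1 : ℕ) : ℝ) := by positivity
  have hS : ∀ c : ℂ, 0 ≤ ∑ k, ‖Z k - c‖ ^ p := fun c =>
    Finset.sum_nonneg fun k _ => Real.rpow_nonneg (norm_nonneg _) _
  have hT : ∀ c : ℂ, 0 ≤ (1 / ((m + 1 : ℕ) : ℝ)) * ∑ k, ‖Z k - c‖ ^ p := fun c =>
    mul_nonneg (by positivity) (hS c)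
  obtain ⟨c0, hc0⟩ : ∃ c : ℂ, ∀ c' : ℂ, ∑ k, ‖Z k - c‖ ^ p ≤ ∑ k, ‖Z k - c'‖ ^ p := by
    rcases hp.eq_or_lt with h1 | h1
    · obtain ⟨c, hc⟩ := exists_minimizer_one Z
      refine ⟨c, fun c' => ?_⟩
      rw [← h1]
      simpa only [Real.rpow_one] using hc c'
    · exact exists_minimizer Z h1
  have hp0 : 0 < p := by linarith
  have hbdd : BddBelow (Set.range
      (fun c : ℂ => ((1 / ((m + 1 : ℕ) : ℝ)) * ∑ k, ‖Z k - c‖ ^ p) ^ (1 / p))) :=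
    ⟨0, by rintro _ ⟨c, rfl⟩; exact Real.rpow_nonneg (hT c) _⟩
  have hinf : (⨅ c : ℂ, ((1 / ((m + 1 : ℕ) : ℝ)) * ∑ k, ‖Z k - c‖ ^ p) ^ (1 / p)) =
      ((1 / ((m + 1 : ℕ) : ℝ)) * ∑ k, ‖Z k - c0‖ ^ p) ^ (1 / p) := by
    apply le_antisymm
    · exact ciInf_le hbdd c0
    · refine le_ciInf fun c => ?_
      exact Real.rpow_le_rpow (hT c0) (mul_le_mul_of_nonneg_left (hc0 c) (by positivity))
        (by positivity)
  have hval : ((m : ℝ) + 1) *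
      (((1 / ((m + 1 : ℕ) : ℝ)) * ∑ k, ‖Z k - c0‖ ^ p) ^ (1 / p)) ^ p = ∑ k, ‖Z k - c0‖ ^ p := by
    rw [← Real.rpow_mul (hT c0), one_div_mul_cancel hp0.ne', Real.rpow_one]
    push_cast
    have : ((m : ℝ) + 1) ≠ 0 := by positivity
    field_simp
  rw [hinf]
  refine ⟨Real.rpow_nonneg (hT c0) _, ⟨c0, hval.symm⟩, fun c => ?_⟩
  rw [hval]
  exact hc0 c

end Pool.MP_c113aa_an.B1
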