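import Pool.Agent.Lib.c113aaP.An3
import Pool.Agent.Lib.c113aaP.Wes

set_option autoImplicit false

namespace Pool.MP_c113aa_an.B1

open Finset

/-- Tail bound.  `m = |U|`, `λ₀ = N/C ≥ 19/10`.  `one_sub_le_far` with `x₁ = 1`:
`∏_{j ∉ U} ‖1 - x b_j‖ ≤ exp((x/C) ((11/12) ∑_{j ∉ U} X_j - (N - m)))`,
`∑_{j ∉ U} X_j ≤ N - (1-η) C m` (`card_UU_le`, `h.sum_le`), so the exponent is at most
`- x λ₀/12 - x m ((11/12)(1-η) - 1/C) ≤ - x λ₀/12 - x m/2` (`η ≤ 1/10`, `C ≥ 10`); and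
`‖1 - t x‖^m ≤ (1+x)^m ≤ exp(m x/2)` for `x ≥ 3` (`log(1+x) ≤ x/2`).  Finally `λ₀/12 ≥ 1/8`... as
`19/120 ≥ 1/8`. -/
theorem Dat.tail_le {N : ℕ} {b : Fin N → ℂ} {C η : ℝ} (h : Dat N b C) (hη1 : η ≤ 1 / 10)
    (hC : 10 ≤ C) (hN : 19 / 10 * C ≤ N) {x : ℝ} (hx : 3 ≤ x) (hxC : x ≤ C) (t : ℂ)
    (ht : ‖t‖ ≤ 1) :
    ‖(1 - t * (x : ℂ)) ^ (UU b C η).card * ∏ j ∈ (UU b C η)ᶜ, (1 - (x : ℂ) * b j)‖
      ≤ Real.exp (-(x / 8)) := by
  have hCpos : 0 < C := by linarith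
  have hx0 : 0 < x := by linarith
  set U := UU b C η with hU
  set m : ℝ := (U.card : ℝ) with hm
  have hm0 : 0 ≤ m := Nat.cast_nonneg _
  set L : ℝ := x / C with hL
  have hL0 : 0 < L := div_pos hx0 hCpos
  have hLC : L * C = x := by rw [hL]; field_simp
  have hfac : ∀ j, ‖1 - (x : ℂ) * b j‖ ≤
      Real.exp (L * ((1 - 1 / 12) * ‖(b j)⁻¹ - (C : ℂ)‖ - 1)) := fun j =>
    one_sub_le_far (by linarith) one_pos le_rfl (by linarith) hxC (b j) (h.ne j) (h.le_one j)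
  have hprod : ∏ j ∈ Uᶜ, ‖1 - (x : ℂ) * b j‖ ≤
      Real.exp (∑ j ∈ Uᶜ, L * ((1 - 1 / 12) * ‖(b j)⁻¹ - (C : ℂ)‖ - 1)) := by
    rw [Real.exp_sum]
    exact prod_le_prod (fun j _ => norm_nonneg _) fun j _ => hfac j
  set S : ℝ := ∑ j ∈ Uᶜ, ‖(b j)⁻¹ - (C : ℂ)‖ with hS
  have hcard : ((Uᶜ).card : ℝ) = N - m := by
    have := Finset.card_add_card_compl U
    rw [Fintype.card_fin] at this
    have h2 : ((U.card : ℕ) : ℝ) + ((Uᶜ).card : ℝ) = (N : ℝ) := by exact_mod_cast this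
    rw [hm]
    linarith
  have hE : ∑ j ∈ Uᶜ, L * ((1 - 1 / 12) * ‖(b j)⁻¹ - (C : ℂ)‖ - 1) =
      L * ((1 - 1 / 12) * S - (N - m)) := by
    rw [← Finset.mul_sum, Finset.sum_sub_distrib, ← Finset.mul_sum, Finset.sum_const,
      nsmul_eq_mul, hcard, mul_one]
  have hSle : S ≤ N - (1 - η) * C * m := by
    have h1 := h.card_UU_le (η := η)
    have h2 := h.sum_le
    have h3 := Finset.sum_add_sum_compl U (fun j => ‖(b j)⁻¹ - (C : ℂ)‖)
    rw [← hU] at h1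
    linarith
  have hexp : 1 + x ≤ Real.exp (x / 2) := by
    have e1 : Real.exp (x / 2) = Real.exp 1 * Real.exp (1 / 2) * Real.exp ((x - 3) / 2) := by
      rw [← Real.exp_add, ← Real.exp_add]
      congr 1
      ring
    have e2 := Real.exp_one_gt_d9
    have e3 : (1 : ℝ) / 2 + 1 ≤ Real.exp (1 / 2) := Real.add_one_le_exp _
    have e4 : (x - 3) / 2 + 1 ≤ Real.exp ((x - 3) / 2) := Real.add_one_le_exp _
    have e5 : (4 : ℝ) ≤ Real.exp 1 * Real.exp (1 / 2) := by nlinarith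
    have e6 : 4 * ((x - 3) / 2 + 1) ≤ Real.exp 1 * Real.exp (1 / 2) * Real.exp ((x - 3) / 2) :=
      mul_le_mul e5 e4 (by linarith) (by positivity)
    rw [e1]
    linarith
  have hfirst : ‖(1 - t * (x : ℂ)) ^ U.card‖ ≤ Real.exp (m * (x / 2)) := by
    rw [norm_pow, hm, Real.exp_nat_mul]
    refine pow_le_pow_left₀ (norm_nonneg _) ?_ _
    refine le_trans ?_ hexp
    calc ‖1 - t * (x : ℂ)‖ ≤ ‖(1 : ℂ)‖ + ‖t * (x : ℂ)‖ := norm_sub_le _ _
      _ ≤ 1 + x := by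
          rw [norm_one, norm_mul, Complex.norm_real, Real.norm_eq_abs, abs_of_pos hx0]
          have := mul_le_mul_of_nonneg_right ht hx0.le
          linarith
  rw [norm_mul, norm_prod]
  calc ‖(1 - t * (x : ℂ)) ^ U.card‖ * ∏ j ∈ Uᶜ, ‖1 - (x : ℂ) * b j‖
      ≤ Real.exp (m * (x / 2)) *
        Real.exp (∑ j ∈ Uᶜ, L * ((1 - 1 / 12) * ‖(b j)⁻¹ - (C : ℂ)‖ - 1)) :=
        mul_le_mul hfirst hprod (prod_nonneg fun j _ => norm_nonneg _) (Real.exp_pos _).le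
    _ = Real.exp (m * (x / 2) + L * ((1 - 1 / 12) * S - (N - m))) := by
        rw [← Real.exp_add, hE]
    _ ≤ Real.exp (-(x / 8)) := by
        rw [Real.exp_le_exp]
        have k1 : L * S ≤ L * (N - (1 - η) * C * m) := mul_le_mul_of_nonneg_left hSle hL0.le
        have k2 : L * (N - (1 - η) * C * m) = L * N - (1 - η) * (x * m) := by
          rw [← hLC]; ring
        have k3 : 19 / 10 * x ≤ L * N := by
          have := mul_le_mul_of_nonneg_left hN hL0.le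
          rw [← hLC]
          linarith
        have hxm : 0 ≤ x * m := mul_nonneg hx0.le hm0
        have k4 : L * m ≤ x * m / 10 := by
          have h10 : L ≤ x / 10 := by
            rw [hL]
            exact div_le_div_of_nonneg_left hx0.le (by norm_num) hC
          have := mul_le_mul_of_nonneg_right h10 hm0
          linarith
        have k5 : (9 / 10) * (x * m) ≤ (1 - η) * (x * m) :=
          mul_le_mul_of_nonneg_right (by linarith) hxm
        have k6 : m * (x / 2) + L * ((1 - 1 / 12) * S - (N - m)) =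
            x * m / 2 + (11 / 12) * (L * S) - L * N + L * m := by ring
        rw [k6]
        linarith

end Pool.MP_c113aa_an.B1
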