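import Mathlib

set_option autoImplicit false

namespace Pool.MP_c113aa_an.B1

open Finset Polynomial

private theorem Wal_normsq {a t u : ℂ} {κ : ℝ} (h : a * u = t * u - κ) :
    ‖a‖ ^ 2 * ‖u‖ ^ 2 = ‖t‖ ^ 2 * ‖u‖ ^ 2 - 2 * κ * (t * u).re + κ ^ 2 := by
  have h1 : ‖a * u‖ ^ 2 = ‖t * u - κ‖ ^ 2 := by rw [h]
  rw [norm_mul, mul_pow] at h1
  rw [h1, ← mul_pow, ← norm_mul]
  rw [Complex.sq_norm, Complex.sq_norm, Complex.normSq_apply, Complex.normSq_apply]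
  simp only [Complex.sub_re, Complex.sub_im, Complex.ofReal_re, Complex.ofReal_im]
  ring

/-- Laguerre's theorem for a disc: if `p` has degree at most `d + 1` and no zero in the closed disc of
radius `r`, then for `‖ξ‖ ≤ r` the polynomial `p(t) + (ξ - t) p'(t)/(d+1)` has no zero there.
Proof: fix `t`, `‖t‖ ≤ r`.  `p = a ∏_{i} (X - z_i)` over the roots (m = number of roots ≤ d + 1, `‖z_i‖ > r`), so
`p'(t)/p(t) = ∑ u_i`, `u_i = 1/(t - z_i)`.  `Q(u) = (r^2 - ‖t‖^2) ‖u‖^2 + 2 Re(t u) - 1` is convex in `u`,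
`Q(u_i) < 0` (it is `(‖z_i‖^2 > r^2)` multiplied by `‖u_i‖^2`, because `z_i = t - 1/u_i`), `Q(0) < 0`.  Let
`ū = (1/(d+1)) ∑ u_i` (a convex combination of the `u_i` and 0): `Q(ū) < 0`.  If
`p(t) + (ξ - t) p'(t)/(d+1) = 0` then `1 + (ξ - t) ū = 0`, so `ū ≠ 0`, `ξ = t - 1/ū` and `Q(ū) < 0` says
`‖ξ‖ > r`, a contradiction. -/
theorem laguerre {d : ℕ} {r : ℝ} (hr : 0 ≤ r) (p : ℂ[X]) (hdeg : p.natDegree ≤ d + 1)
    (hp : ∀ t : ℂ, ‖t‖ ≤ r → p.eval t ≠ 0) (ξ : ℂ) (hξ : ‖ξ‖ ≤ r) (t : ℂ) (ht : ‖t‖ ≤ r) :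
    p.eval t + (ξ - t) * (derivative p).eval t / ((d : ℂ) + 1) ≠ 0 := by
  intro hzero
  have hpt := hp t ht
  have hp0 : p ≠ 0 := by
    rintro rfl
    exact hpt (by simp)
  set U : Multiset ℂ := p.roots.map (fun z => 1 / (t - z)) with hU
  have hlog : (derivative p).eval t / p.eval t = U.sum :=
    (IsAlgClosed.splits p).eval_derivative_div_eval_of_ne_zero hpt
  have hcard : Multiset.card U ≤ d + 1 := by
    rw [hU, Multiset.card_map]
    exact (Polynomial.card_roots' p).trans hdeg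
  have hUmem : ∀ u ∈ U, (r ^ 2 - ‖t‖ ^ 2) * ‖u‖ ^ 2 + 2 * (t * u).re < 1 := by
    intro u hu
    rw [hU, Multiset.mem_map] at hu
    obtain ⟨z, hz, rfl⟩ := hu
    have hzr : p.eval z = 0 := (Polynomial.mem_roots hp0).1 hz
    have hz1 : r < ‖z‖ := by
      by_contra hcon
      exact hp z (not_lt.1 hcon) hzr
    have htz : t - z ≠ 0 := by
      intro h0
      have : t = z := sub_eq_zero.1 h0
      rw [this] at hpt
      exact hpt hzr
    have hu : z * (1 / (t - z)) = t * (1 / (t - z)) - ((1 : ℝ) : ℂ) := by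
      field_simp
      push_cast
      ring
    have h1 := Wal_normsq hu
    have hu0 : 0 < ‖1 / (t - z)‖ := norm_pos_iff.2 (by simpa using htz)
    have h2 : r ^ 2 < ‖z‖ ^ 2 := by
      have := norm_nonneg z
      nlinarith
    have h3 : r ^ 2 * ‖1 / (t - z)‖ ^ 2 < ‖z‖ ^ 2 * ‖1 / (t - z)‖ ^ 2 :=
      mul_lt_mul_of_pos_right h2 (by positivity)
    nlinarith
  have hA : 0 ≤ r ^ 2 - ‖t‖ ^ 2 := by
    have := norm_nonneg t
    nlinarith
  -- the sum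
  set S : ℂ := U.sum with hS
  have hSsum : S = ∑ x : U, (x : ℂ) := by rw [hS, Multiset.sum_eq_sum_coe]
  have hk : (0 : ℝ) < (d : ℝ) + 1 := by positivity
  have hkC : ((d : ℂ) + 1) ≠ 0 := by exact_mod_cast (Nat.succ_ne_zero d)
  have hrel : (ξ - t) * S = -(((d : ℝ) + 1 : ℝ) : ℂ) := by
    rw [← hlog]
    have h1 : p.eval t * ((d : ℂ) + 1) + (ξ - t) * (derivative p).eval t = 0 := by
      have h2 := congrArg (fun x => x * ((d : ℂ) + 1)) hzero
      simp only [zero_mul] at h2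
      rw [← h2]
      field_simp
    have h3 : (ξ - t) * (derivative p).eval t = -(p.eval t * ((d : ℂ) + 1)) := by
      linear_combination h1
    rw [← mul_div_assoc, h3]
    push_cast
    field_simp
  have hS0 : S ≠ 0 := by
    intro h0
    rw [h0, mul_zero] at hrel
    have : (((d : ℝ) + 1 : ℝ) : ℂ) = 0 := by linear_combination hrel
    rw [Complex.ofReal_eq_zero] at this
    linarith
  have hne : Nonempty U := by
    by_contra hcon
    rw [not_nonempty_iff] at hcon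
    apply hS0
    rw [hSsum]
    exact Finset.sum_of_isEmpty _
  have h4 : ξ * S = t * S - (((d : ℝ) + 1 : ℝ) : ℂ) := by linear_combination hrel
  have h5 := Wal_normsq h4
  have h6 : ‖ξ‖ ^ 2 * ‖S‖ ^ 2 ≤ r ^ 2 * ‖S‖ ^ 2 := by
    apply mul_le_mul_of_nonneg_right _ (by positivity)
    exact pow_le_pow_left₀ (norm_nonneg _) hξ 2
  -- the norm of the sum
  have hm : (Fintype.card U : ℝ) ≤ (d : ℝ) + 1 := by
    rw [Multiset.card_coe]
    exact_mod_cast hcard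
  have hsq : ‖S‖ ^ 2 ≤ ((d : ℝ) + 1) * ∑ x : U, ‖(x : ℂ)‖ ^ 2 := by
    have h7 : ‖S‖ ≤ ∑ x : U, ‖(x : ℂ)‖ := by rw [hSsum]; exact norm_sum_le _ _
    have h8 : (∑ x : U, ‖(x : ℂ)‖) ^ 2 ≤ (Finset.univ : Finset U).card * ∑ x : U, ‖(x : ℂ)‖ ^ 2 :=
      sq_sum_le_card_mul_sum_sq
    rw [Finset.card_univ] at h8
    calc ‖S‖ ^ 2 ≤ (∑ x : U, ‖(x : ℂ)‖) ^ 2 := pow_le_pow_left₀ (norm_nonneg _) h7 2
      _ ≤ _ := h8
      _ ≤ _ := mul_le_mul_of_nonneg_right hm (Finset.sum_nonneg fun x _ => by positivity)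
  have hre : (t * S).re = ∑ x : U, (t * (x : ℂ)).re := by
    rw [hSsum, Finset.mul_sum, Complex.re_sum]
  have hlt : ∑ x : U, ((r ^ 2 - ‖t‖ ^ 2) * ‖(x : ℂ)‖ ^ 2 + 2 * (t * (x : ℂ)).re)
      < ∑ _x : U, (1 : ℝ) :=
    Finset.sum_lt_sum_of_nonempty Finset.univ_nonempty
      (fun x _ => hUmem _ (Multiset.coe_mem (x := x)))
  have h9 : ∑ x : U, ((r ^ 2 - ‖t‖ ^ 2) * ‖(x : ℂ)‖ ^ 2 + 2 * (t * (x : ℂ)).re)
      = (r ^ 2 - ‖t‖ ^ 2) * ∑ x : U, ‖(x : ℂ)‖ ^ 2 + 2 * (t * S).re := by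
    rw [hre, Finset.sum_add_distrib, Finset.mul_sum, Finset.mul_sum]
  have h10 : ∑ _x : U, (1 : ℝ) ≤ (d : ℝ) + 1 := by
    simpa using hm
  rw [h9] at hlt
  have h11 : (r ^ 2 - ‖t‖ ^ 2) * ‖S‖ ^ 2 ≤
      (r ^ 2 - ‖t‖ ^ 2) * (((d : ℝ) + 1) * ∑ x : U, ‖(x : ℂ)‖ ^ 2) :=
    mul_le_mul_of_nonneg_left hsq hA
  have h12 : ((d : ℝ) + 1) * ((r ^ 2 - ‖t‖ ^ 2) * ∑ x : U, ‖(x : ℂ)‖ ^ 2 + 2 * (t * S).re)
      < ((d : ℝ) + 1) * ((d : ℝ) + 1) :=
    mul_lt_mul_of_pos_left (lt_of_lt_of_le hlt h10) hk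
  nlinarith

private theorem Wal_expand (Λ : ℂ[X] →ₗ[ℂ] ℂ) (m : ℕ) (t : ℂ) :
    Λ ((1 - Polynomial.C t * X) ^ m)
      = ∑ k ∈ range (m + 1), (m.choose k : ℂ) * (-1) ^ k * Λ (X ^ k) * t ^ k := by
  have h : (1 - Polynomial.C t * X : ℂ[X]) = -(Polynomial.C t * X) + 1 := by ring
  rw [h, add_pow, map_sum]
  refine Finset.sum_congr rfl fun k _ => ?_
  have h1 : (-(Polynomial.C t * X : ℂ[X])) ^ k * 1 ^ (m - k) * (m.choose k : ℂ[X])
      = ((m.choose k : ℂ) * (-1) ^ k * t ^ k) • (X ^ k : ℂ[X]) := by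
    rw [Polynomial.smul_eq_C_mul]
    simp only [map_mul, map_pow, map_neg, map_one, map_natCast]
    rw [neg_pow, mul_pow]
    ring
  rw [h1, map_smul, smul_eq_mul]
  ring

/-- The polynomial `t ↦ Λ ((1 - t X) ^ m)`. -/
private noncomputable def Wal_poly (Λ : ℂ[X] →ₗ[ℂ] ℂ) (m : ℕ) : ℂ[X] :=
  ∑ k ∈ range (m + 1), monomial k ((m.choose k : ℂ) * (-1) ^ k * Λ (X ^ k))

private theorem Wal_poly_eval (Λ : ℂ[X] →ₗ[ℂ] ℂ) (m : ℕ) (t : ℂ) :
    (Wal_poly Λ m).eval t = Λ ((1 - Polynomial.C t * X) ^ m) := by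
  rw [Wal_expand, Wal_poly, Polynomial.eval_finsetSum]
  refine Finset.sum_congr rfl fun k _ => ?_
  rw [Polynomial.eval_monomial]

private theorem Wal_poly_deg (Λ : ℂ[X] →ₗ[ℂ] ℂ) (m : ℕ) : (Wal_poly Λ m).natDegree ≤ m := by
  unfold Wal_poly
  refine Polynomial.natDegree_sum_le_of_forall_le _ _ fun k hk => ?_
  exact (Polynomial.natDegree_monomial_le _).trans (by rw [Finset.mem_range] at hk; omega)

/-- Multiplication by a fixed polynomial inside a functional. -/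
private noncomputable def Wal_mul (Λ : ℂ[X] →ₗ[ℂ] ℂ) (q : ℂ[X]) : ℂ[X] →ₗ[ℂ] ℂ :=
  Λ.comp (LinearMap.mulRight ℂ q)

private theorem Wal_mul_apply (Λ : ℂ[X] →ₗ[ℂ] ℂ) (q P : ℂ[X]) : Wal_mul Λ q P = Λ (P * q) := rfl

private theorem Wal_poly_der (Λ : ℂ[X] →ₗ[ℂ] ℂ) (d : ℕ) (t : ℂ) :
    (derivative (Wal_poly Λ (d + 1))).eval t
      = -((d : ℂ) + 1) * Λ ((1 - Polynomial.C t * X) ^ d * X) := by
  rw [← Wal_mul_apply, Wal_expand, Wal_poly, Polynomial.derivative_sum, Polynomial.eval_finsetSum,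
    Finset.sum_range_succ', Finset.mul_sum]
  simp only [Polynomial.derivative_monomial, Polynomial.eval_monomial, Nat.cast_zero, mul_zero,
    zero_mul, add_zero, Nat.add_sub_cancel]
  refine Finset.sum_congr rfl fun k _ => ?_
  rw [Wal_mul_apply, ← pow_succ]
  have h := Nat.add_one_mul_choose_eq d k
  have h' : ((d : ℂ) + 1) * (d.choose k : ℂ) = ((d + 1).choose (k + 1) : ℂ) * ((k : ℂ) + 1) := by
    exact_mod_cast h
  push_cast
  linear_combination (-(-1) ^ (k + 1) * Λ (X ^ (k + 1)) * t ^ k) * h'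

private theorem Wal_claim {ι : Type} [DecidableEq ι] (b : ι → ℂ) {r : ℝ} (hr : 0 ≤ r)
    (s : Finset ι) : ∀ (Λ : ℂ[X] →ₗ[ℂ] ℂ), (∀ j ∈ s, ‖b j‖ ≤ r) →
      (∀ t : ℂ, ‖t‖ ≤ r → Λ ((1 - Polynomial.C t * X) ^ s.card) ≠ 0) →
      Λ (∏ j ∈ s, (1 - Polynomial.C (b j) * X)) ≠ 0 := by
  induction s using Finset.induction_on with
  | empty =>
    intro Λ _ h
    have := h 0 (by simpa using hr)
    simpa using this
  | insert i s hi ih =>
    intro Λ hb h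
    rw [Finset.card_insert_of_notMem hi] at h
    have hbi : ‖b i‖ ≤ r := hb i (Finset.mem_insert_self i s)
    have hmain := ih (Wal_mul Λ (1 - Polynomial.C (b i) * X))
      (fun j hj => hb j (Finset.mem_insert_of_mem hj)) ?_
    · rw [Wal_mul_apply] at hmain
      rw [Finset.prod_insert hi, mul_comm]
      exact hmain
    · intro t ht
      have hlag := laguerre (d := s.card) hr (Wal_poly Λ (s.card + 1)) (Wal_poly_deg _ _)
        (fun τ hτ => by rw [Wal_poly_eval]; exact h τ hτ) (b i) hbi t ht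
      rw [Wal_poly_eval, Wal_poly_der] at hlag
      intro h0
      apply hlag
      rw [Wal_mul_apply] at h0
      have e1 : ((1 - Polynomial.C t * X : ℂ[X]) ^ s.card * (1 - Polynomial.C (b i) * X))
          = (1 - Polynomial.C t * X) ^ (s.card + 1)
            - (b i - t) • ((1 - Polynomial.C t * X) ^ s.card * X) := by
        rw [Polynomial.smul_eq_C_mul, map_sub]
        ring
      rw [e1, map_sub, map_smul, smul_eq_mul] at h0
      have hkC : ((s.card : ℂ) + 1) ≠ 0 := by exact_mod_cast (Nat.succ_ne_zero s.card)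
      field_simp
      linear_combination h0

/-- The Walsh coincidence theorem for a disc, in terms of a linear functional.
Claim (induction on `s.card`): if `Λ ((1 - C t * X)^s.card) ≠ 0` for all `‖t‖ ≤ r` then
`Λ (∏ (1 - C (b j) X)) ≠ 0`.  Step from `d` to `d+1` (insert `i`, `ξ = b i`): put
`Λ' P = Λ (P * (1 - C ξ * X))` and `p = ∑_k (d+1 choose k) Λ(X^k) (-1)^k X^k`, so
`p.eval t = Λ ((1 - C t X)^(d+1))`; `p'(t) = Λ (-(d+1) X (1 - C t X)^d)` and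
`1 - ξ X = (1 - t X) - (ξ - t) X` give `Λ' ((1 - C t X)^d) = p(t) + (ξ - t) p'(t)/(d+1) ≠ 0` by `laguerre`.
Then apply the claim to `P ↦ Λ P - ζ P(0)` with `ζ = Λ (∏ (1 - C (b j) X))` (all polynomials here have
`P(0) = 1`). -/
theorem walsh (Λ : ℂ[X] →ₗ[ℂ] ℂ) {ι : Type} [DecidableEq ι] (s : Finset ι) (b : ι → ℂ) {r : ℝ}
    (hr : 0 ≤ r) (hb : ∀ j ∈ s, ‖b j‖ ≤ r) :
    ∃ t : ℂ, ‖t‖ ≤ r ∧
      Λ (∏ j ∈ s, (1 - Polynomial.C (b j) * X)) = Λ ((1 - Polynomial.C t * X) ^ s.card) := by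
  by_contra hcon
  push Not at hcon
  set ζ : ℂ := Λ (∏ j ∈ s, (1 - Polynomial.C (b j) * X)) with hζ
  have h := Wal_claim b hr s (Λ - ζ • (Polynomial.leval (0 : ℂ))) hb ?_
  · apply h
    simp only [LinearMap.sub_apply, LinearMap.smul_apply, Polynomial.leval_apply, smul_eq_mul]
    rw [Polynomial.eval_prod]
    simp [hζ]
  · intro t ht h0
    simp only [LinearMap.sub_apply, LinearMap.smul_apply, Polynomial.leval_apply, smul_eq_mul] at h0
    apply hcon t ht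
    rw [Polynomial.eval_pow] at h0
    simp only [Polynomial.eval_sub, Polynomial.eval_one, Polynomial.eval_mul, Polynomial.eval_C,
      Polynomial.eval_X, mul_zero, sub_zero, one_pow, mul_one] at h0
    exact (sub_eq_zero.1 h0).symm

end Pool.MP_c113aa_an.B1
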